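import Pool.Agent.helper61.CSW.Base
import Pool.Agent.helper61.CSW.PP.SpecA
import Pool.Agent.helper61.CSW.Exports

/-!
# Project xp: (MP_af9036_an): part S: the chain step for a general quadratic differential `B`

ef: (exponential family) copy; `R` is a dummy parameter, `n = 2`. Paper: helper60 (/team-store/MP_af9036_XP_helper60.md); this is section 4 of /team-store/MP_af9036_V3_notes.md for a general function `B`, holomorphic off a finite set `P` with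
`f(P) ⊆ P`, with the energy inequality as a hypothesis. `k` is only the number of levels (no cycle).

RULES. File `Pool/Agent/<seat>/XP/XX.lean`: `import Pool.Agent.helper54.XP.SpecS`, `set_option autoImplicit false`,
`open Complex Metric Set Filter Topology MeasureTheory`, `open YPPS (fd fdd pre TT CV Br cn)`, `open MPS (PsiM)`, `noncomputable section`, `namespace XPS`, `theorem XX (h : YY_stmt) ... : XX_stmt`.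
Hypotheses may be: other statements of this file (no circles), and all statements of `PPS`, `MPS` (proved). Auxiliary lemmas prefixed `XX_`. No `sorry`, no double quotes in comments.
EVERY MODULE IS A COPY of an existing file (named in the docstring): replace `b g` by `B` (in `IsNat`, `LevSys`, `SU3`, `H3` by `P B`), `(b g : ZMod k → ℂ)` by `(P : Set ℂ) (B : ℂ → ℂ)`,
`BB b g z` by `B z`, drop `[NeZero k]`; `∀ j, z ≠ b j` is now `z ∉ P`.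
-/

set_option autoImplicit false

open Complex Metric Set Filter Topology MeasureTheory
open YPPS (fd fdd pre TT CV Br cn)
open MPS (PsiM)

noncomputable section

open CSS (SE)

namespace YXPS

/-- `B` is an abstract differential: holomorphic off the finite forward invariant set `P`. -/
structure AD (f : SE) (P : Set ℂ) (B : ℂ → ℂ) : Prop where
  deg : 1 ≤ f.natDegree
  fin : P.Finite
  inv : ∀ z ∈ P, f.eval z ∈ P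
  dif : DifferentiableOn ℂ B Pᶜ
  /-- integrable near infinity: the sums over the preimages converge. -/
  dec : YPPS.DC B

/-- the error term `B - T B`. -/
def er (f : SE) (B : ℂ → ℂ) (z : ℂ) : ℂ := B z - TT f B z

/-- the deficit `T|B| - |TB|`. -/
def Df (f : SE) (B : ℂ → ℂ) (z : ℂ) : ℝ :=
  (∑' y : pre f z, ‖B y‖ / ‖fd f y‖ ^ 2) - ‖TT f B z‖

/-- the density of `deficit + 2 |e|`, pulled back by `G`. -/
def dens (f : SE) (B : ℂ → ℂ) (G : ℂ → ℂ) (w : ℂ) : ℝ :=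
  (Df f B (G w) + 2 * ‖er f B (G w)‖) * ‖deriv G w‖ ^ 2

/-- branch value over `w` given by a preimage `y` of `G w` under `f`. -/
def brv (f : SE) (B : ℂ → ℂ) (G : ℂ → ℂ) (w y : ℂ) : ℂ := (deriv G w / fd f y) ^ 2 * B y

/-- a system of levels `0..Q` over a natural map. -/
structure LevSys (f : SE) (P : Set ℂ) (B : ℂ → ℂ) (G : ℕ → ℂ → ℂ) (Ω : Set ℂ) (Q : ℕ) : Prop where
  nat0 : IsNat P B (G 0) Ω
  diff : ∀ q ≤ Q, DifferentiableOn ℂ (G q) Ω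
  rel : ∀ q < Q, ∀ w ∈ Ω, f.eval (G (q + 1) w) = G q w ∧ fd f (G (q + 1) w) ≠ 0

/-! ## The general lemmas -/

/-- LEAX: avoidance of `P`, holomorphy (copy of helper36/PP/LEA.lean). -/
def LEAX_stmt : Prop := ∀ (f : SE) (P : Set ℂ) (B : ℂ → ℂ) (G : ℕ → ℂ → ℂ)
  (Ω : Set ℂ) (Q : ℕ), AD f P B → IsOpen Ω → LevSys f P B G Ω Q →
  (∀ q ≤ Q, ∀ w ∈ Ω, G q w ∉ P) ∧
  (∀ q ≤ Q, ∀ w ∈ Ω, ∀ y : ℂ, f.eval y = G q w → y ∉ P) ∧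
  (∀ q ≤ Q, DifferentiableOn ℂ (tau B G q) Ω) ∧
  (∀ q < Q, ∀ w ∈ Ω, deriv (G q) w = fd f (G (q + 1) w) * deriv (G (q + 1)) w) ∧
  (∀ q ≤ Q, ∀ w ∈ Ω, deriv (G q) w ≠ 0)

/-- LEIX: the identities between the level functions (copy of helper36/PP/LEI.lean). -/
def LEIX_stmt : Prop := ∀ (f : SE) (P : Set ℂ) (B : ℂ → ℂ) (G : ℕ → ℂ → ℂ)
  (Ω : Set ℂ) (Q : ℕ), AD f P B → IsOpen Ω → LevSys f P B G Ω Q →
  (∀ w ∈ Ω, tau B G 0 w = 1) ∧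
  (∀ q < Q, ∀ w ∈ Ω, G (q + 1) w ∈ pre f (G q w) ∧
    brv f B (G q) w (G (q + 1) w) = tau B G (q + 1) w) ∧
  (∀ q ≤ Q, ∀ w ∈ Ω, Summable fun y : pre f (G q w) => ‖brv f B (G q) w y‖) ∧
  (∀ q ≤ Q, ∀ w ∈ Ω, tau B G q w = (∑' y : pre f (G q w), brv f B (G q) w y) +
    deriv (G q) w ^ 2 * er f B (G q w)) ∧
  (∀ q ≤ Q, ∀ w ∈ Ω, Df f B (G q w) * ‖deriv (G q) w‖ ^ 2 =
    (∑' y : pre f (G q w), ‖brv f B (G q) w y‖) -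
      ‖tau B G q w - deriv (G q) w ^ 2 * er f B (G q w)‖)

/-- MIX: measurability, positivity of the deficit (copy of helper69/PP/MI.lean; `B` is continuous on the open set `Pᶜ` and `P` is finite, so `B` is measurable). -/
def MIX_stmt : Prop := ∀ (f : SE) (P : Set ℂ) (B : ℂ → ℂ), AD f P B →
  Measurable B ∧ Measurable (TT f B) ∧ Measurable (er f B) ∧ Measurable (Df f B) ∧ ∀ z, 0 ≤ Df f B z

/-- LVX: the deficit inequalities (copy of helper36/PP/LV.lean). -/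
def LVX_stmt : Prop := ∀ (f : SE) (P : Set ℂ) (B : ℂ → ℂ) (G : ℕ → ℂ → ℂ)
  (Ω : Set ℂ) (Q : ℕ), AD f P B → IsOpen Ω → LevSys f P B G Ω Q →
  (∀ Q' ≤ Q, ∀ w ∈ Ω, (‖tau B G Q' w‖ - (tau B G Q' w).re) + ∑ q ∈ Finset.range Q',
      (lev B G (q + 1) w - (tau B G q w - tau B G (q + 1) w).re) ≤
    ∑ q ∈ Finset.range Q', dens f B (G q) w) ∧
  (∀ Q' ≤ Q, ∀ w ∈ Ω,
    ∑' y : pre f (G Q' w), (‖brv f B (G Q') w y‖ - (brv f B (G Q') w y).re) ≤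
      ∑ q ∈ Finset.range (Q' + 1), dens f B (G q) w) ∧
  (∀ (q : ℕ) (w : ℂ), 0 ≤ dens f B (G q) w ∧
    2 * (‖er f B (G q w)‖ * ‖deriv (G q) w‖ ^ 2) ≤ dens f B (G q) w) ∧
  (∀ q ≤ Q, ∀ w ∈ Ω, ‖tau B G q w - 1‖ ≤ ∑ p ∈ Finset.Icc 1 q, lev B G p w) ∧
  (∀ q < Q, ∀ w ∈ Ω,
    ∑' y : ((pre f (G q w) \ {G (q + 1) w} : Set ℂ)), ‖brv f B (G q) w y‖ ≤
      ∑ q' ∈ Finset.range (q + 1), dens f B (G q') w + (tau B G q w - tau B G (q + 1) w).re +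
        ‖er f B (G q w)‖ * ‖deriv (G q) w‖ ^ 2)

/-- LVG: the same for levels over an arbitrary map `G 0` (not natural), pointwise and without any hypothesis on `B`.
PROOF. Fix `w`. `deriv (G q) w = fd f (G (q+1) w) * deriv (G (q+1)) w` (chain rule; `f (G (q+1)) = G q` near `w`). So `τ_{q+1} = brv f B (G q) w (G (q+1) w)`, one of the terms of the sum over `pre f (G q w)` (PRB; `Multiset.cons_erase`). With `E = G_q'² er(G_q)`: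
`τ_q - τ_{q+1} = ∑_{others} brv + E`, `∑_{others} ‖brv‖ = Df‖G_q'‖² + ‖τ_q - E‖ - ‖τ_{q+1}‖`, so `lev (q+1) ≤ ∑_{others} ‖brv‖ + ‖E‖ ≤ Df‖G_q'‖² + 2‖E‖ + ‖τ_q‖ - ‖τ_{q+1}‖ = dens + ‖τ_q‖ - ‖τ_{q+1}‖`; add up. Compare the proof of LV (helper36/PP/LV.lean, LEI.lean).
Second claim: `‖τ_0 - τ_Q‖ ≤ ∑ lev` and `‖τ_0‖ = re (u τ_0)`, `re (u τ_Q) ≤ ‖τ_Q‖`. -/
def LVG_stmt : Prop := ∀ (f : SE) (B : ℂ → ℂ) (G : ℕ → ℂ → ℂ) (Ω : Set ℂ) (Q : ℕ),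
  1 ≤ f.natDegree → (∀ z : ℂ, Summable fun y : pre f z => ‖B y‖ / ‖fd f y‖ ^ 2) → IsOpen Ω → (∀ q ≤ Q, DifferentiableOn ℂ (G q) Ω) →
  (∀ q < Q, ∀ w ∈ Ω, f.eval (G (q + 1) w) = G q w ∧ fd f (G (q + 1) w) ≠ 0) → ∀ w ∈ Ω,
  (∑ q ∈ Finset.Icc 1 Q, lev B G q w ≤
    ∑ q ∈ Finset.range Q, dens f B (G q) w + ‖tau B G 0 w‖ - ‖tau B G Q w‖) ∧
  (∀ u : ℂ, ‖u‖ = 1 → u * tau B G 0 w = (‖tau B G 0 w‖ : ℂ) →
    ‖tau B G 0 w - tau B G Q w‖ - (u * (tau B G 0 w - tau B G Q w)).re ≤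
      ∑ q ∈ Finset.range Q, dens f B (G q) w)

/-- MAX: sum of the pulled back densities over a family of injective maps with images of multiplicity at most `M` (first half of helper95/PP/MA.lean with `MPS.MA_cov`, `MPS.MA_mult`, `MPS.MA_meas` of helper74/MP/MA.lean; for the second
claim use `2‖er‖ ≤ Df + 2‖er‖` (MIX)). -/
def MAX_stmt : Prop := ∀ (f : SE) (P : Set ℂ) (B : ℂ → ℂ) (R E : ℝ), AD f P B →
  ∫⁻ z in (univ : Set ℂ), ENNReal.ofReal (Df f B z + 2 * ‖er f B z‖) ≤ ENNReal.ofReal E →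
  ∀ (Q M : ℕ) (Ω : ℕ → Set ℂ) (G : ℕ → ℂ → ℂ),
  (∀ q < Q, IsOpen (Ω q) ∧ DifferentiableOn ℂ (G q) (Ω q) ∧ InjOn (G q) (Ω q) ∧
    MapsTo (G q) (Ω q) univ) →
  (∀ z : ℂ, ∀ F : Finset ℕ, (∀ q ∈ F, q < Q ∧ z ∈ G q '' Ω q) → F.card ≤ M) →
  (∑ q ∈ Finset.range Q, ∫⁻ w in Ω q, ENNReal.ofReal (dens f B (G q) w) ≤ M * ENNReal.ofReal E) ∧
  (∑ q ∈ Finset.range Q, ∫⁻ w in Ω q, ENNReal.ofReal (‖er f B (G q w)‖ * ‖deriv (G q) w‖ ^ 2) ≤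
    M * ENNReal.ofReal E)

/-- EVTX: comparison of branches near a boundary point of the domain of a branch that has no local extension there (compare helper36/PP/EVT.lean, helper61/EF/XP/EVTX.lean, helper62/CF/WP/EVG.lean). -/
def EVTX_stmt : Prop := ∀ (n : ℕ) (f : SE) (P : Set ℂ) (B : ℂ → ℂ) (G h : ℂ → ℂ)
  (a ws : ℂ) (r d ν : ℝ), 2 ≤ n → f.natDegree = n → AD f P B → 0 < d → d ≤ r → 0 ≤ ν →
  ‖ws - a‖ = r → DifferentiableOn ℂ G (ball ws d) → InjOn G (ball ws d) →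
  (∀ w ∈ ball ws d, G w ∉ P) → DifferentiableOn ℂ h (ball a r) →
  (∀ w ∈ ball a r ∩ ball ws d, f.eval (h w) = G w ∧ fd f (h w) ≠ 0) → YPPS.NX f G h a r ws →
  ∫⁻ w in ball ws d, ENNReal.ofReal
    (∑' y : pre f (G w), (‖brv f B G w y‖ - (brv f B G w y).re)) ≤ ENNReal.ofReal ν →
  ∫⁻ w in ball ws d, ENNReal.ofReal (‖er f B (G w)‖ * ‖deriv G w‖ ^ 2) ≤ ENNReal.ofReal ν →
  ∃ t : ℝ, d / 4 ^ n ≤ t ∧ t ≤ d ∧ ∀ w₀ : ℂ, w₀ = ws + ((t / (2 * r) : ℝ) : ℂ) * (a - ws) →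
    ‖brv f B G w₀ (h w₀)‖ ≤ 4 ^ 21 * (‖deriv G w₀ ^ 2 * B (G w₀) - brv f B G w₀ (h w₀)‖ +
      100 * ν / t ^ 2)

/-! ## The chain step -/

/-- the setting of the chain step: an almost affine natural chart `χ` on `ball 0 (16 h)`, a tower `G0` of `k` levels on
`ball 0 r₀`, and the set `PP` of exceptional levels. -/
structure SU3 (n k : ℕ) (f : SE) (P : Set ℂ) (B : ℂ → ℂ) (R E η h r₀ : ℝ)
    (χ : ℂ → ℂ) (G0 : ℕ → ℂ → ℂ) (PP : Finset ℕ) (M : ℕ) : Prop where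
  hn : 2 ≤ n
  hdeg : f.natDegree = n
  ad : AD f P B
  E0 : 0 ≤ E
  hE : ∫⁻ z in (univ : Set ℂ), ENNReal.ofReal (Df f B z + 2 * ‖er f B z‖) ≤ ENNReal.ofReal E
  h0 : 0 < h
  h1 : h ≤ 1
  r0 : 0 < r₀
  r1 : r₀ ≤ h / 2
  nat : IsNat P B χ (ball 0 (16 * h))
  aff : ∀ w ∈ ball (0 : ℂ) (16 * h), ‖deriv χ w - deriv χ 0‖ ≤ ‖deriv χ 0‖ / 10
  mp : MapsTo χ (ball 0 h) univ
  t0 : EqOn (G0 0) χ (ball 0 r₀)
  tdiff : ∀ q ≤ k, DifferentiableOn ℂ (G0 q) (ball 0 r₀)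
  trel : ∀ q < k, ∀ w ∈ ball (0 : ℂ) r₀, f.eval (G0 (q + 1) w) = G0 q w ∧ fd f (G0 (q + 1) w) ≠ 0
  tlev : ∑ q ∈ Finset.Icc 1 k, lev B G0 q 0 ≤ η
  hPP : ∀ p, 1 ≤ p → p < k → p ∉ PP → 8 * h * ‖deriv χ 0‖ ≤ ‖G0 p 0 - χ 0‖
  hM : PP.card ≤ M

/-- a system of `Q` levels on the discs of radius `T q` about `0`. -/
structure Sys3 (f : SE) (h : ℝ) (χ : ℂ → ℂ) (G0 : ℕ → ℂ → ℂ) (PP : Finset ℕ) (T : ℕ → ℝ)
    (G : ℕ → ℂ → ℂ) (Q : ℕ) : Prop where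
  t0 : T 0 ≤ h
  anti : ∀ q, q < Q → T (q + 1) ≤ T q
  pos : ∀ q, q ≤ Q → 0 < T q
  g0 : G 0 = χ
  diff : ∀ q, q ≤ Q → DifferentiableOn ℂ (G q) (ball 0 (T q))
  rel : ∀ q, q < Q → ∀ w ∈ ball (0 : ℂ) (T (q + 1)),
    f.eval (G (q + 1) w) = G q w ∧ fd f (G (q + 1) w) ≠ 0
  val : ∀ q, q ≤ Q → G q 0 = G0 q 0
  disj : ∀ q, 1 ≤ q → q < Q → q ∉ PP → Disjoint (G q '' ball 0 (T (q + 1))) (χ '' ball 0 h)

/-- the standing assumptions for a system with `Q` levels. -/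
structure H3 (n k : ℕ) (f : SE) (P : Set ℂ) (B : ℂ → ℂ) (R E η h r₀ : ℝ) (χ : ℂ → ℂ)
    (G0 : ℕ → ℂ → ℂ) (PP : Finset ℕ) (M : ℕ) (T : ℕ → ℝ) (G : ℕ → ℂ → ℂ) (Q : ℕ) : Prop where
  su3 : SU3 n k f P B R E η h r₀ χ G0 PP M
  sys : Sys3 f h χ G0 PP T G Q
  hQ : Q ≤ k

/-- failure of the level `q` at the radius `r`. -/
def Fail3 (f : SE) (h : ℝ) (χ : ℂ → ℂ) (G0 : ℕ → ℂ → ℂ) (PP : Finset ℕ) (G : ℕ → ℂ → ℂ)
    (q : ℕ) (r : ℝ) : Prop :=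
  (1 ≤ q ∧ q ∉ PP ∧ ¬ Disjoint (G q '' ball 0 r) (χ '' ball 0 h)) ∨
    ¬ Br f (G q) (ball 0 r) 0 (G0 (q + 1) 0)

/-- S3G: geometry of the chart; numerical bounds of `e3`.
PROOF. `‖deriv χ w - deriv χ 0‖ ≤ s/10`, so by the mean value inequality on the convex ball `‖χ w - χ w' - deriv χ 0 (w - w')‖ ≤ (s/10) ‖w - w'‖`: injectivity (`s > 0` by `IsNat.eq`), and the bound of `‖χ w - χ 0‖`.
`d3 ≤ h/16`, `cn n ≥ 4^40`, so `e3 ≤ h²/(256 · 4^40)`. `0 ≤ η` because the terms of `tlev` are norms. -/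
def S3G_stmt : Prop := ∀ (n k : ℕ) (f : SE) (P : Set ℂ) (B : ℂ → ℂ)
  (R E η h r₀ : ℝ) (χ : ℂ → ℂ) (G0 : ℕ → ℂ → ℂ) (PP : Finset ℕ) (M : ℕ),
  SU3 n k f P B R E η h r₀ χ G0 PP M →
  0 < ‖deriv χ 0‖ ∧ InjOn χ (ball 0 (16 * h)) ∧
  (∀ w ∈ ball (0 : ℂ) (16 * h), ‖χ w - χ 0‖ ≤ 11 / 10 * ‖deriv χ 0‖ * ‖w‖) ∧
  0 ≤ η ∧ 0 ≤ eT M E η ∧ 0 < d3 n M h r₀ ∧ d3 n M h r₀ ≤ r₀ ∧ d3 n M h r₀ ≤ h / (16 * (M + 1) * n) ∧ 0 < e3 n M h r₀ ∧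
  e3 n M h r₀ ≤ h ^ 2 / 256

/-- S3A: structure of the system (compare P2A: helper51/PP/P2A.lean).
PROOF. (1) induction on `q`: on the ball `D (min r₀ (T (q+1)))` both `G (q+1)` and `G0 (q+1)` are branches of `f⁻¹` over `G q = G0 q`, equal at `0` (`val`): LUN.
Iterates: for `w ∈ D (T q)` the `q`-th iterate of `f` maps `G q w` to `χ w` (`anti`). (2) injectivity: S3G. (3) `SU3.inv` and `mp`. (4) nat0 from `SU3.nat`. (5) if `q < q'` and `G q w = G q' w'` (`w ∈ D (T (q+1))`, `w' ∈ D (T (q'+1))`), the `q`-th iterate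
gives `χ w = G (q'-q) w'`, so `q'-q ∈ PP` (`disj`); so for the minimum `q₀` of `F` the map `q ↦ q - q₀` is an injection of `F \ {q₀}` into `PP`. (6) the same with all radii equal to `r ≤ T Q`. (7) agreement near `0`, `tlev` (the terms are `≥ 0`). -/
def S3A_stmt : Prop := ∀ (n k : ℕ) (f : SE) (P : Set ℂ) (B : ℂ → ℂ)
  (R E η h r₀ : ℝ) (χ : ℂ → ℂ) (G0 : ℕ → ℂ → ℂ) (PP : Finset ℕ) (M : ℕ) (T : ℕ → ℝ)
  (G : ℕ → ℂ → ℂ) (Q : ℕ), H3 n k f P B R E η h r₀ χ G0 PP M T G Q →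
  (∀ q ≤ Q, EqOn (G q) (G0 q) (ball 0 (min r₀ (T q)))) ∧
  (∀ q ≤ Q, InjOn (G q) (ball 0 (T q))) ∧
  (∀ q ≤ Q, MapsTo (G q) (ball 0 (T q)) univ) ∧
  (∀ q ≤ Q, LevSys f P B G (ball 0 (T q)) q) ∧
  (∀ (z : ℂ) (F : Finset ℕ), (∀ q ∈ F, q < Q ∧ z ∈ G q '' ball 0 (T (q + 1))) → F.card ≤ M + 1) ∧
  (∀ r, r ≤ T Q → (1 ≤ Q → Q ∉ PP → Disjoint (G Q '' ball 0 r) (χ '' ball 0 h)) →
    ∀ (z : ℂ) (F : Finset ℕ), (∀ q ∈ F, q ≤ Q ∧ z ∈ G q '' ball 0 r) → F.card ≤ M + 1) ∧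
  (∑ q ∈ Finset.Icc 1 Q, lev B G q 0 ≤ η)

/-- S3L: the `L¹` bound (compare P2L: helper16/PP/P2L.lean).
PROOF. For `w ∈ D h` the levels `q ∈ Icc 1 Q` with `w ∈ D (T q)` form an initial segment; LV (1) there, so with `h_q = τ_{q-1} - τ_q`: `∑_q ∫_{D (T q)} (‖h_q‖ - re h_q) ≤ ∑_{q<Q} ∫_{D (T (q+1))} dens (G q) ≤ (M+1) E` (MA, S3A).
`MPS.HAR` (first claim, one function, centre `0`, radius `T q ≤ h ≤ 1`): `∫_{D (T q)} ‖h_q‖ ≤ ∫ (‖h_q‖ - re h_q) + π ‖h_q 0‖`; sum over `q` (S3A (7)): `≤ (M+1) E + π η ≤ eT M E η`. -/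
def S3L_stmt : Prop := ∀ (n k : ℕ) (f : SE) (P : Set ℂ) (B : ℂ → ℂ)
  (R E η h r₀ : ℝ) (χ : ℂ → ℂ) (G0 : ℕ → ℂ → ℂ) (PP : Finset ℕ) (M : ℕ) (T : ℕ → ℝ)
  (G : ℕ → ℂ → ℂ) (Q : ℕ), H3 n k f P B R E η h r₀ χ G0 PP M T G Q →
  ∑ q ∈ Finset.Icc 1 Q, ∫⁻ w in ball (0 : ℂ) (T q), ENNReal.ofReal (lev B G q w) ≤
    ENNReal.ofReal (eT M E η)

/-- MU3: the measure of layers (compare MU2: helper21/PP/MU2.lean): image under `w ↦ h - ‖w‖` of `∑_q` (volume on `D (T q)` with density `lev q`). -/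
def MU3_stmt : Prop := ∀ (n k : ℕ) (f : SE) (P : Set ℂ) (B : ℂ → ℂ)
  (R E η h r₀ : ℝ) (χ : ℂ → ℂ) (G0 : ℕ → ℂ → ℂ) (PP : Finset ℕ) (M : ℕ) (T : ℕ → ℝ)
  (G : ℕ → ℂ → ℂ) (Q : ℕ), H3 n k f P B R E η h r₀ χ G0 PP M T G Q →
  ∃ μ : Measure ℝ, μ univ ≤ ENNReal.ofReal (eT M E η) ∧ Mu3 B h T G Q μ

/-- PT3: pointwise bounds (compare PT2: helper75/PP/PT2.lean). PROOF. HSM on `ball w t` for the family `τ_{q-1} - τ_q`, S3L, `π ≥ 1`; LV (4). -/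
def PT3_stmt : Prop := ∀ (n k : ℕ) (f : SE) (P : Set ℂ) (B : ℂ → ℂ)
  (R E η h r₀ : ℝ) (χ : ℂ → ℂ) (G0 : ℕ → ℂ → ℂ) (PP : Finset ℕ) (M : ℕ) (T : ℕ → ℝ)
  (G : ℕ → ℂ → ℂ) (Q : ℕ), H3 n k f P B R E η h r₀ χ G0 PP M T G Q →
  ∀ p, 1 ≤ p → p ≤ Q → ∀ (w : ℂ) (t : ℝ), 0 < t → ‖w‖ + t ≤ T p →
    ∑ q ∈ Finset.Icc 1 p, lev B G q w ≤ eT M E η / t ^ 2 ∧
    ‖tau B G p w - 1‖ ≤ ∑ q ∈ Finset.Icc 1 p, lev B G q w

/-- REACH3 (compare REACH2: helper97/PP/REACH2.lean).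
PROOF. `w₁ ∈ D r`, `v₁ ∈ D h` with `G p w₁ = χ v₁`. `w₂` = `w₁` if `‖w₁‖ ≤ r - h/8`, else the point of the segment `[w₁, 0]` with `‖w₂‖ = r - h/8`. On `[w₂, 0]` PT3 with `t = h/8`: `‖τ_p - 1‖ ≤ 64 eT/h² ≤ 1/4`; its length is `≤ h`, so its
`‖τ‖^{1/2}`-length is `≤ 1.12 h`. The length of `[w₁,w₂]` is `≤ h/8 + ∫_{t₀}^{h/8} ‖τ_p - 1‖^{1/2} dt`, `t = r - ‖w‖`, and by `Mu3` with `s = h - r`: `‖τ_p - 1‖ ≤ (4/(π t²)) μ(Ioo (s+t/2) (s+3t/2))`, so the integral is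
`≤ PsiM μ (h/8) (h - r)`. If that is `< h` then the total length is `< 3h` and NPL twice (`χ` natural on `ball 0 (16h) ⊇ ball v₁ (3h)`; `G p` on `D (T p)`) gives `v₃`, `‖v₃ - v₁‖ < 3h`, `χ v₃ = G p 0 = G0 p 0`. So `‖G0 p 0 - χ 0‖ ≤ (11/10) s · 4h < 8 h s` (S3G),
contradiction to `hPP`. -/
def REACH3_stmt : Prop := ∀ (n k : ℕ) (f : SE) (P : Set ℂ) (B : ℂ → ℂ)
  (R E η h r₀ : ℝ) (χ : ℂ → ℂ) (G0 : ℕ → ℂ → ℂ) (PP : Finset ℕ) (M : ℕ) (T : ℕ → ℝ)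
  (G : ℕ → ℂ → ℂ) (Q : ℕ) (μ : Measure ℝ), H3 n k f P B R E η h r₀ χ G0 PP M T G Q →
  eT M E η ≤ e3 n M h r₀ → Mu3 B h T G Q μ → ∀ (p : ℕ) (r : ℝ), 1 ≤ p → p < k → p ≤ Q → p ∉ PP →
  3 * h / 4 ≤ r → r ≤ T p →
  ¬ Disjoint (G p '' ball 0 r) (χ '' ball 0 h) →
    ENNReal.ofReal h ≤ PsiM μ (h / 8) (h - r)

/-- EV3: the loss of radius at a singular value (compare EV2: helper60/PP/EV2.lean; the boundary point `ws` from BDY has no local extension, `NX`).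
PROOF. Suppose `d = d3 n M h r₀ ≤ r - T (Q+1)`. If `T (Q+1) < r₀` take `r'` with `T (Q+1) < r' ≤ min r r₀`: `G0 (Q+1)` is a branch over `G Q = G0 Q` on `D r'` (S3A (1), `trel`), contradiction. So `d ≤ r₀ ≤ T (Q+1)`. BDY with centre `0`, radius `T (Q+1)`, `r₁ = r`, `F = G Q`, `h = G (Q+1)`
(`G (Q+1) 0 = G0 (Q+1) 0`): `ws`, `ys`. EVT with `a = 0`, radius `T (Q+1)`, `G = G Q` on `ball ws d ⊆ D r` (injective: S3A; avoids the `b j`: LEA), `ν = (M+1) E ≤ eT`: LV (2), (3) for the system of `Q` levels and MA with `M + 1` (S3A (6), at the radius `r`).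
`t ∈ [d/4^n, d]`, `‖w₀‖ = T (Q+1) - t/2`; PT3 at the level `Q+1`, depth `t/2`: `∑ lev ≤ 4 eT/t²`. So `1 - 4 eT/t² ≤ 4^21 · 104 eT/t²`, while `t² ≥ d²/16^n` and `eT ≤ e3` give `eT/t² ≤ 4^{-40}`: contradiction. -/
def EV3_stmt : Prop := ∀ (n k : ℕ) (f : SE) (P : Set ℂ) (B : ℂ → ℂ)
  (R E η h r₀ : ℝ) (χ : ℂ → ℂ) (G0 : ℕ → ℂ → ℂ) (PP : Finset ℕ) (M : ℕ) (T : ℕ → ℝ)
  (G : ℕ → ℂ → ℂ) (Q : ℕ), H3 n k f P B R E η h r₀ χ G0 PP M T G (Q + 1) → eT M E η ≤ e3 n M h r₀ →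
  ∀ r : ℝ, r ≤ T Q →
  (1 ≤ Q → Q ∉ PP → Disjoint (G Q '' ball 0 r) (χ '' ball 0 h)) →
  (∀ r', T (Q + 1) < r' → r' ≤ r → ¬ Br f (G Q) (ball 0 r') 0 (G0 (Q + 1) 0)) →
  r < T (Q + 1) + d3 n M h r₀

/-- STEP3: one more level (compare STEP2: helper30/PP/STEP2.lean).
PROOF. `S = {r | 0 < r ≤ T Q, ¬ Fail3 .. Q r}` is not empty: for `r ≤ min r₀ (T Q)` the branch `G0 (Q+1)` over `G Q = G0 Q` (S3A (1)); if `1 ≤ Q`, `Q ∉ PP` then `‖G Q 0 - χ 0‖ ≥ 8 h s` (`hPP`, `Q < k`), every point of `χ '' D h` has distance `≤ 11 h s/10` from `χ 0` (S3G) and `G Q` is continuous at `0`: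
disjointness for small `r`. `t' = sSup S`; `¬ Fail3` at `t'`: union of smaller balls, branches agree (LUN). `g'` = the branch on `D t'`. -/
def STEP3_stmt : Prop := ∀ (n k : ℕ) (f : SE) (P : Set ℂ) (B : ℂ → ℂ)
  (R E η h r₀ : ℝ) (χ : ℂ → ℂ) (G0 : ℕ → ℂ → ℂ) (PP : Finset ℕ) (M : ℕ) (T : ℕ → ℝ)
  (G : ℕ → ℂ → ℂ) (Q : ℕ), H3 n k f P B R E η h r₀ χ G0 PP M T G Q → Q < k →
  ∃ (t' : ℝ) (g' : ℂ → ℂ),
    H3 n k f P B R E η h r₀ χ G0 PP M (Function.update T (Q + 1) t')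
      (Function.update G (Q + 1) g') (Q + 1) ∧
    ∀ r, t' < r → r < T Q → Fail3 f h χ G0 PP G Q r

/-- SEQ3: all levels. PROOF. Induction with STEP3, starting from `T 0 = h`, `G 0 = χ` (as SEQ2: helper19/PP/SEQ2.lean). -/
def SEQ3_stmt : Prop := ∀ (n k : ℕ) (f : SE) (P : Set ℂ) (B : ℂ → ℂ)
  (R E η h r₀ : ℝ) (χ : ℂ → ℂ) (G0 : ℕ → ℂ → ℂ) (PP : Finset ℕ) (M : ℕ),
  SU3 n k f P B R E η h r₀ χ G0 PP M →
  ∃ (T : ℕ → ℝ) (G : ℕ → ℂ → ℂ), H3 n k f P B R E η h r₀ χ G0 PP M T G k ∧ T 0 = h ∧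
    ∀ q < k, ∀ r, T (q + 1) < r → r < T q → Fail3 f h χ G0 PP G q r

/-- PH3: conclusion (compare PH2: helper16/PP/PH2.lean).
PROOF. SEQ3, MU3 (`Q = k`). Suppose `T k ≤ 3h/4`. Almost every `r ∈ (3h/4, h)` is in some `(T (q+1), T q)`, `q < k`. Either (i) `1 ≤ q`, `q ∉ PP` and not disjoint at `r`: REACH3: `PsiM μ (h/8) (h - r) ≥ h`; CHEB: measure `≤ 16 (h/8) eT/(π h²) ≤ h/16` (S3G: `eT ≤ e3 ≤ h²/256`).
Or (ii) `r ∈ J_q`: level `q` is good at `r` (disjoint, or `q = 0`, or `q ∈ PP`) and there is no branch at `r`. `J_q` is a down-set of `(max (T (q+1)) (3h/4), T q)`; YV3 (system with `q+1` levels; for `T (q+1) < r' ≤ r` the level is good at `r'`, so by Fail3 there is no branch):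
`r < T (q+1) + d3` for every `r ∈ J_q`, so `J_q` has measure `≤ d3`. If `r_q ∈ J_q` then by LIFT some critical value `v_q` is in `G q '' D r_q`. Every critical value occurs for at most `M + 1` of the `q`: for `q < q'` with `v_q = v_q' = G q w = G q' w'` the `q`-th iterate gives
`χ w = G (q'-q) w'`, `w' ∈ D r_q' ⊆ D (T (q'-q+1))` if `q ≥ 1` (`r_q' < T q' ≤ T (q'-q+1)`), so `disj` gives `q' - q ∈ PP`; for `q = 0` use that `q'` is good at `r_q'`; so for the smallest such `q₀` all other differences `q - q₀` are in `PP`. So at most `(M+1)(n-1)` of the `J_q` are non empty (PRB): total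
`h/4 ≤ h/16 + (M+1)(n-1) h/(16(M+1)n) < h/4`: contradiction. Take `r = T k`, restrict. -/
def PH3_stmt : Prop := ∀ (n k : ℕ) (f : SE) (P : Set ℂ) (B : ℂ → ℂ)
  (R E η h r₀ : ℝ) (χ : ℂ → ℂ) (G0 : ℕ → ℂ → ℂ) (PP : Finset ℕ) (M : ℕ),
  SU3 n k f P B R E η h r₀ χ G0 PP M → eT M E η ≤ e3 n M h r₀ →
  ∃ (r : ℝ) (G : ℕ → ℂ → ℂ), 3 * h / 4 < r ∧ H3 n k f P B R E η h r₀ χ G0 PP M (fun _ => r) G k

/-- CS: the chain step.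
PROOF. PH3, S3A (restrict to `D (3h/4)`; `r₀ ≤ h/2 < 3h/4 < r`), PT3 with `t = h/4`. -/
def CS_stmt : Prop := ∀ (n k : ℕ) (f : SE) (P : Set ℂ) (B : ℂ → ℂ)
  (R E η h r₀ : ℝ) (χ : ℂ → ℂ) (G0 : ℕ → ℂ → ℂ) (PP : Finset ℕ) (M : ℕ),
  SU3 n k f P B R E η h r₀ χ G0 PP M → eT M E η ≤ e3 n M h r₀ →
  ∃ G : ℕ → ℂ → ℂ, G 0 = χ ∧ LevSys f P B G (ball 0 (3 * h / 4)) k ∧
    (∀ q ≤ k, EqOn (G q) (G0 q) (ball 0 r₀)) ∧
    (∀ q ≤ k, InjOn (G q) (ball 0 (3 * h / 4))) ∧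
    (∀ q ≤ k, MapsTo (G q) (ball 0 (3 * h / 4)) univ) ∧
    ∀ w ∈ ball (0 : ℂ) (h / 2), (∑ q ∈ Finset.Icc 1 k, lev B G q w ≤ 16 * eT M E η / h ^ 2) ∧
      ∀ q ≤ k, ‖tau B G q w - 1‖ ≤ 16 * eT M E η / h ^ 2

end YXPS
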