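import Pool.Agent.helper61.CSW.Base
import Pool.Agent.helper61.CSW.XP.SpecL
import Pool.Agent.helper61.CSW.Exports

/-!
# Module ADH of project xp: (MP_af9036_an): the normalised differential
-/

set_option autoImplicit false

open Complex Metric Set Filter Topology MeasureTheory YXP
open V3S (UF)

noncomputable section

open CSS (SE)

namespace YXPL

theorem ADH_TT (D : Dat) (z : ℂ) : YPPS.TT D.f D.H z = (D.s : ℂ) * YPPS.TT D.f D.H0 z := by
  unfold YPPS.TT
  rw [← tsum_mul_left]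
  refine tsum_congr fun y => ?_
  unfold Dat.H
  ring

theorem ADH_er (D : Dat) (z : ℂ) : YXPS.er D.f D.H z = (D.s : ℂ) * YXPS.er D.f D.H0 z := by
  unfold YXPS.er
  rw [ADH_TT]
  unfold Dat.H
  ring

theorem ADH_Df (D : Dat) (hs : 0 ≤ D.s) (z : ℂ) : YXPS.Df D.f D.H z = D.s * YXPS.Df D.f D.H0 z := by
  unfold YXPS.Df
  rw [ADH_TT, norm_mul, Complex.norm_real, Real.norm_of_nonneg hs, mul_sub,
    ← tsum_mul_left]
  congr 1
  refine tsum_congr fun y => ?_
  unfold Dat.H
  rw [norm_mul, Complex.norm_real, Real.norm_of_nonneg hs]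
  ring

/-- **ADH**: the normalised differential. -/
theorem ADH : ADH_stmt := by
  intro n C A D hD
  have hfin : D.PP.Finite := hD.eng.ad.fin
  have hopen : IsOpen (D.PPᶜ) := hfin.isClosed.isOpen_compl
  have hdif : DifferentiableOn ℂ D.H D.PPᶜ := hD.eng.ad.dif.const_mul _
  have hdat : ∀ z, z ∉ D.PP → DifferentiableAt ℂ D.H z := fun z hz =>
    (hdif z hz).differentiableAt (hopen.mem_nhds hz)
  have hR : 0 < D.R 0 := hD.Rpos 0
  have hsg : D.sg ≠ 0 := by
    unfold Dat.sg
    exact_mod_cast hR.ne'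
  have hdec : YPPS.DC D.H := by
    obtain ⟨-, R₁, h⟩ := hD.eng.ad.dec
    exact ⟨⟨D.PP, hfin, hdif⟩, R₁, h.const_mul _⟩
  refine ⟨⟨hD.eng.ad.deg, hfin, hD.eng.ad.inv, hdif, hdec⟩, hdat, ?_, fun x => rfl, ?_, ?_⟩
  · intro x hx
    have h1 : DifferentiableAt ℂ D.zz x := by
      unfold Dat.zz
      fun_prop
    have h2 : DifferentiableAt ℂ (fun x => D.H (D.zz x)) x := (hdat _ hx).comp x h1
    exact h2.const_mul (D.sg ^ 2)
  · intro x hx
    have h1 : D.zz x ∈ ball (D.b 0) (A * D.R 0) := by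
      rw [mem_ball, dist_eq_norm]
      have : D.zz x - D.b 0 = D.sg * x := by
        unfold Dat.zz
        ring
      rw [this, norm_mul]
      have h2 : ‖D.sg‖ = D.R 0 := by
        unfold Dat.sg
        rw [Complex.norm_real, Real.norm_of_nonneg hR.le]
      rw [h2, mul_comm]
      exact mul_lt_mul_of_pos_right hx hR
    obtain ⟨h2, -, h3⟩ := hD.invi _ h1
    refine ⟨h2, trivial, ?_⟩
    constructor
    · intro h4
      rcases h4 with ⟨l, hl⟩ | h4
      · refine ⟨l, ?_⟩
        unfold Dat.p Dat.xx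
        rw [hl]
        unfold Dat.zz
        rw [add_sub_cancel_left, mul_div_cancel_left₀ _ hsg]
      · exact absurd h4 h2
    · rintro ⟨l, hl⟩
      refine Or.inl ⟨l, ?_⟩
      rw [hl]
      unfold Dat.p Dat.xx Dat.zz
      rw [mul_div_cancel₀ _ hsg]
      ring
  · intro hs
    have h1 : ∀ z : ℂ, ENNReal.ofReal (YXPS.Df D.f D.H z + 2 * ‖YXPS.er D.f D.H z‖) =
        ENNReal.ofReal D.s * ENNReal.ofReal (YXPS.Df D.f D.H0 z + 2 * ‖YXPS.er D.f D.H0 z‖) := by
      intro z
      rw [← ENNReal.ofReal_mul hs, ADH_Df D hs, ADH_er, norm_mul, Complex.norm_real,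
        Real.norm_of_nonneg hs]
      congr 1
      ring
    simp_rw [h1]
    rw [lintegral_const_mul' _ _ ENNReal.ofReal_ne_top, ENNReal.ofReal_mul hs]
    gcongr
    exact hD.eng.hE

end YXPL
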