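import Pool.Agent.helper61.CSW.Base
import Pool.Agent.helper61.CSW.XP.SpecS
import Pool.Agent.helper61.CSW.Exports

/-! # Project v3 (MP_af9036_an): module YV3 (helper69): the loss of radius at a critical value
(adapted from helper60/PP/EV2.lean) -/

set_option autoImplicit false

open Complex Metric Set Filter Topology MeasureTheory
open YPPS (fd fdd pre TT CV Br)
open PPS (cn)
open MPS (PsiM)

noncomputable section

open CSS (SE)

namespace YXPS

theorem EV3_anti {f : SE} {h : ℝ} {χ : ℂ → ℂ} {G0 : ℕ → ℂ → ℂ} {PP : Finset ℕ} {T : ℕ → ℝ}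
    {G : ℕ → ℂ → ℂ} {Q : ℕ} (hs : Sys3 f h χ G0 PP T G Q) {q q' : ℕ} (hqq : q ≤ q')
    (hq : q' ≤ Q) : T q' ≤ T q := by
  induction q', hqq using Nat.le_induction with
  | base => exact le_rfl
  | succ m hm ih => exact (hs.anti m (by omega)).trans (ih (by omega))

theorem EV3_res {f : SE} {h : ℝ} {χ : ℂ → ℂ} {G0 : ℕ → ℂ → ℂ} {PP : Finset ℕ} {T : ℕ → ℝ}
    {G : ℕ → ℂ → ℂ} {Q : ℕ} (hs : Sys3 f h χ G0 PP T G (Q + 1)) :
    Sys3 f h χ G0 PP T G Q where
  t0 := hs.t0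
  anti := fun q hq => hs.anti q (by omega)
  pos := fun q hq => hs.pos q (by omega)
  g0 := hs.g0
  diff := fun q hq => hs.diff q (by omega)
  rel := fun q hq => hs.rel q (by omega)
  val := fun q hq => hs.val q (by omega)
  disj := fun q h1 hq => hs.disj q h1 (by omega)

/-- Measurability of the pulled back densities. -/
theorem EV3_meas (hMI : MIX_stmt) {f : SE}
    {P : Set ℂ} {B : ℂ → ℂ} (hf : AD f P B) {G : ℂ → ℂ} {Ω : Set ℂ} (hΩ : IsOpen Ω) (hG : DifferentiableOn ℂ G Ω) :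
    AEMeasurable (fun w => ENNReal.ofReal (dens f B G w)) (volume.restrict Ω) := by
  obtain ⟨-, -, her, hDf, -⟩ := hMI f P B hf
  have hGm : AEMeasurable G (volume.restrict Ω) :=
    (hG.continuousOn.aestronglyMeasurable hΩ.measurableSet).aemeasurable
  have h1 : AEMeasurable (fun w => Df f B (G w)) (volume.restrict Ω) :=
    hDf.comp_aemeasurable hGm
  have h2 : AEMeasurable (fun w => er f B (G w)) (volume.restrict Ω) :=
    her.comp_aemeasurable hGm
  have h3 : Measurable (deriv G) := measurable_deriv G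
  unfold dens
  exact ((h1.add (h2.norm.const_mul 2)).mul (h3.norm.pow_const 2).aemeasurable).ennreal_ofReal

theorem EV3 (hBDY : YPPS.BDY_stmt) (hEVT : EVTX_stmt) (hLEI : LEIX_stmt) (hLEA : LEAX_stmt)
    (hLV : LVX_stmt) (hMA : MAX_stmt) (hMI : MIX_stmt) (hS3G : S3G_stmt) (hS3A : S3A_stmt)
    (hPT3 : PT3_stmt) : EV3_stmt := by
  intro n k f P B R E η h r₀ χ G0 PP M T G Q H hε r hrT hdis hbr
  by_contra hcon
  rw [not_lt] at hcon
  have su := H.su3
  have hn2 : 2 ≤ n := su.hn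
  have hf1 : 1 ≤ f.natDegree := by rw [su.hdeg]; omega
  have hn0 : (0 : ℝ) < n := by exact_mod_cast (by omega : 0 < n)
  obtain ⟨-, -, -, hη0, hε0, hd0, hdr, -, -, -⟩ := hS3G n k f P B R E η h r₀ χ G0 PP M su
  have hM0 : (0 : ℝ) ≤ M := Nat.cast_nonneg M
  have hE0 : 0 ≤ E := su.E0
  have hEe : ((M : ℝ) + 1) * E ≤ eT M E η := by
    unfold eT
    linarith
  set d : ℝ := d3 n M h r₀ with hd
  have hQk : Q + 1 ≤ k := H.hQ
  have HQ : H3 n k f P B R E η h r₀ χ G0 PP M T G Q := ⟨H.su3, EV3_res H.sys, by omega⟩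
  obtain ⟨heq, hinj, hmap, hlev, -, hmult, -⟩ := hS3A n k f P B R E η h r₀ χ G0 PP M T G Q HQ
  obtain ⟨-, -, -, hlev1, -, -, -⟩ := hS3A n k f P B R E η h r₀ χ G0 PP M T G (Q + 1) H
  have hT0 : 0 < T (Q + 1) := H.sys.pos (Q + 1) le_rfl
  have hTr : T (Q + 1) < r := by linarith
  -- the radius is at least `r₀`
  have hr0T : r₀ ≤ T (Q + 1) := by
    by_contra hlt
    rw [not_le] at hlt
    refine hbr (min r r₀) (lt_min hTr hlt) (min_le_left _ _) ?_
    have hsub : ball (0 : ℂ) (min r r₀) ⊆ ball 0 r₀ := ball_subset_ball (min_le_right _ _)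
    refine ⟨G0 (Q + 1), (su.tdiff (Q + 1) hQk).mono hsub, rfl, ?_⟩
    intro w hw
    have h1 := su.trel Q (by omega) w (hsub hw)
    have h2 : w ∈ ball (0 : ℂ) (min r₀ (T Q)) := by
      refine ball_subset_ball ?_ hw
      exact le_min (min_le_right _ _) ((min_le_left _ _).trans hrT)
    rw [heq Q le_rfl h2]
    exact h1
  have hdT : d ≤ T (Q + 1) := hdr.trans hr0T
  have hLSQ := hlev Q le_rfl
  have hLSQ1 := hlev1 (Q + 1) le_rfl
  have hrb : ball (0 : ℂ) r ⊆ ball 0 (T Q) := ball_subset_ball hrT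
  have hbq : ∀ q ≤ Q, ball (0 : ℂ) r ⊆ ball 0 (T q) := fun q hq =>
    hrb.trans (ball_subset_ball (EV3_anti HQ.sys hq le_rfl))
  -- the end of the branch
  obtain ⟨ws, hws, -, hGws⟩ := hBDY f (G Q) (G (Q + 1)) 0 (T (Q + 1)) r hf1 hT0 hTr
    ((H.sys.diff Q (by omega)).mono hrb) (H.sys.diff (Q + 1) le_rfl)
    (fun w hw => H.sys.rel Q (by omega) w hw) (by
      intro r' h1 h2
      have h3 : G (Q + 1) 0 = G0 (Q + 1) 0 := H.sys.val (Q + 1) le_rfl
      rw [h3]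
      exact hbr r' h1 h2)
  have hbw : ball ws d ⊆ ball 0 r := by
    refine ball_subset_ball' ?_
    rw [dist_eq_norm, hws]
    linarith
  have hbwT : ball ws d ⊆ ball 0 (T Q) := hbw.trans hrb
  -- the branch sums
  obtain ⟨-, hLV2, hLV3, -, -⟩ := hLV f P B G (ball 0 (T Q)) Q su.ad isOpen_ball hLSQ
  obtain ⟨hMA1, hMA2⟩ := hMA f P B R E su.ad su.hE
    (Q + 1) (M + 1) (fun _ => ball 0 r) G
    (fun q hq => ⟨isOpen_ball, (hLSQ.diff q (by omega)).mono hrb,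
      (hinj q (by omega)).mono (hbq q (by omega)),
      (hmap q (by omega)).mono_left (hbq q (by omega))⟩)
    (fun z F hF => hmult r hrT hdis z F fun q hq => ⟨by have := (hF q hq).1; omega, (hF q hq).2⟩)
  have hMe : (((M + 1 : ℕ) : ENNReal)) * ENNReal.ofReal E = ENNReal.ofReal (((M : ℝ) + 1) * E) := by
    rw [ENNReal.ofReal_mul (by positivity)]
    congr 1
    rw [ENNReal.ofReal_add hM0 (by norm_num), ENNReal.ofReal_natCast, ENNReal.ofReal_one]
    push_cast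
    rfl
  have hbranch : ∫⁻ w in ball ws d, ENNReal.ofReal
      (∑' y : pre f (G Q w), (‖brv f B (G Q) w y‖ - (brv f B (G Q) w y).re)) ≤
        ENNReal.ofReal (((M : ℝ) + 1) * E) := by
    have h1 : ∫⁻ w in ball ws d, ENNReal.ofReal
        (∑' y : pre f (G Q w), (‖brv f B (G Q) w y‖ - (brv f B (G Q) w y).re)) ≤
        ∫⁻ w in ball ws d, ∑ q ∈ Finset.range (Q + 1), ENNReal.ofReal (dens f B (G q) w) := by
      refine lintegral_mono_ae ?_
      rw [ae_restrict_iff' measurableSet_ball]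
      refine Filter.Eventually.of_forall fun w hwb => ?_
      refine (ENNReal.ofReal_le_ofReal (hLV2 Q le_rfl w (hbwT hwb))).trans ?_
      exact EV3_ofReal_sum _ _
    refine h1.trans ?_
    rw [lintegral_finsetSum' _ fun q hq => EV3_meas hMI su.ad isOpen_ball
      ((hLSQ.diff q (by have := Finset.mem_range.1 hq; omega)).mono hbwT)]
    calc ∑ q ∈ Finset.range (Q + 1), ∫⁻ w in ball ws d, ENNReal.ofReal (dens f B (G q) w)
        ≤ ∑ q ∈ Finset.range (Q + 1), ∫⁻ w in ball 0 r, ENNReal.ofReal (dens f B (G q) w) :=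
          Finset.sum_le_sum fun q _ => lintegral_mono_set hbw
      _ ≤ ((M + 1 : ℕ) : ENNReal) * ENNReal.ofReal E := hMA1
      _ = ENNReal.ofReal (((M : ℝ) + 1) * E) := hMe
  have herr : ∫⁻ w in ball ws d, ENNReal.ofReal (‖er f B (G Q w)‖ * ‖deriv (G Q) w‖ ^ 2) ≤
      ENNReal.ofReal (((M : ℝ) + 1) * E) := by
    calc ∫⁻ w in ball ws d, ENNReal.ofReal (‖er f B (G Q w)‖ * ‖deriv (G Q) w‖ ^ 2)
        ≤ ∫⁻ w in ball 0 r, ENNReal.ofReal (‖er f B (G Q w)‖ * ‖deriv (G Q) w‖ ^ 2) :=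
          lintegral_mono_set hbw
      _ ≤ ∑ q ∈ Finset.range (Q + 1), ∫⁻ w in ball 0 r,
            ENNReal.ofReal (‖er f B (G q w)‖ * ‖deriv (G q) w‖ ^ 2) :=
          Finset.single_le_sum (f := fun q => ∫⁻ w in ball 0 r,
            ENNReal.ofReal (‖er f B (G q w)‖ * ‖deriv (G q) w‖ ^ 2))
            (fun q _ => zero_le) (Finset.mem_range.2 (by omega))
      _ ≤ ((M + 1 : ℕ) : ENNReal) * ENNReal.ofReal E := hMA2
      _ = ENNReal.ofReal (((M : ℝ) + 1) * E) := hMe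
  obtain ⟨hLEA1, -⟩ := hLEA f P B G (ball 0 (T Q)) Q su.ad isOpen_ball hLSQ
  obtain ⟨t, ht1, ht2, hevt⟩ := hEVT n f P B (G Q) (G (Q + 1)) 0 ws (T (Q + 1)) d
    (((M : ℝ) + 1) * E) hn2 su.hdeg su.ad hd0 hdT (by positivity) hws
    ((hLSQ.diff Q le_rfl).mono hbwT) ((hinj Q le_rfl).mono hbwT)
    (fun w hw => hLEA1 Q le_rfl w (hbwT hw)) (H.sys.diff (Q + 1) le_rfl)
    (fun w hw => H.sys.rel Q (by omega) w hw.1) hGws hbranch herr
  have ht0 : 0 < t := lt_of_lt_of_le (by positivity) ht1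
  set w₀ : ℂ := ws + ((t / (2 * T (Q + 1)) : ℝ) : ℂ) * (0 - ws) with hw₀
  have hevt' := hevt w₀ rfl
  rw [sub_zero] at hws
  have hnorm : ‖w₀‖ + t / 2 ≤ T (Q + 1) := by
    have h1 : w₀ = ((1 - t / (2 * T (Q + 1)) : ℝ) : ℂ) * ws := by
      rw [hw₀]
      push_cast
      ring
    have h2 : 0 ≤ 1 - t / (2 * T (Q + 1)) := by
      rw [sub_nonneg, div_le_one (by positivity)]
      linarith
    rw [h1, norm_mul, hws, Complex.norm_real, Real.norm_of_nonneg h2]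
    have h3 : (1 - t / (2 * T (Q + 1))) * T (Q + 1) = T (Q + 1) - t / 2 := by
      field_simp
    rw [h3]
    linarith
  have hw₀b : w₀ ∈ ball (0 : ℂ) (T (Q + 1)) := by
    rw [mem_ball, dist_eq_norm, sub_zero]
    linarith
  obtain ⟨hsum, htau⟩ := hPT3 n k f P B R E η h r₀ χ G0 PP M T G (Q + 1) H (Q + 1) (by omega)
    le_rfl w₀ (t / 2) (by linarith) hnorm
  obtain ⟨-, hLEI2, -, -⟩ := hLEI f P B G (ball 0 (T (Q + 1))) (Q + 1) su.ad isOpen_ball hLSQ1
  have hbrv := (hLEI2 Q (by omega) w₀ hw₀b).2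
  rw [hbrv] at hevt'
  set S : ℝ := ∑ q ∈ Finset.Icc 1 (Q + 1), lev B G q w₀ with hS
  have hlevS : ‖deriv (G Q) w₀ ^ 2 * B (G Q w₀) - tau B G (Q + 1) w₀‖ ≤ S := by
    have h1 : lev B G (Q + 1) w₀ ≤ S :=
      Finset.single_le_sum (f := fun q => lev B G q w₀)
        (fun q _ => norm_nonneg _) (Finset.mem_Icc.2 ⟨by omega, le_rfl⟩)
    exact h1
  set e : ℝ := eT M E η / t ^ 2 with he
  have he0 : 0 ≤ e := by positivity
  have hS2 : S ≤ 4 * e := by
    have h1 : eT M E η / (t / 2) ^ 2 = 4 * e := by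
      rw [he]
      field_simp
      ring
    linarith
  have hesmall : e ≤ 1 / 4 ^ 40 := by
    have h1 : d ^ 2 / (4 ^ n) ^ 2 ≤ t ^ 2 := by
      rw [← div_pow]
      exact pow_le_pow_left₀ (by positivity) ht1 2
    have hn1 : (1 : ℝ) ≤ n := by exact_mod_cast (by omega : 1 ≤ n)
    have h2 : e3 n M h r₀ ≤ (1 / 4 ^ 40) * (d ^ 2 / (4 ^ n) ^ 2) := by
      unfold e3 cn
      rw [← hd]
      have h3 : (4 : ℝ) ^ (40 + 2 * n) = 4 ^ 40 * (4 ^ n) ^ 2 := by
        rw [pow_add, pow_mul, ← pow_mul, ← pow_mul, mul_comm n 2]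
      have h4 : (d ^ 2 / ((4 : ℝ) ^ (40 + 2 * n) * (n : ℝ) ^ 2)) =
          (1 / 4 ^ 40) * (d ^ 2 / (4 ^ n) ^ 2) / (n : ℝ) ^ 2 := by
        rw [h3]
        field_simp
      rw [h4]
      apply div_le_self (by positivity)
      nlinarith
    rw [he, div_le_iff₀ (by positivity)]
    calc eT M E η ≤ e3 n M h r₀ := hε
      _ ≤ (1 / 4 ^ 40) * (d ^ 2 / (4 ^ n) ^ 2) := h2
      _ ≤ (1 / 4 ^ 40) * t ^ 2 := by gcongr
  have hlow : 1 - 4 * e ≤ ‖tau B G (Q + 1) w₀‖ := by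
    have h1 := norm_sub_norm_le (1 : ℂ) (1 - tau B G (Q + 1) w₀)
    rw [norm_one, sub_sub_cancel, norm_sub_rev] at h1
    linarith
  have hup : ‖tau B G (Q + 1) w₀‖ ≤ 4 ^ 21 * (4 * e + 100 * e) := by
    refine hevt'.trans ?_
    have h1 : 100 * (((M : ℝ) + 1) * E) / t ^ 2 ≤ 100 * e := by
      rw [he, mul_div_assoc]
      apply mul_le_mul_of_nonneg_left _ (by norm_num)
      gcongr
    have h2 : ‖deriv (G Q) w₀ ^ 2 * B (G Q w₀) - tau B G (Q + 1) w₀‖ +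
        100 * (((M : ℝ) + 1) * E) / t ^ 2 ≤ 4 * e + 100 * e := by linarith
    exact mul_le_mul_of_nonneg_left h2 (by positivity)
  have hfin : (4 : ℝ) ^ 21 * (4 * e + 100 * e) + 4 * e < 1 := by
    have h1 : (4 : ℝ) ^ 21 * (4 * e + 100 * e) + 4 * e = (4 ^ 21 * 104 + 4) * e := by ring
    rw [h1]
    calc ((4 : ℝ) ^ 21 * 104 + 4) * e ≤ (4 ^ 21 * 104 + 4) * (1 / 4 ^ 40) := by gcongr
      _ < 1 := by norm_num
  linarith

end YXPS
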