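import Pool.Agent.helper61.CSW.XP.SpecS
import Pool.Agent.helper61.CSW.PP.EVT
import Pool.Agent.helper61.CSW.PP.MI

/-! csw:EVTX, comparison of two branches near a boundary point without local extension (from helper62/CF/WP/EVG.lean) -/

set_option autoImplicit false

open Complex Metric Set Filter Topology MeasureTheory
open YPPS (fd fdd pre TT CV Br cn)
open PPS (EVT_mean EVT_cov)
open MPS (PsiM)

noncomputable section

open CSS (SE)

namespace YXPS

/-- the branch values are summable. -/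
theorem EVTX_sum (hSMB : YPPS.SMB_stmt) {f : SE} {P : Set ℂ} {B : ℂ → ℂ} (hB : AD f P B) (G : ℂ → ℂ)
    (w : ℂ) : Summable (fun y : pre f (G w) => ‖brv f B G w y‖) := by
  have h1 := (hSMB f B hB.dec (G w)).2
  have h2 := h1.mul_left (‖deriv G w‖ ^ 2)
  refine h2.congr fun y => ?_
  unfold brv
  rw [norm_mul, norm_pow, norm_div, div_pow]
  ring

/-- the comparison of `H` with the second branch, at a point. -/
theorem EVTX_pt (hSMB : YPPS.SMB_stmt) {f : SE} {P : Set ℂ} {B : ℂ → ℂ} (hB : AD f P B)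
    (G : ℂ → ℂ) (w y₁ y₂ : ℂ) (h1 : f.eval y₁ = G w) (h2 : f.eval y₂ = G w)
    (h12 : y₂ ≠ y₁) :
    ‖brv f B G w y₂‖ - (deriv G w ^ 2 * B (G w) - brv f B G w y₁).re ≤
      (∑' y : pre f (G w), (‖brv f B G w y‖ - (brv f B G w y).re)) +
        ‖er f B (G w)‖ * ‖deriv G w‖ ^ 2 := by
  have hs := EVTX_sum hSMB hB G w
  have hsc : Summable (fun y : pre f (G w) => brv f B G w y) := Summable.of_norm hs
  have hsr : Summable (fun y : pre f (G w) => (brv f B G w y).re) := Complex.reCLM.summable hsc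
  have e1 : deriv G w ^ 2 * TT f B (G w) = ∑' y : pre f (G w), brv f B G w y := by
    unfold TT
    rw [← tsum_mul_left]
    refine tsum_congr fun y => ?_
    unfold brv
    rw [div_pow]
    ring
  have e2 : deriv G w ^ 2 * B (G w) =
      deriv G w ^ 2 * er f B (G w) + deriv G w ^ 2 * TT f B (G w) := by
    unfold er
    ring
  have e3 : (∑' y : pre f (G w), brv f B G w y).re = ∑' y : pre f (G w), (brv f B G w y).re :=
    Complex.reCLM.map_tsum hsc
  have e4 : ∑' y : pre f (G w), (‖brv f B G w y‖ - (brv f B G w y).re) =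
      (∑' y : pre f (G w), ‖brv f B G w y‖) - ∑' y : pre f (G w), (brv f B G w y).re :=
    hs.tsum_sub hsr
  have e5 : ‖brv f B G w y₁‖ + ‖brv f B G w y₂‖ ≤ ∑' y : pre f (G w), ‖brv f B G w y‖ := by
    classical
    have hne : (⟨y₁, h1⟩ : pre f (G w)) ≠ ⟨y₂, h2⟩ := fun h => h12 (congrArg Subtype.val h).symm
    have h3 := hs.sum_le_tsum {(⟨y₁, h1⟩ : pre f (G w)), ⟨y₂, h2⟩} (fun i _ => norm_nonneg _)
    rwa [Finset.sum_pair hne] at h3
  have e6 : (brv f B G w y₁).re ≤ ‖brv f B G w y₁‖ := Complex.re_le_norm _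
  have e8 : -(deriv G w ^ 2 * er f B (G w)).re ≤ ‖er f B (G w)‖ * ‖deriv G w‖ ^ 2 := by
    have := Complex.re_le_norm (-(deriv G w ^ 2 * er f B (G w)))
    rw [Complex.neg_re, norm_neg, norm_mul, norm_pow] at this
    linarith [mul_comm (‖er f B (G w)‖) (‖deriv G w‖ ^ 2)]
  rw [e4, Complex.sub_re, e2, e1, Complex.add_re, e3]
  linarith

/-- one branch. -/
theorem EVTX_one (hSMB : YPPS.SMB_stmt) {f : SE} {P : Set ℂ} {B : ℂ → ℂ} (hB : AD f P B)
    (G : ℂ → ℂ) (w y₁ : ℂ) (h1 : f.eval y₁ = G w) :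
    ‖brv f B G w y₁‖ - (brv f B G w y₁).re ≤
      ∑' y : pre f (G w), (‖brv f B G w y‖ - (brv f B G w y).re) := by
  have hs := EVTX_sum hSMB hB G w
  have hsc : Summable (fun y : pre f (G w) => brv f B G w y) := Summable.of_norm hs
  have hsr : Summable (fun y : pre f (G w) => (brv f B G w y).re) := Complex.reCLM.summable hsc
  exact (hs.sub hsr).le_tsum (⟨y₁, h1⟩ : pre f (G w))
    (fun j _ => sub_nonneg.2 (Complex.re_le_norm _))

theorem EVTX (hSMB : YPPS.SMB_stmt) (hMI : MIX_stmt) (hPRB : YPPS.PRB_stmt) (hLUN : YPPS.LUN_stmt) (hPEX : YPPS.PEX_stmt) (hLIFT : YPPS.LIFT_stmt)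
    (hHCH : MPS.HCH_stmt) : EVTX_stmt := by
  intro n f P B G h a ws r d ν hn hdeg hcyc hd hdr hν hwsa hG hinj hGP hh hrel hNX hint hier
  obtain ⟨t, ht1, ht2, ht0, hring⟩ := YPPS.EVT_ring hPRB f n hn hdeg G ws d hd hinj
  have hpreP : ∀ w ∈ ball ws d, ∀ y : ℂ, f.eval y = G w → y ∉ P := by
    intro w hw y hy h0
    refine hGP w hw ?_
    rw [← hy]
    exact hcyc.inv _ h0
  refine ⟨t, ht1, ht2, ?_⟩
  intro w₀ hw₀
  have hf1 : 1 ≤ f.natDegree := hcyc.deg
  have hr : 0 < r := hd.trans_le hdr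
  have htr : t ≤ r := ht2.trans hdr
  have htsub : ball ws t ⊆ ball ws d := ball_subset_ball ht2
  have hcoef : 0 < t / (2 * r) := by positivity
  have hcoef1 : t / (2 * r) ≤ 1 / 2 := by
    rw [div_le_div_iff₀ (by positivity) (by norm_num)]
    linarith
  have hwn : ‖w₀ - ws‖ = t / 2 := by
    rw [hw₀, add_sub_cancel_left, norm_mul, Complex.norm_real, Real.norm_of_nonneg hcoef.le,
      norm_sub_rev, hwsa]
    field_simp
  have hwa : ‖w₀ - a‖ = r - t / 2 := by
    have e1 : w₀ - a = ((1 - t / (2 * r) : ℝ) : ℂ) * (ws - a) := by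
      rw [hw₀]
      push_cast
      ring
    rw [e1, norm_mul, Complex.norm_real, Real.norm_of_nonneg (by linarith), hwsa]
    field_simp
  have hb1 : ball w₀ (t / 2) ⊆ ball a r := by
    refine ball_subset_ball' ?_
    rw [dist_eq_norm, hwa]
    linarith
  have hb2 : ball w₀ (t / 2) ⊆ ball ws t := by
    refine ball_subset_ball' ?_
    rw [dist_eq_norm, hwn]
    linarith
  have hw₀b : w₀ ∈ ball w₀ (t / 2) := mem_ball_self (by positivity)
  have hw₀s : w₀ ∈ ball a r ∩ ball ws t := ⟨hb1 hw₀b, hb2 hw₀b⟩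
  have h4w : ∀ w ∈ ball w₀ (t / 4), t / 4 < ‖w - ws‖ ∧ ‖w - ws‖ < t := by
    intro w hw
    rw [mem_ball, dist_eq_norm] at hw
    have e1 := norm_sub_norm_le (w₀ - ws) (w₀ - w)
    have e2 : (w₀ - ws) - (w₀ - w) = w - ws := by ring
    rw [e2, hwn, norm_sub_rev w₀ w] at e1
    have e3 := norm_add_le (w - w₀) (w₀ - ws)
    rw [sub_add_sub_cancel, hwn] at e3
    constructor <;> linarith
  -- strip
  set N : Set ℂ := {ξ : ℂ | Real.log (t / 4) < ξ.re ∧ ξ.re < Real.log t} with hN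
  have hNo : IsOpen N :=
    (isOpen_lt continuous_const Complex.continuous_re).inter
      (isOpen_lt Complex.continuous_re continuous_const)
  have hNc : Convex ℝ N := (convex_halfSpace_re_gt _).inter (convex_halfSpace_re_lt _)
  have hNW : ∀ ξ ∈ N, t / 4 < ‖(ws + Complex.exp ξ) - ws‖ ∧ ‖(ws + Complex.exp ξ) - ws‖ < t := by
    intro ξ hξ
    rw [add_sub_cancel_left, Complex.norm_exp]
    exact ⟨(Real.log_lt_iff_lt_exp (by positivity)).1 hξ.1, (Real.lt_log_iff_exp_lt ht0).1 hξ.2⟩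
  have hNB : ∀ ξ ∈ N, ws + Complex.exp ξ ∈ ball ws t := by
    intro ξ hξ
    rw [mem_ball, dist_eq_norm]
    exact (hNW ξ hξ).2
  have hWd : Differentiable ℂ fun ξ : ℂ => ws + Complex.exp ξ := by fun_prop
  have hFd : DifferentiableOn ℂ (fun ξ => G (ws + Complex.exp ξ)) N :=
    (hG.mono htsub).comp hWd.differentiableOn hNB
  have hw₀0 : w₀ - ws ≠ 0 := by
    intro h0
    rw [h0, norm_zero] at hwn
    linarith
  set ξ₀ : ℂ := Complex.log (w₀ - ws) with hξ₀
  have hexp0 : Complex.exp ξ₀ = w₀ - ws := Complex.exp_log hw₀0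
  have hξ₀w : ws + Complex.exp ξ₀ = w₀ := by rw [hexp0]; ring
  have hξ₀re : ξ₀.re = Real.log (t / 2) := by rw [hξ₀, Complex.log_re, hwn]
  have hξ₀N : ξ₀ ∈ N := by
    constructor
    · rw [hξ₀re]; exact Real.log_lt_log (by positivity) (by linarith)
    · rw [hξ₀re]; exact Real.log_lt_log (by positivity) (by linarith)
  obtain ⟨Y, hYd, hY0, hYr⟩ := hLIFT f N (fun ξ => G (ws + Complex.exp ξ)) ξ₀ (h w₀) hf1 hNo hNc hFd
    (fun ξ hξ => hring _ (hNW ξ hξ).1 (hNW ξ hξ).2) hξ₀N (by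
      show f.eval (h w₀) = G (ws + Complex.exp ξ₀)
      rw [hξ₀w]
      exact (hrel w₀ ⟨hw₀s.1, htsub hw₀s.2⟩).1)
  have hY2 : Y (ξ₀ + 2 * Real.pi * I) ≠ h w₀ := by
    exact YPPS.EVT_mono hLUN hPEX f hf1 G h a ws w₀ ξ₀ r t ht0 htr hwsa (hG.mono htsub) (hinj.mono htsub) hh
      (fun w hw => hrel w ⟨hw.1, htsub hw.2⟩) hNX hw₀s (by rw [hwn]; linarith) hξ₀w Y hYd
      (fun ξ h1 h2 => hYr ξ ⟨h1, h2⟩) hY0
  have hYb : ∀ ξ ∈ N, Y ξ ∉ P := by
    intro ξ hξ
    exact hpreP _ (htsub (hNB ξ hξ)) _ (hYr ξ hξ).1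
  -- the chain
  set Bf : ℂ → ℂ := fun ξ => brv f B G (ws + Complex.exp ξ) (Y ξ) with hBf
  have hBd : DifferentiableOn ℂ Bf N := by
    intro ξ hξ
    refine DifferentiableAt.differentiableWithinAt ?_
    have hYa : DifferentiableAt ℂ Y ξ := hYd.differentiableAt (hNo.mem_nhds hξ)
    have hGa : DifferentiableAt ℂ (fun ξ => deriv G (ws + Complex.exp ξ)) ξ :=
      DifferentiableAt.comp ξ ((hG.deriv isOpen_ball).differentiableAt
        (isOpen_ball.mem_nhds (htsub (hNB ξ hξ)))) (hWd ξ)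
    have hfa : DifferentiableAt ℂ (fun ξ => fd f (Y ξ)) ξ := by
      unfold fd
      exact DifferentiableAt.comp (g := fun y => f.derivative.eval y) ξ (f.derivative.differentiable _) hYa
    rw [hBf]
    unfold brv
    exact ((hGa.div hfa (hYr ξ hξ).2).pow 2).mul (EVTX_BBd hcyc.fin hcyc.dif hYa (hYb ξ hξ))
  have hlog2 : 0 < Real.log 2 := Real.log_pos (by norm_num)
  have hlt2 : Real.log (t / 2) = Real.log t - Real.log 2 := Real.log_div ht0.ne' (by norm_num)
  have hlt4 : Real.log (t / 4) = Real.log t - 2 * Real.log 2 := by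
    rw [Real.log_div ht0.ne' (by norm_num), show (4 : ℝ) = 2 ^ 2 by norm_num, Real.log_pow]
    push_cast
    ring
  have hshre : (ξ₀ + 2 * Real.pi * I).re = Real.log (t / 2) := by
    rw [← hξ₀re]
    simp
  have hseg : ∀ p ∈ segment ℝ (ξ₀ + 2 * Real.pi * I) ξ₀, p.re = Real.log (t / 2) := by
    rintro p ⟨α, β, hα, hβ, hαβ, rfl⟩
    rw [Complex.add_re, Complex.real_smul, Complex.real_smul, Complex.re_ofReal_mul,
      Complex.re_ofReal_mul, hshre, hξ₀re, ← add_mul, hαβ, one_mul]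
  have hint' : ∫⁻ w in ball ws t, ENNReal.ofReal
      (∑' y : pre f (G w), (‖brv f B G w y‖ - (brv f B G w y).re)) ≤ ENNReal.ofReal ν :=
    (lintegral_mono_set htsub).trans hint
  have hchain := hHCH Unit {()} (fun _ => Bf) N (ξ₀ + 2 * Real.pi * I) ξ₀ (Real.log 2)
    (16 * ν / t ^ 2) 19 hlog2 (by positivity) hNo (fun _ _ => hBd) (by
      intro p hp ξ hξ
      have e1 := hseg p hp
      have h1 : |ξ.re - p.re| < Real.log 2 := by
        have h2 := Complex.abs_re_le_norm (ξ - p)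
        rw [Complex.sub_re] at h2
        rw [mem_ball, dist_eq_norm] at hξ
        linarith
      rw [e1, abs_lt] at h1
      constructor
      · show Real.log (t / 4) < ξ.re
        linarith [h1.1]
      · show ξ.re < Real.log t
        linarith [h1.2]) (by
      intro p hp
      simp only [Finset.sum_singleton]
      refine EVT_cov ws p t ν ht0 (hseg p hp) Bf
        (fun w => (∑' y : pre f (G w), (‖brv f B G w y‖ - (brv f B G w y).re))) ?_ hint'
      intro ξ hξ1 hξ2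
      exact EVTX_one hSMB hcyc G (ws + Complex.exp ξ) (Y ξ) (hYr ξ ⟨hξ1, hξ2⟩).1) (by
      have e1 : ξ₀ - (ξ₀ + 2 * Real.pi * I) = -(2 * Real.pi * I) := by ring
      rw [e1, norm_neg, norm_mul, norm_mul, Complex.norm_I, Complex.norm_real,
        Real.norm_of_nonneg Real.pi_pos.le]
      have e2 := Real.pi_lt_d2
      have e3 := Real.log_two_gt_d9
      simp only [Complex.norm_ofNat]
      push_cast
      linarith)
  simp only [Finset.sum_singleton] at hchain
  have hB0 : Bf ξ₀ = brv f B G w₀ (h w₀) := by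
    show brv f B G (ws + Complex.exp ξ₀) (Y ξ₀) = _
    rw [hξ₀w, hY0]
  have hexp2 : Complex.exp (ξ₀ + 2 * Real.pi * I) = Complex.exp ξ₀ := Complex.exp_periodic ξ₀
  -- the second branch near w₀
  set y₂ : ℂ → ℂ := fun w => Y (ξ₀ + 2 * Real.pi * I + Complex.log ((w - ws) / (w₀ - ws))) with hy₂
  have hsl : ∀ w ∈ ball w₀ (t / 4), (w - ws) / (w₀ - ws) ∈ Complex.slitPlane := by
    intro w hw
    have e1 : (w - ws) / (w₀ - ws) = 1 + (w - w₀) / (w₀ - ws) := by
      field_simp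
      ring
    have e2 : ‖(w - w₀) / (w₀ - ws)‖ < 1 := by
      rw [norm_div, hwn, div_lt_one (by positivity)]
      rw [mem_ball, dist_eq_norm] at hw
      linarith
    left
    rw [e1, Complex.add_re, Complex.one_re]
    have e3 := (abs_le.1 (Complex.abs_re_le_norm ((w - w₀) / (w₀ - ws)))).1
    linarith
  have hη : ∀ w ∈ ball w₀ (t / 4), ξ₀ + 2 * Real.pi * I + Complex.log ((w - ws) / (w₀ - ws)) ∈ N ∧
      ws + Complex.exp (ξ₀ + 2 * Real.pi * I + Complex.log ((w - ws) / (w₀ - ws))) = w := by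
    intro w hw
    obtain ⟨h1, h2⟩ := h4w w hw
    have e0 : w - ws ≠ 0 := by
      intro h0
      rw [h0, norm_zero] at h1
      linarith
    have e1 : Complex.exp (ξ₀ + 2 * Real.pi * I + Complex.log ((w - ws) / (w₀ - ws))) = w - ws := by
      rw [Complex.exp_add, hexp2, hexp0, Complex.exp_log (div_ne_zero e0 hw₀0),
        mul_div_cancel₀ _ hw₀0]
    refine ⟨?_, by rw [e1]; ring⟩
    have e2 := congrArg norm e1
    rw [Complex.norm_exp] at e2
    rw [← e2] at h1 h2
    exact ⟨(Real.log_lt_iff_lt_exp (by positivity)).2 h1, (Real.lt_log_iff_exp_lt ht0).2 h2⟩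
  have hy₂d : DifferentiableOn ℂ y₂ (ball w₀ (t / 4)) := by
    refine hYd.comp ?_ fun w hw => (hη w hw).1
    refine DifferentiableOn.const_add _ ?_
    refine DifferentiableOn.clog ?_ hsl
    exact ((differentiable_id.sub_const ws).div_const _).differentiableOn
  have hy₂r : ∀ w ∈ ball w₀ (t / 4), f.eval (y₂ w) = G w ∧ fd f (y₂ w) ≠ 0 := by
    intro w hw
    obtain ⟨h1, h2⟩ := hη w hw
    have h3 := hYr _ h1
    refine ⟨?_, h3.2⟩
    show f.eval (Y _) = G w
    rw [h3.1]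
    show G (ws + Complex.exp _) = G w
    rw [h2]
  have h4sub : ball w₀ (t / 4) ⊆ ball w₀ (t / 2) := ball_subset_ball (by linarith)
  have h4a : ball w₀ (t / 4) ⊆ ball a r := h4sub.trans hb1
  have h4s : ball w₀ (t / 4) ⊆ ball ws t := h4sub.trans hb2
  have h4d : ball w₀ (t / 4) ⊆ ball ws d := h4s.trans htsub
  have hw₀4 : w₀ ∈ ball w₀ (t / 4) := mem_ball_self (by positivity)
  have hy₂0 : y₂ w₀ = Y (ξ₀ + 2 * Real.pi * I) := by
    show Y (ξ₀ + 2 * Real.pi * I + Complex.log ((w₀ - ws) / (w₀ - ws))) = _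
    rw [div_self hw₀0, Complex.log_one, add_zero]
  have hy₂ne : ∀ w ∈ ball w₀ (t / 4), y₂ w ≠ h w := by
    intro w hw h0
    have e1 := hLUN f (ball w₀ (t / 4)) y₂ h w isOpen_ball (convex_ball _ _).isPreconnected
      hy₂d.continuousOn (hh.continuousOn.mono h4a)
      (fun v hv => by rw [(hy₂r v hv).1, (hrel v ⟨h4a hv, h4d hv⟩).1])
      (fun v hv => (hy₂r v hv).2) hw h0
    have e2 := e1 hw₀4
    rw [hy₂0] at e2
    exact hY2 e2
  have hB2 : Bf (ξ₀ + 2 * Real.pi * I) = brv f B G w₀ (y₂ w₀) := by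
    show brv f B G (ws + Complex.exp (ξ₀ + 2 * Real.pi * I)) (Y (ξ₀ + 2 * Real.pi * I)) = _
    rw [hexp2, hξ₀w, hy₂0]
  -- holomorphic functions on the small ball
  have hbrd : ∀ y : ℂ → ℂ, DifferentiableOn ℂ y (ball w₀ (t / 4)) →
      (∀ w ∈ ball w₀ (t / 4), f.eval (y w) = G w ∧ fd f (y w) ≠ 0) →
      DifferentiableOn ℂ (fun w => brv f B G w (y w)) (ball w₀ (t / 4)) := by
    intro y hy1 hy2 w hw
    refine DifferentiableAt.differentiableWithinAt ?_
    have hya : DifferentiableAt ℂ y w := hy1.differentiableAt (isOpen_ball.mem_nhds hw)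
    have hGa : DifferentiableAt ℂ (deriv G) w :=
      (hG.deriv isOpen_ball).differentiableAt (isOpen_ball.mem_nhds (h4d hw))
    have hfa : DifferentiableAt ℂ (fun w => fd f (y w)) w := by
      unfold fd
      exact DifferentiableAt.comp (g := fun y => f.derivative.eval y) w (f.derivative.differentiable _) hya
    have hyb : y w ∉ P := hpreP _ (h4d hw) _ (hy2 w hw).1
    unfold brv
    exact ((hGa.div hfa (hy2 w hw).2).pow 2).mul (EVTX_BBd hcyc.fin hcyc.dif hya hyb)
  set K : ℂ → ℂ := fun w => brv f B G w (y₂ w) with hK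
  set H : ℂ → ℂ := fun w => deriv G w ^ 2 * B (G w) - brv f B G w (h w) with hH
  have hKd : DifferentiableOn ℂ K (ball w₀ (t / 4)) := hbrd y₂ hy₂d hy₂r
  have hHd : DifferentiableOn ℂ H (ball w₀ (t / 4)) := by
    refine DifferentiableOn.sub ?_ (hbrd h (hh.mono h4a) fun w hw => hrel w ⟨h4a hw, h4d hw⟩)
    intro w hw
    refine DifferentiableAt.differentiableWithinAt ?_
    have hGa : DifferentiableAt ℂ (deriv G) w :=
      (hG.deriv isOpen_ball).differentiableAt (isOpen_ball.mem_nhds (h4d hw))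
    have hG1 : DifferentiableAt ℂ G w := hG.differentiableAt (isOpen_ball.mem_nhds (h4d hw))
    exact (hGa.pow 2).mul (EVTX_BBd hcyc.fin hcyc.dif hG1 (hGP _ (h4d hw)))
  obtain ⟨θ, hθ1, hθ2⟩ : ∃ θ : ℂ, ‖θ‖ ≤ 1 ∧ (θ * K w₀).re = ‖K w₀‖ := by
    by_cases h0 : K w₀ = 0
    · exact ⟨0, by simp, by simp [h0]⟩
    · refine ⟨(starRingEnd ℂ) (K w₀) / ‖K w₀‖, ?_, ?_⟩
      · rw [norm_div, RCLike.norm_conj, Complex.norm_real, Real.norm_of_nonneg (norm_nonneg _),
          div_self (norm_ne_zero_iff.2 h0)]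
      · have e1 : (starRingEnd ℂ) (K w₀) / (‖K w₀‖ : ℂ) * K w₀ = ((‖K w₀‖ : ℝ) : ℂ) := by
          have e2 : ((‖K w₀‖ : ℝ) : ℂ) ≠ 0 := by
            exact_mod_cast norm_ne_zero_iff.2 h0
          have e3 := Complex.conj_mul' (K w₀)
          field_simp
          exact e3
        rw [e1, Complex.ofReal_re]
  have hmean := EVT_mean (u := fun w => θ * K w - H w)
    (P := fun w => (∑' y : pre f (G w), (‖brv f B G w y‖ - (brv f B G w y).re)) +
        ‖er f B (G w)‖ * ‖deriv G w‖ ^ 2) (a := w₀) (r := t / 4) (ν := 2 * ν) (by positivity)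
    (by positivity) ((hKd.const_mul θ).sub hHd) (by
      intro w hw
      have e1 := EVTX_pt hSMB hcyc G w (h w) (y₂ w) (hrel w ⟨h4a hw, h4d hw⟩).1 (hy₂r w hw).1
        (hy₂ne w hw)
      refine le_trans ?_ e1
      rw [Complex.sub_re]
      have e2 : (θ * K w).re ≤ ‖K w‖ := by
        refine (Complex.re_le_norm _).trans ?_
        rw [norm_mul]
        exact mul_le_of_le_one_left (norm_nonneg _) hθ1
      exact sub_le_sub_right e2 _) (by
      have e1 : ∀ w, ENNReal.ofReal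
          ((∑' y : pre f (G w), (‖brv f B G w y‖ - (brv f B G w y).re)) +
            ‖er f B (G w)‖ * ‖deriv G w‖ ^ 2) ≤
          ENNReal.ofReal (∑' y : pre f (G w), (‖brv f B G w y‖ - (brv f B G w y).re)) +
            ENNReal.ofReal (‖er f B (G w)‖ * ‖deriv G w‖ ^ 2) := fun w => ENNReal.ofReal_add_le
      refine (lintegral_mono e1).trans ?_
      have e2 : AEMeasurable (fun w => ENNReal.ofReal (‖er f B (G w)‖ * ‖deriv G w‖ ^ 2))
          (volume.restrict (ball w₀ (t / 4))) := by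
        have a1 : AEMeasurable G (volume.restrict (ball w₀ (t / 4))) :=
          (hG.continuousOn.mono h4d).aemeasurable measurableSet_ball
        have a2 : AEMeasurable (deriv G) (volume.restrict (ball w₀ (t / 4))) :=
          ((hG.deriv isOpen_ball).continuousOn.mono h4d).aemeasurable measurableSet_ball
        have a3 : AEMeasurable (fun w => er f B (G w)) (volume.restrict (ball w₀ (t / 4))) :=
          (hMI f P B hcyc).2.2.1.comp_aemeasurable a1
        exact (a3.norm.mul (a2.norm.pow_const 2)).ennreal_ofReal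
      rw [lintegral_add_right' _ e2]
      calc _ ≤ ENNReal.ofReal ν + ENNReal.ofReal ν :=
            add_le_add ((lintegral_mono_set h4d).trans hint) ((lintegral_mono_set h4d).trans hier)
        _ = ENNReal.ofReal (2 * ν) := by
            rw [← ENNReal.ofReal_add hν hν, two_mul])
  rw [Complex.sub_re, hθ2] at hmean
  have hHn : (H w₀).re ≤ ‖H w₀‖ := Complex.re_le_norm _
  have hfin1 : ‖K w₀‖ ≤ ‖H w₀‖ + 11 * ν / t ^ 2 := by
    have e1 : Real.pi * (t / 4) ^ 2 * (‖K w₀‖ - (H w₀).re) ≤ 2 * ν := hmean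
    have e2 : 3 * (t / 4) ^ 2 * (‖K w₀‖ - (H w₀).re) ≤ 2 * ν := by
      rcases le_total 0 (‖K w₀‖ - (H w₀).re) with h0 | h0
      · refine le_trans ?_ e1
        gcongr
        exact Real.pi_gt_three.le
      · have : 3 * (t / 4) ^ 2 * (‖K w₀‖ - (H w₀).re) ≤ 0 :=
          mul_nonpos_of_nonneg_of_nonpos (by positivity) h0
        linarith
    have e3 : ‖K w₀‖ - (H w₀).re ≤ 11 * ν / t ^ 2 := by
      rw [le_div_iff₀ (by positivity)]
      nlinarith
    linarith
  rw [hB0, hB2] at hchain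
  have hfin2 : 2 * (16 * ν / t ^ 2) / (Real.pi * Real.log 2 ^ 2) ≤ 33 * ν / t ^ 2 := by
    have e1 := Real.log_two_gt_d9
    have e2 := Real.pi_gt_three
    have e3 : 1 ≤ Real.pi * Real.log 2 ^ 2 := by nlinarith
    rw [div_le_iff₀ (by positivity)]
    have e4 : 0 ≤ ν / t ^ 2 := by positivity
    have e5 : 2 * (16 * ν / t ^ 2) = 32 * (ν / t ^ 2) := by ring
    have e6 : 33 * ν / t ^ 2 = 33 * (ν / t ^ 2) := by ring
    rw [e5, e6]
    nlinarith
  calc ‖brv f B G w₀ (h w₀)‖ ≤ _ := hchain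
    _ ≤ 4 ^ 19 * ((‖H w₀‖ + 11 * ν / t ^ 2) + 33 * ν / t ^ 2) := by
      gcongr
    _ ≤ 4 ^ 21 * (‖H w₀‖ + 100 * ν / t ^ 2) := by
      have e4 : 0 ≤ ν / t ^ 2 := by positivity
      have e5 : 11 * ν / t ^ 2 = 11 * (ν / t ^ 2) := by ring
      have e6 : 33 * ν / t ^ 2 = 33 * (ν / t ^ 2) := by ring
      have e7 : 100 * ν / t ^ 2 = 100 * (ν / t ^ 2) := by ring
      rw [e5, e6, e7]
      have := norm_nonneg (H w₀)
      nlinarith

end YXPS
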