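import Pool.Agent.helper61.CSW.Base
import Pool.Agent.helper61.CSW.XP.SpecS
import Pool.Agent.helper61.CSW.Exports

/-! xp:LEAX (adapted from helper36/PP/LEA.lean) -/

set_option autoImplicit false

open Complex Metric Set Filter Topology MeasureTheory
open YPPS (fd fdd pre TT CV Br)
open PPS (cn)
open MPS (PsiM)

noncomputable section

open CSS (SE)

namespace YXPS

theorem LEAX : LEAX_stmt := by
  intro f P B G Ω Q hcyc hO hL
  have h1 : ∀ q ≤ Q, ∀ w ∈ Ω, G q w ∉ P := by
    intro q
    induction q with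
    | zero => intro _ w hw; exact hL.nat0.av w hw
    | succ q ih =>
      intro hq w hw he
      refine ih (by omega) w hw ?_
      rw [← (hL.rel q (by omega) w hw).1]
      exact hcyc.inv _ he
  have h2 : ∀ q ≤ Q, ∀ w ∈ Ω, ∀ y : ℂ, f.eval y = G q w → y ∉ P := by
    intro q hq w hw y hy he
    refine h1 q hq w hw ?_
    rw [← hy]
    exact hcyc.inv _ he
  have hd : ∀ q ≤ Q, DifferentiableOn ℂ (fun w => deriv (G q) w ^ 2) Ω := fun q hq =>
    ((hL.diff q hq).deriv hO).pow 2
  have h4 : ∀ q < Q, ∀ w ∈ Ω, deriv (G q) w = fd f (G (q + 1) w) * deriv (G (q + 1)) w := by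
    intro q hq w hw
    have h1 : DifferentiableAt ℂ (G (q + 1)) w := (hL.diff (q + 1) hq).differentiableAt (hO.mem_nhds hw)
    have h2 : HasDerivAt (fun z => f.eval (G (q + 1) z))
        (f.derivative.eval (G (q + 1) w) * deriv (G (q + 1)) w) w :=
      (f.hasDerivAt (G (q + 1) w)).comp w h1.hasDerivAt
    have h3 : G q =ᶠ[𝓝 w] fun z => f.eval (G (q + 1) z) := by
      filter_upwards [hO.mem_nhds hw] with z hz
      exact ((hL.rel q hq z hz).1).symm
    rw [h3.deriv_eq, h2.deriv]
    rfl
  refine ⟨h1, h2, fun q hq => ?_, h4, ?_⟩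
  · exact (hd q hq).mul (LEAX_B hcyc.dif (G q) Ω (hL.diff q hq) (h1 q hq))
  · intro q
    induction q with
    | zero =>
      intro _ w hw h0
      have := hL.nat0.eq w hw
      rw [h0] at this
      norm_num at this
    | succ q ih =>
      intro hq w hw h0
      apply ih (by omega) w hw
      rw [h4 q (by omega) w hw, h0, mul_zero]

end YXPS
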