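import Pool.Agent.helper61.CSW.Base
import Pool.Agent.helper61.CSW.XP.SpecS
import Pool.Agent.helper61.CSW.Exports

/-! xp:LEIX (adapted from helper36/PP/LEI.lean) -/

set_option autoImplicit false

open Complex Metric Set Filter Topology MeasureTheory
open YPPS (fd fdd pre TT CV Br)
open PPS (cn)
open MPS (PsiM)

noncomputable section

open CSS (SE)

namespace YXPS

theorem LEIX_sum (f : SE) (B : ℂ → ℂ) (G : ℂ → ℂ) (w z : ℂ) :
    ∑' y : pre f z, brv f B G w y = deriv G w ^ 2 * TT f (B) z := by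
  unfold TT
  rw [← tsum_mul_left]
  refine tsum_congr fun y => ?_
  unfold brv
  rw [div_pow]
  ring

theorem LEIX_norm (f : SE) (B : ℂ → ℂ) (G : ℂ → ℂ) (w y : ℂ) :
    ‖brv f B G w y‖ = ‖B y‖ / ‖fd f y‖ ^ 2 * ‖deriv G w‖ ^ 2 := by
  unfold brv
  rw [norm_mul, norm_pow, norm_div, div_pow]
  ring

theorem LEIX (hSMB : YPPS.SMB_stmt) (hLEA : LEAX_stmt) : LEIX_stmt := by
  intro f P B G Ω Q hc hΩ hL
  obtain ⟨hA1, hA2, hA3, hder, hne⟩ := hLEA f P B G Ω Q hc hΩ hL
  refine ⟨fun w hw => hL.nat0.eq w hw, ?_, ?_, ?_, ?_⟩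
  · intro q hq w hw
    refine ⟨(hL.rel q hq w hw).1, ?_⟩
    unfold brv tau
    rw [hder q hq w hw, mul_div_assoc, mul_comm (fd f (G (q + 1) w)),
      div_mul_cancel₀ _ (hL.rel q hq w hw).2]
  · intro q hq w hw
    have h := ((hSMB f B hc.dec (G q w)).2).mul_right (‖deriv (G q) w‖ ^ 2)
    refine h.congr fun y => ?_
    rw [LEIX_norm]
  · intro q hq w hw
    rw [LEIX_sum]
    unfold tau er
    ring
  · intro q hq w hw
    unfold Df
    rw [sub_mul]
    congr 1
    · rw [← tsum_mul_right]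
      refine tsum_congr fun y => ?_
      rw [LEIX_norm]
    · unfold tau er
      rw [← mul_sub, norm_mul, norm_pow]
      ring_nf

end YXPS
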