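import Pool.Agent.helper61.CSW.Base
import Pool.Agent.helper61.CSW.XP.SpecS
import Pool.Agent.helper61.CSW.Exports

/-! xp:LVG: the level functions over an arbitrary map -/

set_option autoImplicit false

open Complex Metric Set Filter Topology MeasureTheory
open YPPS (fd fdd pre TT CV Br)
open PPS (cn)
open MPS (PsiM)

noncomputable section

open CSS (SE)

namespace YXPS

theorem LVG_norm (f : SE) (B : ℂ → ℂ) (G : ℂ → ℂ) (w y : ℂ) :
    ‖brv f B G w y‖ = ‖deriv G w‖ ^ 2 * (‖B y‖ / ‖fd f y‖ ^ 2) := by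
  unfold brv
  rw [norm_mul, norm_pow, norm_div, div_pow]
  ring

theorem LVG_sum (f : SE) (B : ℂ → ℂ) (G : ℂ → ℂ) (w z : ℂ) :
    ∑' y : pre f z, brv f B G w y = deriv G w ^ 2 * TT f B z := by
  unfold TT
  rw [← tsum_mul_left]
  refine tsum_congr fun y => ?_
  unfold brv
  rw [div_pow]
  ring

theorem LVG_summ (f : SE) (B : ℂ → ℂ) (G : ℂ → ℂ) (w z : ℂ)
    (hs : Summable fun y : pre f z => ‖B y‖ / ‖fd f y‖ ^ 2) :
    Summable fun y : pre f z => ‖brv f B G w y‖ := by
  refine (hs.mul_left (‖deriv G w‖ ^ 2)).congr fun y => ?_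
  rw [LVG_norm]

/-- one level. -/
theorem LVG_one (f : SE) (B : ℂ → ℂ) (G : ℕ → ℂ → ℂ) (q : ℕ) (w : ℂ)
    (hs : Summable fun y : pre f (G q w) => ‖B y‖ / ‖fd f y‖ ^ 2)
    (h1 : f.eval (G (q + 1) w) = G q w) (h0 : fd f (G (q + 1) w) ≠ 0)
    (hd : deriv (G q) w = fd f (G (q + 1) w) * deriv (G (q + 1)) w) :
    lev B G (q + 1) w ≤ dens f B (G q) w + ‖tau B G q w‖ - ‖tau B G (q + 1) w‖ := by
  classical
  have hm : G (q + 1) w ∈ pre f (G q w) := h1
  have hb : brv f B (G q) w (G (q + 1) w) = tau B G (q + 1) w := by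
    unfold brv tau
    rw [hd, mul_div_assoc, mul_comm (fd f (G (q + 1) w)), div_mul_cancel₀ _ h0]
  have hN : Summable fun y : pre f (G q w) => ‖brv f B (G q) w y‖ := LVG_summ f B (G q) w _ hs
  have hC : Summable fun y : pre f (G q w) => brv f B (G q) w y := hN.of_norm
  have e1 : tau B G q w = (∑' y : pre f (G q w), brv f B (G q) w y) +
      deriv (G q) w ^ 2 * er f B (G q w) := by
    rw [LVG_sum]
    unfold tau er
    ring
  have e2 : Df f B (G q w) * ‖deriv (G q) w‖ ^ 2 =
      (∑' y : pre f (G q w), ‖brv f B (G q) w y‖) -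
        ‖tau B G q w - deriv (G q) w ^ 2 * er f B (G q w)‖ := by
    unfold Df
    rw [sub_mul]
    congr 1
    · rw [← tsum_mul_right]
      refine tsum_congr fun y => ?_
      rw [LVG_norm]
      ring
    · unfold tau er
      rw [← mul_sub, norm_mul, norm_pow]
      ring_nf
  have e3 : dens f B (G q) w =
      Df f B (G q w) * ‖deriv (G q) w‖ ^ 2 + 2 * ‖deriv (G q) w ^ 2 * er f B (G q w)‖ := by
    unfold dens
    rw [norm_mul, norm_pow]
    ring
  have s1 := hC.tsum_eq_add_tsum_ite ⟨G (q + 1) w, hm⟩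
  have s2 := hN.tsum_eq_add_tsum_ite ⟨G (q + 1) w, hm⟩
  simp only [] at s1 s2
  rw [hb] at s1 s2
  rw [s1] at e1
  rw [s2] at e2
  set E := deriv (G q) w ^ 2 * er f B (G q w) with hE
  set O := (∑' y : pre f (G q w), if y = (⟨G (q + 1) w, hm⟩ : pre f (G q w)) then (0 : ℂ) else
    brv f B (G q) w y) with hO
  have e8 : ‖O‖ ≤ ∑' y : pre f (G q w), if y = (⟨G (q + 1) w, hm⟩ : pre f (G q w)) then (0 : ℝ) else
      ‖brv f B (G q) w y‖ := by
    have h : ∀ y : pre f (G q w), ‖(if y = (⟨G (q + 1) w, hm⟩ : pre f (G q w)) then (0 : ℂ) else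
        brv f B (G q) w y)‖ = if y = (⟨G (q + 1) w, hm⟩ : pre f (G q w)) then (0 : ℝ) else
      ‖brv f B (G q) w y‖ := by
      intro y
      split_ifs
      · simp
      · rfl
    have hS : Summable fun y : pre f (G q w) => ‖(if y = (⟨G (q + 1) w, hm⟩ : pre f (G q w)) then (0 : ℂ)
        else brv f B (G q) w y)‖ := by
      refine Summable.of_nonneg_of_le (fun y => norm_nonneg _) (fun y => ?_) hN
      rw [h y]
      split_ifs
      · exact norm_nonneg _
      · exact le_rfl
    refine (norm_tsum_le_tsum_norm hS).trans (le_of_eq ?_)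
    exact tsum_congr h
  have e5 : lev B G (q + 1) w = ‖O + E‖ := by
    unfold lev
    rw [Nat.add_sub_cancel, e1]
    congr 1
    ring
  have e6 := norm_add_le O E
  have e7 := norm_sub_le (tau B G q w) E
  rw [e5, e3]
  linarith

theorem LVG : LVG_stmt := by
  intro f B G Ω Q _ hsum hO hdiff hrel w hw
  have hd : ∀ q < Q, deriv (G q) w = fd f (G (q + 1) w) * deriv (G (q + 1)) w := by
    intro q hq
    have h1 : DifferentiableAt ℂ (G (q + 1)) w := (hdiff (q + 1) hq).differentiableAt (hO.mem_nhds hw)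
    have h2 : HasDerivAt (fun z => f.eval (G (q + 1) z))
        (f.derivative.eval (G (q + 1) w) * deriv (G (q + 1)) w) w :=
      (f.hasDerivAt (G (q + 1) w)).comp w h1.hasDerivAt
    have h3 : G q =ᶠ[𝓝 w] fun z => f.eval (G (q + 1) z) := by
      filter_upwards [hO.mem_nhds hw] with z hz
      exact ((hrel q hq z hz).1).symm
    rw [h3.deriv_eq, h2.deriv]
    rfl
  have key : ∀ m ≤ Q, ∑ q ∈ Finset.Icc 1 m, lev B G q w ≤
      ∑ q ∈ Finset.range m, dens f B (G q) w + ‖tau B G 0 w‖ - ‖tau B G m w‖ := by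
    intro m
    induction m with
    | zero => intro _; simp
    | succ m ih =>
      intro hm
      have h1 := ih (by omega)
      have h2 := LVG_one f B G m w (hsum _) (hrel m (by omega) w hw).1 (hrel m (by omega) w hw).2
        (hd m (by omega))
      rw [Finset.sum_Icc_succ_top (by omega), Finset.sum_range_succ]
      linarith
  have key2 : ∀ m, ‖tau B G 0 w - tau B G m w‖ ≤ ∑ q ∈ Finset.Icc 1 m, lev B G q w := by
    intro m
    induction m with
    | zero => simp
    | succ m ih =>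
      rw [Finset.sum_Icc_succ_top (by omega)]
      have e2 : tau B G 0 w - tau B G (m + 1) w = (tau B G 0 w - tau B G m w) +
          (tau B G m w - tau B G (m + 1) w) := by ring
      have e3 : lev B G (m + 1) w = ‖tau B G m w - tau B G (m + 1) w‖ := by
        unfold lev
        rw [Nat.add_sub_cancel]
      rw [e2, e3]
      exact (norm_add_le _ _).trans (by linarith)
  refine ⟨key Q le_rfl, fun u hu hu0 => ?_⟩
  have h1 := key Q le_rfl
  have h2 := key2 Q
  have h3 : (u * (tau B G 0 w - tau B G Q w)).re = ‖tau B G 0 w‖ - (u * tau B G Q w).re := by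
    rw [mul_sub, Complex.sub_re, hu0, Complex.ofReal_re]
  have h4 : (u * tau B G Q w).re ≤ ‖tau B G Q w‖ := by
    refine (Complex.re_le_norm _).trans ?_
    rw [norm_mul, hu, one_mul]
  rw [h3]
  linarith

end YXPS
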