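import Pool.Agent.helper61.CSW.Base
import Pool.Agent.helper61.CSW.XP.SpecS
import Pool.Agent.helper61.CSW.Exports

/-! xp:LVX (adapted from helper36/PP/LV.lean) -/

set_option autoImplicit false

open Complex Metric Set Filter Topology MeasureTheory
open YPPS (fd fdd pre TT CV Br)
open PPS (cn)
open MPS (PsiM)

noncomputable section

open CSS (SE)

namespace YXPS

theorem LVX_dens (f : SE) (B : ℂ → ℂ) (G : ℕ → ℂ → ℂ) (q : ℕ)
    (w : ℂ) : dens f B (G q) w =
      Df f B (G q w) * ‖deriv (G q) w‖ ^ 2 + 2 * ‖deriv (G q) w ^ 2 * er f B (G q w)‖ := by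
  unfold dens
  rw [norm_mul, norm_pow]
  ring

/-- splitting off one term of a sum over a set. -/
theorem LVX_splt {M : Type*} [NormedAddCommGroup M] [CompleteSpace M] (S : Set ℂ) (F : ℂ → M)
    (y₀ : ℂ) (hy : y₀ ∈ S) (hS : Summable fun y : S => F y) :
    (Summable fun y : (S \ {y₀} : Set ℂ) => F y) ∧
    ∑' y : S, F y = F y₀ + ∑' y : (S \ {y₀} : Set ℂ), F y := by
  have h1 : Summable (F ∘ ((↑) : (S \ {y₀} : Set ℂ) → ℂ)) := by
    have := hS.comp_injective (i := Set.inclusion (Set.diff_subset : S \ {y₀} ⊆ S))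
      (Set.inclusion_injective _)
    exact this
  have h2 : Summable (F ∘ ((↑) : ({y₀} : Set ℂ) → ℂ)) := (Set.finite_singleton y₀).summable F
  have h3 : Disjoint ({y₀} : Set ℂ) (S \ {y₀}) := Set.disjoint_sdiff_right
  have h4 : ({y₀} : Set ℂ) ∪ (S \ {y₀}) = S := by
    rw [Set.union_diff_cancel]
    exact Set.singleton_subset_iff.2 hy
  refine ⟨h1, ?_⟩
  have h5 := Summable.tsum_union_disjoint h3 h2 h1
  rw [tsum_congr_set_coe F h4] at h5
  rw [h5, tsum_singleton]

/-- LV. -/
theorem LVX (hLEI : LEIX_stmt) (hMI : MIX_stmt) : LVX_stmt := by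
  intro f P B G Ω Q hb hΩ hL
  obtain ⟨h0, h1, hS, h2, h3⟩ := hLEI f P B G Ω Q hb hΩ hL
  have hSc : ∀ q ≤ Q, ∀ w ∈ Ω, Summable fun y : pre f (G q w) => brv f B (G q) w y :=
    fun q hq w hw => (hS q hq w hw).of_norm
  have hnn : ∀ z, 0 ≤ Df f B z := (hMI f P B hb).2.2.2.2
  have hre : ∀ z : ℂ, z.re ≤ ‖z‖ := Complex.re_le_norm
  -- the others, for one level
  have hoth : ∀ q < Q, ∀ w ∈ Ω,
      ∑' y : (pre f (G q w) \ {G (q + 1) w} : Set ℂ), ‖brv f B (G q) w y‖ =
        Df f B (G q w) * ‖deriv (G q) w‖ ^ 2 +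
          ‖tau B G q w - deriv (G q) w ^ 2 * er f B (G q w)‖ - ‖tau B G (q + 1) w‖ := by
    intro q hq w hw
    obtain ⟨ha, hb'⟩ := h1 q hq w hw
    have e1 := h3 q hq.le w hw
    rw [(LVX_splt (pre f (G q w)) (fun y => ‖brv f B (G q) w y‖) _ ha (hS q hq.le w hw)).2, hb'] at e1
    linarith
  have hothc : ∀ q < Q, ∀ w ∈ Ω,
      ∑' y : (pre f (G q w) \ {G (q + 1) w} : Set ℂ), brv f B (G q) w y =
        tau B G q w - tau B G (q + 1) w - deriv (G q) w ^ 2 * er f B (G q w) := by
    intro q hq w hw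
    obtain ⟨ha, hb'⟩ := h1 q hq w hw
    have e1 := h2 q hq.le w hw
    rw [(LVX_splt (pre f (G q w)) (fun y => brv f B (G q) w y) _ ha (hSc q hq.le w hw)).2, hb'] at e1
    linear_combination -e1
  have hA : ∀ Q' ≤ Q, ∀ w ∈ Ω, (‖tau B G Q' w‖ - (tau B G Q' w).re) +
    ∑ q ∈ Finset.range Q',
      (lev B G (q + 1) w - (tau B G q w - tau B G (q + 1) w).re) ≤
    ∑ q ∈ Finset.range Q', dens f B (G q) w := by
    intro Q'
    induction Q' with
    | zero =>
      intro _ w hw
      simp [h0 w hw]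
    | succ m ih =>
      intro hm w hw
      have ih' := ih (by omega) w hw
      have e1 := hoth m (by omega) w hw
      have e2 := hothc m (by omega) w hw
      have e3 := LVX_dens f B G m w
      have ha := (h1 m (by omega) w hw).1
      have e4 : ‖∑' y : (pre f (G m w) \ {G (m + 1) w} : Set ℂ), brv f B (G m) w y‖ ≤
          ∑' y : (pre f (G m w) \ {G (m + 1) w} : Set ℂ), ‖brv f B (G m) w y‖ :=
        norm_tsum_le_tsum_norm
          (LVX_splt (pre f (G m w)) (fun y => ‖brv f B (G m) w y‖) _ ha (hS m (by omega) w hw)).1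
      rw [e2, e1] at e4
      rw [Finset.sum_range_succ, Finset.sum_range_succ, e3]
      set E := deriv (G m) w ^ 2 * er f B (G m w) with hE
      have e5 : lev B G (m + 1) w ≤
          ‖tau B G m w - tau B G (m + 1) w - E‖ + ‖E‖ := by
        unfold lev
        rw [Nat.add_sub_cancel]
        have := norm_add_le (tau B G m w - tau B G (m + 1) w - E) E
        rwa [sub_add_cancel] at this
      have e6 := norm_sub_le (tau B G m w) E
      have e7 : (tau B G m w - tau B G (m + 1) w).re = (tau B G m w).re - (tau B G (m + 1) w).re :=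
        Complex.sub_re _ _
      linarith
  have hlev : ∀ q w, 0 ≤ lev B G (q + 1) w - (tau B G q w - tau B G (q + 1) w).re := by
    intro q w
    unfold lev
    rw [Nat.add_sub_cancel]
    exact sub_nonneg.2 (hre _)
  have hB : ∀ Q' ≤ Q, ∀ w ∈ Ω,
      ∑' y : pre f (G Q' w), (‖brv f B (G Q') w y‖ - (brv f B (G Q') w y).re) ≤
        ∑ q ∈ Finset.range (Q' + 1), dens f B (G q) w := by
    intro Q' hQ' w hw
    have e1 := h2 Q' hQ' w hw
    have e2 := h3 Q' hQ' w hw
    have e3 := hA Q' hQ' w hw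
    have e4 : 0 ≤ ∑ q ∈ Finset.range Q',
        (lev B G (q + 1) w - (tau B G q w - tau B G (q + 1) w).re) :=
      Finset.sum_nonneg fun q _ => hlev q w
    have e0 : Summable fun y : pre f (G Q' w) => (brv f B (G Q') w y).re :=
      Complex.reCLM.summable (hSc Q' hQ' w hw)
    rw [Finset.sum_range_succ, LVX_dens, e2, Summable.tsum_sub (hS Q' hQ' w hw) e0]
    have e5 : (tau B G Q' w).re = (∑' y : pre f (G Q' w), (brv f B (G Q') w y).re) +
        (deriv (G Q') w ^ 2 * er f B (G Q' w)).re := by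
      rw [← Complex.re_tsum (hSc Q' hQ' w hw)]
      conv_lhs => rw [e1]
      rw [Complex.add_re]
    have e6 := norm_sub_le (tau B G Q' w) (deriv (G Q') w ^ 2 * er f B (G Q' w))
    have e7 := hre (deriv (G Q') w ^ 2 * er f B (G Q' w))
    linarith
  refine ⟨hA, hB, ?_, ?_, ?_⟩
  · intro q w
    have e1 := hnn (G q w)
    unfold dens
    constructor
    · positivity
    · have : 0 ≤ Df f B (G q w) * ‖deriv (G q) w‖ ^ 2 := by positivity
      nlinarith
  · intro q
    induction q with
    | zero =>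
      intro _ w hw
      simp [h0 w hw]
    | succ m ih =>
      intro hm w hw
      have ih' := ih (by omega) w hw
      rw [Finset.sum_Icc_succ_top (by omega)]
      have e2 : tau B G (m + 1) w - 1 = (tau B G m w - 1) -
          (tau B G m w - tau B G (m + 1) w) := by ring
      have e3 : lev B G (m + 1) w = ‖tau B G m w - tau B G (m + 1) w‖ := by
        unfold lev
        rw [Nat.add_sub_cancel]
      rw [e2, e3]
      exact (norm_sub_le _ _).trans (add_le_add ih' le_rfl)
  · intro q hq w hw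
    have e1 := hoth q hq w hw
    have e2 := hA q hq.le w hw
    have e3 := norm_sub_le (tau B G q w) (deriv (G q) w ^ 2 * er f B (G q w))
    have e4 : 0 ≤ ∑ q ∈ Finset.range q,
        (lev B G (q + 1) w - (tau B G q w - tau B G (q + 1) w).re) :=
      Finset.sum_nonneg fun q _ => hlev q w
    have e5 := hre (tau B G (q + 1) w)
    have e6 := LVX_dens f B G q w
    have e7 : (tau B G q w - tau B G (q + 1) w).re = (tau B G q w).re - (tau B G (q + 1) w).re :=
      Complex.sub_re _ _
    have e8 : ‖deriv (G q) w ^ 2 * er f B (G q w)‖ = ‖er f B (G q w)‖ * ‖deriv (G q) w‖ ^ 2 := by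
      rw [norm_mul, norm_pow, mul_comm]
    rw [Finset.sum_range_succ, e6, e1, e7]
    have e9 : 0 ≤ ‖er f B (G q w)‖ * ‖deriv (G q) w‖ ^ 2 := by positivity
    rw [e8] at e3 ⊢
    linarith

end YXPS
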