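import Pool.Agent.helper61.CSW.Base
import Pool.Agent.helper61.CSW.XP.SpecS
import Pool.Agent.helper61.CSW.Exports

/-!
# xp:MAX (adapted from helper95/PP/MA.lean)
-/

set_option autoImplicit false

open Complex Metric Set Filter Topology MeasureTheory
open YPPS (fd fdd pre TT CV Br)
open PPS (cn)
open MPS (PsiM)

noncomputable section

open CSS (SE)

namespace YXPS

/-- MAX. -/
theorem MAX (hMI : MIX_stmt) : MAX_stmt := by
  intro f P B R E had hE Q M Ω G hG hmult
  obtain ⟨-, -, hmer, hmDf, hpos⟩ := hMI f P B had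
  have hS : ∀ q < Q, MeasurableSet (G q '' Ω q) := fun q hq =>
    MPS.MA_meas (hG q hq).1 (hG q hq).2.1 (hG q hq).2.2.1
  have hSD : ∀ q < Q, G q '' Ω q ⊆ (univ : Set ℂ) := fun q hq => subset_univ _
  constructor
  · have h1 : ∀ q ∈ Finset.range Q, ∫⁻ w in Ω q, ENNReal.ofReal (dens f B (G q) w) =
        ∫⁻ z in G q '' Ω q, ENNReal.ofReal (Df f B z + 2 * ‖er f B z‖) := by
      intro q hq
      have hq' := hG q (Finset.mem_range.mp hq)
      exact MPS.MA_cov hq'.1 hq'.2.1 hq'.2.2.1 (fun z => Df f B z + 2 * ‖er f B z‖)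
    rw [Finset.sum_congr rfl h1]
    have hmeas : Measurable fun z => ENNReal.ofReal (Df f B z + 2 * ‖er f B z‖) :=
      (hmDf.add (hmer.norm.const_mul 2)).ennreal_ofReal
    refine (MPS.MA_mult hS MeasurableSet.univ hSD hmult hmeas).trans ?_
    gcongr
  · have h1 : ∀ q ∈ Finset.range Q,
        ∫⁻ w in Ω q, ENNReal.ofReal (‖er f B (G q w)‖ * ‖deriv (G q) w‖ ^ 2) =
        ∫⁻ z in G q '' Ω q, ENNReal.ofReal ‖er f B z‖ := by
      intro q hq
      have hq' := hG q (Finset.mem_range.mp hq)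
      exact MPS.MA_cov hq'.1 hq'.2.1 hq'.2.2.1 (fun z => ‖er f B z‖)
    rw [Finset.sum_congr rfl h1]
    refine (MPS.MA_mult hS MeasurableSet.univ hSD hmult hmer.norm.ennreal_ofReal).trans ?_
    gcongr
    refine le_trans (lintegral_mono fun z => ENNReal.ofReal_le_ofReal ?_) hE
    have h2 := hpos z
    have h3 := norm_nonneg (er f B z)
    linarith

end YXPS
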