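import Pool.Agent.helper61.CSW.Base
import Pool.Agent.helper61.CSW.XP.SpecS
import Pool.Agent.helper61.CSW.PP.MI
import Pool.Agent.helper61.CSW.Exports

/-!
# xp:MIX: measurability, positivity of the deficit (adapted from helper69/PP/MI.lean)
-/

set_option autoImplicit false

open Complex Metric Set Filter Topology MeasureTheory
open YPPS (fd fdd pre TT CV Br)
open PPS (cn)
open MPS (PsiM)

noncomputable section

open CSS (SE)

namespace YXPS

theorem MIX_B {f : SE} {P : Set ℂ} {B : ℂ → ℂ} (h : AD f P B) : Measurable B := by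
  refine ContinuousOn.measurable_of_countable_compl (s := Pᶜ) h.dif.continuousOn ?_
  rw [compl_compl]
  exact h.fin.countable

theorem MIX (hMS : YPPS.MS_stmt) (hSMB : YPPS.SMB_stmt) : MIX_stmt := by
  intro f P B h
  have h1 := MIX_B h
  have h2 := YPPS.MI_TTs hMS hSMB f B h1 h.dec
  refine ⟨h1, h2, h1.sub h2, ?_, ?_⟩
  · have h3 := YPPS.MI_TTn hMS f h.deg B h1 (fun z => (hSMB f B h.dec z).2)
    exact h3.sub h2.norm
  · intro z
    unfold Df
    have h4 := YPPS.MI_posT hSMB f B h.dec z
    linarith

end YXPS
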