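import Pool.Agent.helper61.CSW.Base
import Pool.Agent.helper61.CSW.XP.SpecS
import Pool.Agent.helper61.CSW.Exports

/-! v3:PT3. Pointwise bounds in the chain step (adapted from pp:PT2 by helper75). -/

set_option autoImplicit false

open Complex Metric Set Filter Topology MeasureTheory
open YPPS (fd fdd pre TT CV Br)
open PPS (cn)
open MPS (PsiM)

noncomputable section

open CSS (SE)

namespace YXPS

theorem PT3_sum (B : ℂ → ℂ) (G : ℕ → ℂ → ℂ) (p : ℕ) (w : ℂ) :
    ∑ q ∈ Finset.Icc 1 p, ‖PT3_fam B G q w‖ = ∑ q ∈ Finset.Icc 1 p, lev B G q w := rfl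

theorem PT3 (hS3L : S3L_stmt) (hHSM : MPS.HSM_stmt) (hS3A : S3A_stmt) (hLEA : LEAX_stmt)
    (hLV : LVX_stmt) : PT3_stmt := by
  intro n k f P B R E η h r₀ χ G0 PP M T G Q hH p hp1 hpQ w t ht hw
  have hsu := hH.su3
  have hn := hsu.hn
  have hε : 0 ≤ eT M E η := by
    have h1 : 0 ≤ η := (Finset.sum_nonneg fun q _ => norm_nonneg _).trans hsu.tlev
    have h2 := hsu.E0
    unfold eT
    positivity
  have hanti0 : ∀ m q : ℕ, q + m ≤ Q → T (q + m) ≤ T q := by
    intro m
    induction m with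
    | zero => intro q _; exact le_refl _
    | succ m ih =>
      intro q hq
      exact le_trans (hH.sys.anti (q + m) (by omega)) (ih q (by omega))
  have hanti : ∀ q, q ≤ p → T p ≤ T q := by
    intro q hq
    have := hanti0 (p - q) q (by omega)
    rwa [Nat.add_sub_cancel' hq] at this
  obtain ⟨-, -, -, hlev, -, -, -⟩ := hS3A n k f P B R E η h r₀ χ G0 PP M T G Q hH
  have hL := hlev p hpQ
  set Ω : Set ℂ := ball (0 : ℂ) (T p) with hΩ
  have hΩo : IsOpen Ω := isOpen_ball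
  obtain ⟨-, -, htau, -, -⟩ := hLEA f P B G Ω p hsu.ad hΩo hL
  have hsub : ball w t ⊆ Ω := by
    intro z hz
    rw [hΩ, mem_ball_zero_iff]
    rw [mem_ball_iff_norm] at hz
    calc ‖z‖ = ‖(z - w) + w‖ := by congr 1; ring
      _ ≤ ‖z - w‖ + ‖w‖ := norm_add_le _ _
      _ < t + ‖w‖ := by linarith
      _ ≤ T p := by linarith
  have hwΩ : w ∈ Ω := hsub (mem_ball_self ht)
  have hd : ∀ q ∈ Finset.Icc 1 p, DifferentiableOn ℂ (PT3_fam B G q) Ω := by
    intro q hq
    rw [Finset.mem_Icc] at hq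
    exact (htau (q - 1) (by omega)).sub (htau q hq.2)
  have h1 := hHSM ℕ (Finset.Icc 1 p) (PT3_fam B G) w t ht
    (fun i hi => (hd i hi).mono hsub)
  simp only [PT3_sum B G p] at h1
  have hnn : ∀ q z, 0 ≤ lev B G q z := fun q z => norm_nonneg _
  have hcont : ∀ q ∈ Finset.Icc 1 p, ContinuousOn (fun z => lev B G q z) Ω := by
    intro q hq
    exact (hd q hq).continuousOn.norm
  have h2 : ∫⁻ z in ball w t, ENNReal.ofReal (∑ q ∈ Finset.Icc 1 p, lev B G q z) =
      ∑ q ∈ Finset.Icc 1 p, ∫⁻ z in ball w t, ENNReal.ofReal (lev B G q z) := by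
    rw [← lintegral_finsetSum']
    · refine lintegral_congr fun z => ?_
      rw [ENNReal.ofReal_sum_of_nonneg fun q _ => hnn q z]
    · intro q hq
      exact ((hcont q hq).mono hsub).aemeasurable measurableSet_ball |>.ennreal_ofReal
  have h3 : ∑ q ∈ Finset.Icc 1 p, ∫⁻ z in ball w t, ENNReal.ofReal (lev B G q z) ≤
      ENNReal.ofReal (eT M E η) := by
    refine le_trans ?_ (hS3L n k f P B R E η h r₀ χ G0 PP M T G Q hH)
    refine le_trans (Finset.sum_le_sum fun q hq => ?_)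
      (Finset.sum_le_sum_of_subset (Finset.Icc_subset_Icc le_rfl hpQ))
    refine lintegral_mono_set ?_
    exact hsub.trans (ball_subset_ball (hanti q (Finset.mem_Icc.mp hq).2))
  rw [h2] at h1
  have h4 := (ENNReal.ofReal_le_ofReal_iff (by positivity)).mp (h1.trans h3)
  have hdeg : 1 ≤ f.natDegree := by
    rw [hsu.hdeg]
    omega
  refine ⟨?_, (hLV f P B G Ω p hsu.ad hΩo hL).2.2.2.1 p le_rfl w hwΩ⟩
  set S := ∑ q ∈ Finset.Icc 1 p, lev B G q w with hS
  have hS0 : 0 ≤ S := Finset.sum_nonneg fun q _ => hnn q w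
  have hpi : (3.14 : ℝ) < Real.pi := Real.pi_gt_d2
  rw [le_div_iff₀ (by positivity)]
  have h5 : 1 * (S * t ^ 2) ≤ Real.pi * t ^ 2 * S := by
    have : 0 ≤ S * t ^ 2 := by positivity
    nlinarith
  nlinarith

end YXPS
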