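import Pool.Agent.helper61.CSW.Base
import Pool.Agent.helper61.CSW.XP.SpecS
import Pool.Agent.helper61.CSW.Exports

/-!
# Project v3: (MP_af9036_an): module S3L, the `L¹` bound (adapted from Pool/Agent/helper16/PP/P2L.lean)
-/

set_option autoImplicit false

open Complex Metric Set Filter Topology MeasureTheory
open YPPS (fd fdd pre TT CV Br)
open PPS (cn)
open MPS (PsiM)

noncomputable section

open CSS (SE)

namespace YXPS

theorem S3L (hLEA : LEAX_stmt) (hLV : LVX_stmt) (hMI : MIX_stmt) (hMA : MAX_stmt) (hHAR : MPS.HAR_stmt)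
    (hP2A : S3A_stmt) : S3L_stmt := by
  intro n k f P B R E η ρ r₀ χ G0 PP M T G Q H
  obtain ⟨-, hinj, hmaps, hlevs, hmult, -, hS0⟩ := hP2A n k f P B R E η ρ r₀ χ G0 PP M T G Q H
  obtain ⟨su, sys, hQk⟩ := H
  have hρ : 0 < ρ := su.h0
  have hρ1 : ρ ≤ 1 := su.h1
  have hdeg1 : 1 ≤ f.natDegree := by rw [su.hdeg]; linarith [su.hn]
  set x : ℂ := 0 with hx
  have hE0 : 0 ≤ E := su.E0
  have hπ : 0 < Real.pi := Real.pi_pos
  have hε : 0 ≤ η := (Finset.sum_nonneg fun q _ => norm_nonneg _).trans su.tlev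
  -- monotonicity of the radii
  have hanti : ∀ q q', q ≤ q' → q' ≤ Q → T q' ≤ T q := by
    intro q q' hqq
    induction q', hqq using Nat.le_induction with
    | base => intro _; exact le_rfl
    | succ m hm ih => intro hmQ; exact (sys.anti m (by omega)).trans (ih (by omega))
  have hTρ : ∀ q ≤ Q, T q ≤ 1 := fun q hq => ((hanti 0 q (by omega) hq).trans sys.t0).trans hρ1
  have hTlow : ∀ q ≤ Q, 0 < T q := fun q hq => sys.pos q hq
  have hDD : ∀ q q', q ≤ q' → q' ≤ Q → ball x (T q') ⊆ ball x (T q) :=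
    fun q q' h1 h2 => ball_subset_ball (hanti q q' h1 h2)
  -- the level functions
  let h : ℕ → ℂ → ℂ := fun q w => tau B G q w - tau B G (q + 1) w
  have hlev : ∀ q w, lev B G (q + 1) w = ‖h q w‖ := fun q w => rfl
  have hh : ∀ q < Q, DifferentiableOn ℂ (h q) (ball x (T (q + 1))) := by
    intro q hq
    have h1 := (hLEA f P B G (ball x (T (q + 1))) (q + 1) su.ad isOpen_ball
      (hlevs (q + 1) (by omega))).2.2.1
    exact (h1 q (by omega)).sub (h1 (q + 1) le_rfl)
  -- the deficits
  let F : ℕ → ℂ → ℝ := fun q w => ‖h q w‖ - (h q w).re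
  have hF0 : ∀ q w, 0 ≤ F q w := fun q w => sub_nonneg.2 (Complex.re_le_norm _)
  have hFc : ∀ q < Q, ContinuousOn (F q) (ball x (T (q + 1))) := by
    intro q hq
    exact ((hh q hq).continuousOn.norm).sub
      (Complex.continuous_re.comp_continuousOn (hh q hq).continuousOn)
  have hFm : ∀ q < Q, AEMeasurable (fun w => ENNReal.ofReal (F q w))
      (volume.restrict (ball x (T (q + 1)))) := by
    intro q hq
    exact ((hFc q hq).aemeasurable measurableSet_ball).ennreal_ofReal
  have hdm : ∀ q < Q, AEMeasurable (fun w => ENNReal.ofReal (dens f B (G q) w))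
      (volume.restrict (ball x (T (q + 1)))) := by
    intro q hq
    have hG : AEMeasurable (G q) (volume.restrict (ball x (T (q + 1)))) :=
      (((sys.diff q (by omega)).continuousOn).mono (hDD q (q + 1) (by omega) (by omega))).aemeasurable
        measurableSet_ball
    obtain ⟨-, -, her, hDf, -⟩ := hMI f P B su.ad
    refine AEMeasurable.ennreal_ofReal ?_
    unfold dens
    exact ((hDf.comp_aemeasurable hG).add ((her.comp_aemeasurable hG).norm.const_mul 2)).mul
      ((measurable_deriv (G q)).norm.pow_const 2).aemeasurable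
  -- the total mass
  have hcond : ∀ q < Q, IsOpen (ball x (T (q + 1))) ∧ DifferentiableOn ℂ (G q) (ball x (T (q + 1))) ∧
      InjOn (G q) (ball x (T (q + 1))) ∧ MapsTo (G q) (ball x (T (q + 1))) univ := by
    intro q hq
    have hsub := hDD q (q + 1) (by omega) (by omega)
    exact ⟨isOpen_ball, (sys.diff q (by omega)).mono hsub, (hinj q (by omega)).mono hsub,
      (hmaps q (by omega)).mono_left hsub⟩
  obtain ⟨hM1, -⟩ := hMA f P B R E su.ad su.hE Q (M + 1)
    (fun q => ball x (T (q + 1))) G hcond hmult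
  have hSA : ∑ q ∈ Finset.range Q, ∫⁻ w in ball x (T (q + 1)), ENNReal.ofReal (F q w) ≤
      ENNReal.ofReal ((M + 1) * E) := by
    have h2 : ((M + 1 : ℕ) : ENNReal) * ENNReal.ofReal E =
        ENNReal.ofReal ((M + 1) * E) := by
      rw [ENNReal.ofReal_mul (by positivity)]
      congr 1
      rw [← ENNReal.ofReal_natCast]
      push_cast
      rfl
    rw [← h2]
    refine le_trans ?_ hM1
    have e1 : ∀ u : ℕ → ℂ → ENNReal, ∑ q ∈ Finset.range Q, ∫⁻ w in ball x (T (q + 1)), u q w =
        ∑ q ∈ Finset.range Q, ∫⁻ w, (ball x (T (q + 1))).indicator (u q) w := by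
      intro u
      refine Finset.sum_congr rfl (fun q _ => ?_)
      rw [lintegral_indicator measurableSet_ball]
    rw [e1 (fun q w => ENNReal.ofReal (F q w)), e1 (fun q w => ENNReal.ofReal (dens f B (G q) w))]
    rw [← lintegral_finsetSum' _ (fun q hq => (aemeasurable_indicator_iff measurableSet_ball).2
        (hFm q (Finset.mem_range.1 hq))),
      ← lintegral_finsetSum' _ (fun q hq => (aemeasurable_indicator_iff measurableSet_ball).2
        (hdm q (Finset.mem_range.1 hq)))]
    refine lintegral_mono (fun w => ?_)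
    refine S3L_nested (fun q => ball x (T q)) _ _ w Q hDD ?_
    intro Q' hQ' hw
    have hlv := (hLV f P B G (ball x (T Q')) Q' su.ad isOpen_ball (hlevs Q' hQ')).1
      Q' le_rfl w hw
    have hreal : ∑ q ∈ Finset.range Q', F q w ≤ ∑ q ∈ Finset.range Q', dens f B (G q) w := by
      have h3 : 0 ≤ ‖tau B G Q' w‖ - (tau B G Q' w).re := sub_nonneg.2 (Complex.re_le_norm _)
      have h4 : ∑ q ∈ Finset.range Q', F q w = ∑ q ∈ Finset.range Q',
        (lev B G (q + 1) w - (tau B G q w - tau B G (q + 1) w).re) := rfl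
      rw [h4]
      linarith
    calc ∑ q ∈ Finset.range Q', ENNReal.ofReal (F q w)
        = ENNReal.ofReal (∑ q ∈ Finset.range Q', F q w) :=
          (ENNReal.ofReal_sum_of_nonneg (fun q _ => hF0 q w)).symm
      _ ≤ ENNReal.ofReal (∑ q ∈ Finset.range Q', dens f B (G q) w) :=
          ENNReal.ofReal_le_ofReal hreal
      _ ≤ ∑ q ∈ Finset.range Q', ENNReal.ofReal (dens f B (G q) w) := S3L_ofReal_sum_le _ _
  -- Harnack at the centre, for every level
  have hlevel : ∀ q < Q, ∫⁻ w in ball x (T (q + 1)), ENNReal.ofReal (lev B G (q + 1) w) ≤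
      (∫⁻ w in ball x (T (q + 1)), ENNReal.ofReal (F q w)) +
      ENNReal.ofReal (Real.pi * lev B G (q + 1) x) := by
    intro q hq
    have hTq : 0 < T (q + 1) := hTlow (q + 1) (by omega)
    have hfin : ∫⁻ w in ball x (T (q + 1)), ENNReal.ofReal (F q w) ≠ ⊤ := by
      refine ne_top_of_le_ne_top ENNReal.ofReal_ne_top (le_trans ?_ hSA)
      exact Finset.single_le_sum
        (f := fun q => ∫⁻ w in ball x (T (q + 1)), ENNReal.ofReal (F q w))
        (fun _ _ => bot_le) (Finset.mem_range.2 hq)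
    have hH := (hHAR Unit {()} (fun _ => h q) x (T (q + 1))
      (∫⁻ w in ball x (T (q + 1)), ENNReal.ofReal (F q w)).toReal hTq ENNReal.toReal_nonneg
      (fun _ _ => hh q hq) (by
        rw [ENNReal.ofReal_toReal hfin]
        simp only [Finset.sum_singleton]
        exact le_rfl)).1
    simp only [Finset.sum_singleton] at hH
    refine hH.trans ?_
    refine (ENNReal.ofReal_add_le).trans ?_
    rw [ENNReal.ofReal_toReal hfin]
    refine add_le_add le_rfl (ENNReal.ofReal_le_ofReal ?_)
    refine mul_le_mul_of_nonneg_right ?_ (norm_nonneg _)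
    have h5 : T (q + 1) ^ 2 ≤ 1 := pow_le_one₀ hTq.le (hTρ (q + 1) (by omega))
    calc Real.pi * T (q + 1) ^ 2 ≤ Real.pi * 1 := mul_le_mul_of_nonneg_left h5 hπ.le
      _ = Real.pi := mul_one _
  rw [S3L_Icc] at hS0
  rw [S3L_Icc]
  have hS00 : ∀ q, 0 ≤ lev B G (q + 1) x := fun q => norm_nonneg _
  have hlast : Real.pi * ∑ q ∈ Finset.range Q, lev B G (q + 1) x ≤ 4 * η := by
    calc Real.pi * ∑ q ∈ Finset.range Q, lev B G (q + 1) x ≤ Real.pi * η :=
          mul_le_mul_of_nonneg_left hS0 hπ.le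
      _ ≤ 4 * η := mul_le_mul_of_nonneg_right Real.pi_le_four hε
  calc ∑ q ∈ Finset.range Q, ∫⁻ w in ball x (T (q + 1)), ENNReal.ofReal (lev B G (q + 1) w)
      ≤ ∑ q ∈ Finset.range Q, ((∫⁻ w in ball x (T (q + 1)), ENNReal.ofReal (F q w)) +
        ENNReal.ofReal (Real.pi * lev B G (q + 1) x)) :=
        Finset.sum_le_sum (fun q hq => hlevel q (Finset.mem_range.1 hq))
    _ = (∑ q ∈ Finset.range Q, ∫⁻ w in ball x (T (q + 1)), ENNReal.ofReal (F q w)) +
        ENNReal.ofReal (Real.pi * ∑ q ∈ Finset.range Q, lev B G (q + 1) x) := by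
        rw [Finset.sum_add_distrib,
          ← ENNReal.ofReal_sum_of_nonneg (fun q _ => mul_nonneg (by positivity) (hS00 q)),
          ← Finset.mul_sum]
    _ ≤ ENNReal.ofReal ((M + 1) * E) + ENNReal.ofReal (4 * η) :=
        add_le_add hSA (ENNReal.ofReal_le_ofReal hlast)
    _ = ENNReal.ofReal ((M + 1) * E + 4 * η) := by
        rw [ENNReal.ofReal_add (by positivity) (by positivity)]
    _ ≤ ENNReal.ofReal (eT M E η) := le_rfl

end YXPS
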