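import Pool.Agent.helper61.CSW.Base
import Pool.Agent.helper61.CSW.XP.SpecS
import Pool.Agent.helper61.CSW.Exports

set_option autoImplicit false

open Complex Metric Set Filter Topology MeasureTheory
open YPPS (fd fdd pre TT CV Br)
open PPS (cn)
open MPS (PsiM)

noncomputable section

open CSS (SE)

namespace YXPS

theorem SEQ3_fail {f : SE} {h : ℝ} {χ : ℂ → ℂ} {G0 : ℕ → ℂ → ℂ} {PP : Finset ℕ}
    {G G' : ℕ → ℂ → ℂ} {q : ℕ} {r : ℝ} (hG : G' q = G q)
    (hf : Fail3 f h χ G0 PP G q r) : Fail3 f h χ G0 PP G' q r := by
  unfold Fail3 at hf ⊢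
  rw [hG]
  exact hf

theorem SEQ3 (hS : STEP3_stmt) : SEQ3_stmt := by
  intro n k f P B R E η h r₀ χ G0 PP M hSU
  have h0 := hSU.h0
  have key : ∀ Q : ℕ, Q ≤ k → ∃ (T : ℕ → ℝ) (G : ℕ → ℂ → ℂ),
      H3 n k f P B R E η h r₀ χ G0 PP M T G Q ∧ T 0 = h ∧
      ∀ q < Q, ∀ r, T (q + 1) < r → r < T q → Fail3 f h χ G0 PP G q r := by
    intro Q
    induction Q with
    | zero =>
      intro _
      refine ⟨fun _ => h, fun _ => χ, ⟨hSU, ?_, Nat.zero_le _⟩, rfl,
        fun q hq => absurd hq (Nat.not_lt_zero _)⟩
      exact
        { t0 := le_rfl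
          anti := fun q hq => absurd hq (Nat.not_lt_zero _)
          pos := fun q _ => h0
          g0 := rfl
          diff := fun q _ => hSU.nat.diff.mono (ball_subset_ball (by linarith))
          rel := fun q hq => absurd hq (Nat.not_lt_zero _)
          val := fun q hq => by
            have hq0 : q = 0 := Nat.le_zero.1 hq
            subst hq0
            exact (hSU.t0 (mem_ball_self hSU.r0)).symm
          disj := fun q _ hq => absurd hq (Nat.not_lt_zero _) }
    | succ Q ih =>
      intro hQ
      obtain ⟨T, G, hH, hT0, hf⟩ := ih (Nat.le_of_succ_le hQ)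
      obtain ⟨t', g', hH', hf'⟩ := hS n k f P B R E η h r₀ χ G0 PP M T G Q hH hQ
      refine ⟨Function.update T (Q + 1) t', Function.update G (Q + 1) g', hH', ?_, ?_⟩
      · rw [Function.update_of_ne (Nat.succ_ne_zero Q).symm]
        exact hT0
      · intro q hq r h2 h3
        have e1 : Function.update T (Q + 1) t' q = T q := Function.update_of_ne (by omega) _ _
        have e2 : Function.update G (Q + 1) g' q = G q := Function.update_of_ne (by omega) _ _
        rw [e1] at h3
        apply SEQ3_fail e2
        rcases Nat.lt_succ_iff_lt_or_eq.1 hq with hq' | hq'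
        · have e3 : Function.update T (Q + 1) t' (q + 1) = T (q + 1) :=
            Function.update_of_ne (by omega) _ _
          rw [e3] at h2
          exact hf q hq' r h2 h3
        · subst hq'
          rw [Function.update_self] at h2
          exact hf' r h2 h3
  exact key k le_rfl

end YXPS
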