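import Pool.Agent.helper61.CSW.Base
import Pool.Agent.helper61.CSW.XP.SpecS
import Pool.Agent.helper61.CSW.PP.STEP2
import Pool.Agent.helper61.CSW.Exports

/-!
# v3:STEP3: one more level in the chain step
-/

set_option autoImplicit false

open Complex Metric Set Filter Topology MeasureTheory
open YPPS (fd fdd pre TT CV Br)
open PPS (cn)
open MPS (PsiM)

noncomputable section

open CSS (SE)

namespace YXPS

theorem STEP3 (hLUN : YPPS.LUN_stmt) (hS3G : S3G_stmt) (hS3A : S3A_stmt) : STEP3_stmt := by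
  intro n k f P B R E η h r₀ χ G0 PP M T G Q hH hQk
  have hsu := hH.su3
  have hsys := hH.sys
  obtain ⟨hs0, -, hχ, -, -, -, -, -, -, -⟩ := hS3G n k f P B R E η h r₀ χ G0 PP M hsu
  obtain ⟨hAg, -⟩ := hS3A n k f P B R E η h r₀ χ G0 PP M T G Q hH
  have hTQ : 0 < T Q := hsys.pos Q le_rfl
  have hh : 0 < h := hsu.h0
  -- disjointness near the centre
  have hdis : ∃ δ : ℝ, 0 < δ ∧ (1 ≤ Q → Q ∉ PP →
      Disjoint (G Q '' ball 0 δ) (χ '' ball 0 h)) := by
    by_cases hc : 1 ≤ Q ∧ Q ∉ PP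
    · have hfar := hsu.hPP Q hc.1 hQk hc.2
      rw [← hsys.val Q le_rfl] at hfar
      have hcont : ContinuousAt (G Q) 0 :=
        ((hsys.diff Q le_rfl).differentiableAt
          (isOpen_ball.mem_nhds (mem_ball_self hTQ))).continuousAt
      have hpos : 0 < 6 * h * ‖deriv χ 0‖ := by positivity
      obtain ⟨δ, hδ0, hδ⟩ := Metric.continuousAt_iff.1 hcont _ hpos
      refine ⟨δ, hδ0, fun _ _ => ?_⟩
      rw [Set.disjoint_left]
      rintro z ⟨w, hw, hwz⟩ ⟨v, hv, hvz⟩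
      have h1 := hδ (mem_ball.1 hw)
      rw [dist_eq_norm] at h1
      have hv' : ‖v‖ < h := by rwa [mem_ball_zero_iff] at hv
      have h2 := hχ v (by
        rw [mem_ball_zero_iff]
        linarith)
      have h3 : G Q w = χ v := hwz.trans hvz.symm
      have h4 : ‖G Q 0 - χ 0‖ ≤ ‖G Q w - G Q 0‖ + ‖χ v - χ 0‖ := by
        have : G Q 0 - χ 0 = -(G Q w - G Q 0) + (χ v - χ 0) := by
          rw [h3]
          ring
        rw [this]
        refine le_trans (norm_add_le _ _) ?_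
        rw [norm_neg]
      have h5 : 11 / 10 * ‖deriv χ 0‖ * ‖v‖ ≤ 11 / 10 * ‖deriv χ 0‖ * h :=
        mul_le_mul_of_nonneg_left hv'.le (by positivity)
      have h6 : 0 < ‖deriv χ 0‖ * h := mul_pos hs0 hh
      nlinarith
    · exact ⟨1, one_pos, fun h1 h2 => absurd ⟨h1, h2⟩ hc⟩
  obtain ⟨δ, hδ0, hδ⟩ := hdis
  set S : Set ℝ := {r | 0 < r ∧ r ≤ T Q ∧ ¬ Fail3 f h χ G0 PP G Q r} with hS
  have hmem : min (min r₀ (T Q)) δ ∈ S := by
    have hr0 : 0 < min (min r₀ (T Q)) δ := lt_min (lt_min hsu.r0 hTQ) hδ0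
    refine ⟨hr0, le_trans (min_le_left _ _) (min_le_right _ _), ?_⟩
    rintro (⟨h1, h2, h3⟩ | h3)
    · exact h3 ((hδ h1 h2).mono_left (image_mono (ball_subset_ball (min_le_right _ _))))
    · apply h3
      have hsub : ball (0 : ℂ) (min (min r₀ (T Q)) δ) ⊆ ball 0 r₀ :=
        ball_subset_ball (le_trans (min_le_left _ _) (min_le_left _ _))
      refine ⟨G0 (Q + 1), (hsu.tdiff (Q + 1) hQk).mono hsub, rfl, ?_⟩
      intro w hw
      have h4 : G Q w = G0 Q w := hAg Q le_rfl (ball_subset_ball (min_le_left _ _) hw)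
      rw [h4]
      exact hsu.trel Q hQk w (hsub hw)
  have hSne : S.Nonempty := ⟨_, hmem⟩
  have hSb : BddAbove S := ⟨T Q, fun r hr => hr.2.1⟩
  set t' : ℝ := sSup S with ht'
  have ht1 : t' ≤ T Q := csSup_le hSne fun r hr => hr.2.1
  have ht2 : 0 < t' := lt_of_lt_of_le hmem.1 (le_csSup hSb hmem)
  have hfail : ∀ r, t' < r → r < T Q → Fail3 f h χ G0 PP G Q r := by
    intro r hr1 hr2
    by_contra hf
    exact absurd (le_csSup hSb (show r ∈ S from ⟨ht2.trans hr1, hr2.le, hf⟩)) (not_le.mpr hr1)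
  have hnd : 1 ≤ Q → Q ∉ PP → Disjoint (G Q '' ball 0 t') (χ '' ball 0 h) := by
    intro h1 h2
    by_contra h3
    rw [Set.not_disjoint_iff] at h3
    obtain ⟨z, ⟨w, hw, hwz⟩, hz⟩ := h3
    rw [mem_ball] at hw
    obtain ⟨r, hr, hwr⟩ := exists_lt_of_lt_csSup hSne hw
    exact hr.2.2 (Or.inl ⟨h1, h2, Set.not_disjoint_iff.mpr ⟨z, ⟨w, mem_ball.mpr hwr, hwz⟩, hz⟩⟩)
  obtain ⟨g', hg1, hg2, hg3⟩ := YPPS.STEP2_glue hLUN f (G Q) 0 (G0 (Q + 1) 0) S hSne hSb
    (fun r hr => hr.1) (fun r hr => by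
      by_contra hb
      exact hr.2.2 (Or.inr hb))
  have hT : ∀ q ≤ Q, Function.update T (Q + 1) t' q = T q := fun q hq =>
    Function.update_of_ne (by omega) _ _
  have hTn : Function.update T (Q + 1) t' (Q + 1) = t' := Function.update_self _ _ _
  have hG : ∀ q ≤ Q, Function.update G (Q + 1) g' q = G q := fun q hq =>
    Function.update_of_ne (by omega) _ _
  have hGn : Function.update G (Q + 1) g' (Q + 1) = g' := Function.update_self _ _ _
  refine ⟨t', g', ⟨hsu, ⟨?_, ?_, ?_, ?_, ?_, ?_, ?_, ?_⟩, hQk⟩, hfail⟩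
  · rw [hT 0 (by omega)]
    exact hsys.t0
  · intro q hq
    rcases Nat.lt_succ_iff_lt_or_eq.mp hq with hq' | hq'
    · rw [hT q hq'.le, hT (q + 1) hq']
      exact hsys.anti q hq'
    · subst hq'
      rw [hT q le_rfl, hTn]
      exact ht1
  · intro q hq
    rcases Nat.le_succ_iff.mp hq with hq' | hq'
    · rw [hT q hq']
      exact hsys.pos q hq'
    · subst hq'
      rw [hTn]
      exact ht2
  · rw [hG 0 (by omega)]
    exact hsys.g0
  · intro q hq
    rcases Nat.le_succ_iff.mp hq with hq' | hq'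
    · rw [hT q hq', hG q hq']
      exact hsys.diff q hq'
    · subst hq'
      rw [hTn, hGn]
      exact hg1
  · intro q hq w hw
    rcases Nat.lt_succ_iff_lt_or_eq.mp hq with hq' | hq'
    · rw [hT (q + 1) hq'] at hw
      rw [hG q hq'.le, hG (q + 1) hq']
      exact hsys.rel q hq' w hw
    · subst hq'
      rw [hTn] at hw
      rw [hG q le_rfl, hGn]
      exact hg3 w hw
  · intro q hq
    rcases Nat.le_succ_iff.mp hq with hq' | hq'
    · rw [hG q hq']
      exact hsys.val q hq'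
    · subst hq'
      rw [hGn]
      exact hg2
  · intro q hq1 hq hqp
    rcases Nat.lt_succ_iff_lt_or_eq.mp hq with hq' | hq'
    · rw [hT (q + 1) hq', hG q hq'.le]
      exact hsys.disj q hq1 hq' hqp
    · subst hq'
      rw [hTn, hG q le_rfl]
      exact hnd hq1 hqp

end YXPS
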