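import Pool.Agent.helper61.CSW.Base
import Pool.Agent.helper61.CSW.PP.All
import Pool.Agent.helper61.CSW.XP.LEAX
import Pool.Agent.helper61.CSW.XP.LEIX
import Pool.Agent.helper61.CSW.XP.LVX
import Pool.Agent.helper61.CSW.XP.LVG
import Pool.Agent.helper61.CSW.XP.MIX
import Pool.Agent.helper61.CSW.XP.MAX
import Pool.Agent.helper61.CSW.XP.EVTX
import Pool.Agent.helper61.CSW.XP.SpecS
import Pool.Agent.helper61.CSW.XP.S3G
import Pool.Agent.helper61.CSW.XP.S3A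
import Pool.Agent.helper61.CSW.XP.S3L
import Pool.Agent.helper61.CSW.XP.MU3
import Pool.Agent.helper61.CSW.XP.PT3
import Pool.Agent.helper61.CSW.XP.REACH3
import Pool.Agent.helper61.CSW.XP.EV3
import Pool.Agent.helper61.CSW.XP.STEP3
import Pool.Agent.helper61.CSW.XP.SEQ3
import Pool.Agent.helper61.CSW.XP.PH3
import Pool.Agent.helper61.CSW.XP.CS
import Pool.Agent.helper61.CSW.Exports

/-!
# Project xp: part S (chain step for a general differential): assembly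
-/

set_option autoImplicit false

open CSS (SE)

namespace YXPS

theorem LEAX_x : LEAX_stmt := LEAX
theorem LEIX_x : LEIX_stmt := LEIX YPPS.SMB_p LEAX
theorem MIX_x : MIX_stmt := MIX YPPS.MS_p YPPS.SMB_p
theorem LVX_x : LVX_stmt := LVX LEIX_x MIX_x
theorem LVG_x : LVG_stmt := LVG
theorem MAX_x : MAX_stmt := MAX MIX_x
theorem EVTX_x : EVTX_stmt := EVTX YPPS.SMB_p MIX_x YPPS.PRB_p YPPS.LUN_p YPPS.PEX_p YPPS.LIFT_p MPS.HCH_ok
theorem S3G_x : S3G_stmt := S3G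
theorem S3A_x : S3A_stmt := S3A YPPS.LUN_p S3G_x
theorem S3L_x : S3L_stmt := S3L LEAX_x LVX_x MIX_x MAX_x MPS.HAR_ok S3A_x
theorem MU3_x : MU3_stmt := MU3 S3A_x S3L_x LEAX_x MPS.HSM_ok
theorem PT3_x : PT3_stmt := PT3 S3L_x MPS.HSM_ok S3A_x LEAX_x LVX_x
theorem REACH3_x : REACH3_stmt := REACH3 NPLX_x LEAX_x S3G_x S3A_x PT3_x
theorem EV3_x : EV3_stmt := EV3 YPPS.BDY_p EVTX_x LEIX_x LEAX_x LVX_x MAX_x MIX_x S3G_x S3A_x PT3_x
theorem STEP3_x : STEP3_stmt := STEP3 YPPS.LUN_p S3G_x S3A_x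
theorem SEQ3_x : SEQ3_stmt := SEQ3 STEP3_x
theorem PH3_x : PH3_stmt := PH3 S3G_x SEQ3_x MU3_x REACH3_x EV3_x MPS.CHEB_ok YPPS.LIFT_p YPPS.PRB_p
theorem CS_x : CS_stmt := CS PH3_x S3G_x S3A_x PT3_x

end YXPS
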