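import Pool.Agent.helper61.CSW.Base
import Pool.Agent.helper61.CSW.XP.SpecL
import Pool.Agent.helper61.CSW.Exports

/-!
# Project xp: BA1 (the iterates in the x-plane)
-/

set_option autoImplicit false

open Complex Metric Set Filter Topology MeasureTheory YXP
open V3S (UF)

noncomputable section

open CSS (SE)

namespace YXPL

theorem BA1_it {k : ℕ} [NeZero k] (f : SE) (b : ZMod k → ℂ) (hc : YPPS.IsCyc f b)
    (l : ZMod k) (j : ℕ) : (fun z => f.eval z)^[j] (b l) = b (l + j) := by
  induction j with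
  | zero => simp
  | succ j ih =>
    rw [Function.iterate_succ_apply', ih, hc.step]
    congr 1
    push_cast
    ring

theorem BA1_diff (f : SE) (j : ℕ) : Differentiable ℂ (fun z => f.eval z)^[j] :=
  f.differentiable.iterate j

theorem BA1_der {k : ℕ} [NeZero k] (f : SE) (b : ZMod k → ℂ) (hc : YPPS.IsCyc f b)
    (l : ZMod k) (j : ℕ) :
    deriv ((fun z => f.eval z)^[j]) (b l) = ∏ i ∈ Finset.range j, YPPS.fd f (b (l + i)) := by
  induction j with
  | zero =>
    rw [Function.iterate_zero, Finset.prod_range_zero]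
    exact deriv_id _
  | succ j ih =>
    rw [Function.iterate_succ', Finset.prod_range_succ, mul_comm]
    have h1 : deriv ((fun z => f.eval z) ∘ (fun z => f.eval z)^[j]) (b l) =
        deriv (fun z => f.eval z) ((fun z => f.eval z)^[j] (b l)) *
          deriv ((fun z => f.eval z)^[j]) (b l) :=
      deriv_comp _ f.differentiable.differentiableAt (BA1_diff f j).differentiableAt
    rw [h1, ih, BA1_it f b hc]
    congr 1

theorem BA1 : BA1_stmt := by
  intro n C A D hD
  have hR : 0 < D.R 0 := hD.Rpos 0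
  have hsg : D.sg ≠ 0 := by
    unfold Dat.sg
    exact_mod_cast hR.ne'
  have hsn : ‖D.sg‖ = D.R 0 := by
    unfold Dat.sg
    rw [Complex.norm_real, Real.norm_eq_abs, abs_of_pos hR]
  have hxz : ∀ x, D.xx (D.zz x) = x := by
    intro x
    unfold Dat.xx Dat.zz
    rw [add_sub_cancel_left, mul_div_cancel_left₀ _ hsg]
  have hzx : ∀ z, D.zz (D.xx z) = z := by
    intro z
    unfold Dat.xx Dat.zz
    rw [mul_div_cancel₀ _ hsg]
    ring
  have hF0 : ∀ x, D.F 0 x = x := by
    intro x
    unfold Dat.F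
    rw [Function.iterate_zero]
    exact hxz x
  have hzF : ∀ j x, D.zz (D.F j x) = (fun z => D.f.eval z)^[j] (D.zz x) := by
    intro j x
    unfold Dat.F
    exact hzx _
  have hFF : ∀ i j x, D.F (i + j) x = D.F i (D.F j x) := by
    intro i j x
    show D.xx ((fun z => D.f.eval z)^[i + j] (D.zz x)) =
      D.xx ((fun z => D.f.eval z)^[i] (D.zz (D.F j x)))
    rw [hzF, Function.iterate_add_apply]
  have hder : ∀ j x, HasDerivAt (D.F j) (deriv ((fun z => D.f.eval z)^[j]) (D.zz x)) x := by
    intro j x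
    have h1 : HasDerivAt D.zz D.sg x := by
      have h2 := ((hasDerivAt_id x).const_mul D.sg).const_add (D.b 0)
      rw [mul_one] at h2
      exact h2
    have h2 : HasDerivAt ((fun z => D.f.eval z)^[j]) (deriv ((fun z => D.f.eval z)^[j]) (D.zz x))
        (D.zz x) := (BA1_diff D.f j).differentiableAt.hasDerivAt
    have h3 : HasDerivAt D.xx (1 / D.sg) ((fun z => D.f.eval z)^[j] (D.zz x)) :=
      ((hasDerivAt_id _).sub_const (D.b 0)).div_const D.sg
    have h4 := h3.comp x (h2.comp x h1)
    have h5 : 1 / D.sg * (deriv ((fun z => D.f.eval z)^[j]) (D.zz x) * D.sg) =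
        deriv ((fun z => D.f.eval z)^[j]) (D.zz x) := by
      field_simp
    rw [h5] at h4
    exact h4
  have hdF : ∀ j, Differentiable ℂ (D.F j) := fun j x => (hder j x).differentiableAt
  have hzp : ∀ l, D.zz (D.p l) = D.b l := fun l => hzx _
  have hFp : ∀ (j : ℕ) (l : ZMod D.k), D.F j (D.p l) = D.p (l + j) := by
    intro j l
    unfold Dat.F
    rw [hzp, BA1_it D.f D.b hD.cyc]
    rfl
  have hp0 : D.p 0 = 0 := by
    unfold Dat.p Dat.xx
    rw [sub_self, zero_div]
  refine ⟨hsg, hsn, hxz, hzx, hF0, hFF, hdF, ?_, fun j x => (hder j x).deriv, hzF, hFp, hp0, ?_,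
    ?_, hzp, ?_⟩
  · intro i j x
    have h1 : D.F (i + j) = D.F i ∘ D.F j := by
      funext y
      exact hFF i j y
    rw [h1]
    exact deriv_comp _ (hdF i).differentiableAt (hdF j).differentiableAt
  · intro j
    have h1 := hFp j 0
    rw [hp0, zero_add] at h1
    exact h1
  · intro l l' h
    apply hD.cyc.inj
    rw [← hzp l, ← hzp l', h]
  · intro l
    rw [(hder D.k (D.p l)).deriv, hzp, BA1_der D.f D.b hD.cyc]
    unfold YPPS.rho
    rw [BA1_prod D.k (fun i => YPPS.fd D.f (D.b (l + i)))]
    exact Fintype.prod_equiv (Equiv.addLeft l) _ _ (fun i => rfl)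

end YXPL
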