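import Pool.Agent.helper61.CSW.Base
import Pool.Agent.helper61.CSW.XP.SpecL
import Pool.Agent.helper61.CSW.Exports

set_option autoImplicit false

open Complex Metric Set Filter Topology MeasureTheory YXP
open V3S (UF)

noncomputable section

open CSS (SE)

namespace YXPL

theorem BAD (hBA1 : BA1_stmt) : BAD_stmt := by
  intro n C A D hD
  obtain ⟨hsg, hsgR, hxz, hzx, hF00, hadd, hdF, hch, hder, hzF, hFp, hp0, hF0, hinj, hzp, hmul⟩ :=
    hBA1 n C A D hD
  have hR0 : 0 < D.R 0 := hD.Rpos 0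
  have hC : 0 < C := lt_of_lt_of_le one_pos hD.C1
  have hA : ∀ j : ℕ, deriv (D.it j) (D.b 0) = D.A j := by
    intro j
    have h1 := hder j 0
    have h2 : D.zz 0 = D.b 0 := by
      unfold Dat.zz; simp
    rw [h2] at h1
    unfold Dat.A
    rw [h1]
    rfl
  have hd : ∀ i l, D.R 0 * ‖D.p i - D.p l‖ = ‖D.b i - D.b l‖ := by
    intro i l
    rw [← hsgR, ← norm_mul]
    congr 1
    rw [← hzp i, ← hzp l]
    unfold Dat.zz
    ring
  have hj : ∀ j ≤ D.k, D.A j ≠ 0 ∧ 1 / C ≤ ‖D.A j‖ ∧ ‖D.A j‖ * D.R 0 ≤ C * D.R (j : ZMod D.k) ∧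
      D.R (j : ZMod D.k) ≤ C * ‖D.A j‖ * D.R 0 := by
    intro j hj
    have t1 := hD.trans 0 j hj
    rw [hA j, zero_add] at t1
    have t2 := hD.trans (j : ZMod D.k) (D.k - j) (Nat.sub_le _ _)
    have e1 : (j : ZMod D.k) + ((D.k - j : ℕ) : ZMod D.k) = 0 := by
      rw [Nat.cast_sub hj, ZMod.natCast_self]
      ring
    rw [e1] at t2
    have e2 : deriv (D.it (D.k - j)) (D.b (j : ZMod D.k)) * D.A j = YPPS.rho D.f D.b := by
      have h1 := hch (D.k - j) j 0
      rw [Nat.sub_add_cancel hj, hF0 j] at h1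
      have h2 := hmul 0
      rw [hp0] at h2
      rw [h2, hder (D.k - j) (D.p (j : ZMod D.k)), hzp] at h1
      exact h1.symm
    have e3 : ‖deriv (D.it (D.k - j)) (D.b (j : ZMod D.k))‖ * ‖D.A j‖ = ‖YPPS.rho D.f D.b‖ := by
      rw [← norm_mul, e2]
    have hA0 : D.A j ≠ 0 := by
      intro h0
      rw [h0, norm_zero, mul_zero] at e3
      have := hD.rho1
      linarith
    have hAp : 0 < ‖D.A j‖ := norm_pos_iff.2 hA0
    have t3 : D.R (j : ZMod D.k) ≤ C * ‖D.A j‖ * D.R 0 := by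
      have h1 : ‖YPPS.rho D.f D.b‖ * D.R (j : ZMod D.k) ≤ C * ‖D.A j‖ * D.R 0 := by
        rw [← e3]
        have h2 := mul_le_mul_of_nonneg_right t2 hAp.le
        nlinarith
      have h3 : 0 < D.R (j : ZMod D.k) := hD.Rpos _
      have h4 := hD.rho1
      nlinarith
    refine ⟨hA0, ?_, t1, t3⟩
    have h5 := hD.mini (j : ZMod D.k)
    have h6 : D.R 0 ≤ C * ‖D.A j‖ * D.R 0 := h5.trans t3
    have h7 : 1 ≤ C * ‖D.A j‖ := by
      by_contra hlt
      rw [not_le] at hlt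
      nlinarith
    rw [div_le_iff₀ hC]
    linarith
  refine ⟨hj, ?_, ?_, ?_⟩
  · intro i l hil
    have h1 := hD.sepr i l hil
    have h2 := hD.mini i
    have h3 := hd i l
    by_contra hlt
    rw [not_le] at hlt
    nlinarith
  · intro j h1 h2
    obtain ⟨-, -, h3, -⟩ := hj j h2.le
    have hne : (j : ZMod D.k) ≠ 0 := by
      intro h0
      rw [ZMod.natCast_eq_zero_iff] at h0
      exact absurd (Nat.le_of_dvd h1 h0) (not_le.2 h2)
    have h4 := hD.sepr (j : ZMod D.k) 0 hne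
    have h5 := hd (j : ZMod D.k) 0
    rw [hp0, sub_zero] at h5
    have h6 : ‖D.A j‖ * D.R 0 ≤ (C * ‖D.p (j : ZMod D.k)‖) * D.R 0 := by
      calc ‖D.A j‖ * D.R 0 ≤ C * D.R (j : ZMod D.k) := h3
        _ ≤ C * ‖D.b (j : ZMod D.k) - D.b 0‖ := mul_le_mul_of_nonneg_left h4 hC.le
        _ = (C * ‖D.p (j : ZMod D.k)‖) * D.R 0 := by rw [← h5]; ring
    exact le_of_mul_le_mul_right h6 hR0
  · intro l
    rw [norm_mul, hsgR]
    have h1 := hD.mini l
    have h2 := hD.hg l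
    have h3 := norm_nonneg (D.g l)
    nlinarith

end YXPL
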