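import Pool.Agent.helper61.CSW.Base
import Pool.Agent.helper61.CSW.XP.SpecL
import Pool.Agent.helper61.CSW.Exports

/-! xp:CSZ. Size of the charts. -/

set_option autoImplicit false

open Complex Metric Set Filter Topology MeasureTheory YXP
open V3S (UF)

noncomputable section

open CSS (SE)

namespace YXPL

theorem CSZ : CSZ_stmt := by
  intro n Cf D _ hLB x hx
  obtain ⟨hxP, hx0⟩ := hx
  have h1 := hLB.conv {x} isCompact_singleton (by
    intro y hy
    rw [mem_singleton_iff.1 hy]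
    exact hxP)
  have h2 : Tendsto (fun m => (D m).B x) UF (𝓝 (Bin D x)) := h1.tendsto_at (mem_singleton x)
  have h3 : Tendsto (fun m => ‖(D m).B x‖) UF (𝓝 ‖Bin D x‖) := h2.norm
  set β := ‖Bin D x‖ with hβ
  have hβ0 : 0 < β := norm_pos_iff.2 hx0
  have hlo : ∀ᶠ m in UF, β / 2 < ‖(D m).B x‖ := h3.eventually (lt_mem_nhds (by linarith))
  have hhi : ∀ᶠ m in UF, ‖(D m).B x‖ < 2 * β := h3.eventually (gt_mem_nhds (by linarith))
  set C := max 1 (max (2 * β) (2 / β)) with hC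
  have hC1 : 1 ≤ C := le_max_left _ _
  have hC2 : 2 * β ≤ C := (le_max_left _ _).trans (le_max_right _ _)
  have hC3 : 2 / β ≤ C := (le_max_right _ _).trans (le_max_right _ _)
  have hC0 : 0 < C := by linarith
  have hCC : C ≤ C ^ 2 := by nlinarith
  refine ⟨C, hC1, ?_⟩
  filter_upwards [hlo, hhi] with m hm1 hm2 χ r hr hχ hχ0
  have h4 := hχ.eq 0 (mem_ball_self hr)
  rw [hχ0] at h4
  have h5 : (D m).B x = (D m).sg ^ 2 * (D m).H ((D m).zz x) := rfl
  have h6 : deriv χ 0 ^ 2 * (D m).B x = (D m).sg ^ 2 := by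
    rw [h5]
    linear_combination (D m).sg ^ 2 * h4
  have h7 : ‖deriv χ 0‖ ^ 2 * ‖(D m).B x‖ = ‖(D m).sg‖ ^ 2 := by
    rw [← norm_pow, ← norm_mul, h6, norm_pow]
  have hB0 : 0 < ‖(D m).B x‖ := by linarith
  have hd0 : 0 ≤ ‖deriv χ 0‖ := norm_nonneg _
  have hs0 : 0 ≤ ‖(D m).sg‖ := norm_nonneg _
  constructor
  · rw [div_le_iff₀ hC0]
    refine (pow_le_pow_iff_left₀ hs0 (by positivity) two_ne_zero).1 ?_
    rw [mul_pow, ← h7]
    exact mul_le_mul_of_nonneg_left (by linarith) (by positivity)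
  · refine (pow_le_pow_iff_left₀ hd0 (by positivity) two_ne_zero).1 ?_
    rw [mul_pow, ← h7]
    have h8 : 1 ≤ C ^ 2 * ‖(D m).B x‖ := by
      have h9 : 2 ≤ C * β := by
        rw [div_le_iff₀ hβ0] at hC3
        exact hC3
      calc (1 : ℝ) ≤ C * (β / 2) := by linarith
        _ ≤ C ^ 2 * ‖(D m).B x‖ := by
          refine mul_le_mul hCC hm1.le (by positivity) (by positivity)
    calc ‖deriv χ 0‖ ^ 2 = ‖deriv χ 0‖ ^ 2 * 1 := (mul_one _).symm
      _ ≤ ‖deriv χ 0‖ ^ 2 * (C ^ 2 * ‖(D m).B x‖) :=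
        mul_le_mul_of_nonneg_left h8 (by positivity)
      _ = C ^ 2 * (‖deriv χ 0‖ ^ 2 * ‖(D m).B x‖) := by ring

end YXPL
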