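import Pool.Agent.helper61.CSW.Base
import Pool.Agent.helper61.CSW.XP.SpecL
import Pool.Agent.helper61.CSW.Exports

set_option autoImplicit false

open Complex Metric Set Filter Topology MeasureTheory YXP
open V3S (UF)

noncomputable section

open CSS (SE)

namespace YXPL

theorem DSP (hALC : ALC_stmt) (hDLO : DLO_stmt) (hREG : REG_stmt) (hBA1 : BA1_stmt)
    (hTBX : YV3.TBX_stmt) : DSP_stmt := by
  intro n Cf D hS hST ρ hρ
  obtain ⟨A, -, hgood⟩ := hS.seq.good
  obtain ⟨-, -, hR⟩ := hREG n Cf D hS.seq hS.lb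
  obtain ⟨hT1, hT2⟩ := hTBX
  have hde : ∀ᶠ m in UF, 0 < (D m).de := by
    filter_upwards [hS.par.od] with m hm
    exact lt_of_lt_of_le (hS.par.om0 m) hm
  have hloc : ∀ x : ℂ, ∃ r > (0 : ℝ), ∃ C : ℝ, ∀ᶠ m in UF, ∀ y ∈ ball x r,
      ‖((D m).F (D m).K y - y) / ((D m).de : ℂ)‖ ≤ C := by
    intro x
    obtain ⟨ε, hε, hball⟩ := hR x
    have hsub : ∀ y ∈ sphere x (ε / 2), y ∈ Reg D := by
      intro y hy
      have hd : dist y x = ε / 2 := hy
      refine hball y ?_ ?_
      · rw [mem_ball, hd]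
        linarith
      · rintro rfl
        rw [dist_self] at hd
        linarith
    obtain ⟨C, hC⟩ := hT2 (hyperfilter ℕ : Ultrafilter ℕ)
      (fun m y => ((D m).F (D m).K y - y) / ((D m).de : ℂ)) (sphere x (ε / 2))
      (isCompact_sphere x (ε / 2)) (by
        intro y hy
        obtain ⟨r, hr, C, hC⟩ := hDLO n Cf D hS y (hsub y hy) (hALC n Cf D hS hST y (hsub y hy))
        refine ⟨r, hr, C, ?_⟩
        have hC1 : ∀ᶠ m in UF, ∀ w ∈ ball y r,
            ‖((D m).F (D m).K w - w) / ((D m).de : ℂ)‖ ≤ C := by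
          filter_upwards [hC, hde] with m hm hd w hw
          rw [norm_div, Complex.norm_real, Real.norm_eq_abs, abs_of_pos hd, div_le_iff₀ hd]
          exact hm w hw
        exact hC1)
    refine ⟨ε / 2, by linarith, C, ?_⟩
    have hC' : ∀ᶠ m in UF, ∀ y ∈ sphere x (ε / 2),
        ‖((D m).F (D m).K y - y) / ((D m).de : ℂ)‖ ≤ C := hC
    filter_upwards [hC'] with m hm
    intro y hy
    obtain ⟨-, -, -, -, -, -, hdiff, -⟩ := hBA1 n Cf (A m) (D m) (hgood m)
    exact hT1 (fun y => ((D m).F (D m).K y - y) / ((D m).de : ℂ)) x (ε / 2) ε C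
      (by linarith) (by linarith)
      (((hdiff (D m).K).sub differentiable_id).div_const _).differentiableOn hm y
      (ball_subset_closedBall hy)
  obtain ⟨C, hC⟩ := hT2 (hyperfilter ℕ : Ultrafilter ℕ)
    (fun m y => ((D m).F (D m).K y - y) / ((D m).de : ℂ)) (closedBall 0 ρ)
    (isCompact_closedBall 0 ρ) (fun y _ => hloc y)
  refine ⟨max C 0, le_max_right _ _, ?_⟩
  have hC' : ∀ᶠ m in UF, ∀ y ∈ closedBall (0 : ℂ) ρ,
      ‖((D m).F (D m).K y - y) / ((D m).de : ℂ)‖ ≤ C := hC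
  filter_upwards [hC', hde] with m hm hd
  intro x hx
  have h := hm x (ball_subset_closedBall hx)
  rw [norm_div, Complex.norm_real, Real.norm_eq_abs, abs_of_pos hd, div_le_iff₀ hd] at h
  exact h.trans (mul_le_mul_of_nonneg_right (le_max_left _ _) hd.le)

end YXPL
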