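import Pool.Agent.helper61.CSW.Base
import Pool.Agent.helper61.CSW.XP.SpecL
import Pool.Agent.helper61.CSW.Exports

/-! Module INJ of project xp: injectivity of the iterates. -/

set_option autoImplicit false

open Complex Metric Set Filter Topology MeasureTheory YXP
open V3S (UF)

noncomputable section

open CSS (SE)

namespace YXPL

theorem INJ (hDSP : DSP_stmt) (hBA1 : BA1_stmt) : INJ_stmt := by
  intro n C D hH hS ρ hρ
  obtain ⟨C', hC'0, hC'⟩ := hDSP n C D hH hS (ρ + 1) (by linarith)
  obtain ⟨A, -, hgood⟩ := hH.seq.good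
  have hde : Tendsto (fun m => 2 * (C' * (D m).de)) UF (𝓝 0) := by
    have := (hH.par.de1.const_mul C').const_mul 2
    rwa [mul_zero, mul_zero] at this
  have hev : ∀ᶠ m in UF, 2 * (C' * (D m).de) < 1 := hde.eventually (gt_mem_nhds one_pos)
  filter_upwards [hC', hev] with m hm hm1 j hj
  obtain ⟨-, -, -, -, -, hadd, hdiff, -⟩ := hBA1 n C (A m) (D m) (hgood m)
  have hK : InjOn ((D m).F (D m).K) (ball 0 ρ) :=
    INJ_aux _ (fun x => (D m).F (D m).K x - x) ρ (C' * (D m).de)
      ((hdiff _).sub differentiable_id) hm (fun x => (add_sub_cancel x _).symm) hm1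
  intro x hx y hy hxy
  apply hK hx hy
  have e : (D m).K = ((D m).K - j) + j := by omega
  have e2 : ∀ z, (D m).F (D m).K z = (D m).F ((D m).K - j) ((D m).F j z) := by
    intro z
    rw [← hadd, ← e]
  rw [e2, e2, hxy]

end YXPL
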