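import Pool.Agent.helper61.CSW.Base
import Pool.Agent.helper61.CSW.XP.SpecL
import Pool.Agent.helper61.CSW.Exports

/-!
# Module NIX of project xp: (MP_af9036_an): continuation of the near identity statement
-/

set_option autoImplicit false

open Complex Metric Set Filter Topology MeasureTheory YXP
open V3S (UF)

noncomputable section

open CSS (SE)

namespace YXPL

theorem NIX (hLEA : YXPS.LEAX_stmt) (hLV : YXPS.LVX_stmt) : NIX_stmt := by
  intro k f P B χ G Φ₁ h h' r η hAD h0 h1 h'0 h'h hr hrh' hη0 hηh hηr hη1 hnat hlev hsum hΦ₁ hval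
  obtain ⟨-, -, hτd, -, -⟩ := hLEA f P B G (ball 0 h') k hAD isOpen_ball hlev
  obtain ⟨-, -, -, hτ1, -⟩ := hLV f P B G (ball 0 h') k hAD isOpen_ball hlev
  have hτb : ∀ w ∈ ball (0 : ℂ) h', ‖YXPS.tau B G k w - 1‖ ≤ η := fun w hw =>
    le_trans (hτ1 k le_rfl w hw) (hsum w hw)
  obtain ⟨σ, hσd, hσ⟩ := NIX_sqrt (YXPS.tau B G k) (ball 0 h') (hτd k le_rfl) η hη1 hτb
  obtain ⟨Φ, hΦ0, hΦ⟩ := (hσd.isExactOn_ball).with_val_at 0 (Φ₁ 0)
  have hsubr : ball (0 : ℂ) r ⊆ ball 0 h' := ball_subset_ball hrh'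
  have hΦd : DifferentiableOn ℂ Φ (ball 0 h') := fun w hw =>
    (hΦ w hw).differentiableAt.differentiableWithinAt
  -- the derivative of Φ₁
  have hder1 := NIX_der Φ₁ r η hr hΦ₁ hηr (fun w hw => (hval w hw).2.1)
  have hsub2 : ball (0 : ℂ) (r / 2) ⊆ ball 0 r := ball_subset_ball (by linarith)
  have hder2 : ∀ w ∈ ball (0 : ℂ) (r / 2), deriv Φ₁ w = σ w := by
    intro w hw
    have hwr := hsub2 hw
    have hwh := hsubr hwr
    have hΦa : DifferentiableAt ℂ Φ₁ w := hΦ₁.differentiableAt (isOpen_ball.mem_nhds hwr)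
    have hχa : DifferentiableAt ℂ χ (Φ₁ w) :=
      hnat.diff.differentiableAt (isOpen_ball.mem_nhds (hval w hwr).1)
    have hev : G k =ᶠ[𝓝 w] fun z => χ (Φ₁ z) := by
      filter_upwards [isOpen_ball.mem_nhds hwr] with z hz
      exact ((hval z hz).2.2).symm
    have hGd : deriv (G k) w = deriv χ (Φ₁ w) * deriv Φ₁ w := by
      rw [hev.deriv_eq]
      exact (hχa.hasDerivAt.comp w hΦa.hasDerivAt).deriv
    have heq := hnat.eq (Φ₁ w) (hval w hwr).1
    rw [(hval w hwr).2.2] at heq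
    have hτeq : YXPS.tau B G k w = deriv Φ₁ w ^ 2 := by
      unfold YXPS.tau
      rw [hGd]
      calc (deriv χ (Φ₁ w) * deriv Φ₁ w) ^ 2 * B (G k w)
          = (deriv χ (Φ₁ w) ^ 2 * B (G k w)) * deriv Φ₁ w ^ 2 := by ring
        _ = deriv Φ₁ w ^ 2 := by rw [heq, one_mul]
    have hsq : deriv Φ₁ w ^ 2 = σ w ^ 2 := by rw [← hτeq, (hσ w hwh).1]
    rcases sq_eq_sq_iff_eq_or_eq_neg.1 hsq with h3 | h3
    · exact h3
    · exfalso
      have h4 := hder1 w hw
      have h5 := (hσ w hwh).2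
      have h6 : ‖(2 : ℂ)‖ ≤ ‖deriv Φ₁ w - 1‖ + ‖σ w - 1‖ := by
        have h7 : (2 : ℂ) = -((deriv Φ₁ w - 1) + (σ w - 1)) := by
          rw [h3]
          ring
        rw [h7, norm_neg]
        exact norm_add_le _ _
      have h8 : ‖(2 : ℂ)‖ = 2 := by norm_num
      rw [h8] at h6
      linarith
  have heqn : EqOn Φ₁ Φ (ball 0 (r / 2)) := by
    refine isOpen_ball.eqOn_of_deriv_eq (convex_ball _ _).isPreconnected (hΦ₁.mono hsub2)
      (hΦd.mono (hsub2.trans hsubr)) ?_ (mem_ball_self (by positivity)) hΦ0.symm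
    intro w hw
    rw [hder2 w hw, (hΦ w (hsubr (hsub2 hw))).deriv]
  -- the bound
  have hbound : ∀ w ∈ ball (0 : ℂ) h', ‖Φ w - w‖ ≤ 2 * η := by
    intro w hw
    have hw' : ‖w‖ < h' := by simpa using hw
    have hmv : ‖(Φ w - w) - (Φ 0 - 0)‖ ≤ η * ‖w - 0‖ := by
      have := (convex_ball (0 : ℂ) h').norm_image_sub_le_of_norm_hasDerivWithin_le
        (f := fun z => Φ z - z) (f' := fun z => σ z - 1) (C := η) (x := 0) (y := w)
        (fun z hz => ((hΦ z hz).sub (hasDerivAt_id z)).hasDerivWithinAt)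
        (fun z hz => (hσ z hz).2) (mem_ball_self h'0) hw
      simpa using this
    have h2 : ‖Φ 0 - 0‖ ≤ η := by
      rw [hΦ0]
      exact (hval 0 (mem_ball_self hr)).2.1
    have h3 : ‖Φ w - w‖ ≤ ‖(Φ w - w) - (Φ 0 - 0)‖ + ‖Φ 0 - 0‖ := by
      have := norm_add_le ((Φ w - w) - (Φ 0 - 0)) (Φ 0 - 0)
      simpa using this
    have h4 : η * ‖w - 0‖ ≤ η * 1 := by
      apply mul_le_mul_of_nonneg_left _ hη0
      rw [sub_zero]
      linarith
    linarith
  have hmem : ∀ w ∈ ball (0 : ℂ) h', Φ w ∈ ball (0 : ℂ) (16 * h) := by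
    intro w hw
    have hw' : ‖w‖ < h' := by simpa using hw
    have h3 : ‖Φ w‖ ≤ ‖Φ w - w‖ + ‖w‖ := by
      have := norm_add_le (Φ w - w) w
      simpa using this
    simp only [mem_ball, dist_zero_right]
    linarith [hbound w hw]
  refine ⟨Φ, hΦd, fun w hw => ⟨hmem w hw, hbound w hw, ?_⟩⟩
  have hcomp : DifferentiableOn ℂ (fun z => χ (Φ z)) (ball 0 h') :=
    hnat.diff.comp hΦd hmem
  have ha1 : AnalyticOnNhd ℂ (fun z => χ (Φ z)) (ball 0 h') := hcomp.analyticOnNhd isOpen_ball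
  have ha2 : AnalyticOnNhd ℂ (G k) (ball 0 h') := (hlev.diff k le_rfl).analyticOnNhd isOpen_ball
  refine ha1.eqOn_of_preconnected_of_eventuallyEq ha2 (convex_ball _ _).isPreconnected
    (mem_ball_self h'0) ?_ hw
  filter_upwards [isOpen_ball.mem_nhds (mem_ball_self (by positivity : 0 < r / 2))] with z hz
  rw [← heqn hz]
  exact (hval z (hsub2 hz)).2.2

end YXPL
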