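import Pool.Agent.helper61.CSW.Base
import Pool.Agent.helper61.CSW.XP.SpecL
import Pool.Agent.helper61.CSW.Exports

/-! # Project xp: (MP_af9036_an): module PHS (surjectivity of Phi and of the charts) -/

set_option autoImplicit false

open Complex Metric Set Filter Topology MeasureTheory YXP
open V3S (UF)

noncomputable section

open CSS (SE)

namespace YXPL

theorem PHS_it {f : SE} {P : Set ℂ} {B : ℂ → ℂ} {G : ℕ → ℂ → ℂ}
    {Ω : Set ℂ} {Q : ℕ} (h : YXPS.LevSys f P B G Ω Q) {w : ℂ} (hw : w ∈ Ω) :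
    ∀ q ≤ Q, (fun z => f.eval z)^[q] (G q w) = G 0 w := by
  intro q
  induction q with
  | zero => intro _; rfl
  | succ q ih =>
    intro hq
    rw [Function.iterate_succ_apply]
    have h1 : f.eval (G (q + 1) w) = G q w := (h.rel q (by omega) w hw).1
    show (fun z => f.eval z)^[q] (f.eval (G (q + 1) w)) = G 0 w
    rw [h1]
    exact ih (by omega)

theorem PHS_mono {D : Dat} {x : ℂ} {r C C' : ℝ} {χ : ℂ → ℂ} {G : ℕ → ℂ → ℂ} {Φ : ℂ → ℂ}
    (hom : 0 ≤ D.om) (hde : 0 ≤ D.de)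
    (h : Ctl D x r C χ G Φ) (hC : C ≤ C') : Ctl D x r C' χ G Φ where
  nat := h.nat
  val := h.val
  aff := h.aff
  lev := h.lev
  g0 := h.g0
  sum := fun w hw => (h.sum w hw).trans (mul_le_mul_of_nonneg_right hC hom)
  phd := h.phd
  phi := fun w hw => ⟨(h.phi w hw).1,
    (h.phi w hw).2.1.trans (mul_le_mul_of_nonneg_right hC hde), (h.phi w hw).2.2⟩
  kc := fun q h1 h2 => (h.kc q h1 h2).trans (mul_le_mul_of_nonneg_right hC (norm_nonneg _))

theorem PHS (hCSZ : CSZ_stmt) (hCAF : CAF_stmt) (hBA1 : BA1_stmt) : PHS_stmt := by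
  intro n Cn D hS x hx hctl
  obtain ⟨r, hr, C₀, hC₀, hev⟩ := hctl
  obtain ⟨C₁, hC₁, hcs⟩ := hCSZ n Cn D hS.seq hS.lb x hx
  obtain ⟨A, -, hgood⟩ := hS.seq.good
  set C : ℝ := max C₀ C₁ with hC
  have hC0 : C₀ ≤ C := le_max_left _ _
  have hC1 : C₁ ≤ C := le_max_right _ _
  have hCpos : 0 < C := lt_of_lt_of_le hC₀ hC0
  have hlam : ∀ᶠ m in UF, C * (D m).de < r / 100 := by
    have h1 : Tendsto (fun m => C * (D m).de) UF (𝓝 (C * 0)) := hS.par.de1.const_mul C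
    rw [mul_zero] at h1
    exact h1.eventually (gt_mem_nhds (by positivity))
  refine ⟨r, hr, C, hCpos, 9 * r / (80 * C), by positivity, ?_⟩
  filter_upwards [hev, hcs, hlam, hS.par.od] with m h1 h2 h3 hod
  have hom : 0 ≤ (D m).om := (hS.par.om0 m).le
  have hde : 0 ≤ (D m).de := hom.trans hod
  obtain ⟨χ, G, Φ, h⟩ := h1
  obtain ⟨h4, h5⟩ := h2 χ (2 * r) (by positivity) h.nat h.val
  obtain ⟨hsg, -, -, -, -, -, -, -, -, hzF, -⟩ := hBA1 n Cn (A m) (D m) (hgood m)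
  have hsg0 : 0 < ‖(D m).sg‖ := norm_pos_iff.2 hsg
  refine ⟨χ, G, Φ, PHS_mono hom hde h hC0, h5.trans (mul_le_mul_of_nonneg_right hC1 hsg0.le), ?_⟩
  intro y hy
  obtain ⟨-, -, -, hcov, -⟩ := hCAF (D m).PP (D m).H χ (2 * r) (by positivity) h.nat h.aff
  have h6 : ‖(D m).sg‖ ≤ C * ‖deriv χ 0‖ := by
    have h7 : ‖(D m).sg‖ ≤ C₁ * ‖deriv χ 0‖ := by
      rw [div_le_iff₀ (by linarith)] at h4
      rw [mul_comm]
      exact h4
    exact h7.trans (mul_le_mul_of_nonneg_right hC1 (norm_nonneg _))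
  have h8 : (D m).zz y ∈ ball (χ 0) (9 / 10 * (r / 8) * ‖deriv χ 0‖) := by
    rw [mem_ball, dist_eq_norm, h.val]
    have h9 : (D m).zz y - (D m).zz x = (D m).sg * (y - x) := by
      unfold Dat.zz
      ring
    rw [h9, norm_mul]
    rw [mem_ball, dist_eq_norm] at hy
    calc ‖(D m).sg‖ * ‖y - x‖ < ‖(D m).sg‖ * (9 * r / (80 * C)) :=
          mul_lt_mul_of_pos_left hy hsg0
      _ ≤ (C * ‖deriv χ 0‖) * (9 * r / (80 * C)) :=
          mul_le_mul_of_nonneg_right h6 (by positivity)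
      _ = 9 / 10 * (r / 8) * ‖deriv χ 0‖ := by
          field_simp
          ring
  obtain ⟨u, hu, hzu⟩ := hcov (r / 8) (by positivity) (by linarith) h8
  rw [mem_ball_zero_iff] at hu
  have h10 : C₀ * (D m).de ≤ r / 100 :=
    (mul_le_mul_of_nonneg_right hC0 hde).trans h3.le
  obtain ⟨w, hw, hwu⟩ := PHS_phi hr h10 h.phd (fun w hw => (h.phi w hw).2.1) hu
  have h11 : (D m).zz y = χ (Φ w) := by rw [hwu, hzu]
  have h12 : (D m).zz y = G (D m).K w := by rw [h11, (h.phi w hw).2.2]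
  refine ⟨w, hw, h12, h11, ?_⟩
  rw [hzF, h12, PHS_it h.lev hw (D m).K le_rfl]
  exact h.g0 hw

end YXPL
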