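import Pool.Agent.helper61.CSW.Base
import Pool.Agent.helper61.CSW.XP.SpecL
import Pool.Agent.helper61.CSW.Exports

/-!
# Project xp:, module REC: change of the centre
-/

set_option autoImplicit false

open Complex Metric Set Filter Topology MeasureTheory YXP
open V3S (UF)

noncomputable section

open CSS (SE)

namespace YXPL

/-- translates of systems of levels -/
theorem REC_sys {f : SE} {P : Set ℂ} {B : ℂ → ℂ} {G : ℕ → ℂ → ℂ} {Q : ℕ}
    {w' : ℂ} {r c : ℝ} (hG : YXPS.LevSys f P B G (ball 0 c) Q)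
    (h : ∀ w ∈ ball (0 : ℂ) r, w' + w ∈ ball (0 : ℂ) c) :
    YXPS.LevSys f P B (fun q w => G q (w' + w)) (ball 0 r) Q := by
  refine ⟨REC_nat hG.nat0 h, fun q hq => REC_diff (hG.diff q hq) h, fun q hq w hw => ?_⟩
  exact hG.rel q hq _ (h w hw)

/-- injectivity of the levels -/
theorem REC_inj {f : SE} {P : Set ℂ} {B : ℂ → ℂ} {G : ℕ → ℂ → ℂ} {Q : ℕ}
    {Ω : Set ℂ} (hG : YXPS.LevSys f P B G Ω Q) (h0 : InjOn (G 0) Ω) :
    ∀ q ≤ Q, InjOn (G q) Ω := by
  intro q
  induction q with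
  | zero => intro _; exact h0
  | succ q ih =>
    intro hq w1 h1 w2 h2 he
    refine ih (by omega) h1 h2 ?_
    rw [← (hG.rel q (by omega) w1 h1).1, ← (hG.rel q (by omega) w2 h2).1, he]

theorem REC (hCAF : CAF_stmt) (hADH : ADH_stmt) (hKO3 : YV3.KO3_stmt) (hNIX : NIX_stmt) :
    REC_stmt := by
  obtain ⟨CK, hCK1, hCK⟩ := hKO3 (1 / 2) (by norm_num) (by norm_num)
  refine ⟨CK, hCK1, ?_⟩
  intro n C₀ A D hD y y' h r C C₁ η δ χ G Φ₁ h0 h1 r0 rh hC hC₁ hη ηδ δh δr hnat hval haff hsg hyy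
    hlev hg0 hsum hphd hphi hkc C' hC' hη' hδ'
  have hδ : 0 ≤ δ := hη.trans ηδ
  have hAD : YXPS.AD D.f D.PP D.H := (hADH n C₀ A D hD).1
  obtain ⟨c1, c2, c3, c4, c5, c6⟩ := hCAF D.PP D.H χ (16 * h) (by linarith) hnat haff
  have hs : 0 < ‖deriv χ 0‖ := norm_pos_iff.2 c1
  set s := ‖deriv χ 0‖ with hsdef
  -- the new centre
  have hz : D.zz y' ∈ ball (χ 0) (9 / 10 * (h / 4) * s) := by
    rw [hval, mem_ball_iff_norm]
    have e1 : D.zz y' - D.zz y = D.sg * (y' - y) := by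
      unfold Dat.zz
      ring
    rw [e1, norm_mul]
    have e2 : ‖D.sg‖ ≤ s * C₁ := (div_le_iff₀ (by linarith)).1 hsg
    have e3 : ‖D.sg‖ * ‖y' - y‖ ≤ (s * C₁) * (h / (10 * C₁)) :=
      mul_le_mul e2 hyy (norm_nonneg _) (by positivity)
    have e4 : (s * C₁) * (h / (10 * C₁)) = s * h / 10 := by
      have : C₁ ≠ 0 := by linarith
      field_simp
    rw [e4] at e3
    have e5 : 0 < s * h := mul_pos hs h0
    nlinarith
  obtain ⟨w', hw', hww⟩ := c4 (h / 4) (by linarith) (by linarith) hz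
  have hw'n : ‖w'‖ < h / 4 := by rwa [mem_ball_zero_iff] at hw'
  -- translations
  have t1 : ∀ w ∈ ball (0 : ℂ) (2 * (h / 8)), w' + w ∈ ball (0 : ℂ) (16 * h) :=
    fun w hw => REC_ball hw' hw (by linarith)
  have t2 : ∀ w ∈ ball (0 : ℂ) (h / 8), w' + w ∈ ball (0 : ℂ) (h / 2) :=
    fun w hw => REC_ball hw' hw (by linarith)
  have t3 : ∀ w ∈ ball (0 : ℂ) (h / 8), w' + w ∈ ball (0 : ℂ) (16 * h) :=
    fun w hw => REC_ball hw' hw (by linarith)
  -- continuation of the near identity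
  obtain ⟨Φ, hΦd, hΦ⟩ := hNIX D.K D.f D.PP D.H χ G Φ₁ h (h / 2) r δ
    hAD h0 h1 (by linarith) (by linarith) r0 rh hδ δh δr
    (by linarith) hnat hlev (fun w hw => (hsum w hw).trans ηδ) hphd hphi
  have hCK0 : 0 ≤ CK := by linarith
  have hC'0 : 0 ≤ C' := by
    have : 0 ≤ CK * (CK + C) := mul_nonneg hCK0 (by linarith)
    linarith
  refine ⟨fun w => χ (w' + w), fun q w => G q (w' + w), fun w => Φ (w' + w) - w', ?_⟩
  refine ⟨REC_nat hnat t1, ?_, ?_, REC_sys hlev t2, ?_, ?_, ?_, ?_, ?_⟩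
  · show χ (w' + 0) = D.zz y'
    rw [add_zero, hww]
  · -- nearly affine
    intro w hw
    rw [REC_deriv, REC_deriv, add_zero]
    have hw16 : w' ∈ ball (0 : ℂ) (16 * h) := by
      rw [mem_ball_zero_iff]; linarith
    have hwn : ‖w' + w‖ < h / 2 := by
      have := REC_ball hw' hw (le_refl (h / 4 + 2 * (h / 8)))
      rw [mem_ball_zero_iff] at this
      linarith
    have e1 := c6 (w' + w) (t1 w hw)
    have e2 := c6 w' hw16
    have e3 := haff w' hw16
    have e4 : ‖w' + w‖ / (16 * h) ≤ 1 / 32 := by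
      rw [div_le_iff₀ (by linarith)]
      linarith
    have e5 : ‖w'‖ / (16 * h) ≤ 1 / 64 := by
      rw [div_le_iff₀ (by linarith)]
      linarith
    have e6 : ‖deriv χ (w' + w) - deriv χ 0‖ ≤ s / 10 * (1 / 32) :=
      e1.trans (mul_le_mul_of_nonneg_left e4 (by positivity))
    have e7 : ‖deriv χ w' - deriv χ 0‖ ≤ s / 10 * (1 / 64) :=
      e2.trans (mul_le_mul_of_nonneg_left e5 (by positivity))
    have e8 : ‖deriv χ (w' + w) - deriv χ w'‖ ≤
        ‖deriv χ (w' + w) - deriv χ 0‖ + ‖deriv χ w' - deriv χ 0‖ := by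
      have : deriv χ (w' + w) - deriv χ w' =
          (deriv χ (w' + w) - deriv χ 0) - (deriv χ w' - deriv χ 0) := by ring
      rw [this]
      exact norm_sub_le _ _
    have e9 : s ≤ ‖deriv χ w'‖ + ‖deriv χ w' - deriv χ 0‖ := by
      have : deriv χ 0 = deriv χ w' - (deriv χ w' - deriv χ 0) := by ring
      rw [hsdef]
      nth_rewrite 1 [this]
      exact norm_sub_le _ _
    linarith
  · intro w hw
    exact hg0 (t2 w hw)
  · intro w hw
    have : ∑ q ∈ Finset.Icc 1 D.K, YXPS.lev D.H (fun q w => G q (w' + w)) q w =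
        ∑ q ∈ Finset.Icc 1 D.K, YXPS.lev D.H G q (w' + w) :=
      Finset.sum_congr rfl fun q _ => REC_lev D.H G w' w q
    rw [this]
    have := hsum _ (t2 w hw)
    linarith
  · exact (REC_diff hΦd t2).sub_const _
  · intro w hw
    obtain ⟨p1, p2, p3⟩ := hΦ _ (t2 w hw)
    have e1 : Φ (w' + w) - w' - w = Φ (w' + w) - (w' + w) := by ring
    have e2 : ‖Φ (w' + w) - w' - w‖ ≤ 2 * δ := by rw [e1]; exact p2
    have hwn : ‖w‖ < h / 8 := by rwa [mem_ball_zero_iff] at hw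
    refine ⟨?_, ?_, ?_⟩
    · rw [mem_ball_zero_iff]
      have e3 : Φ (w' + w) - w' = (Φ (w' + w) - w' - w) + w := by ring
      have e4 : ‖Φ (w' + w) - w'‖ ≤ ‖Φ (w' + w) - w' - w‖ + ‖w‖ := by
        nth_rewrite 1 [e3]
        exact norm_add_le _ _
      show ‖Φ (w' + w) - w'‖ < _
      linarith
    · show ‖Φ (w' + w) - w' - w‖ ≤ _
      linarith
    · show χ (w' + (Φ (w' + w) - w')) = G D.K (w' + w)
      rw [add_sub_cancel]
      exact p3
  · -- distance to the poles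
    intro q hq1 hqk
    show ‖G q (w' + 0) - D.b (-(q : ZMod D.k))‖ ≤ C' * ‖deriv (fun w => G q (w' + w)) 0‖
    rw [REC_deriv, add_zero]
    have hi0 : InjOn (G 0) (ball 0 (h / 2)) := by
      have : InjOn χ (ball 0 (h / 2)) := c2.mono (ball_subset_ball (by linarith))
      exact this.congr hg0.symm
    have hiq := REC_inj hlev hi0 q hqk
    obtain ⟨-, hd⟩ := hCK (G q) 0 (h / 2) (by linarith) (hlev.diff q hqk) hiq
    obtain ⟨d1, d2, d3, -⟩ := hd w' (by rw [mem_ball_zero_iff]; linarith)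
    rw [sub_zero] at d3
    have k1 := hkc q hq1 hqk
    set m := ‖deriv (G q) 0‖ with hm
    have hm0 : 0 ≤ m := norm_nonneg _
    have e1 : ‖G q w' - D.b (-(q : ZMod D.k))‖ ≤
        ‖G q w' - G q 0‖ + ‖G q 0 - D.b (-(q : ZMod D.k))‖ := by
      have : G q w' - D.b (-(q : ZMod D.k)) =
          (G q w' - G q 0) + (G q 0 - D.b (-(q : ZMod D.k))) := by ring
      rw [this]
      exact norm_add_le _ _
    have e2 : CK * ‖w'‖ * m ≤ CK * m := by
      have : CK * ‖w'‖ ≤ CK * 1 := mul_le_mul_of_nonneg_left (by linarith) hCK0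
      have := mul_le_mul_of_nonneg_right this hm0
      linarith
    have e3 : ‖G q w' - D.b (-(q : ZMod D.k))‖ ≤ (CK + C) * m := by
      have : (CK + C) * m = CK * m + C * m := by ring
      linarith
    have e4 : (CK + C) * m ≤ (CK + C) * (CK * ‖deriv (G q) w'‖) :=
      mul_le_mul_of_nonneg_left d2 (by linarith)
    have e5 : (CK + C) * (CK * ‖deriv (G q) w'‖) = (CK * (CK + C)) * ‖deriv (G q) w'‖ := by ring
    have e6 : (CK * (CK + C)) * ‖deriv (G q) w'‖ ≤ C' * ‖deriv (G q) w'‖ :=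
      mul_le_mul_of_nonneg_right hC' (norm_nonneg _)
    linarith

end YXPL
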