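import Pool.Agent.helper61.CSW.Base
import Pool.Agent.helper61.CSW.V3.All
import Pool.Agent.helper61.CSW.XP.AllS
import Pool.Agent.helper61.CSW.XP.BA1
import Pool.Agent.helper61.CSW.XP.BAD
import Pool.Agent.helper61.CSW.XP.ADH
import Pool.Agent.helper61.CSW.XP.SpecL
import Pool.Agent.helper61.CSW.XP.SpecS
import Pool.Agent.helper61.CSW.XP.NIX
import Pool.Agent.helper61.CSW.XP.EXB
import Pool.Agent.helper61.CSW.XP.REC
import Pool.Agent.helper61.CSW.XP.LPI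
import Pool.Agent.helper61.CSW.XP.LPB
import Pool.Agent.helper61.CSW.XP.REG
import Pool.Agent.helper61.CSW.XP.CHT
import Pool.Agent.helper61.CSW.XP.STP
import Pool.Agent.helper61.CSW.XP.ALC
import Pool.Agent.helper61.CSW.XP.CSZ
import Pool.Agent.helper61.CSW.XP.PHS
import Pool.Agent.helper61.CSW.XP.DLO
import Pool.Agent.helper61.CSW.XP.DSP
import Pool.Agent.helper61.CSW.XP.INJ
import Pool.Agent.helper61.CSW.XP.AFF
import Pool.Agent.helper61.CSW.XP.ISL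
import Pool.Agent.helper61.CSW.XP.ISO
import Pool.Agent.helper61.CSW.XP.BEN
import Pool.Agent.helper61.CSW.Exports

/-!
# Project xp: parts L, B: assembly
-/

set_option autoImplicit false

open CSS (SE)

namespace YXPL

theorem NIX_l : NIX_stmt := NIX YXPS.LEAX_x YXPS.LVX_x
theorem BA1_l : BA1_stmt := BA1
theorem BAD_l : BAD_stmt := BAD BA1_l
theorem ADH_l : ADH_stmt := ADH
theorem EXB_l : EXB_stmt := EXB CAF_l BA1_l BAD_l ADH_l YV3A.NPK_v YXPS.LVX_x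
theorem REC_l : REC_stmt := REC CAF_l ADH_l YV3A.KO3_v NIX_l
theorem LPI_l : LPI_stmt := LPI BA1_l BAD_l YV3A.NLP_v YV3A.PCO_v
theorem LPB_l : LPB_stmt := LPB LPI_l ADH_l YV3A.TDE_v
theorem REG_l : REG_stmt := REG
theorem CHT_l : CHT_stmt := CHT YV3A.NCH_v LPB_l REG_l BA1_l
theorem STP_l : STP_stmt := STP CHT_l SGN_l EXB_l YXPS.CS_x REC_l ADH_l BA1_l CAF_l
theorem ALC_l : ALC_stmt := ALC STP_l REG_l
theorem CSZ_l : CSZ_stmt := CSZ
theorem PHS_l : PHS_stmt := PHS CSZ_l CAF_l BA1_l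
theorem DLO_l : DLO_stmt := DLO PHS_l CAF_l BA1_l
theorem DSP_l : DSP_stmt := DSP ALC_l DLO_l REG_l BA1_l YV3A.TBX_v
theorem INJ_l : INJ_stmt := INJ DSP_l BA1_l
theorem AFF_l : AFF_stmt := AFF INJ_l BA1_l YV3A.KO0_v YV3A.KO3_v
theorem ISL_l : ISL_stmt := ISL PHS_l BA1_l ADH_l YXPS.LVX_x YXPS.LEAX_x
theorem ISO_l : ISO_stmt := ISO ISL_l ALC_l
theorem BEN_l : BEN_stmt := BEN AFF_l BA1_l

end YXPL
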