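import Pool.Agent.helper61.CSW.Base
import Pool.Agent.helper61.CSW.XP.SpecL
import Pool.Agent.helper61.CSW.V3.SpecE
import Pool.Agent.helper61.CSW.Exports

/-!
# Project xp: (MP_af9036_an, MP_70a088_an), definitions of part G (labels, energy, limit object; case `ζ = 1`) and interface to part E

Paper: /team-store/MP_af9036_XP_helper60.md, sections 6 - 8. Case A only: `N = 1`, `K = k`, `om = de = C ‖lam‖`.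
-/

set_option autoImplicit false

open Complex Metric Set Filter Topology MeasureTheory YXP
open V3S (UF)

noncomputable section

open CSS (SE)

namespace YXPG

/-- `((f^k)^* B - B)/lam`, close to `L_v B`. -/
def qq (D : Dat) (x : ℂ) : ℂ := (D.T D.k x - D.B x) / D.lam

/-- the energy density of one datum. -/
def en (D : Dat) (x : ℂ) : ℝ :=
  ‖qq D x‖ - (D.lam / ‖D.lam‖ * qq D x * (((‖D.T D.k x‖ : ℝ) : ℂ) / D.T D.k x)).re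

/-- the labels `l m` converge to the pole `p`. -/
def LabTo (D : ℕ → Dat) (l : ∀ m, ZMod (D m).k) (p : ℂ) : Prop :=
  Tendsto (fun m => (D m).p (l m)) UF (𝓝 p)

/-- the linear parts of the limit maps `α_p x = p + A p x`. -/
structure AL (D : ℕ → Dat) (A : ℂ → ℂ) : Prop where
  one : A 0 = 1
  nrm : ∀ p ∈ Pin D, ‖A p‖ = 1
  inv : ∀ p ∈ Pin D, -p / A p ∈ Pin D ∧ A (-p / A p) = 1 / A p
  tend : ∀ p ∈ Pin D, ∀ l, LabTo D l p → Tendsto (fun m => (D m).A (l m).val) UF (𝓝 (A p))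
  neg : ∀ p ∈ Pin D, ∀ l, LabTo D l p → LabTo D (fun m => -(l m)) (-p / A p)
  unif : ∀ p ∈ Pin D, ∀ l, LabTo D l p → ∀ ρ > (0 : ℝ), ∀ ε > (0 : ℝ), ∀ᶠ m in UF, ∀ x ∈ ball (0 : ℂ) ρ,
    ‖(D m).F (l m).val x - (p + A p * x)‖ ≤ ε ∧ ‖deriv ((D m).F (l m).val) x - A p‖ ≤ ε

/-- the same before `‖A p‖ = 1` is known; with the group law. -/
structure AL0 (C : ℝ) (D : ℕ → Dat) (A : ℂ → ℂ) : Prop where
  one : A 0 = 1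
  low : ∀ p ∈ Pin D, 1 / C ≤ ‖A p‖
  inv : ∀ p ∈ Pin D, -p / A p ∈ Pin D ∧ A (-p / A p) = 1 / A p
  tend : ∀ p ∈ Pin D, ∀ l, LabTo D l p → Tendsto (fun m => (D m).A (l m).val) UF (𝓝 (A p))
  neg : ∀ p ∈ Pin D, ∀ l, LabTo D l p → LabTo D (fun m => -(l m)) (-p / A p)
  unif : ∀ p ∈ Pin D, ∀ l, LabTo D l p → ∀ ρ > (0 : ℝ), ∀ ε > (0 : ℝ), ∀ᶠ m in UF, ∀ x ∈ ball (0 : ℂ) ρ,
    ‖(D m).F (l m).val x - (p + A p * x)‖ ≤ ε ∧ ‖deriv ((D m).F (l m).val) x - A p‖ ≤ ε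

/-- the residues of the limit (case I). -/
structure GG (D : ℕ → Dat) (g : ℂ → ℂ) : Prop where
  bd : ∃ C : ℝ, ∀ p ∈ Pin D, ‖g p‖ ≤ C
  pp : ∀ p ∈ Pin D, ∃ h : ℂ → ℂ, AnalyticAt ℂ h p ∧
    ∀ᶠ x in 𝓝[≠] p, Bin D x = 1 / (x - p) ^ 2 + g p / (x - p) + h x
  lim : ∀ p ∈ Pin D, ∀ l, LabTo D l p → Tendsto (fun m => (D m).sg * (D m).g (l m)) UF (𝓝 (g p))
  b2 : ∀ x ∉ Pin D, iteratedDeriv 2 (Bin D) x =
    ∑' p : Pin D, (6 / (x - (p : ℂ)) ^ 4 + 2 * g p / (x - (p : ℂ)) ^ 3)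

/-- case I [XP, 3]: `s = 1`, poles visible. All fields of `GG` are conclusions of `YV3.NORM_stmt`. -/
structure CI (D : ℕ → Dat) (g : ℂ → ℂ) : Prop where
  s1 : ∀ m, (D m).s = 1
  gg : GG D g

/-- case II [XP, 3]: `s → 0`, the limit is affine. -/
structure CII (D : ℕ → Dat) (a₀ a₁ : ℂ) : Prop where
  s0 : Tendsto (fun m => (D m).s) UF (𝓝 0)
  nz : a₀ ≠ 0 ∨ a₁ ≠ 0
  aff : ∀ x ∉ Pin D, Bin D x = a₀ + a₁ * x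

/-- the hypotheses of part G: case `ζ = 1`. -/
structure HG (n : ℕ) (C C' C'' : ℝ) (D : ℕ → Dat) : Prop where
  hl : YXPL.HL n C D
  sa : SeqA C' D
  pa : ParA C'' D
  st : YXPL.ST D

/-- the facts of part L in case `ζ = 1` (`N = 1`, `K = k`); compare `YV3S.LimOK`. -/
structure LA (C : ℝ) (D : ℕ → Dat) : Prop where
  C1 : 1 ≤ C
  ga : ∀ m, (D m).GA
  lam : Tendsto (fun m => (D m).lam) UF (𝓝 0)
  P0 : (0 : ℂ) ∈ Pin D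
  sep : ∀ (m : ℕ) (i l : ZMod (D m).k), i ≠ l → 1 ≤ ‖(D m).p i - (D m).p l‖
  Bdiff : DifferentiableOn ℂ (Bin D) (Pin D)ᶜ
  Bconv : ∀ K : Set ℂ, IsCompact K → K ⊆ (Pin D)ᶜ → TendstoUniformlyOn (fun m => (D m).B) (Bin D) UF K
  acc : ∀ x : ℂ, ∀ᶠ y in 𝓝[≠] x, y ∉ Pin D ∧ Bin D y ≠ 0
  vdiff : Differentiable ℂ (vin D)
  vconv : ∀ K : Set ℂ, IsCompact K → TendstoUniformlyOn (fun m => (D m).v) (vin D) UF K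
  vzero : ∀ p ∈ Pin D, vin D p = 0 ∧ deriv (vin D) p = 1
  far : ∃ x : ℂ, ‖x‖ = 1 ∧ ‖vin D x - x‖ = 1 / 10
  inj : ∀ ρ > (0 : ℝ), ∀ᶠ m in UF, ∀ j ≤ (D m).k, InjOn ((D m).F j) (ball 0 ρ)
  A0 : ∀ᶠ m in UF, ∀ j ≤ (D m).k, (D m).A j ≠ 0
  aff : ∀ ρ > (0 : ℝ), ∀ ε > (0 : ℝ), ∀ᶠ m in UF, ∀ j ≤ (D m).k, ∀ x ∈ ball (0 : ℂ) ρ,
    ‖deriv ((D m).F j) x - (D m).A j‖ ≤ ε * ‖(D m).A j‖
  low : ∀ᶠ m in UF, ∀ j ≤ (D m).k, 1 / C ≤ ‖(D m).A j‖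
  bA : ∀ᶠ m in UF, ∀ j, 1 ≤ j → j < (D m).k → ‖(D m).A j‖ ≤ C * ‖(D m).F j 0‖
  com : ∀ ρ > (0 : ℝ), ∀ ε > (0 : ℝ), ∀ᶠ m in UF, ∀ j ≤ (D m).k, ∀ x ∈ ball (0 : ℂ) ρ,
    ‖(D m).v ((D m).F j x) - deriv ((D m).F j) x * (D m).v x‖ ≤ ε * ‖(D m).A j‖
  iso : ∀ K : Set ℂ, IsCompact K → K ⊆ Reg D → ∀ ε > (0 : ℝ), ∀ᶠ m in UF, ∀ j ≤ (D m).k, ∀ x ∈ K,
    ‖deriv ((D m).F j) x ^ 2 * (D m).B ((D m).F j x) - Bin D x‖ ≤ ε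
  img : ∀ ρ > (0 : ℝ), ∀ ε > (0 : ℝ), ∀ᶠ m in UF, ∀ j ≤ (D m).k, ∀ x ∈ ball (0 : ℂ) ρ,
    True ∧ (D m).zz ((D m).F j x) ∉ (D m).P ∧
    ‖(D m).F j x - (D m).p (j : ZMod (D m).k)‖ * (D m).R 0 ≤ 2 * C * (D m).R (j : ZMod (D m).k) * ‖x‖ ∧ True

/-! ## Interface to part E -/

end YXPG
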