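import Pool.Agent.helper61.CSW.Base
import Pool.Agent.helper61.CSW.XP.SpecG
import Pool.Agent.helper61.CSW.Exports

set_option autoImplicit false

open Complex Metric Set Filter Topology MeasureTheory YXP
open V3S (UF)

noncomputable section

open CSS (SE)

namespace YXPG

theorem GAG (hGBA : GBA_stmt) (hGLB : GLB_stmt) : GAG_stmt := by
  intro n C C' C'' D A hS hL hA p hp p' hp'
  obtain ⟨hlab, hpin, -, -, -, -, -⟩ := hGLB n C C' C'' D hS hL
  obtain ⟨l, hl⟩ := hlab p hp
  obtain ⟨l', hl'⟩ := hlab p' hp'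
  have hGB := fun m => hGBA n C (D m) (hS.ok m)
  -- bounded
  have hbd : ∀ᶠ m in UF, (D m).p (l' m) ∈ ball (0 : ℂ) (‖p'‖ + 1) := by
    have h1 := (Metric.tendsto_nhds.1 hl') 1 one_pos
    filter_upwards [h1] with m hm
    rw [dist_eq_norm] at hm
    rw [mem_ball_zero_iff]
    have h2 : ‖(D m).p (l' m)‖ ≤ ‖(D m).p (l' m) - p'‖ + ‖p'‖ := by
      have := norm_add_le ((D m).p (l' m) - p') p'
      rwa [sub_add_cancel] at this
    linarith
  have hρ : (0 : ℝ) < ‖p'‖ + 1 := by positivity
  -- the map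
  have hT1 : Tendsto (fun m => (D m).F (l m).val ((D m).p (l' m))) UF (𝓝 (p + A p * p')) := by
    have h1 : Tendsto (fun m => p + A p * (D m).p (l' m)) UF (𝓝 (p + A p * p')) :=
      tendsto_const_nhds.add (hl'.const_mul _)
    have h2 : Tendsto (fun m => (D m).F (l m).val ((D m).p (l' m)) - (p + A p * (D m).p (l' m))) UF
        (𝓝 0) := by
      apply GAG_tend
      intro ε hε
      filter_upwards [hbd, hA.unif p hp l hl (‖p'‖ + 1) hρ ε hε] with m hm1 hm2
      rw [sub_zero]
      exact (hm2 _ hm1).1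
    have h3 := h2.add h1
    simpa using h3
  have hT2 : Tendsto (fun m => deriv ((D m).F (l m).val) ((D m).p (l' m))) UF (𝓝 (A p)) := by
    apply GAG_tend
    intro ε hε
    filter_upwards [hbd, hA.unif p hp l hl (‖p'‖ + 1) hρ ε hε] with m hm1 hm2
    exact (hm2 _ hm1).2
  have hlab2 : LabTo D (fun m => l' m + l m) (p + A p * p') := by
    refine hT1.congr fun m => ?_
    have h1 := (hGB m).2.2.2.2.2.1 (l m).val (l' m)
    rw [h1, ZMod.natCast_zmod_val]
  have hmem := hpin _ _ hlab2
  refine ⟨hmem, ?_⟩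
  -- the derivatives
  have hA1 := hA.tend _ hmem _ hlab2
  have hA2 := hA.tend p' hp' l' hl'
  have hprod : Tendsto (fun m => deriv ((D m).F (l m).val) ((D m).p (l' m)) * (D m).A (l' m).val) UF
      (𝓝 (A p * A p')) := hT2.mul hA2
  have hexp : Tendsto (fun m => Complex.exp (D m).lam) UF (𝓝 1) := by
    have h1 := (Complex.continuous_exp.tendsto 0).comp hL.lam
    rw [Complex.exp_zero] at h1
    exact h1
  -- comparison
  have hcmp : ∀ m, deriv ((D m).F (l m).val) ((D m).p (l' m)) * (D m).A (l' m).val =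
      (D m).A (l' m + l m).val ∨
      deriv ((D m).F (l m).val) ((D m).p (l' m)) * (D m).A (l' m).val =
      (D m).A (l' m + l m).val * Complex.exp (D m).lam := by
    intro m
    obtain ⟨-, -, -, hadd, -, hFp, hp0, -, -, hv, -, hlam, -, -, hch, hFk, hdF, hdv, -⟩ := hGB m
    have hF0 : ∀ j : ℕ, (D m).F j 0 = (D m).p j := by
      intro j
      have h1 := hFp j 0
      rw [hp0, zero_add] at h1
      exact h1
    have e1 : deriv ((D m).F (l m).val) ((D m).p (l' m)) * (D m).A (l' m).val =
        (D m).A ((l m).val + (l' m).val) := by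
      unfold Dat.A
      rw [hch (l m).val (l' m).val 0, hF0, ZMod.natCast_zmod_val]
    rw [e1]
    have e2 : (l' m + l m).val = ((l' m).val + (l m).val) % (D m).k := ZMod.val_add _ _
    by_cases hlt : (l' m).val + (l m).val < (D m).k
    · left
      rw [e2, Nat.mod_eq_of_lt hlt, add_comm]
    · right
      have h1 := ZMod.val_lt (l m)
      have h2 := ZMod.val_lt (l' m)
      have e3 : ((l' m).val + (l m).val) % (D m).k = (l' m).val + (l m).val - (D m).k := by
        rw [Nat.mod_eq_sub_mod (not_lt.1 hlt), Nat.mod_eq_of_lt]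
        omega
      obtain ⟨r, hr⟩ : ∃ r, r = (l' m).val + (l m).val - (D m).k := ⟨_, rfl⟩
      rw [e2, e3, ← hr]
      have e4 : (l m).val + (l' m).val = r + (D m).k := by omega
      rw [e4]
      unfold Dat.A
      rw [hch r (D m).k 0, hF0]
      have e5 : (((D m).k : ℕ) : ZMod (D m).k) = 0 := ZMod.natCast_self _
      rw [e5, hp0]
      congr 1
      have e6 : (D m).F (D m).k = fun x => x + (D m).lam * (D m).v x := funext hFk
      have e7 : HasDerivAt (fun x => x + (D m).lam * (D m).v x)
          (1 + (D m).lam * deriv (D m).v 0) 0 :=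
        (hasDerivAt_id (0 : ℂ)).add ((hdv 0).hasDerivAt.const_mul _)
      rw [e6, e7.deriv]
      have e8 := (hv 0).2
      rw [hp0] at e8
      rw [e8, mul_div_cancel₀ _ hlam]
      ring
  have hprod2 : Tendsto (fun m => (D m).A (l' m + l m).val * Complex.exp (D m).lam) UF
      (𝓝 (A (p + A p * p'))) := by
    have h1 := hA1.mul hexp
    rw [mul_one] at h1
    exact h1
  have hdist : Tendsto (fun m => deriv ((D m).F (l m).val) ((D m).p (l' m)) * (D m).A (l' m).val) UF
      (𝓝 (A (p + A p * p'))) := by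
    apply GAG_tend
    intro ε hε
    have h1 := (Metric.tendsto_nhds.1 hA1) ε hε
    have h2 := (Metric.tendsto_nhds.1 hprod2) ε hε
    filter_upwards [h1, h2] with m h1 h2
    rw [dist_eq_norm] at h1 h2
    rcases hcmp m with h3 | h3
    · rw [h3]; exact h1.le
    · rw [h3]; exact h2.le
  exact tendsto_nhds_unique hdist hprod

end YXPG
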