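import Pool.Agent.helper61.CSW.Base
import Pool.Agent.helper61.CSW.XP.SpecG
import Pool.Agent.helper61.CSW.Exports

/-!
# Project xp: (MP_af9036_an), module GEP: the pointwise inequality, from `YXPS.LVG_stmt`
-/

set_option autoImplicit false

open Complex Metric Set Filter Topology MeasureTheory YXP
open V3S (UF)

noncomputable section

open CSS (SE)

namespace YXPG

theorem GEP_diff (f : SE) (j : ℕ) : Differentiable ℂ ((fun y : ℂ => f.eval y)^[j]) :=
  (f.differentiable).iterate j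

theorem GEP_step (f : SE) (j : ℕ) (y : ℂ) :
    (fun y : ℂ => f.eval y)^[j + 1] y = f.eval ((fun y : ℂ => f.eval y)^[j] y) :=
  Function.iterate_succ_apply' _ _ _

theorem GEP_dstep (f : SE) (j : ℕ) (y : ℂ) :
    deriv ((fun y : ℂ => f.eval y)^[j + 1]) y =
      YPPS.fd f ((fun y : ℂ => f.eval y)^[j] y) * deriv ((fun y : ℂ => f.eval y)^[j]) y := by
  have h1 : (fun y : ℂ => f.eval y)^[j + 1] = (fun y : ℂ => f.eval y) ∘ (fun y : ℂ => f.eval y)^[j] :=
    Function.iterate_succ' _ _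
  rw [h1]
  have h2 := (f.hasDerivAt ((fun y : ℂ => f.eval y)^[j] y)).comp y ((GEP_diff f j) y).hasDerivAt
  exact h2.deriv

theorem GEP_fd (f : SE) (k : ℕ) (y : ℂ) (h : deriv ((fun y : ℂ => f.eval y)^[k]) y ≠ 0) :
    ∀ j < k, YPPS.fd f ((fun y : ℂ => f.eval y)^[j] y) ≠ 0 := by
  intro j hj h0
  have h1 : ∀ m, deriv ((fun y : ℂ => f.eval y)^[j + 1 + m]) y = 0 := by
    intro m
    induction m with
    | zero => rw [add_zero, GEP_dstep, h0, zero_mul]
    | succ m ih => rw [← add_assoc, GEP_dstep, ih, mul_zero]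
  obtain ⟨m, rfl⟩ : ∃ m, k = j + 1 + m := ⟨k - (j + 1), by omega⟩
  exact h (h1 m)

theorem GEP (hLVG : YXPS.LVG_stmt) (hSMB : YPPS.SMB_stmt) : GEP_stmt := by
  intro k f P B hAD z hd _ hB
  have hdc : Continuous (deriv ((fun y : ℂ => f.eval y)^[k])) :=
    ((GEP_diff f k).contDiff (n := 2)).differentiable_deriv_two.continuous
  have hΩ : IsOpen {w : ℂ | deriv ((fun y : ℂ => f.eval y)^[k]) w ≠ 0} :=
    isOpen_ne_fun hdc continuous_const
  have h := (hLVG f B (fun q => (fun y : ℂ => f.eval y)^[k - q])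
    {w : ℂ | deriv ((fun y : ℂ => f.eval y)^[k]) w ≠ 0} k hAD.deg
    (fun z => (hSMB f B hAD.dec z).2) hΩ
    (fun q _ => (GEP_diff f (k - q)).differentiableOn) (by
      intro q hq w hw
      have h1 : k - q = (k - (q + 1)) + 1 := by omega
      refine ⟨?_, GEP_fd f k w hw (k - (q + 1)) (by omega)⟩
      show f.eval ((fun y : ℂ => f.eval y)^[k - (q + 1)] w) = (fun y : ℂ => f.eval y)^[k - q] w
      rw [h1]
      exact (GEP_step f _ _).symm) z hd).2
  have h0 : YXPS.tau B (fun q => (fun y : ℂ => f.eval y)^[k - q]) 0 z =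
      deriv ((fun y => f.eval y)^[k]) z ^ 2 * B ((fun y => f.eval y)^[k] z) := rfl
  have hk : YXPS.tau B (fun q => (fun y : ℂ => f.eval y)^[k - q]) k z = B z := by
    unfold YXPS.tau
    simp only [Nat.sub_self, Function.iterate_zero, deriv_id, id, one_pow, one_mul]
  rw [h0, hk] at h
  set T : ℂ := deriv ((fun y => f.eval y)^[k]) z ^ 2 * B ((fun y => f.eval y)^[k] z) with hT
  have hT0 : T ≠ 0 := mul_ne_zero (pow_ne_zero _ hd) hB
  have hTn : ‖T‖ ≠ 0 := norm_ne_zero_iff.2 hT0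
  have h2 := h (((‖T‖ : ℝ) : ℂ) / T) (by
    rw [norm_div, Complex.norm_real, norm_norm, div_self hTn]) (div_mul_cancel₀ _ hT0)
  rw [mul_comm (((‖T‖ : ℝ) : ℂ) / T)] at h2
  exact h2

end YXPG
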