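import Pool.Agent.helper61.CSW.Base
import Pool.Agent.helper61.CSW.XP.SpecG
import Pool.Agent.helper61.CSW.Exports

set_option autoImplicit false

open Complex Metric Set Filter Topology MeasureTheory YXP
open V3S (UF)

noncomputable section

open CSS (SE)

namespace YXPG

theorem GF1 (hLOA : LOA_stmt) (hGML : GML_stmt) (hGZF : GZF_stmt) (hEN1 : EN1_stmt) : GF1_stmt := by
  intro n C C' C'' D g hH hI
  have hLA := hLOA n C C' C'' D hH
  obtain ⟨A, q, θ, hAL, hLim⟩ := hGML n C C' C'' D g hH hLA hI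
  obtain ⟨t, c', ht, hP, hA, hc, hv, hB⟩ := hEN1 (Pin D) A g (Bin D) (vin D) q θ hLim
  exact hGZF n C C' C'' D A t c' hH hLA hI.s1 hAL ht hP hA hc hv hB

end YXPG
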