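import Pool.Agent.helper61.CSW.Base
import Pool.Agent.helper61.CSW.XP.SpecG
import Pool.Agent.helper61.CSW.Exports

/-! Project xp: module GGR: group law and invariance. -/

set_option autoImplicit false

open Complex Metric Set Filter Topology MeasureTheory YXP
open V3S (UF)

noncomputable section

open CSS (SE)

namespace YXPG

theorem GGR (hGBA : GBA_stmt) (hGLB : GLB_stmt) (hLPI : YXPL.LPI_stmt) (hREG : YXPL.REG_stmt) :
    GGR_stmt := by
  intro n C C' C'' D A hS hOK hA
  obtain ⟨hL1, hL2, -, -, -, -, -⟩ := hGLB n C C' C'' D hS hOK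
  have hcl : IsClosed (Pin D) := (hLPI n C D hS.hl.seq).2.2.2.1
  obtain ⟨-, -, hreg⟩ := hREG n C D hS.hl.seq hS.hl.lb
  have hA0 : ∀ p ∈ Pin D, A p ≠ 0 := by
    intro p hp e
    have := hA.nrm p hp
    rw [e, norm_zero] at this
    exact zero_ne_one this
  -- convergence of `F (l m).val (x m)`
  have hF : ∀ p ∈ Pin D, ∀ l, LabTo D l p → ∀ (x : ℕ → ℂ) (X : ℂ), Tendsto x UF (𝓝 X) →
      Tendsto (fun m => (D m).F (l m).val (x m)) UF (𝓝 (p + A p * X)) ∧
      Tendsto (fun m => deriv ((D m).F (l m).val) (x m)) UF (𝓝 (A p)) := by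
    intro p hp l hl x X hx
    have hb : ∀ᶠ m in UF, x m ∈ ball (0 : ℂ) (‖X‖ + 1) := by
      have : ball X 1 ∈ 𝓝 X := ball_mem_nhds X one_pos
      filter_upwards [hx this] with m hm
      rw [mem_ball_zero_iff]
      have h1 : ‖x m - X‖ < 1 := by rwa [← dist_eq_norm]
      have h2 : ‖x m‖ ≤ ‖x m - X‖ + ‖X‖ := by
        have := norm_add_le (x m - X) X
        simpa using this
      linarith
    have hlin : Tendsto (fun m => p + A p * x m) UF (𝓝 (p + A p * X)) :=
      tendsto_const_nhds.add (hx.const_mul (A p))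
    constructor
    · have hd : Tendsto (fun m => (D m).F (l m).val (x m) - (p + A p * x m)) UF (𝓝 0) := by
        rw [Metric.tendsto_nhds]
        intro ε hε
        have h1 := hA.unif p hp l hl (‖X‖ + 1) (by positivity) (ε / 2) (by linarith)
        filter_upwards [h1, hb] with m h1 h2
        have h3 := (h1 (x m) h2).1
        rw [dist_zero_right]
        linarith
      simpa using hd.add hlin
    · rw [Metric.tendsto_nhds]
      intro ε hε
      have h1 := hA.unif p hp l hl (‖X‖ + 1) (by positivity) (ε / 2) (by linarith)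
      filter_upwards [h1, hb] with m h1 h2
      have h3 := (h1 (x m) h2).2
      rw [dist_eq_norm]
      linarith
  -- labels add
  have hadd : ∀ p ∈ Pin D, ∀ p' ∈ Pin D, ∀ l l', LabTo D l p → LabTo D l' p' →
      LabTo D (fun m => l' m + l m) (p + A p * p') := by
    intro p hp p' hp' l l' hl hl'
    have h1 := (hF p hp l hl (fun m => (D m).p (l' m)) p' hl').1
    have h2 : ∀ m, (D m).F (l m).val ((D m).p (l' m)) = (D m).p (l' m + l m) := by
      intro m
      obtain ⟨-, -, -, -, -, h6, -⟩ := hGBA n C (D m) (hS.ok m)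
      rw [h6, ZMod.natCast_zmod_val]
    simp only [h2] at h1
    exact h1
  have hgrp : ∀ p ∈ Pin D, ∀ p' ∈ Pin D, p + A p * p' ∈ Pin D := by
    intro p hp p' hp'
    obtain ⟨l, hl⟩ := hL1 p hp
    obtain ⟨l', hl'⟩ := hL1 p' hp'
    exact hL2 _ _ (hadd p hp p' hp' l l' hl hl')
  have hcomm : ∀ p ∈ Pin D, ∀ p' ∈ Pin D, p + A p * p' = p' + A p' * p := by
    intro p hp p' hp'
    obtain ⟨l, hl⟩ := hL1 p hp
    obtain ⟨l', hl'⟩ := hL1 p' hp'
    have h1 := hadd p hp p' hp' l l' hl hl'
    have h2 := hadd p' hp' p hp l' l hl' hl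
    have h3 : (fun m => l m + l' m) = fun m => l' m + l m := funext fun m => add_comm _ _
    rw [h3] at h2
    exact tendsto_nhds_unique h1 h2
  refine ⟨hgrp, hcomm, ?_, ?_⟩
  · intro p hp x
    obtain ⟨l, hl⟩ := hL1 p hp
    obtain ⟨h1, h2⟩ := hF p hp l hl (fun _ => x) x tendsto_const_nhds
    have hc : ContinuousOn (vin D) Set.univ := hOK.vdiff.continuous.continuousOn
    have hcv : ∀ K : Set ℂ, IsCompact K → K ⊆ Set.univ →
        TendstoUniformlyOn (fun m => (D m).v) (vin D) UF K := fun K hK _ => hOK.vconv K hK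
    have h3 := GGR_comp (fun m => (D m).v) (vin D) Set.univ isOpen_univ hc hcv
      (fun m => (D m).F (l m).val x) _ (Set.mem_univ _) h1
    have h4 := GGR_comp (fun m => (D m).v) (vin D) Set.univ isOpen_univ hc hcv
      (fun _ => x) x (Set.mem_univ _) tendsto_const_nhds
    have h5 : Tendsto (fun m => deriv ((D m).F (l m).val) x * (D m).v x) UF (𝓝 (A p * vin D x)) :=
      h2.mul h4
    have hAt := hA.tend p hp l hl
    have h6 : Tendsto (fun m => (D m).v ((D m).F (l m).val x) -
        deriv ((D m).F (l m).val) x * (D m).v x) UF (𝓝 0) := by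
      rw [Metric.tendsto_nhds]
      intro ε hε
      have hb : ∀ᶠ m in UF, ‖(D m).A (l m).val‖ < 2 := by
        have h7 : Tendsto (fun m => ‖(D m).A (l m).val‖) UF (𝓝 ‖A p‖) := hAt.norm
        rw [hA.nrm p hp] at h7
        exact h7.eventually (gt_mem_nhds (by norm_num))
      have h8 := hOK.com (‖x‖ + 1) (by positivity) (ε / 4) (by linarith)
      filter_upwards [hb, h8] with m hb h8
      have h9 := h8 (l m).val (ZMod.val_lt (l m)).le x (by rw [mem_ball_zero_iff]; linarith)
      rw [dist_zero_right]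
      have h10 : ε / 4 * ‖(D m).A (l m).val‖ ≤ ε / 4 * 2 :=
        mul_le_mul_of_nonneg_left hb.le (by linarith)
      linarith
    have h7 := tendsto_nhds_unique (h3.sub h5) h6
    exact sub_eq_zero.mp h7
  · intro p hp
    have hy : ∀ x, x ∉ Pin D → p + A p * x ∉ Pin D := by
      intro x hx hmem
      obtain ⟨h1, h2⟩ := hA.inv p hp
      have h3 := hgrp _ h1 _ hmem
      rw [h2] at h3
      apply hx
      have h4 : -p / A p + 1 / A p * (p + A p * x) = x := by
        have := hA0 p hp
        field_simp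
        ring
      rwa [h4] at h3
    obtain ⟨l, hl⟩ := hL1 p hp
    have hopen : IsOpen (Pin D)ᶜ := hcl.isOpen_compl
    have hBc : ContinuousOn (Bin D) (Pin D)ᶜ := hOK.Bdiff.continuousOn
    -- regular points
    have hR : ∀ x ∈ Reg D, A p ^ 2 * Bin D (p + A p * x) = Bin D x := by
      intro x hx
      obtain ⟨h1, h2⟩ := hF p hp l hl (fun _ => x) x tendsto_const_nhds
      have h3 := GGR_comp (fun m => (D m).B) (Bin D) (Pin D)ᶜ hopen hBc hOK.Bconv
        (fun m => (D m).F (l m).val x) _ (hy x hx.1) h1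
      have h4 : Tendsto (fun m => deriv ((D m).F (l m).val) x ^ 2 * (D m).B ((D m).F (l m).val x))
          UF (𝓝 (A p ^ 2 * Bin D (p + A p * x))) := (h2.pow 2).mul h3
      have h5 : Tendsto (fun m => deriv ((D m).F (l m).val) x ^ 2 * (D m).B ((D m).F (l m).val x))
          UF (𝓝 (Bin D x)) := by
        rw [Metric.tendsto_nhds]
        intro ε hε
        have h6 := hOK.iso {x} isCompact_singleton (Set.singleton_subset_iff.mpr hx) (ε / 2)
          (by linarith)
        filter_upwards [h6] with m h6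
        have h7 := h6 (l m).val (ZMod.val_lt (l m)).le x rfl
        rw [dist_eq_norm]
        linarith
      exact tendsto_nhds_unique h4 h5
    intro x hx
    have hcont1 : ContinuousAt (fun x => A p ^ 2 * Bin D (p + A p * x)) x := by
      have h1 : ContinuousAt (Bin D) (p + A p * x) := hBc.continuousAt (hopen.mem_nhds (hy x hx))
      have h2 : ContinuousAt (fun x : ℂ => p + A p * x) x := by fun_prop
      exact continuousAt_const.mul (ContinuousAt.comp (g := Bin D) h1 h2)
    have hcont2 : ContinuousAt (Bin D) x := hBc.continuousAt (hopen.mem_nhds hx)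
    obtain ⟨ε, hε, hball⟩ := hreg x
    have hev : (fun x => A p ^ 2 * Bin D (p + A p * x)) =ᶠ[𝓝[≠] x] Bin D := by
      have h1 : ball x ε ∈ 𝓝[≠] x := mem_nhdsWithin_of_mem_nhds (ball_mem_nhds x hε)
      have h2 : ({x}ᶜ : Set ℂ) ∈ 𝓝[≠] x := self_mem_nhdsWithin
      filter_upwards [h1, h2] with y hy1 hy2
      exact hR y (hball y hy1 hy2)
    have h3 : Tendsto (fun x => A p ^ 2 * Bin D (p + A p * x)) (𝓝[≠] x)
        (𝓝 (A p ^ 2 * Bin D (p + A p * x))) := hcont1.tendsto.mono_left nhdsWithin_le_nhds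
    have h4 : Tendsto (Bin D) (𝓝[≠] x) (𝓝 (Bin D x)) := hcont2.tendsto.mono_left nhdsWithin_le_nhds
    exact tendsto_nhds_unique h3 (h4.congr' hev.symm)

end YXPG
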