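import Pool.Agent.helper61.CSW.Base
import Pool.Agent.helper61.CSW.XP.SpecG
import Pool.Agent.helper61.CSW.Exports

/-!
# xp:GHP: no poles in the copies of compact subsets (adapted from helper97/V3/GHP.lean)
-/

set_option autoImplicit false

open Complex Metric Set Filter Topology MeasureTheory YXP
open V3S (UF)

noncomputable section

open CSS (SE)

namespace YXPG

theorem GHP (hGBA : GBA_stmt) (hGLB : GLB_stmt) (hGFK : GFK_stmt) : GHP_stmt := by
  intro n C C' C'' D hS hL K hK hKP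
  obtain ⟨ρ, hρ0, hρ⟩ := hK.isBounded.subset_ball_lt 0 0
  obtain ⟨-, -, -, -, -, -, hlast⟩ := hGLB n C C' C'' D hS hL
  obtain ⟨δ, hδ0, hδ⟩ := hlast K hK hKP
  have hF := (hGFK n C C' C'' D hS hL ρ hρ0).2 (δ / 2) (by positivity)
  have hI := hL.img ρ hρ0 1 one_pos
  filter_upwards [hδ, hF, hI] with m h1 h2 h3
  intro j hj x hx
  obtain ⟨-, -, hxx, hit, -, hp, -⟩ := hGBA n C (D m) (hS.ok m)
  have h4 : ∀ l, (D m).F j x ≠ (D m).p l := by
    intro l hjl
    have e1 : (D m).F (D m).k x = (D m).p (l + ((D m).k - j : ℕ)) := by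
      have e2 : (D m).k = ((D m).k - j) + j := by omega
      have e3 : (D m).F (D m).k x = (D m).F (((D m).k - j) + j) x := by rw [← e2]
      rw [e3, hit, hjl, hp]
    have h5 := h1 x hx (l + ((D m).k - j : ℕ))
    have h6 := (h2 x (hρ hx)).1
    rw [e1] at h6
    linarith
  refine ⟨?_, h4⟩
  rintro (⟨l, hl⟩ | hP)
  · refine h4 l ?_
    have h7 : (D m).xx ((D m).b l) = (D m).F j x := by rw [hl, hxx]
    exact h7.symm
  · exact (h3 j hj x (hρ hx)).2.1 hP

end YXPG
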