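import Pool.Agent.helper61.CSW.Base
import Pool.Agent.helper61.CSW.XP.SpecG
import Pool.Agent.helper61.CSW.Exports

set_option autoImplicit false

open Complex Metric Set Filter Topology MeasureTheory YXP
open V3S (UF)

noncomputable section

open CSS (SE)

namespace YXPG

theorem GLB_mem (D : ℕ → Dat) (l : ∀ m, ZMod (D m).k) (p : ℂ) (h : LabTo D l p) : p ∈ Pin D := by
  intro ε hε
  have h1 : ∀ᶠ m in UF, (D m).p (l m) ∈ ball p ε := h (ball_mem_nhds p hε)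
  filter_upwards [h1] with m hm
  exact ⟨l m, by rwa [mem_ball, dist_eq_norm] at hm⟩

theorem GLB_ex (D : ℕ → Dat) (p : ℂ) (hp : p ∈ Pin D) : ∃ l : ∀ m, ZMod (D m).k, LabTo D l p := by
  have h : ∀ m, ∃ l : ZMod (D m).k, ∀ l' : ZMod (D m).k, ‖(D m).p l - p‖ ≤ ‖(D m).p l' - p‖ := by
    intro m
    exact Finite.exists_min (fun l : ZMod (D m).k => ‖(D m).p l - p‖)
  choose l hl using h
  refine ⟨l, ?_⟩
  rw [LabTo, Metric.tendsto_nhds]
  intro ε hε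
  filter_upwards [hp ε hε] with m hm
  obtain ⟨l', hl'⟩ := hm
  rw [dist_eq_norm]
  exact (hl m l').trans_lt hl'

theorem GLB_lim (D : ℕ → Dat) (l : ∀ m, ZMod (D m).k) (C : ℝ)
    (h : ∀ᶠ m in UF, ‖(D m).p (l m)‖ ≤ C) : ∃ p ∈ Pin D, ‖p‖ ≤ C ∧ LabTo D l p := by
  have hc : IsCompact (closedBall (0 : ℂ) C) := isCompact_closedBall 0 C
  have h1 : (((hyperfilter ℕ : Ultrafilter ℕ).map (fun m => (D m).p (l m)) : Ultrafilter ℂ) : Filter ℂ) ≤
      𝓟 (closedBall (0 : ℂ) C) := by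
    rw [le_principal_iff]
    change ∀ᶠ m in UF, (D m).p (l m) ∈ closedBall (0 : ℂ) C
    filter_upwards [h] with m hm
    rwa [mem_closedBall_zero_iff]
  obtain ⟨p, hp, hle⟩ := hc.ultrafilter_le_nhds _ h1
  have h2 : LabTo D l p := hle
  exact ⟨p, GLB_mem D l p h2, by rwa [mem_closedBall_zero_iff] at hp, h2⟩

theorem GLB_eq (D : ℕ → Dat) (c₀ : ℝ) (hc₀ : 0 < c₀)
    (hsep : ∀ (m : ℕ) (i l : ZMod (D m).k), i ≠ l → c₀ ≤ ‖(D m).p i - (D m).p l‖)
    (l l' : ∀ m, ZMod (D m).k) (p : ℂ) (h : LabTo D l p) (h' : LabTo D l' p) :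
    ∀ᶠ m in UF, l m = l' m := by
  have h1 : ∀ᶠ m in UF, (D m).p (l m) ∈ ball p (c₀ / 2) := h (ball_mem_nhds p (half_pos hc₀))
  have h2 : ∀ᶠ m in UF, (D m).p (l' m) ∈ ball p (c₀ / 2) := h' (ball_mem_nhds p (half_pos hc₀))
  filter_upwards [h1, h2] with m hm hm'
  by_contra hne
  have h3 := hsep m (l m) (l' m) hne
  rw [mem_ball] at hm hm'
  have h4 : dist ((D m).p (l m)) ((D m).p (l' m)) < c₀ := by
    calc dist ((D m).p (l m)) ((D m).p (l' m)) ≤ dist ((D m).p (l m)) p + dist ((D m).p (l' m)) p :=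
          dist_triangle_right _ _ _
      _ < c₀ / 2 + c₀ / 2 := add_lt_add hm hm'
      _ = c₀ := by ring
  rw [dist_eq_norm] at h4
  linarith

theorem GLB_sep (D : ℕ → Dat) (c₀ : ℝ)
    (hsep : ∀ (m : ℕ) (i l : ZMod (D m).k), i ≠ l → c₀ ≤ ‖(D m).p i - (D m).p l‖)
    (p p' : ℂ) (hp : p ∈ Pin D) (hp' : p' ∈ Pin D) (hne : p ≠ p') : c₀ ≤ ‖p - p'‖ := by
  obtain ⟨l, hl⟩ := GLB_ex D p hp
  obtain ⟨l', hl'⟩ := GLB_ex D p' hp'
  rcases YV3S.UF_em (fun m => l m = l' m) with h | h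
  · exfalso
    apply hne
    have h1 : Tendsto (fun m => (D m).p (l' m)) UF (𝓝 p) := by
      refine Tendsto.congr' ?_ hl
      filter_upwards [h] with m hm
      rw [hm]
    exact tendsto_nhds_unique h1 hl'
  · have h1 : Tendsto (fun m => ‖(D m).p (l m) - (D m).p (l' m)‖) UF (𝓝 ‖p - p'‖) :=
      (hl.sub hl').norm
    refine ge_of_tendsto h1 ?_
    filter_upwards [h] with m hm
    exact hsep m _ _ hm

theorem GLB_cpt (D : ℕ → Dat) (K : Set ℂ) (hK : IsCompact K) (hKP : K ⊆ (Pin D)ᶜ) :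
    ∃ δ > (0 : ℝ), ∀ᶠ m in UF, ∀ x ∈ K, ∀ l, δ ≤ ‖(D m).p l - x‖ := by
  refine hK.induction_on (p := fun s => ∃ δ > (0 : ℝ), ∀ᶠ m in UF, ∀ x ∈ s, ∀ l, δ ≤ ‖(D m).p l - x‖)
    ?_ ?_ ?_ ?_
  · exact ⟨1, one_pos, Eventually.of_forall (fun m x hx => absurd hx (notMem_empty x))⟩
  · rintro s t hst ⟨δ, hδ, h⟩
    exact ⟨δ, hδ, h.mono (fun m hm x hx => hm x (hst hx))⟩
  · rintro s t ⟨δ, hδ, h⟩ ⟨δ', hδ', h'⟩
    refine ⟨min δ δ', lt_min hδ hδ', ?_⟩
    filter_upwards [h, h'] with m hm hm' x hx l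
    rcases hx with hx | hx
    · exact (min_le_left _ _).trans (hm x hx l)
    · exact (min_le_right _ _).trans (hm' x hx l)
  · intro x hx
    have hxP : x ∉ Pin D := hKP hx
    have h1 : ∃ ε > (0 : ℝ), ¬ ∀ᶠ m in UF, ∃ l : ZMod (D m).k, ‖(D m).p l - x‖ < ε := by
      by_contra hcon
      apply hxP
      intro ε hε
      by_contra h2
      exact hcon ⟨ε, hε, h2⟩
    obtain ⟨ε, hε, h2⟩ := h1
    rw [YV3S.UF_not] at h2
    refine ⟨ball x (ε / 2), mem_nhdsWithin_of_mem_nhds (ball_mem_nhds x (half_pos hε)), ε / 2, half_pos hε, ?_⟩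
    filter_upwards [h2] with m hm y hy l
    push Not at hm
    have h3 := hm l
    have h4 : ‖(D m).p l - x‖ ≤ ‖(D m).p l - y‖ + ‖y - x‖ := by
      have h5 : (D m).p l - x = ((D m).p l - y) + (y - x) := by ring
      rw [h5]
      exact norm_add_le _ _
    rw [mem_ball, dist_eq_norm] at hy
    linarith

theorem GLB : GLB_stmt := by
  intro n C C' C'' D _hS hL
  refine ⟨GLB_ex D, GLB_mem D, GLB_lim D, GLB_eq D 1 one_pos hL.sep, ?_, ?_, GLB_cpt D⟩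
  · have h1 : (fun m => (D m).p (0 : ZMod (D m).k)) = fun _ => (0 : ℂ) := by
      funext m
      simp [Dat.p, Dat.xx]
    change Tendsto (fun m => (D m).p (0 : ZMod (D m).k)) UF (𝓝 0)
    rw [h1]
    exact tendsto_const_nhds
  · intro p hp p' hp' hne
    exact GLB_sep D 1 hL.sep p p' hp hp' hne

end YXPG
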