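import Pool.Agent.helper61.CSW.Base
import Pool.Agent.helper61.CSW.XP.SpecG
import Pool.Agent.helper61.CSW.Exports

set_option autoImplicit false

open Complex Metric Set Filter Topology MeasureTheory YXP
open V3S (UF UF_not)

noncomputable section

open CSS (SE)

namespace YXPG

/-- GMF: Uses GSE, GLB, `YV3.TUL`. -/
theorem GMF (hGSE : GSE_stmt) (hGLB : GLB_stmt) (hTUL : YV3.TUL_stmt) : GMF_stmt := by
  intro n C C' C'' D A hD hL hA hfin ρ hρ
  by_contra hcon
  rw [UF_not] at hcon
  set N : ℕ := (Pin D).ncard with hN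
  -- enumeration of bad indices
  have hex : ∀ᶠ m in UF, ∃ q : (Fin (N + 1) → ℕ) × (Fin (N + 1) → ℂ) × ℂ,
      StrictMono q.1 ∧ ((∀ a, q.1 a < (D m).k) ∨ (∀ a, 1 ≤ q.1 a ∧ q.1 a ≤ (D m).k)) ∧
      ∀ a, q.2.1 a ∈ ball (0 : ℂ) ρ ∧ (D m).F (q.1 a) (q.2.1 a) = q.2.2 := by
    filter_upwards [hcon] with m hm
    push Not at hm
    obtain ⟨z, S, h1, h2, h3⟩ := hm
    obtain ⟨S', hS', hcard⟩ := Finset.exists_subset_card_eq (show N + 1 ≤ S.card by omega)
    have hmem : ∀ a, S'.orderEmbOfFin hcard a ∈ S := fun a =>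
      hS' (Finset.orderEmbOfFin_mem S' hcard a)
    choose x hx hFx using fun a => h2 (S'.orderEmbOfFin hcard a) (hmem a)
    refine ⟨(S'.orderEmbOfFin hcard, x, z), (S'.orderEmbOfFin hcard).strictMono, ?_, fun a =>
      ⟨hx a, hFx a⟩⟩
    rcases h1 with h1 | h1
    · exact Or.inl fun a => h1 _ (hmem a)
    · exact Or.inr fun a => h1 _ (hmem a)
  rw [Filter.skolem] at hex
  obtain ⟨q, hq⟩ := hex
  -- the limits of the points
  have hlim : ∀ a : Fin (N + 1), ∃ X : ℂ, Tendsto (fun m => (q m).2.1 a) UF (𝓝 X) := by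
    intro a
    obtain ⟨X, -, hX⟩ := hTUL (hyperfilter ℕ) (fun m => (q m).2.1 a) ρ (by
      have : ∀ᶠ m in UF, ‖(q m).2.1 a‖ ≤ ρ := by
        filter_upwards [hq] with m hm
        exact (mem_ball_zero_iff.1 (hm.2.2 a).1).le
      exact this)
    exact ⟨X, hX⟩
  choose X hX using hlim
  -- the poles
  have hpole : ∀ a : Fin N, ∃ p ∈ Pin D, p ≠ 0 ∧
      LabTo D (fun m => -(((q m).1 (Fin.last N) - (q m).1 a.castSucc : ℕ) : ZMod (D m).k)) p := by
    intro a
    obtain ⟨p, hp, hp0, hlab, -⟩ := hGSE n C C' C'' D A hD hL hA (fun m => (q m).1 a.castSucc)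
      (fun m => (q m).1 (Fin.last N)) (fun m => (q m).2.1 a.castSucc)
      (fun m => (q m).2.1 (Fin.last N)) ρ (X a.castSucc) (X (Fin.last N)) (by
        filter_upwards [hq] with m hm
        obtain ⟨hmono, hrange, hpts⟩ := hm
        have hlt : (q m).1 a.castSucc < (q m).1 (Fin.last N) := hmono (Fin.castSucc_lt_last a)
        refine ⟨hlt, ?_, ?_, mem_ball_zero_iff.1 (hpts _).1, mem_ball_zero_iff.1 (hpts _).1, ?_⟩
        · rcases hrange with h | h
          · have := h (Fin.last N); omega
          · have h1 := h (Fin.last N)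
            have h2 := h a.castSucc
            omega
        · rcases hrange with h | h
          · exact (h (Fin.last N)).le
          · exact (h (Fin.last N)).2
        · rw [(hpts _).2, (hpts _).2]) (hX _) (hX _)
    exact ⟨p, hp, hp0, hlab⟩
  choose p hp hp0 hlab using hpole
  obtain ⟨-, -, -, huniq, -⟩ := hGLB n C C' C'' D hD hL
  have hinj : Function.Injective p := by
    intro a b hab
    have h1 := hlab a
    rw [hab] at h1
    have h2 := huniq _ _ _ h1 (hlab b)
    obtain ⟨m, hm, hqm⟩ := (h2.and hq).exists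
    obtain ⟨hmono, hrange, -⟩ := hqm
    have la : (q m).1 a.castSucc < (q m).1 (Fin.last N) := hmono (Fin.castSucc_lt_last a)
    have lb : (q m).1 b.castSucc < (q m).1 (Fin.last N) := hmono (Fin.castSucc_lt_last b)
    have h3 : (q m).1 (Fin.last N) - (q m).1 a.castSucc =
        (q m).1 (Fin.last N) - (q m).1 b.castSucc := by
      refine GMF_lab ?_ ?_ hm
      · rcases hrange with h | h
        · have := h (Fin.last N); omega
        · have h1 := h (Fin.last N)
          have h2 := h a.castSucc
          omega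
      · rcases hrange with h | h
        · have := h (Fin.last N); omega
        · have h1 := h (Fin.last N)
          have h2 := h b.castSucc
          omega
    have h4 : (q m).1 a.castSucc = (q m).1 b.castSucc := by omega
    exact Fin.castSucc_injective N (hmono.injective h4)
  -- count
  have hsub : (insert (0 : ℂ) (Set.range p)) ⊆ Pin D := by
    intro y hy
    rcases hy with rfl | ⟨a, rfl⟩
    · exact hL.P0
    · exact hp a
  have hcard : (insert (0 : ℂ) (Set.range p)).ncard = N + 1 := by
    rw [Set.ncard_insert_of_notMem]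
    · rw [← Set.image_univ, Set.ncard_image_of_injective _ hinj, Set.ncard_univ, Nat.card_fin]
    · rintro ⟨a, ha⟩
      exact hp0 a ha
  have := Set.ncard_le_ncard hsub hfin
  omega

end YXPG
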