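import Pool.Agent.helper61.CSW.Base
import Pool.Agent.helper61.CSW.XP.SpecG
import Pool.Agent.helper61.CSW.Exports

/-!
# Project xp: module GPO: the entire function `v² B` and the form `v B` (`s = 1`)

Exponential version of helper52/V3/GPO.lean: the factors of the polynomial are replaced by `dslope`.
-/

set_option autoImplicit false

open Complex Metric Set Filter Topology MeasureTheory YXP
open V3S (UF)

noncomputable section

open CSS (SE)

namespace YXPG

/-- the slope of an entire function is entire. -/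
theorem GPO_dslope {v : ℂ → ℂ} (hv : Differentiable ℂ v) (c : ℂ) : Differentiable ℂ (dslope v c) :=
  differentiableOn_univ.1 ((Complex.differentiableOn_dslope univ_mem).2 hv.differentiableOn)

/-- the extra term: `v` times the part of simple poles is entire. -/
theorem GPO_ext (sg b0 : ℂ) (hsg : sg ≠ 0) {v : ℂ → ℂ} (hv : Differentiable ℂ v) (Q : Finset ℂ) (c : ℂ → ℂ)
    (hQ : ∀ p ∈ Q, v ((p - b0) / sg) = 0) :
    ∃ W : ℂ → ℂ, Differentiable ℂ W ∧ ∀ x, v x ≠ 0 →
      v x * (sg ^ 2 * ∑ p ∈ Q, c p / (b0 + sg * x - p)) = W x := by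
  refine ⟨fun x => ∑ p ∈ Q, sg * c p * dslope v ((p - b0) / sg) x, ?_, ?_⟩
  · refine Differentiable.fun_sum fun p _ => ?_
    exact (GPO_dslope hv _).const_mul _
  · intro x hx
    simp only
    rw [Finset.mul_sum, Finset.mul_sum]
    refine Finset.sum_congr rfl fun p hp => ?_
    have h := sub_smul_dslope v ((p - b0) / sg) x
    rw [hQ p hp, sub_zero, smul_eq_mul] at h
    have hne : x - (p - b0) / sg ≠ 0 := by
      intro h0
      rw [h0, zero_mul] at h
      exact hx h.symm
    have h1 : b0 + sg * x - p = sg * (x - (p - b0) / sg) := by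
      field_simp
      ring
    rw [h1, ← h]
    generalize dslope v ((p - b0) / sg) x = d at *
    have h3 : sg * (x - (p - b0) / sg) ≠ 0 := mul_ne_zero hsg hne
    generalize x - (p - b0) / sg = y at *
    field_simp

/-- the fixed points are zeros of `v`. -/
theorem GPO_fix {n : ℕ} {C A : ℝ} {D : Dat} (hG : D.Good n C A) (hsg : D.sg ≠ 0) (p : ℂ) (hp : p ∈ D.P) :
    D.v ((p - D.b 0) / D.sg) = 0 := by
  have h1 : D.zz ((p - D.b 0) / D.sg) = p := by
    unfold Dat.zz
    field_simp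
    ring
  have h2 : ∀ j : ℕ, (fun z => D.f.eval z)^[j] p = p := fun j => Function.iterate_fixed (hG.pfx p hp) j
  unfold Dat.v Dat.F
  rw [h1, h2]
  unfold Dat.xx
  rw [sub_self, zero_div]

theorem GPO (hGBA : GBA_stmt) : GPO_stmt := by
  intro n C D hD hs1 hlam
  obtain ⟨Am, hAm⟩ := hD.1
  obtain ⟨Q, cQ, hPQ, hrQ⟩ := hAm.rfm
  obtain ⟨hsg, -, -, -, -, -, -, -, hvd, hvp, hB, hlam0, -, -, -, -, -, -, hBB, -, -⟩ := hGBA n C D hD
  obtain ⟨Wr, hWr, hWrv⟩ := GPO_ext D.sg (D.b 0) hsg hvd Q cQ (by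
    intro p hp
    exact GPO_fix hAm hsg p (by rw [hPQ]; exact hp))
  set κ : ℂ := (Complex.exp D.lam - 1) / D.lam with hκ
  have hκ0 : κ ≠ 0 := div_ne_zero (sub_ne_zero.2 hlam) hlam0
  have hv1 : ∀ l, deriv D.v (D.p l) ≠ 0 := fun l => by rw [(hvp l).2]; exact hκ0
  have hVne : ∃ x, D.v x ≠ 0 := by
    by_contra h
    push Not at h
    have h1 : D.v = fun _ => (0 : ℂ) := funext h
    refine hv1 0 ?_
    rw [h1]
    simp
  set W : ZMod D.k → ℂ → ℂ := fun l => dslope D.v (D.p l) with hW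
  have hWd : ∀ l, Differentiable ℂ (W l) := fun l => GPO_dslope hvd _
  have hWκ : ∀ l, W l (D.p l) = κ := fun l => by
    simp only [hW]
    rw [dslope_same, (hvp l).2]
  set U : ZMod D.k → ℂ → ℂ := fun l => dslope (W l) (D.p l) with hU
  have hUd : ∀ l, Differentiable ℂ (U l) := fun l => GPO_dslope (hWd l) _
  have hvx : ∀ l x, D.v x = (x - D.p l) * W l x := by
    intro l x
    have h := sub_smul_dslope D.v (D.p l) x
    rw [(hvp l).1, sub_zero, smul_eq_mul] at h
    exact h.symm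
  have hWx : ∀ l x, W l x = κ + (x - D.p l) * U l x := by
    intro l x
    have h := sub_smul_dslope (W l) (D.p l) x
    rw [hWκ l, smul_eq_mul] at h
    rw [show (x - D.p l) * U l x = W l x - κ from h]
    ring
  have hBs : ∀ x, D.B x = D.Bb x + D.sg ^ 2 * ∑ p ∈ Q, cQ p / (D.b 0 + D.sg * x - p) := by
    intro x
    rw [hBB x, hs1, ofReal_one, one_mul, hrQ]
    rfl
  have hFb : ∀ x, (∀ l, x ≠ D.p l) →
      ∑ l, (W l x ^ 2 + (D.sg * D.g l) * ((x - D.p l) * W l x ^ 2)) = D.v x ^ 2 * D.Bb x := by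
    intro x hx
    rw [hB, Finset.mul_sum]
    refine Finset.sum_congr rfl fun l _ => ?_
    have hne : x - D.p l ≠ 0 := sub_ne_zero.2 (hx l)
    rw [hvx l x]
    field_simp
  refine ⟨fun x => ∑ l, (W l x ^ 2 + (D.sg * D.g l) * ((x - D.p l) * W l x ^ 2)) + D.v x * Wr x,
    fun x => ∑ l, (U l x + (D.sg * D.g l) * W l x) + Wr x, ?_, ?_, hVne, ?_, ?_, ?_⟩
  · refine Differentiable.add (Differentiable.fun_sum fun l _ => ?_) (hvd.mul hWr)
    exact ((hWd l).pow 2).add (((differentiable_id.sub_const _).mul ((hWd l).pow 2)).const_mul _)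
  · refine Differentiable.add (Differentiable.fun_sum fun l _ => ?_) hWr
    exact (hUd l).add ((hWd l).const_mul _)
  · intro x hx
    show ∑ l, (W l x ^ 2 + (D.sg * D.g l) * ((x - D.p l) * W l x ^ 2)) + D.v x * Wr x =
      D.v x ^ 2 * D.B x
    rw [hFb x hx, hBs x]
    by_cases h0 : D.v x = 0
    · rw [h0]
      ring
    · have h1 := hWrv x h0
      rw [← h1]
      ring
  · exact fun l => ⟨(hvp l).1, hv1 l⟩
  · intro x hx h0
    show D.v x * D.B x = κ * ∑ l, 1 / (x - D.p l) + (∑ l, (U l x + (D.sg * D.g l) * W l x) + Wr x)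
    rw [hBs x, mul_add, hWrv x h0, ← add_assoc]
    congr 1
    rw [hB, Finset.mul_sum, Finset.mul_sum, ← Finset.sum_add_distrib]
    refine Finset.sum_congr rfl fun l _ => ?_
    have hne : x - D.p l ≠ 0 := sub_ne_zero.2 (hx l)
    rw [hvx l x]
    have h1 : (x - D.p l) * W l x * (1 / (x - D.p l) ^ 2 + D.sg * D.g l / (x - D.p l)) =
        W l x / (x - D.p l) + D.sg * D.g l * W l x := by
      field_simp
    rw [h1]
    have h2 : W l x / (x - D.p l) = κ * (1 / (x - D.p l)) + U l x := by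
      rw [hWx l x]
      field_simp
    rw [h2]
    ring

end YXPG
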