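import Pool.Agent.helper61.CSW.Base
import Pool.Agent.helper61.CSW.XP.SpecG
import Pool.Agent.helper61.CSW.Exports

set_option autoImplicit false

open Complex Metric Set Filter Topology MeasureTheory YXP
open V3S (UF)

noncomputable section

open CSS (SE)

namespace YXPG

theorem GQE_dd (hGBA : GBA_stmt) (hGLB : GLB_stmt) (hGEX : GEX_stmt) (n : ℕ) (C C' C'' : ℝ)
    (D : ℕ → Dat) (g : ℂ → ℂ) (hS : HG n C C' C'' D) (hL : LA C D) (hg : GG D g)
    (p : ℂ) (hp : p ∈ Pin D) : deriv (deriv (vin D)) p = -g p := by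
  obtain ⟨hlab, -⟩ := hGLB n C C' C'' D hS hL
  obtain ⟨l, hl⟩ := hlab p hp
  have hV : ∀ m, Differentiable ℂ ((D m).v) := by
    intro m
    obtain ⟨-, -, -, -, -, -, -, -, hd, -⟩ := hGBA n C (D m) (hS.ok m)
    exact hd
  have h1 := GQE_conv (fun m => (D m).v) (vin D) (fun m => (D m).p (l m)) p hV hL.vdiff hL.vconv hl
  have h2 : ∀ m, deriv (deriv (D m).v) ((D m).p (l m)) =
      -(Complex.exp (D m).lam * ((Complex.exp (D m).lam - 1) / (D m).lam)) *
        ((D m).sg * (D m).g (l m)) := fun m => hGEX n C (D m) (hS.ok m) (l m)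
  have hlam : Tendsto (fun m => (D m).lam) UF (𝓝 0) := hL.lam
  have hlam' : Tendsto (fun m => (D m).lam) UF (𝓝[≠] 0) := by
    refine tendsto_nhdsWithin_iff.2 ⟨hlam, Eventually.of_forall fun m => ?_⟩
    obtain ⟨-, -, -, -, -, -, -, -, -, -, -, h0, -⟩ := hGBA n C (D m) (hS.ok m)
    exact h0
  have h3 : Tendsto (fun m => (Complex.exp (D m).lam - 1) / (D m).lam) UF (𝓝 1) :=
    GQE_exp.comp hlam'
  have h4 : Tendsto (fun m => Complex.exp (D m).lam) UF (𝓝 1) := by
    have := (Complex.continuous_exp.tendsto 0).comp hlam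
    rwa [Complex.exp_zero] at this
  have h5 := hg.lim p hp l hl
  have h6 := ((h4.mul h3).neg).mul h5
  have h7 : Tendsto (fun m => deriv (deriv (D m).v) ((D m).p (l m))) UF (𝓝 (-(1 * 1) * g p)) := by
    refine h6.congr fun m => ?_
    rw [h2 m]
  have h8 := tendsto_nhds_unique h1 h7
  rw [h8]
  ring

theorem GQE (hGBA : GBA_stmt) (hGLB : GLB_stmt) (hGEX : GEX_stmt) (hREMO : YV3.REMO_stmt)
    (hPCO : YV3.PCO_stmt) : GQE_stmt := by
  intro n C C' C'' D g hS hL hg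
  obtain ⟨-, -, -, -, -, hsep, -⟩ := hGLB n C C' C'' D hS hL
  obtain ⟨hcl, -, -⟩ := hPCO (Pin D) 1 one_pos hsep
  have hop : IsOpen (Pin D)ᶜ := hcl.isOpen_compl
  have hdv : Differentiable ℂ (deriv (vin D)) :=
    differentiableOn_univ.1 (hL.vdiff.differentiableOn.deriv isOpen_univ)
  refine hREMO (fun x => vin D x * deriv (Bin D) x + 2 * deriv (vin D) x * Bin D x) (Pin D) 1
    one_pos hsep ?_ ?_
  · exact (hL.vdiff.differentiableOn.mul (hL.Bdiff.deriv hop)).add
      ((hdv.const_mul 2).differentiableOn.mul hL.Bdiff)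
  · intro p hp
    obtain ⟨h, hh, hB⟩ := hg.pp p hp
    obtain ⟨hv0, hv1⟩ := hL.vzero p hp
    exact GQE_local (vin D) (Bin D) h p (g p) hL.vdiff hv0 hv1
      (GQE_dd hGBA hGLB hGEX n C C' C'' D g hS hL hg p hp) hh hB

end YXPG
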