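import Pool.Agent.helper61.CSW.Base
import Pool.Agent.helper61.CSW.XP.SpecG
import Pool.Agent.helper61.CSW.Exports

/-! # Project xp (MP_af9036_an): module GQL (convergence of q off the poles) -/

set_option autoImplicit false

open Complex Metric Set Filter Topology MeasureTheory YXP
open V3S (UF)

noncomputable section

open CSS (SE)

namespace YXPG

theorem GQL (hGBA : GBA_stmt) (hLPI : YXPL.LPI_stmt) (hLPB : YXPL.LPB_stmt)
    (hVLM : VLM_stmt) : GQL_stmt := by
  intro n C C' C'' D hS hL K hK hKP ε hε
  obtain ⟨-, -, -, hcl, -⟩ := hLPI n C D hS.hl.seq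
  have hBd := hS.hl.lb.diff
  have hBc := hS.hl.lb.conv
  obtain ⟨hBloc, hBc'⟩ := hLPB n C D hS.hl.seq hS.hl.lb
  obtain ⟨hvd, hvc, -⟩ := hVLM n C C' C'' D hS
  have hop : IsOpen (Pin D)ᶜ := hcl.isOpen_compl
  refine GQL_seq hK (fun m x => ‖qq (D m) x - (vin D x * deriv (Bin D) x +
    2 * deriv (vin D) x * Bin D x)‖ ≤ ε) ?_
  intro x X hX hx
  obtain ⟨r, hr, hrb⟩ := Metric.isOpen_iff.1 hop X (hKP hX)
  obtain ⟨r₀, hr₀, hloc⟩ := hBloc X (hKP hX)
  have hcb : closedBall X (r / 2) ⊆ (Pin D)ᶜ := (closedBall_subset_ball (by linarith)).trans hrb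
  have hcK : IsCompact (closedBall X (r / 2)) := isCompact_closedBall X (r / 2)
  have hr2 : 0 < r / 2 := by positivity
  -- continuity of the limits
  have hBX : DifferentiableAt ℂ (Bin D) X := (hBd X (hKP hX)).differentiableAt (hop.mem_nhds (hKP hX))
  have hB'X : ContinuousAt (deriv (Bin D)) X :=
    ((hBd.deriv hop) X (hKP hX)).differentiableAt (hop.mem_nhds (hKP hX)) |>.continuousAt
  have hvX : ContinuousAt (vin D) X := (hvd X).continuousAt
  have hv'X : ContinuousAt (deriv (vin D)) X := by
    have h1 := (hvd.differentiableOn (s := univ)).deriv isOpen_univ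
    exact (h1.differentiableAt (univ_mem)).continuousAt
  -- limits along the sequence
  have hlam : Tendsto (fun m => (D m).lam) UF (𝓝 0) := hL.lam
  have hv : Tendsto (fun m => (D m).v (x m)) UF (𝓝 (vin D X)) :=
    GQL_lim hr2 (hvc _ hcK).1 hvX hx
  have hv' : Tendsto (fun m => deriv (D m).v (x m)) UF (𝓝 (deriv (vin D) X)) :=
    GQL_lim hr2 (hvc _ hcK).2 hv'X hx
  have hy : Tendsto (fun m => x m + (D m).lam * (D m).v (x m)) UF (𝓝 X) := by
    have h1 := hx.add (hlam.mul hv)
    rw [zero_mul, add_zero] at h1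
    exact h1
  have hBy : Tendsto (fun m => (D m).B (x m + (D m).lam * (D m).v (x m))) UF (𝓝 (Bin D X)) :=
    GQL_lim hr2 (hBc _ hcK hcb) hBX.continuousAt hy
  -- the difference quotient
  have hE1 : Tendsto (fun m => ((D m).B (x m + (D m).lam * (D m).v (x m)) - (D m).B (x m)) /
      (D m).lam) UF (𝓝 (vin D X * deriv (Bin D) X)) := by
    have h0 : Tendsto (fun m => ((D m).B (x m + (D m).lam * (D m).v (x m)) - (D m).B (x m)) /
        (D m).lam - (D m).v (x m) * deriv (Bin D) X) UF (𝓝 0) := by
      rw [Metric.tendsto_nhds]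
      intro e he
      -- bound of v
      have hvb : ∀ᶠ m in UF, ‖(D m).v (x m)‖ < ‖vin D X‖ + 1 :=
        hv.norm.eventually (gt_mem_nhds (by linarith))
      set e' : ℝ := e / (2 * (‖vin D X‖ + 1)) with he'
      have hV : 0 < ‖vin D X‖ + 1 := by positivity
      have he'0 : 0 < e' := by positivity
      -- small ball where the derivative of the limit is nearly constant
      obtain ⟨s, hs, hsb⟩ := Metric.continuousAt_iff.1 hB'X (e' / 2) (by positivity)
      set ρ : ℝ := min (s / 2) (min (r / 2) r₀) with hρ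
      have hρ0 : 0 < ρ := lt_min (by positivity) (lt_min hr2 hr₀)
      have hρs : ρ < s := lt_of_le_of_lt (min_le_left _ _) (by linarith)
      have hρr : ρ ≤ r / 2 := (min_le_right _ _).trans (min_le_left _ _)
      have hρr₀ : ρ ≤ r₀ := (min_le_right _ _).trans (min_le_right _ _)
      have hsub : ball X ρ ⊆ closedBall X (r / 2) :=
        ball_subset_closedBall.trans (closedBall_subset_closedBall hρr)
      have hu := (Metric.tendstoUniformlyOn_iff.1 (hBc' _ hcK hcb)) (e' / 2) (by positivity)
      have hxb : ∀ᶠ m in UF, x m ∈ ball X ρ := hx (ball_mem_nhds X hρ0)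
      have hyb : ∀ᶠ m in UF, x m + (D m).lam * (D m).v (x m) ∈ ball X ρ :=
        hy (ball_mem_nhds X hρ0)
      filter_upwards [hvb, hu, hloc, hxb, hyb] with m e1 e2 e3 e4 e5
      obtain ⟨-, -, -, -, -, -, -, -, -, -, -, hlam0, -⟩ := hGBA n C (D m) (hS.ok m)
      have hl0 : 0 < ‖(D m).lam‖ := norm_pos_iff.2 hlam0
      have hdB : ∀ z ∈ ball X ρ, DifferentiableAt ℂ (D m).B z := by
        intro z hz
        exact (e3.1 z (ball_subset_ball hρr₀ hz)).differentiableAt
          (isOpen_ball.mem_nhds (ball_subset_ball hρr₀ hz))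
      have hmv : ‖(fun z => (D m).B z - deriv (Bin D) X * z)
            (x m + (D m).lam * (D m).v (x m)) -
          (fun z => (D m).B z - deriv (Bin D) X * z) (x m)‖ ≤
          e' * ‖(x m + (D m).lam * (D m).v (x m)) - x m‖ := by
        refine Convex.norm_image_sub_le_of_norm_hasDerivWithin_le (s := ball X ρ)
          (f := fun z => (D m).B z - deriv (Bin D) X * z) (C := e')
          (f' := fun z => deriv (D m).B z - deriv (Bin D) X * 1) ?_ ?_ (convex_ball X ρ) e4 e5
        · intro z hz
          exact (((hdB z hz).hasDerivAt).sub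
            ((hasDerivAt_id z).const_mul _)).hasDerivWithinAt
        · intro z hz
          rw [mul_one]
          have h1 := e2 z (hsub hz)
          have h2 := hsb (x := z) (by
            rw [mem_ball] at hz
            linarith)
          rw [dist_eq_norm] at h1 h2
          calc ‖deriv (D m).B z - deriv (Bin D) X‖
              = ‖(deriv (Bin D) z - deriv (Bin D) X) -
                  (deriv (Bin D) z - deriv (D m).B z)‖ := by congr 1; ring
            _ ≤ ‖deriv (Bin D) z - deriv (Bin D) X‖ +
                  ‖deriv (Bin D) z - deriv (D m).B z‖ := norm_sub_le _ _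
            _ ≤ e' := by linarith
      have h3 : ((D m).B (x m + (D m).lam * (D m).v (x m)) - (D m).B (x m)) / (D m).lam -
          (D m).v (x m) * deriv (Bin D) X =
          ((fun z => (D m).B z - deriv (Bin D) X * z) (x m + (D m).lam * (D m).v (x m)) -
          (fun z => (D m).B z - deriv (Bin D) X * z) (x m)) / (D m).lam := by
        simp only
        field_simp
        ring
      rw [dist_zero_right, h3, norm_div, div_lt_iff₀ hl0]
      have h4 : (x m + (D m).lam * (D m).v (x m)) - x m = (D m).lam * (D m).v (x m) := by ring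
      rw [h4, norm_mul] at hmv
      calc _ ≤ e' * (‖(D m).lam‖ * ‖(D m).v (x m)‖) := hmv
        _ ≤ e' * (‖(D m).lam‖ * (‖vin D X‖ + 1)) := by
            refine mul_le_mul_of_nonneg_left ?_ he'0.le
            exact mul_le_mul_of_nonneg_left e1.le hl0.le
        _ = e / 2 * ‖(D m).lam‖ := by
            rw [he']
            field_simp
        _ < e * ‖(D m).lam‖ := by
            refine mul_lt_mul_of_pos_right ?_ hl0
            linarith
    have h1 := h0.add (hv.mul_const (deriv (Bin D) X))
    rw [zero_add] at h1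
    refine h1.congr fun m => ?_
    ring
  have hE2 : Tendsto (fun m => (2 * deriv (D m).v (x m) +
      (D m).lam * deriv (D m).v (x m) ^ 2) * (D m).B (x m + (D m).lam * (D m).v (x m))) UF
      (𝓝 ((2 * deriv (vin D) X + 0 * deriv (vin D) X ^ 2) * Bin D X)) :=
    ((hv'.const_mul 2).add (hlam.mul (hv'.pow 2))).mul hBy
  have hq : Tendsto (fun m => qq (D m) (x m)) UF
      (𝓝 (vin D X * deriv (Bin D) X + 2 * deriv (vin D) X * Bin D X)) := by
    have h1 := hE1.add hE2
    rw [zero_mul, add_zero] at h1
    refine h1.congr fun m => ?_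
    obtain ⟨-, -, -, -, -, -, -, -, -, -, -, hlam0, -, -, -, hFk, -, hvd', -⟩ :=
      hGBA n C (D m) (hS.ok m)
    have hvdm : DifferentiableAt ℂ (D m).v (x m) := hvd' (x m)
    have h2 : deriv ((D m).F (D m).k) (x m) = 1 + (D m).lam * deriv (D m).v (x m) := by
      have h3 : (D m).F (D m).k = fun z => z + (D m).lam * (D m).v z := funext hFk
      have h4 : HasDerivAt (fun z => z + (D m).lam * (D m).v z)
          (1 + (D m).lam * deriv (D m).v (x m)) (x m) :=
        (hasDerivAt_id (x m)).add (hvdm.hasDerivAt.const_mul _)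
      rw [h3]
      exact h4.deriv
    unfold qq Dat.T
    rw [h2, hFk (x m)]
    field_simp
    ring
  have hLx : Tendsto (fun m => vin D (x m) * deriv (Bin D) (x m) +
      2 * deriv (vin D) (x m) * Bin D (x m)) UF
      (𝓝 (vin D X * deriv (Bin D) X + 2 * deriv (vin D) X * Bin D X)) :=
    ((hvX.tendsto.comp hx).mul (hB'X.tendsto.comp hx)).add
      (((hv'X.tendsto.comp hx).const_mul 2).mul (hBX.continuousAt.tendsto.comp hx))
  have hfin := (hq.sub hLx).norm
  rw [sub_self, norm_zero] at hfin
  filter_upwards [hfin.eventually (gt_mem_nhds hε)] with m hm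
  exact hm.le

end YXPG
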