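import Pool.Agent.helper61.CSW.Base
import Pool.Agent.helper61.CSW.XP.SpecG
import Pool.Agent.helper61.CSW.Exports

/-!
# Project xp, module GSE (copy of helper3/V3/GSE.lean)
-/

set_option autoImplicit false

open Complex Metric Set Filter Topology MeasureTheory YXP
open V3S (UF UF_em)

noncomputable section

open CSS (SE)

namespace YXPG

theorem GSE (hBA : GBA_stmt) (hLB : GLB_stmt) (hFK : GFK_stmt) : GSE_stmt := by
  intro n C C' C'' D A hS hL hA i j x x' ρ X X' hev hx hx'
  have hρ : 0 < ρ := by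
    obtain ⟨m, hm⟩ := hev.exists
    exact lt_of_le_of_lt (norm_nonneg _) hm.2.2.2.1
  obtain ⟨hLB1, hLB2, hLB3, hLB4, hLB5, -, -⟩ := hLB n C C' C'' D hS hL
  have hba := fun m => hBA n C (D m) (hS.ok m)
  have hdiff : ∀ m a, Differentiable ℂ ((D m).F a) := fun m => (hba m).2.2.2.2.2.2.2.1
  -- the basic identity
  have hid : ∀ᶠ m in UF, (D m).F ((D m).k - (j m - i m)) (x m) = (D m).F (D m).k (x' m) ∧
      1 ≤ j m - i m ∧ j m - i m < (D m).k ∧ ‖x m‖ < ρ ∧ ‖x' m‖ < ρ := by
    filter_upwards [hev] with m hm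
    obtain ⟨h1, h2, h3, h4, h5, h6⟩ := hm
    refine ⟨?_, by omega, h2, h4, h5⟩
    have e1 : (D m).k - (j m - i m) = ((D m).k - j m) + i m := by omega
    have e2 : (D m).k = ((D m).k - j m) + j m := by omega
    rw [e1, (hba m).2.2.2.1, h6, ← (hba m).2.2.2.1, ← e2]
  have hfk := (hFK n C C' C'' D hS hL)
  rcases UF_em (fun m => ‖(D m).A ((D m).k - (j m - i m))‖ ≤ 10) with hc | hc
  · -- first case
    have hbd : ∀ᶠ m in UF, ‖(D m).p (-((j m - i m : ℕ) : ZMod (D m).k))‖ ≤ 13 * ρ := by
      filter_upwards [hid, hc, (hfk ρ hρ).2 ρ hρ, hL.aff ρ hρ (1 / 10) (by norm_num)]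
        with m h1 h2 h3 h4
      obtain ⟨h1a, h1b, h1c, h1d, h1e⟩ := h1
      obtain ⟨v1, v2, v3, v4⟩ := GSE_val (D m).k (j m - i m) h1b h1c
      have e0 : (D m).F ((D m).k - (j m - i m)) 0 = (D m).p (-((j m - i m : ℕ) : ZMod (D m).k)) := by
        have := (hba m).2.2.2.2.2.1 ((D m).k - (j m - i m)) 0
        rw [(hba m).2.2.2.2.2.2.1, zero_add, ← v1] at this
        exact this
      rw [← e0]
      have h5 := GSE_aff _ (hdiff m ((D m).k - (j m - i m))) ((D m).A ((D m).k - (j m - i m))) ρ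
        (1 / 10) (h4 ((D m).k - (j m - i m)) (Nat.sub_le _ _)) (x m) 0
        (by rw [mem_ball, dist_zero_right]; exact h1d) (mem_ball_self hρ)
      have h6 := (h3 (x' m) (by rw [mem_ball, dist_zero_right]; exact h1e)).1
      rw [← h1a] at h6
      set a := (D m).A ((D m).k - (j m - i m)) with ha
      set u := (D m).F ((D m).k - (j m - i m)) (x m) with hu
      set w := (D m).F ((D m).k - (j m - i m)) 0 with hw
      have h7 : ‖u‖ ≤ 2 * ρ := by
        have := norm_add_le (u - x' m) (x' m)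
        rw [sub_add_cancel] at this
        linarith
      have h8 : w = (w - u - a * (0 - x m)) + u + a * (0 - x m) := by ring
      have h9 : ‖a * (0 - x m)‖ ≤ 10 * ρ := by
        rw [norm_mul, zero_sub, norm_neg]
        exact mul_le_mul h2 h1d.le (norm_nonneg _) (by norm_num)
      have h10 : ‖w - u - a * (0 - x m)‖ ≤ ρ := by
        refine le_trans h5 ?_
        rw [zero_sub, norm_neg]
        have : ‖a‖ * ‖x m‖ ≤ 10 * ρ := mul_le_mul h2 h1d.le (norm_nonneg _) (by norm_num)
        nlinarith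
      rw [h8]
      refine le_trans (norm_add₃_le) ?_
      linarith
    obtain ⟨p, hp, -, hlab⟩ := hLB3 _ _ hbd
    refine ⟨p, hp, ?_, hlab, ?_⟩
    · intro h0
      rw [h0] at hlab
      have := hLB4 _ _ _ hlab hLB5
      obtain ⟨m, hm1, hm2⟩ := (this.and hid).exists
      exact (GSE_val (D m).k (j m - i m) hm2.2.1 hm2.2.2.1).2.2.1 hm1
    · have ht : Tendsto (fun m => x' m - (p + A p * x m)) UF (𝓝 (X' - (p + A p * X))) :=
        hx'.sub (tendsto_const_nhds.add (hx.const_mul (A p)))
      have ht0 : Tendsto (fun m => x' m - (p + A p * x m)) UF (𝓝 0) := by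
        rw [Metric.tendsto_nhds]
        intro ε hε
        filter_upwards [hid, (hfk ρ hρ).2 (ε / 3) (by positivity),
          hA.unif p hp _ hlab ρ hρ (ε / 3) (by positivity)] with m h1 h2 h3
        obtain ⟨h1a, h1b, h1c, h1d, h1e⟩ := h1
        obtain ⟨v1, v2, v3, v4⟩ := GSE_val (D m).k (j m - i m) h1b h1c
        have h4 := (h3 (x m) (by rw [mem_ball, dist_zero_right]; exact h1d)).1
        rw [v2, h1a] at h4
        have h5 := (h2 (x' m) (by rw [mem_ball, dist_zero_right]; exact h1e)).1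
        rw [dist_zero_right]
        have e : x' m - (p + A p * x m) =
            ((D m).F (D m).k (x' m) - (p + A p * x m)) - ((D m).F (D m).k (x' m) - x' m) := by ring
        rw [e]
        refine lt_of_le_of_lt (norm_sub_le _ _) ?_
        linarith
      have := tendsto_nhds_unique ht ht0
      exact sub_eq_zero.mp this
  · -- second case
    exfalso
    have hbd : ∀ᶠ m in UF, ‖(D m).p ((j m - i m : ℕ) : ZMod (D m).k)‖ ≤ 4 * ρ := by
      filter_upwards [hid, hc, (hfk ρ hρ).2 ρ hρ, hL.aff (3 * ρ) (by positivity) (1 / 10)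
        (by norm_num), (hfk (3 * ρ) (by positivity)).2 ρ hρ] with m h1 h2 h3 h4 h5
      obtain ⟨h1a, h1b, h1c, h1d, h1e⟩ := h1
      have h6 := (h3 (x' m) (by rw [mem_ball, dist_zero_right]; exact h1e)).1
      rw [← h1a] at h6
      have h7 : ‖(D m).F ((D m).k - (j m - i m)) (x m)‖ ≤ 2 * ρ := by
        have := norm_add_le ((D m).F ((D m).k - (j m - i m)) (x m) - x' m) (x' m)
        rw [sub_add_cancel] at this
        linarith
      obtain ⟨y, hy, hy0⟩ := GSE_zero _ (hdiff m ((D m).k - (j m - i m)))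
        ((D m).A ((D m).k - (j m - i m))) ρ hρ
        (h4 ((D m).k - (j m - i m)) (Nat.sub_le _ _)) (x m) h1d (not_le.mp h2) h7
      have e0 : (D m).F (j m - i m) 0 = (D m).p ((j m - i m : ℕ) : ZMod (D m).k) := by
        have := (hba m).2.2.2.2.2.1 (j m - i m) 0
        rw [(hba m).2.2.2.2.2.2.1, zero_add] at this
        exact this
      have e1 : (D m).F (j m - i m) 0 = (D m).F (D m).k y := by
        rw [← hy0, ← (hba m).2.2.2.1]
        congr 1
        omega
      rw [← e0, e1]
      have h8 := (h5 y hy).1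
      rw [mem_ball, dist_zero_right] at hy
      have := norm_add_le ((D m).F (D m).k y - y) y
      rw [sub_add_cancel] at this
      linarith
    obtain ⟨p₁, hp₁, -, hlab⟩ := hLB3 _ _ hbd
    have hneg := hA.neg p₁ hp₁ _ hlab
    have hin := hA.inv p₁ hp₁
    have htd := hA.tend _ hin.1 _ hneg
    have hn := hA.nrm _ hin.1
    have htn := htd.norm
    rw [hn] at htn
    have hlt : ∀ᶠ m in UF, ‖(D m).A (-((j m - i m : ℕ) : ZMod (D m).k)).val‖ < 2 :=
      htn.eventually (gt_mem_nhds (by norm_num))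
    obtain ⟨m, hm⟩ := (hlt.and (hid.and hc)).exists
    obtain ⟨hm1, hm2, hm3⟩ := hm
    rw [(GSE_val (D m).k (j m - i m) hm2.2.1 hm2.2.2.1).2.1] at hm1
    apply hm3
    linarith

end YXPG

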