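import Pool.Agent.helper61.CSW.Base
import Pool.Agent.helper61.CSW.XP.SpecG
import Pool.Agent.helper61.CSW.Exports

/-!
# Project xp: (MP_af9036_an), module GZP: the integrands on the copies
-/

set_option autoImplicit false

open Complex Metric Set Filter Topology MeasureTheory YXP
open V3S (UF)

noncomputable section

open CSS (SE)

namespace YXPG

theorem GZP_unif (C : ℝ) (D : ℕ → Dat) (hL : LA C D) (j : ℕ → ℕ) (hj : ∀ m, j m ≤ (D m).k) (ρ : ℝ)
    (hρ : 0 < ρ) :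
    TendstoUniformlyOn (fun m y => (D m).v ((D m).F (j m) y) / (D m).A (j m)) (vin D) UF
      (ball 0 ρ) := by
  rw [Metric.tendstoUniformlyOn_iff]
  intro ε hε
  obtain ⟨M, hM⟩ := (isCompact_closedBall (0 : ℂ) ρ).exists_bound_of_continuousOn
    (f := vin D) hL.vdiff.continuous.continuousOn
  have hM0 : 0 ≤ M := (norm_nonneg _).trans (hM 0 (by simp [hρ.le]))
  set δ : ℝ := min 1 (ε / (M + 4)) with hδ
  have hδ0 : 0 < δ := lt_min one_pos (by positivity)
  have hδ1 : δ ≤ 1 := min_le_left _ _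
  have hδ2 : δ * (M + 4) ≤ ε := by
    have := min_le_right 1 (ε / (M + 4))
    rwa [← hδ, le_div_iff₀ (by positivity)] at this
  have hv := Metric.tendstoUniformlyOn_iff.mp (hL.vconv _ (isCompact_closedBall (0 : ℂ) ρ)) δ hδ0
  filter_upwards [hL.A0, hL.aff ρ hρ δ hδ0, hL.com ρ hρ δ hδ0, hv] with m h0 h1 h2 h3 y hy
  have ha := h0 (j m) (hj m)
  have hφ := h1 (j m) (hj m) y hy
  have hc := h2 (j m) (hj m) y hy
  have hvv := h3 y (ball_subset_closedBall hy)
  have hMy := hM y (ball_subset_closedBall hy)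
  set a := (D m).A (j m)
  set φ := deriv ((D m).F (j m)) y
  set V := (D m).v ((D m).F (j m) y)
  set v := (D m).v y
  have hna : 0 < ‖a‖ := norm_pos_iff.mpr ha
  rw [dist_comm, dist_eq_norm] at hvv ⊢
  have hv1 : ‖v‖ ≤ M + 1 := by
    have : ‖v‖ ≤ ‖v - vin D y‖ + ‖vin D y‖ := by
      simpa using norm_add_le (v - vin D y) (vin D y)
    linarith
  have hdec : V / a - vin D y = (V - φ * v) / a + (φ - a) / a * v + (v - vin D y) := by
    field_simp
    ring
  rw [hdec]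
  have e1 : ‖(V - φ * v) / a‖ ≤ δ := by
    rw [norm_div, div_le_iff₀ hna]; exact hc
  have e2 : ‖(φ - a) / a * v‖ ≤ δ * (M + 1) := by
    rw [norm_mul]
    apply mul_le_mul _ hv1 (norm_nonneg _) hδ0.le
    rw [norm_div, div_le_iff₀ hna]; exact hφ
  have e3 := norm_add_le ((V - φ * v) / a + (φ - a) / a * v) (v - vin D y)
  have e4 := norm_add_le ((V - φ * v) / a) ((φ - a) / a * v)
  nlinarith

/-- the main step: all assertions hold along a choice of `j m`, `x m`. -/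
theorem GZP_seq (C : ℝ) (D : ℕ → Dat) (hL : LA C D)
    (hiso : ∀ K : Set ℂ, IsCompact K → K ⊆ Reg D → ∀ ε > (0 : ℝ), ∀ᶠ m in UF, ∀ j ≤ (D m).k,
      ∀ x ∈ K, ‖deriv ((D m).F j) x ^ 2 * (D m).B ((D m).F j x) - Bin D x‖ ≤ ε)
    (hFd : ∀ m j, Differentiable ℂ ((D m).F j))
    (hvd : ∀ m, Differentiable ℂ (D m).v) (hvp : ∀ m l, (D m).v ((D m).p l) = 0)
    (hvB : ∀ x ∉ Pin D, vin D x ^ 2 * Bin D x = 1) (K : Set ℂ) (hK : IsCompact K)
    (hKP : K ⊆ (Pin D)ᶜ) (ε : ℝ) (hε : 0 < ε) (j : ℕ → ℕ) (hj : ∀ m, j m ≤ (D m).k)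
    (x : ℕ → ℂ) (hx : ∀ m, x m ∈ K) :
    ∀ᶠ m in UF, (∀ l, (D m).F (j m) (x m) ≠ (D m).p l) ∧ (D m).v ((D m).F (j m) (x m)) ≠ 0 ∧
      ‖(D m).v ((D m).F (j m) (x m)) ^ 2 * (D m).B ((D m).F (j m) (x m)) - 1‖ ≤ ε ∧
      ‖(D m).v ((D m).F (j m) (x m)) * (D m).B ((D m).F (j m) (x m)) *
        deriv ((D m).F (j m)) (x m) - 1 / vin D (x m)‖ ≤ ε ∧
      ‖deriv (D m).v ((D m).F (j m) (x m)) / (D m).v ((D m).F (j m) (x m)) *
        deriv ((D m).F (j m)) (x m) - deriv (vin D) (x m) / vin D (x m)‖ ≤ ε := by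
  obtain ⟨x₀, hx₀, hxl⟩ := GZP_lim K hK x hx
  have hvne : ∀ y ∈ K, vin D y ≠ 0 := by
    intro y hy h
    have := hvB y (hKP hy)
    rw [h] at this
    simp at this
  have hBne : ∀ y ∈ K, Bin D y ≠ 0 := by
    intro y hy h
    have := hvB y (hKP hy)
    rw [h] at this
    simp at this
  have hReg : K ⊆ Reg D := fun y hy => ⟨hKP hy, hBne y hy⟩
  obtain ⟨ρ₀, hρ₀⟩ := hK.isBounded.subset_ball (0 : ℂ)
  set ρ : ℝ := max ρ₀ 1 with hρd
  have hρ : 0 < ρ := lt_max_of_lt_right one_pos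
  have hKρ : K ⊆ ball 0 ρ := hρ₀.trans (ball_subset_ball (le_max_left _ _))
  -- the function `W`
  have hW := GZP_unif C D hL j hj ρ hρ
  have hWl := hW.tendstoLocallyUniformlyOn
  have hWd : ∀ m, Differentiable ℂ fun y => (D m).v ((D m).F (j m) y) / (D m).A (j m) := by
    intro m
    exact ((hvd m).comp (hFd m (j m))).div_const _
  have hdW := hWl.deriv (Eventually.of_forall fun m => (hWd m).differentiableOn) isOpen_ball
  have hxw : Tendsto x UF (𝓝[ball 0 ρ] x₀) := by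
    rw [tendsto_nhdsWithin_iff]
    exact ⟨hxl, Eventually.of_forall fun m => hKρ (hx m)⟩
  have hvc : Continuous (vin D) := hL.vdiff.continuous
  have hdvc : Continuous (deriv (vin D)) := hL.vdiff.contDiff.continuous_deriv le_rfl
  have t1 : Tendsto (fun m => (D m).v ((D m).F (j m) (x m)) / (D m).A (j m)) UF (𝓝 (vin D x₀)) :=
    hWl.tendsto_comp hvc.continuousWithinAt (hKρ hx₀) hxw
  have t2' := hdW.tendsto_comp hdvc.continuousWithinAt (hKρ hx₀) hxw
  have t2 : Tendsto (fun m => deriv (D m).v ((D m).F (j m) (x m)) *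
      deriv ((D m).F (j m)) (x m) / (D m).A (j m)) UF (𝓝 (deriv (vin D) x₀)) := by
    refine t2'.congr fun m => ?_
    simp only [Function.comp_apply]
    rw [deriv_div_const]
    congr 1
    exact deriv_comp (x m) ((hvd m) _) ((hFd m (j m)) _)
  have t3 : Tendsto (fun m => deriv ((D m).F (j m)) (x m) / (D m).A (j m)) UF (𝓝 1) := by
    rw [Metric.tendsto_nhds]
    intro η hη
    filter_upwards [hL.A0, hL.aff ρ hρ (η / 2) (by linarith)] with m h0 h1
    have ha := h0 (j m) (hj m)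
    have hna : 0 < ‖(D m).A (j m)‖ := norm_pos_iff.mpr ha
    have h2 := h1 (j m) (hj m) (x m) (hKρ (hx m))
    rw [dist_eq_norm, div_sub_one ha, norm_div, div_lt_iff₀ hna]
    nlinarith
  have hBt : Tendsto (fun m => Bin D (x m)) UF (𝓝 (Bin D x₀)) := by
    have h1 : ContinuousWithinAt (Bin D) (Pin D)ᶜ x₀ := hL.Bdiff.continuousOn x₀ (hKP hx₀)
    have h2 : Tendsto x UF (𝓝[(Pin D)ᶜ] x₀) := by
      rw [tendsto_nhdsWithin_iff]
      exact ⟨hxl, Eventually.of_forall fun m => hKP (hx m)⟩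
    exact h1.tendsto.comp h2
  have t4 : Tendsto (fun m => deriv ((D m).F (j m)) (x m) ^ 2 *
      (D m).B ((D m).F (j m) (x m))) UF (𝓝 (Bin D x₀)) := by
    have h1 : Tendsto (fun m => deriv ((D m).F (j m)) (x m) ^ 2 *
        (D m).B ((D m).F (j m) (x m)) - Bin D (x m)) UF (𝓝 0) := by
      rw [Metric.tendsto_nhds]
      intro η hη
      filter_upwards [hiso K hK hReg (η / 2) (by linarith)] with m h1
      have := h1 (j m) (hj m) (x m) (hx m)
      rw [dist_eq_norm, sub_zero]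
      linarith
    have h2 := h1.add hBt
    simpa using h2
  have hv0 : vin D x₀ ≠ 0 := hvne x₀ hx₀
  -- V / φ
  have t5 : Tendsto (fun m => (D m).v ((D m).F (j m) (x m)) / deriv ((D m).F (j m)) (x m)) UF
      (𝓝 (vin D x₀)) := by
    have h1 := t1.div t3 one_ne_zero
    rw [div_one] at h1
    refine h1.congr' ?_
    filter_upwards [hL.A0] with m h0
    have ha := h0 (j m) (hj m)
    simp only [Pi.div_apply]
    rw [div_div_div_cancel_right₀ ha]
  have hφ0 : ∀ᶠ m in UF, deriv ((D m).F (j m)) (x m) ≠ 0 := by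
    filter_upwards [t3.eventually_ne one_ne_zero] with m h1 h2
    rw [h2] at h1
    simp at h1
  have t6 : Tendsto (fun m => (D m).v ((D m).F (j m) (x m)) ^ 2 *
      (D m).B ((D m).F (j m) (x m))) UF (𝓝 1) := by
    have h1 := (t5.pow 2).mul t4
    rw [hvB x₀ (hKP hx₀)] at h1
    refine h1.congr' ?_
    filter_upwards [hφ0] with m h0
    field_simp
  have t7 : Tendsto (fun m => (D m).v ((D m).F (j m) (x m)) * (D m).B ((D m).F (j m) (x m)) *
        deriv ((D m).F (j m)) (x m)) UF (𝓝 (1 / vin D x₀)) := by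
    have h1 := t5.mul t4
    have h2 : vin D x₀ * Bin D x₀ = 1 / vin D x₀ := by
      rw [eq_div_iff hv0]
      linear_combination hvB x₀ (hKP hx₀)
    rw [h2] at h1
    refine h1.congr' ?_
    filter_upwards [hφ0] with m h0
    field_simp
  have t8 : Tendsto (fun m => deriv (D m).v ((D m).F (j m) (x m)) /
      (D m).v ((D m).F (j m) (x m)) * deriv ((D m).F (j m)) (x m)) UF
      (𝓝 (deriv (vin D) x₀ / vin D x₀)) := by
    have h1 := t2.div t1 hv0
    refine h1.congr' ?_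
    filter_upwards [hL.A0] with m h0
    have ha := h0 (j m) (hj m)
    simp only [Pi.div_apply]
    rw [div_div_div_cancel_right₀ ha, div_mul_eq_mul_div]
  have s1 : Tendsto (fun m => vin D (x m)) UF (𝓝 (vin D x₀)) := (hvc.tendsto x₀).comp hxl
  have s2 : Tendsto (fun m => 1 / vin D (x m)) UF (𝓝 (1 / vin D x₀)) :=
    tendsto_const_nhds.div s1 hv0
  have s3 : Tendsto (fun m => deriv (vin D) (x m) / vin D (x m)) UF
      (𝓝 (deriv (vin D) x₀ / vin D x₀)) :=
    ((hdvc.tendsto x₀).comp hxl).div s1 hv0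
  have e6 := (t6.sub (tendsto_const_nhds (x := (1 : ℂ)))).norm
  have e7 := (t7.sub s2).norm
  have e8 := (t8.sub s3).norm
  rw [sub_self, norm_zero] at e6 e7 e8
  have hVne : ∀ᶠ m in UF, (D m).v ((D m).F (j m) (x m)) ≠ 0 := by
    filter_upwards [t1.eventually_ne hv0] with m h1 h2
    rw [h2] at h1
    simp at h1
  filter_upwards [hVne, e6.eventually_le_const hε, e7.eventually_le_const hε,
    e8.eventually_le_const hε] with m h1 h2 h3 h4
  refine ⟨?_, h1, h2, h3, h4⟩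
  intro l hl
  rw [hl, hvp m l] at h1
  exact h1 rfl

theorem GZP (hGBA : GBA_stmt) : GZP_stmt := by
  intro n C C' C'' D hD hL hs hvB K hK hKP ε hε
  rcases K.eq_empty_or_nonempty with hKe | ⟨y₀, hy₀⟩
  · subst hKe
    exact Eventually.of_forall fun m j _ x hx => absurd hx (notMem_empty x)
  by_contra hcon
  rw [YV3S.UF_not] at hcon
  have hch : ∀ m, ∃ (j : ℕ) (x : ℂ), j ≤ (D m).k ∧ x ∈ K ∧
      ((¬ ∀ j ≤ (D m).k, ∀ x ∈ K, (∀ l, (D m).F j x ≠ (D m).p l) ∧ (D m).v ((D m).F j x) ≠ 0 ∧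
      ‖(D m).v ((D m).F j x) ^ 2 * (D m).B ((D m).F j x) - 1‖ ≤ ε ∧
      ‖(D m).v ((D m).F j x) * (D m).B ((D m).F j x) * deriv ((D m).F j) x - 1 / vin D x‖ ≤ ε ∧
      ‖deriv (D m).v ((D m).F j x) / (D m).v ((D m).F j x) * deriv ((D m).F j) x -
        deriv (vin D) x / vin D x‖ ≤ ε) →
      ¬ ((∀ l, (D m).F j x ≠ (D m).p l) ∧ (D m).v ((D m).F j x) ≠ 0 ∧
      ‖(D m).v ((D m).F j x) ^ 2 * (D m).B ((D m).F j x) - 1‖ ≤ ε ∧
      ‖(D m).v ((D m).F j x) * (D m).B ((D m).F j x) * deriv ((D m).F j) x - 1 / vin D x‖ ≤ ε ∧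
      ‖deriv (D m).v ((D m).F j x) / (D m).v ((D m).F j x) * deriv ((D m).F j) x -
        deriv (vin D) x / vin D x‖ ≤ ε)) := by
    intro m
    by_cases hb : ∀ j ≤ (D m).k, ∀ x ∈ K, (∀ l, (D m).F j x ≠ (D m).p l) ∧
      (D m).v ((D m).F j x) ≠ 0 ∧
      ‖(D m).v ((D m).F j x) ^ 2 * (D m).B ((D m).F j x) - 1‖ ≤ ε ∧
      ‖(D m).v ((D m).F j x) * (D m).B ((D m).F j x) * deriv ((D m).F j) x - 1 / vin D x‖ ≤ ε ∧
      ‖deriv (D m).v ((D m).F j x) / (D m).v ((D m).F j x) * deriv ((D m).F j) x -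
        deriv (vin D) x / vin D x‖ ≤ ε
    · exact ⟨0, y₀, Nat.zero_le _, hy₀, fun h => absurd hb h⟩
    · have hb' := hb
      rw [not_forall] at hb'
      obtain ⟨j, hb'⟩ := hb'
      rw [not_forall] at hb'
      obtain ⟨hj, hb'⟩ := hb'
      rw [not_forall] at hb'
      obtain ⟨x, hb'⟩ := hb'
      rw [not_forall] at hb'
      obtain ⟨hx, hb'⟩ := hb'
      exact ⟨j, x, hj, hx, fun _ => hb'⟩
  choose j x hj hx hbad using hch
  have hFd : ∀ m j, Differentiable ℂ ((D m).F j) := by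
    intro m
    obtain ⟨-, -, -, -, -, -, -, -, -, -, -, -, -, -, -, -, h17, -⟩ := hGBA n C (D m) (hD.ok m)
    exact h17
  have hvd : ∀ m, Differentiable ℂ (D m).v := by
    intro m
    obtain ⟨-, -, -, -, -, -, -, -, -, -, -, -, -, -, -, -, -, h18, -⟩ := hGBA n C (D m) (hD.ok m)
    exact h18
  have hvp : ∀ m l, (D m).v ((D m).p l) = 0 := by
    intro m l
    obtain ⟨-, -, -, -, -, -, -, -, -, h10, -⟩ := hGBA n C (D m) (hD.ok m)
    exact (h10 l).1
  have hgood := GZP_seq C D hL hL.iso hFd hvd hvp hvB K hK hKP ε hε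
    j hj x hx
  obtain ⟨m, h1, h2⟩ := (hcon.and hgood).exists
  exact hbad m h1 h2

end YXPG
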