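import Pool.Agent.helper61.CSW.Base
import Pool.Agent.helper61.CSW.XP.SpecG
import Pool.Agent.helper61.CSW.Exports

/-!
# Project xp: module IMG (images of discs, invisibility of `r`)
-/

set_option autoImplicit false

open Complex Metric Set Filter Topology MeasureTheory YXP
open V3S (UF)

noncomputable section

open CSS (SE)

namespace YXPG

theorem IMG (hAFF : YXPL.AFF_stmt) (hBAD : YXPL.BAD_stmt) (hBA1 : YXPL.BA1_stmt) (hVLM : VLM_stmt)
    (hGBA : GBA_stmt) : IMG_stmt := by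
  intro n C C' C'' D h ρ hρ ε hε
  obtain ⟨A, hA, hgood⟩ := h.good
  obtain ⟨-, haff⟩ := hAFF n C D h.hl h.st
  have h1 := haff ρ hρ 1 one_pos
  have h2 : ∀ᶠ m in UF, ρ + 1 ≤ A m :=
    YV3S.UF_le (hA.eventually_ge_atTop _)
  obtain ⟨-, -, -, -, hv5⟩ := hVLM n C C' C'' D h
  obtain ⟨C₁, hC₁⟩ := hv5 ρ hρ
  have hlam : Tendsto (fun m => ‖(D m).lam‖ * (|C₁| + 1)) UF (𝓝 0) := by
    have h5 := (h.sa.lim.mono_left YV3S.UF_le).norm.mul_const (|C₁| + 1)
    rwa [norm_zero, zero_mul] at h5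
  have h3 : ∀ᶠ m in UF, ‖(D m).lam‖ * (|C₁| + 1) < 1 := hlam.eventually (Iio_mem_nhds one_pos)
  filter_upwards [h1, h2, hC₁, h3] with m hm hAm hvm hlm j hj x hx
  have hG := hgood m
  obtain ⟨hsg, hsgR, -, -, -, -, hdiff, -, -, -, -, -, hF0, -, hzp, -⟩ := hBA1 n C (A m) (D m) hG
  obtain ⟨hbad, -⟩ := hBAD n C (A m) (D m) hG
  obtain ⟨-, -, hAR, -⟩ := hbad j hj
  have hC1 := hG.C1
  have hR0 := hG.Rpos 0
  have hRj := hG.Rpos (j : ZMod (D m).k)
  have hjK : j ≤ (D m).K := by rw [h.hK m]; exact hj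
  have hder : ∀ y ∈ ball (0 : ℂ) ρ, ‖deriv ((D m).F j) y‖ ≤ 2 * ‖(D m).A j‖ := by
    intro y hy
    have h3 := hm j hjK y hy
    have h4 : deriv ((D m).F j) y = (deriv ((D m).F j) y - (D m).A j) + (D m).A j := by ring
    rw [h4]
    refine (norm_add_le _ _).trans ?_
    linarith
  have hxn : ‖x‖ < ρ := by simpa using hx
  have hmv : ‖(D m).F j x - (D m).p (j : ZMod (D m).k)‖ ≤ 2 * ‖(D m).A j‖ * ‖x‖ := by
    rw [← hF0 j]
    have h3 := (convex_ball (0 : ℂ) ρ).norm_image_sub_le_of_norm_deriv_le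
      (f := (D m).F j) (fun y _ => (hdiff j) y) hder (mem_ball_self hρ) hx
    rwa [sub_zero] at h3
  have hc : ‖(D m).F j x - (D m).p (j : ZMod (D m).k)‖ * (D m).R 0 ≤
      2 * C * (D m).R (j : ZMod (D m).k) * ‖x‖ := by
    calc ‖(D m).F j x - (D m).p (j : ZMod (D m).k)‖ * (D m).R 0
        ≤ 2 * ‖(D m).A j‖ * ‖x‖ * (D m).R 0 := by gcongr
      _ = 2 * (‖(D m).A j‖ * (D m).R 0) * ‖x‖ := by ring
      _ ≤ 2 * (C * (D m).R (j : ZMod (D m).k)) * ‖x‖ := by gcongr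
      _ = 2 * C * (D m).R (j : ZMod (D m).k) * ‖x‖ := by ring
  refine ⟨trivial, ?_, hc, trivial⟩
  obtain ⟨-, g2, g3, g4, -, -, -, -, -, -, -, -, -, -, -, g16, -⟩ := hGBA n C (D m) (h.ok m)
  intro hP
  have e1 : (D m).zz ((D m).F j x) = (fun z => (D m).f.eval z)^[j] ((D m).zz x) := by
    unfold Dat.F
    rw [g2]
  have e2 : (fun z => (D m).f.eval z)^[(D m).k] ((D m).zz x) = (D m).zz ((D m).F j x) := by
    have e3 : (D m).k = ((D m).k - j) + j := (Nat.sub_add_cancel hj).symm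
    rw [e3, Function.iterate_add_apply, ← e1]
    exact Function.iterate_fixed (hG.pfx _ hP) _
  have e4 : (D m).zz ((D m).F (D m).k x) = (D m).zz ((D m).F j x) := by
    rw [← e2]
    unfold Dat.F
    rw [g2]
  have e5 : ‖(D m).F (D m).k x‖ < ρ + 1 := by
    rw [g16]
    refine lt_of_le_of_lt (norm_add_le _ _) ?_
    rw [norm_mul]
    have h7 := hvm x hx
    have h8 : ‖(D m).lam‖ * ‖(D m).v x‖ ≤ ‖(D m).lam‖ * (|C₁| + 1) :=
      mul_le_mul_of_nonneg_left (by linarith [le_abs_self C₁]) (norm_nonneg _)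
    linarith
  have e6 : (D m).zz ((D m).F (D m).k x) ∈ ball ((D m).b 0) (A m * (D m).R 0) := by
    rw [mem_ball, dist_eq_norm]
    unfold Dat.zz
    rw [add_sub_cancel_left, norm_mul, hsgR, mul_comm]
    calc ‖(D m).F (D m).k x‖ * (D m).R 0 < (ρ + 1) * (D m).R 0 := mul_lt_mul_of_pos_right e5 hR0
      _ ≤ A m * (D m).R 0 := by gcongr
  rw [e4] at e6
  exact (hG.invi _ e6).1 hP

end YXPG
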