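import Pool.Agent.helper61.CSW.Base
import Pool.Agent.helper61.CSW.XP.AllL
import Pool.Agent.helper61.CSW.XP.GBA
import Pool.Agent.helper61.CSW.XP.GEX
import Pool.Agent.helper61.CSW.XP.GPO
import Pool.Agent.helper61.CSW.XP.GZC
import Pool.Agent.helper61.CSW.XP.VLM
import Pool.Agent.helper61.CSW.XP.CMM
import Pool.Agent.helper61.CSW.XP.IMG
import Pool.Agent.helper61.CSW.XP.LOA
import Pool.Agent.helper61.CSW.XP.GLB
import Pool.Agent.helper61.CSW.XP.GFK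
import Pool.Agent.helper61.CSW.XP.GAL
import Pool.Agent.helper61.CSW.XP.GAG
import Pool.Agent.helper61.CSW.XP.GAN
import Pool.Agent.helper61.CSW.XP.GGR
import Pool.Agent.helper61.CSW.XP.GSE
import Pool.Agent.helper61.CSW.XP.GMF
import Pool.Agent.helper61.CSW.XP.GM1
import Pool.Agent.helper61.CSW.XP.GMS
import Pool.Agent.helper61.CSW.XP.GHP
import Pool.Agent.helper61.CSW.XP.GTC
import Pool.Agent.helper61.CSW.XP.GEP
import Pool.Agent.helper61.CSW.XP.GEI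
import Pool.Agent.helper61.CSW.XP.GQL
import Pool.Agent.helper61.CSW.XP.GQE
import Pool.Agent.helper61.CSW.XP.GTH
import Pool.Agent.helper61.CSW.XP.GEN
import Pool.Agent.helper61.CSW.XP.GML
import Pool.Agent.helper61.CSW.XP.GZP
import Pool.Agent.helper61.CSW.XP.GZF
import Pool.Agent.helper61.CSW.XP.GF1
import Pool.Agent.helper61.CSW.XP.GF2
import Pool.Agent.helper61.CSW.Exports

/-!
# Project xp: part G: assembly (the end game statements `EN1`, `EN2` of part E are hypotheses)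
-/

set_option autoImplicit false

open CSS (SE)

namespace YXPG

theorem GBA_g : GBA_stmt := GBA YXPL.BA1_l
theorem GEX_g : GEX_stmt := GEX YXPL.BA1_l
theorem GPO_g : GPO_stmt := GPO GBA_g
theorem GZC_g : GZC_stmt := GZC
theorem VLM_g : VLM_stmt := VLM YXPL.DSP_l GBA_g YV3A.TMO_v YV3A.TDE_v YV3A.TUL_v
theorem CMM_g : CMM_stmt := CMM VLM_g YXPL.AFF_l GBA_g
theorem IMG_g : IMG_stmt := IMG YXPL.AFF_l YXPL.BAD_l YXPL.BA1_l VLM_g GBA_g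
theorem LOA_g : LOA_stmt := LOA YXPL.LPI_l YXPL.BAD_l YXPL.BA1_l YXPL.INJ_l YXPL.AFF_l YXPL.ISO_l VLM_g CMM_g IMG_g
theorem GLB_g : GLB_stmt := GLB
theorem GFK_g : GFK_stmt := GFK GBA_g
theorem GAL_g : GAL_stmt := GAL GBA_g GLB_g GFK_g YV3A.TUL_v
theorem GAG_g : GAG_stmt := GAG GBA_g GLB_g
theorem GAN_g : GAN_stmt := GAN GAG_g
theorem GGR_g : GGR_stmt := GGR GBA_g GLB_g YXPL.LPI_l YXPL.REG_l
theorem GSE_g : GSE_stmt := GSE GBA_g GLB_g GFK_g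
theorem GMF_g : GMF_stmt := GMF GSE_g GLB_g YV3A.TUL_v
theorem GM1_g : GM1_stmt := GM1 GSE_g YV3A.TUL_v
theorem GMS_g : GMS_stmt := GMS
theorem GHP_g : GHP_stmt := GHP GBA_g GLB_g GFK_g
theorem GTC_g : GTC_stmt := GTC YXPL.REG_l GBA_g YXPL.ADH_l YV3A.PCO_v GLB_g GHP_g
theorem GEP_g : GEP_stmt := GEP YXPS.LVG_x YPPS.SMB_p
theorem GEI_g : GEI_stmt := GEI GEP_g GFK_g GHP_g GTC_g YXPS.MAX_x YXPS.MIX_x YXPL.BA1_l YXPL.ADH_l
theorem GQL_g : GQL_stmt := GQL GBA_g YXPL.LPI_l YXPL.LPB_l VLM_g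
theorem GQE_g : GQE_stmt := GQE GBA_g GLB_g GEX_g YV3A.REMO_v YV3A.PCO_v
theorem GTH_g : GTH_stmt := GTH
theorem GEN_g : GEN_stmt := GEN GEI_g GQL_g GTC_g GHP_g YXPL.REG_l YXPL.ADH_l
theorem GML_g : GML_stmt := GML GAL_g GAN_g GQE_g GTH_g GLB_g GGR_g GMF_g GM1_g GEN_g
theorem GZP_g : GZP_stmt := GZP GBA_g
theorem GZF_g : GZF_stmt := GZF GLB_g GZC_g GZP_g YV3A.GZX_v GPO_g YV3A.CHI_v GBA_g GFK_g
theorem GF1_g (hEN1 : EN1_stmt) : GF1_stmt := GF1 LOA_g GML_g GZF_g hEN1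
theorem GF2_g (hEN2 : EN2_stmt) : GF2_stmt := GF2 LOA_g GTH_g GMS_g GEN_g hEN2 YXPL.LPI_l

end YXPG
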