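import Pool.Agent.helper61.CSW.Base
import Pool.Agent.helper61.CSW.XP.Defs
import Pool.Agent.helper61.CSW.Exports

/-!
# Project xp: (MP_af9036_an), part D: dynamics at the scale `R` (one cycle)

Paper: /team-store/MP_af9036_XP_helper60.md, section 2, quoted as [XP, (x.y)]. File `Pool/Agent/<seat>/XP/XX.lean`: `import Pool.Agent.helper60.XP.SpecD`,
`set_option autoImplicit false`, `open Complex Metric Set Filter Topology MeasureTheory`, `noncomputable section`, `namespace XPD`, `theorem XX (h : YY_stmt) ... : XX_stmt`.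
Hypotheses may be: other statements of this file (no circles), the tools `YV3.KO0_stmt`, `YV3.KO1_stmt`, `YV3.KO3_stmt` (Pool/Agent/helper54/V3/SpecT.lean; Koebe type facts, proved). Auxiliary lemmas are prefixed `XX_`. No `sorry`, no double quotes in comments.
-/

set_option autoImplicit false

open Complex Metric Set Filter Topology MeasureTheory

noncomputable section

open CSS (SE)

namespace YXPD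

/-- the iterates of `f`. -/
def itf (f : SE) (j : ℕ) (z : ℂ) : ℂ := (fun z => f.eval z)^[j] z

section
variable {k : ℕ} [NeZero k]

/-- `R` is the scale of the point `b i`: `f^k(b_i + x) = b_i + μ x + O(e|x|)` exactly up to `|x| = R`. -/
structure Sc (f : SE) (b : ZMod k → ℂ) (μ : ℂ) (e : ℝ) (i : ZMod k) (R : ℝ) : Prop where
  pos : 0 < R
  near : ∀ x ∈ ball (0 : ℂ) R, ‖itf f k (b i + x) - b i - μ * x‖ ≤ e * ‖x‖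
  far : ∃ x : ℂ, ‖x‖ = R ∧ ‖itf f k (b i + x) - b i - μ * x‖ = e * R

/-- the hypotheses on the cycle. In case `ζ = 1`: `μ = 1 + lam`, `e = |lam|/10`; in case `ζ ≠ 1`: `μ = ρ`, `e = η`. -/
structure HD (n : ℕ) (f : SE) (b : ZMod k → ℂ) (μ : ℂ) (e L : ℝ) : Prop where
  hn : 2 ≤ n
  hdeg : f.natDegree = n
  hk : 2 ≤ k
  cyc : YPPS.IsCyc f b
  rho1 : 1 < ‖YPPS.rho f b‖
  rho2 : ‖YPPS.rho f b‖ ≤ 2
  rm : ‖YPPS.rho f b - μ‖ ≤ e / 10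
  e0 : 0 < e
  e1 : e ≤ 1 / 10
  m0 : 1 / 2 ≤ ‖μ‖
  me : e < ‖μ - 1‖
  L1 : 1 ≤ L
  mL : ‖μ - 1‖ ≤ L * e
  m3 : ‖μ - 1‖ + e ≤ 3

end

/-- SCL: the scale of an entire function [XP, (2.0)].
PROOF. `Q x = x S(x)`, `S = dslope Q 0` entire, not constant, `S 0 = Q' 0`. `T = {x | η ≤ ‖S x‖}` is closed, not empty (Liouville: `Differentiable.apply_eq_apply_of_bounded`), so it has a point `x₀` of minimal norm `R`; `R > 0` as `‖S 0‖ < η`. For `‖x‖ < R`: `‖S x‖ < η`. `‖S x₀‖ ≥ η`, and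
`‖S (t x₀)‖ < η` for `0 ≤ t < 1`, so by continuity `‖S x₀‖ = η`. -/
def SCL_stmt : Prop := ∀ (Q : ℂ → ℂ) (η : ℝ), Differentiable ℂ Q → 0 < η → Q 0 = 0 → ‖deriv Q 0‖ < η →
  (¬ ∃ a : ℂ, ∀ x, Q x = a * x) → ∃ R > (0 : ℝ), (∀ x ∈ ball (0 : ℂ) R, ‖Q x‖ ≤ η * ‖x‖) ∧
    ∃ x : ℂ, ‖x‖ = R ∧ ‖Q x‖ = η * R

/-- DIT: iterates along the cycle.
PROOF. Induction with `IsCyc.step`, chain rule. `deriv (itf f k) (b i) = ∏_{j<k} fd f (b (i+j)) = rho f b` (product over the whole group; `Finset.prod_bij` or as in YV3S.BA1, helper67/V3/BA1.lean). `itf f (i + j) = itf f i ∘ itf f j`. Last claim: `itf f (j+1) = itf f j ∘ f` and `f` is not injective (NIJ). -/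
def DIT_stmt : Prop := ∀ (k : ℕ) [NeZero k] (f : SE) (b : ZMod k → ℂ), YPPS.IsCyc f b →
  (∀ (j : ℕ) (i : ZMod k), itf f j (b i) = b (i + j)) ∧ (∀ i, itf f k (b i) = b i) ∧
  (∀ j, Differentiable ℂ (itf f j)) ∧ (∀ (i j : ℕ) (z : ℂ), itf f (i + j) z = itf f i (itf f j z)) ∧
  (∀ (i j : ℕ) (z : ℂ), deriv (itf f (i + j)) z = deriv (itf f i) (itf f j z) * deriv (itf f j) z) ∧
  (∀ i, deriv (itf f k) (b i) = YPPS.rho f b) ∧ (∀ (j : ℕ) (i : ZMod k), deriv (itf f j) (b i) ≠ 0) ∧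
  (∀ j, 1 ≤ j → ¬ Function.Injective (itf f j))

/-- DEX: existence of the scales. Uses SCL, DIT.
PROOF. `Q x = itf f k (b i + x) - b i - μ x` is entire, `Q 0 = 0`, `Q' 0 = ρ - μ`, `‖ρ - μ‖ ≤ e/10 < e`. If `Q x = a x` for all `x` then `a = ρ - μ`, `itf f k (b i + x) = b i + ρ x`, but `itf f k` is not injective (DIT, last claim) and `ρ ≠ 0`: contradiction. -/
def DEX_stmt : Prop := ∀ (n k : ℕ) [NeZero k] (f : SE) (b : ZMod k → ℂ) (μ : ℂ) (e L : ℝ),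
  HD n f b μ e L → ∀ i, ∃ R : ℝ, Sc f b μ e i R

/-- DIN: injectivity and displacement [XP, (2.1)]. Uses DIT.
PROOF. `E x = itf f k (b i + x) - b i - μ x`, `‖E‖ ≤ e R` on `ball 0 R`, so `‖E'‖ ≤ 2 e` on `ball 0 (R/2)` (Cauchy, radius `R/2`; for radius `< R/2` and limit) and `‖E x - E y‖ ≤ 2e ‖x - y‖ < ‖μ‖ ‖x - y‖` (`2e ≤ 1/5 < 1/2`): `itf f k` is injective on `ball (b i) (R/2)`, hence `itf f j`, `j ≤ k` (`itf f k = itf f (k-j) ∘ itf f j`).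
Displacement: `‖itf f k (b i + x) - b i - x‖ ≤ (‖μ - 1‖ + e)‖x‖ ≤ 3‖x‖`. -/
def DIN_stmt : Prop := ∀ (n k : ℕ) [NeZero k] (f : SE) (b : ZMod k → ℂ) (μ : ℂ) (e L : ℝ),
  HD n f b μ e L → ∀ (i : ZMod k) (R : ℝ), Sc f b μ e i R →
  (∀ j ≤ k, InjOn (itf f j) (ball (b i) (R / 2))) ∧
  ∀ x ∈ ball (0 : ℂ) R, ‖itf f k (b i + x) - b i - x‖ ≤ 3 * ‖x‖

/-- DSE: separation [XP, (2.2)]. Uses DIT.
PROOF. If `b l = b i + x` with `0 < ‖x‖ < R`: `itf f k (b l) = b l`, so `‖(1 - μ) x‖ ≤ e ‖x‖`, contradiction to `e < ‖μ - 1‖`. -/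
def DSE_stmt : Prop := ∀ (n k : ℕ) [NeZero k] (f : SE) (b : ZMod k → ℂ) (μ : ℂ) (e L : ℝ),
  HD n f b μ e L → ∀ (i l : ZMod k) (R : ℝ), Sc f b μ e i R → i ≠ l → R ≤ ‖b i - b l‖

/-- DTL: expansion of the iterates at a point of the cycle. Uses DIN, DIT, `YV3.KO0_stmt`, `YV3.KO1_stmt`, `YV3.KO3_stmt`.
PROOF. `K` = maximum of the constants of KO1 and KO3 (`η = 1/2`). `G = itf f j` is injective on `ball (b i) (R/2)` (DIN). KO3 with `r = R/2`: for `‖x‖ < R/4`: `‖G'(b i + x) - a‖ ≤ K (2‖x‖/R) ‖a‖`; integrate along `[0, x]`: `‖G(b i + x) - b (i+j) - a x‖ ≤ K ‖a‖ ‖x‖²/R`. KO1 on `ball (b i) (t R)`. -/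
def DTL_stmt : Prop := ∃ K : ℝ, 1 ≤ K ∧ ∀ (n k : ℕ) [NeZero k] (f : SE) (b : ZMod k → ℂ)
  (μ : ℂ) (e L : ℝ), HD n f b μ e L → ∀ (i : ZMod k) (R : ℝ), Sc f b μ e i R → ∀ j ≤ k,
  (∀ x ∈ ball (0 : ℂ) (R / 4),
    ‖deriv (itf f j) (b i + x) - deriv (itf f j) (b i)‖ ≤ 2 * K * ‖x‖ / R * ‖deriv (itf f j) (b i)‖ ∧
    ‖itf f j (b i + x) - b (i + (j : ZMod k)) - deriv (itf f j) (b i) * x‖ ≤
      K * ‖x‖ ^ 2 / R * ‖deriv (itf f j) (b i)‖) ∧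
  ∀ t : ℝ, 0 < t → t ≤ 1 / 2 → ball (b (i + (j : ZMod k))) (t * R * ‖deriv (itf f j) (b i)‖ / K) ⊆
    itf f j '' ball (b i) (t * R)

/-- DTR: transport of the scales [XP, (2.3)]. Uses DTL, DIT, SWZ.
PROOF. `a = (f^j)'(b i)`, `t = 1/(100 K (L + 4))`, `C = K/t`. Suppose `R' < t R ‖a‖/K`. Take the point `y'`, `‖y'‖ = R'`, of `Sc.far` for `i + j`. DTL: `y' = itf f j (b i + x) - b (i+j)`, `‖x‖ < t R`. Let `x₁ = itf f k (b i + x) - b i`, `x₁ = ρ x + h`, `‖h‖ ≤ 2 e ‖x‖²/R`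
(SWZ for `h x = itf f k (b i + x) - b i - ρ x`, `‖h x‖ ≤ (e + ‖ρ - μ‖)‖x‖ ≤ 2e‖x‖`). `‖x₁ - x‖ ≤ (‖ρ - 1‖ + 2e)‖x‖ ≤ (L+3) e ‖x‖`, `‖x₁‖ ≤ 4‖x‖ < R/4`. As `f^k f^j = f^j f^k`: `f^k(b(i+j)+y') - (b(i+j)+y') = f^j(b i + x₁) - f^j(b i + x) = a (x₁ - x) + err₁`,
`‖err₁‖ ≤ ‖x₁ - x‖ · 2K (4‖x‖/R)‖a‖` (derivative bound of DTL on the segment, mean value inequality), `y' = a x + err₂`, `‖err₂‖ ≤ K‖x‖²‖a‖/R`. So `f^k(b(i+j)+y') - b(i+j) - ρ y' = a h + err₁ - (ρ - 1) err₂`, norm `≤ ‖a‖‖x‖ t e (2 + 8K(L+3) + K(L+1))`, and `‖y'‖ ≥ ‖a‖‖x‖/2`. With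
`‖ρ - μ‖‖y'‖ ≤ e‖y'‖/10` the norm of `f^k(..) - b(i+j) - μ y'` is `< e ‖y'‖` (`y' ≠ 0`): contradiction to `far`. -/
def DTR_stmt : Prop := ∀ L : ℝ, 1 ≤ L → ∃ C : ℝ, 1 ≤ C ∧ ∀ (n k : ℕ) [NeZero k] (f : SE)
  (b : ZMod k → ℂ) (μ : ℂ) (e : ℝ), HD n f b μ e L → ∀ (i : ZMod k) (j : ℕ) (R R' : ℝ), j ≤ k →
  Sc f b μ e i R → Sc f b μ e (i + (j : ZMod k)) R' → ‖deriv (itf f j) (b i)‖ * R ≤ C * R'

/-- DEG: exactness of the iterate (as YV3S.GEX, helper54/V3/GEX.lean). Uses DIT.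
PROOF. Induction on `j`: `g (i+j) = g i/φ_j'(b i) - φ_j''(b i)/φ_j'(b i)²`, `φ_j = itf f j` (chain rule and `YPPS.Exact`). `j = k`. -/
def DEG_stmt : Prop := ∀ (k : ℕ) [NeZero k] (f : SE) (b g : ZMod k → ℂ), YPPS.IsCyc f b →
  YPPS.Exact f b g → ∀ i, deriv (deriv (itf f k)) (b i) = -(YPPS.rho f b * (YPPS.rho f b - 1)) * g i

/-- DGB: bound of the coefficients [XP, (2.4)]. Uses DEG, DIT, SWZ.
PROOF. SWZ for `h x = itf f k (b i + x) - b i - ρ x`, `M = 2e`: `‖(f^k)''(b i)‖ ≤ 4e/R`. DEG: `‖g i‖ ≤ 4e/(R ‖ρ‖‖ρ - 1‖)`, `‖ρ‖ ≥ 1`, `‖ρ - 1‖ ≥ ‖μ - 1‖ - e/10 ≥ 0.9 e`. -/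
def DGB_stmt : Prop := ∀ (n k : ℕ) [NeZero k] (f : SE) (b g : ZMod k → ℂ) (μ : ℂ) (e L : ℝ),
  HD n f b μ e L → YPPS.Exact f b g → ∀ (i : ZMod k) (R : ℝ), Sc f b μ e i R → ‖g i‖ * R ≤ 5

/-- DGO: the datum. Uses DEX, DIN, DSE, DTR, DGB, DIT.
PROOF. `R i` by DEX (choice), `i₀` with `R i₀` minimal (finite type). `D = ⟨k, _, f, fun j => b (i₀+j), fun j => g (i₀+j), r, P, rad, E, fun j => R (i₀+j), lam, 1, 1, 1, 1⟩`; `IsCyc`, `Exact`, `rho` (product over the group), `BB`, `Set.range` are invariant under the shift (compare V3W.REB, helper54/V3/REB.lean, and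
`YPPS.TR`). `D.it j = itf f j`. `C = max (C of DTR) 5`. `invi`: the hypothesis with `R = R (i₀+i)` and DIN (second part). `near`, `far` in the `x`-plane: `F k x = (itf f k (b i₀ + R₀ x) - b i₀)/R₀`, `R₀ = R i₀`. -/
def DGO_stmt : Prop := ∀ L : ℝ, 1 ≤ L → ∃ C : ℝ, 1 ≤ C ∧ ∀ (n k : ℕ) [NeZero k] (f : SE)
  (b g : ZMod k → ℂ) (μ lam : ℂ) (e A : ℝ) (r : ℂ → ℂ) (P : Set ℂ) (rad E : ℝ), HD n f b μ e L →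
  YPPS.Exact f b g → C ≤ A → (∀ i, b i ∉ P) → (∀ p ∈ P, f.eval p = p) →
  (∃ (Q : Finset ℂ) (c : ℂ → ℂ), P = (↑Q : Set ℂ) ∧ ∀ z, r z = ∑ p ∈ Q, c p / (z - p)) →
  YXP.Eng n f (Set.range b ∪ P) (fun z => MPS.BB b g z + r z) rad E →
  (∀ (i : ZMod k) (R : ℝ), 0 < R → (∀ j ≤ k, 1 / A ≤ ‖deriv (itf f j) (b i)‖) →
    (∀ x ∈ ball (0 : ℂ) R, ‖itf f k (b i + x) - b i - x‖ ≤ 3 * ‖x‖) →
    ∀ z ∈ ball (b i) (A * R), z ∉ P ∧ A * (R ^ 2 * ‖r z‖) ≤ 1 ∧ True) →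
  ∃ D : YXP.Dat, D.Good n C A ∧ D.lam = lam ∧ D.E = E ∧ YPPS.rho D.f D.b = YPPS.rho f b ∧
    (∀ x ∈ ball (0 : ℂ) 1, ‖D.F D.k x - μ * x‖ ≤ e * ‖x‖) ∧ ∃ x : ℂ, ‖x‖ = 1 ∧ ‖D.F D.k x - μ * x‖ = e

/-- DCA: data in the case `ζ = 1`. Uses DGO.
PROOF. `μ = 1 + lam`, `e = ‖lam‖/10`, `L = 10`, `‖exp lam - 1 - lam‖ ≤ ‖lam‖² ≤ e/10` for `‖lam‖ ≤ 1/100`; `log‖ρ‖ = re lam ≤ ‖lam‖`. `A = 1/ε`: `ball (b i) (R/ε)`, `R²‖r‖ ≤ ε` gives `A R² ‖r‖ ≤ 1`. `v x - x = (F k x - x)/lam - x = (F k x - μ x)/lam`. -/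
def DCA_stmt : Prop := ∃ C : ℝ, 1 ≤ C ∧ ∀ (n k : ℕ) [NeZero k] (f : SE)
  (b g : ZMod k → ℂ) (lam : ℂ) (ε C₀ : ℝ) (r : ℂ → ℂ) (P : Set ℂ) (rad : ℝ), 2 ≤ n → 2 ≤ k → f.natDegree = n →
  YPPS.IsCyc f b → YPPS.Exact f b g → YPPS.rho f b = Complex.exp lam → 0 < lam.re → ‖lam‖ ≤ 1 / 100 →
  0 < ε → C * ε ≤ 1 → 0 < C₀ → (∀ i, b i ∉ P) → (∀ p ∈ P, f.eval p = p) →
  (∃ (Q : Finset ℂ) (c : ℂ → ℂ), P = (↑Q : Set ℂ) ∧ ∀ z, r z = ∑ p ∈ Q, c p / (z - p)) →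
  YXP.Eng n f (Set.range b ∪ P) (fun z => MPS.BB b g z + r z) rad (C₀ * Real.log ‖YPPS.rho f b‖) →
  (∀ (i : ZMod k) (R : ℝ), 0 < R →
    (∀ j ≤ k, ε ≤ ‖deriv ((fun z => f.eval z)^[j]) (b i)‖) →
    (∀ x ∈ ball (0 : ℂ) R, ‖(fun z => f.eval z)^[k] (b i + x) - b i - x‖ ≤ 3 * ‖x‖) →
    ∀ z ∈ ball (b i) (R / ε), z ∉ P ∧ R ^ 2 * ‖r z‖ ≤ ε ∧ True) →
  ∃ D : YXP.Dat, D.Good n C (1 / ε) ∧ D.GA ∧ D.lam = lam ∧ D.E ≤ C₀ * ‖lam‖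

/-- DCB: data in the case `ζ ≠ 1`. Uses DGO.
PROOF. `η = min (d/8) (1/100)`, `μ = ρ`, `e = η`, `L = 3/η`; `‖ρ‖ ≤ 3/2`, `d ≤ ‖ρ - 1‖ ≤ 5/2`, `η < d`. -/
def DCB_stmt : Prop := ∀ d : ℝ, 0 < d → ∃ η > (0 : ℝ), η ≤ 1 / 100 ∧ ∃ C : ℝ, 1 ≤ C ∧
  ∀ (n k : ℕ) [NeZero k] (f : SE)
  (b g : ZMod k → ℂ) (ε C₀ : ℝ) (r : ℂ → ℂ) (P : Set ℂ) (rad : ℝ), 2 ≤ n → 2 ≤ k → f.natDegree = n →
  YPPS.IsCyc f b → YPPS.Exact f b g → 1 < ‖YPPS.rho f b‖ → ‖YPPS.rho f b‖ ≤ 3 / 2 → d ≤ ‖YPPS.rho f b - 1‖ →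
  0 < ε → C * ε ≤ 1 → 0 < C₀ → (∀ i, b i ∉ P) → (∀ p ∈ P, f.eval p = p) →
  (∃ (Q : Finset ℂ) (c : ℂ → ℂ), P = (↑Q : Set ℂ) ∧ ∀ z, r z = ∑ p ∈ Q, c p / (z - p)) →
  YXP.Eng n f (Set.range b ∪ P) (fun z => MPS.BB b g z + r z) rad (C₀ * Real.log ‖YPPS.rho f b‖) →
  (∀ (i : ZMod k) (R : ℝ), 0 < R →
    (∀ j ≤ k, ε ≤ ‖deriv ((fun z => f.eval z)^[j]) (b i)‖) →
    (∀ x ∈ ball (0 : ℂ) R, ‖(fun z => f.eval z)^[k] (b i + x) - b i - x‖ ≤ 3 * ‖x‖) →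
    ∀ z ∈ ball (b i) (R / ε), z ∉ P ∧ R ^ 2 * ‖r z‖ ≤ ε ∧ True) →
  ∃ D : YXP.Dat, D.Good n C (1 / ε) ∧ D.GB η ∧ YPPS.rho D.f D.b = YPPS.rho f b ∧
    D.E = C₀ * Real.log ‖YPPS.rho f b‖

end YXPD
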