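import Pool.Agent.helper61.CSW.Base
import Pool.Agent.helper61.CSW.XP.SpecD
import Pool.Agent.helper61.CSW.Exports

/-! xp:DCA, data in the case `ζ = 1`. -/

set_option autoImplicit false

open Complex Metric Set Filter Topology MeasureTheory

noncomputable section

open CSS (SE)

namespace YXPD

theorem DCA_HD {n k : ℕ} [NeZero k] {f : SE} {b : ZMod k → ℂ} {lam : ℂ}
    (hn : 2 ≤ n) (hk : 2 ≤ k) (hdeg : f.natDegree = n) (hcyc : YPPS.IsCyc f b)
    (hrho : YPPS.rho f b = Complex.exp lam) (hre : 0 < lam.re) (hlam : ‖lam‖ ≤ 1 / 100) :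
    HD n f b (1 + lam) (‖lam‖ / 10) 10 := by
  have hpos : 0 < ‖lam‖ := by
    rw [norm_pos_iff]
    rintro rfl
    simp at hre
  have hre2 : lam.re ≤ 1 / 100 := le_trans (le_trans (le_abs_self _) (Complex.abs_re_le_norm lam)) hlam
  have hexp : Real.exp lam.re ≤ 2 := by
    have h1 : Real.exp lam.re ≤ Real.exp (1 / 100) := Real.exp_le_exp.mpr hre2
    have h2 : Real.exp (1 / 100 : ℝ) ≤ Real.exp (Real.log 2) := by
      apply Real.exp_le_exp.mpr
      have := Real.log_two_gt_d9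
      linarith
    rw [Real.exp_log (by norm_num)] at h2
    linarith
  refine ⟨hn, hdeg, hk, hcyc, ?_, ?_, ?_, by positivity, by linarith, ?_, ?_, by norm_num, ?_, ?_⟩
  · rw [hrho, Complex.norm_exp]
    exact Real.one_lt_exp_iff.mpr hre
  · rw [hrho, Complex.norm_exp]
    exact hexp
  · rw [hrho]
    have h1 : ‖Complex.exp lam - 1 - lam‖ ≤ ‖lam‖ ^ 2 :=
      Complex.norm_exp_sub_one_sub_id_le (by linarith)
    have h2 : Complex.exp lam - (1 + lam) = Complex.exp lam - 1 - lam := by ring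
    rw [h2]
    nlinarith
  · have h1 : ‖(1 : ℂ)‖ ≤ ‖1 + lam‖ + ‖lam‖ := by
      calc ‖(1 : ℂ)‖ = ‖(1 + lam) - lam‖ := by ring_nf
        _ ≤ ‖1 + lam‖ + ‖lam‖ := norm_sub_le _ _
    rw [norm_one] at h1
    linarith
  · have h2 : (1 + lam - 1 : ℂ) = lam := by ring
    rw [h2]
    linarith
  · have h2 : (1 + lam - 1 : ℂ) = lam := by ring
    rw [h2]
    linarith
  · have h2 : (1 + lam - 1 : ℂ) = lam := by ring
    rw [h2]
    linarith

theorem DCA (hO : DGO_stmt) : DCA_stmt := by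
  obtain ⟨C, hC, H⟩ := hO 10 (by norm_num)
  refine ⟨C, hC, ?_⟩
  intro n k _ f b g lam ε C₀ r P rad hn hk hdeg hcyc hex hrho hre hlam hε hε1 hC₀ hbP hpf hr heng hinv
  have hpos : 0 < ‖lam‖ := by
    rw [norm_pos_iff]
    rintro rfl
    simp at hre
  have hne : lam ≠ 0 := norm_pos_iff.mp hpos
  have hHD : HD n f b (1 + lam) (‖lam‖ / 10) 10 := DCA_HD hn hk hdeg hcyc hrho hre hlam
  have hA : C ≤ 1 / ε := by
    rw [le_div_iff₀ hε]
    linarith
  obtain ⟨D, hgood, hDlam, hDE, hDrho, hnear, x₀, hx₀, hfar⟩ :=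
    H n k f b g (1 + lam) lam (‖lam‖ / 10) (1 / ε) r P rad (C₀ * Real.log ‖YPPS.rho f b‖) hHD hex hA
      hbP hpf hr heng (by
        intro i R hR hlo hd z hz
        have hz' : z ∈ ball (b i) (R / ε) := by
          have h1 : 1 / ε * R = R / ε := by ring
          rwa [h1] at hz
        obtain ⟨h1, h2, h3⟩ := hinv i R hR
          (fun j hj => by have h4 := hlo j hj; rwa [one_div_one_div] at h4) hd z hz'
        refine ⟨h1, ?_, h3⟩
        rw [div_mul_eq_mul_div, one_mul, div_le_one hε]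
        exact h2)
  have key : ∀ x : ℂ, ‖D.v x - x‖ = ‖D.F D.k x - (1 + lam) * x‖ / ‖lam‖ := by
    intro x
    have h1 : D.v x - x = (D.F D.k x - (1 + lam) * x) / lam := by
      unfold YXP.Dat.v
      rw [hDlam]
      field_simp
      ring
    rw [h1, norm_div]
  refine ⟨D, hgood, ⟨?_, ?_, ?_, x₀, hx₀, ?_⟩, hDlam, ?_⟩
  · rw [hDrho, hDlam, hrho]
  · rw [hDlam]
    exact hre
  · intro x hx
    rw [key x, div_le_iff₀ hpos]
    have := hnear x hx
    linarith
  · rw [key x₀, hfar]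
    field_simp
  · rw [hDE, hrho, Complex.norm_exp, Real.log_exp]
    exact mul_le_mul_of_nonneg_left (le_trans (le_abs_self _) (Complex.abs_re_le_norm lam)) hC₀.le

end YXPD
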