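import Pool.Agent.helper61.CSW.Base
import Pool.Agent.helper61.CSW.XP.SpecD
import Pool.Agent.helper61.CSW.V3.GEX
import Pool.Agent.helper61.CSW.Exports

/-!
# Project xp (MP_af9036_an): exactness of the iterate (DEG)
-/

set_option autoImplicit false

open Complex Metric Set Filter Topology MeasureTheory

noncomputable section

open CSS (SE)

namespace YXPD

theorem DEG (h1 : DIT_stmt) : DEG_stmt := by
  intro k _ f b g hc he i
  obtain ⟨-, -, -, -, -, hrho, -, -⟩ := h1 k f b hc
  have hr : deriv ((fun w => f.eval w)^[k]) (b i) = YPPS.rho f b := hrho i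
  obtain ⟨ha, hg⟩ := YV3S.GEX_main f b g hc he i k
  have hlk : i + ((k : ℕ) : ZMod k) = i := by simp
  rw [hlk, hr] at hg
  rw [hr] at ha
  show deriv (deriv ((fun w => f.eval w)^[k])) (b i) = _
  generalize deriv (deriv ((fun w => f.eval w)^[k])) (b i) = D at hg ⊢
  generalize YPPS.rho f b = ρ at ha hg ⊢
  generalize g i = y at hg ⊢
  have h2 : y * ρ ^ 2 = y * ρ - D := by
    have h3 : y * ρ ^ 2 = (y / ρ - D / ρ ^ 2) * ρ ^ 2 := by rw [← hg]
    rw [h3]
    field_simp
  linear_combination h2

end YXPD
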