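import Pool.Agent.helper61.CSW.Base
import Pool.Agent.helper61.CSW.XP.SpecD
import Pool.Agent.helper61.CSW.Exports

/-!
# Module DEX of project xp: (MP_af9036_an)

Existence of the scales.
-/

set_option autoImplicit false

open Complex Metric Set Filter Topology MeasureTheory

noncomputable section

open CSS (SE)

namespace YXPD

theorem DEX (hSCL : SCL_stmt) (hDIT : DIT_stmt) : DEX_stmt := by
  intro n k _ f b μ e L h i
  obtain ⟨_, hfix, hdiff, _, _, hder, _, hnij⟩ := hDIT k f b h.cyc
  have hk1 : 1 ≤ k := by have := h.hk; omega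
  have hdQ : Differentiable ℂ (fun x : ℂ => itf f k (b i + x) - b i - μ * x) := by
    have h1 : Differentiable ℂ (fun x : ℂ => itf f k (b i + x)) :=
      (hdiff k).comp (differentiable_id.const_add (b i))
    exact (h1.sub_const _).sub (differentiable_id.const_mul μ)
  have h0 : (fun x : ℂ => itf f k (b i + x) - b i - μ * x) 0 = 0 := by
    simp only [add_zero, mul_zero, sub_zero]
    rw [hfix i, sub_self]
  have hder0 : deriv (fun x : ℂ => itf f k (b i + x) - b i - μ * x) 0 = YPPS.rho f b - μ := by
    have h2 : HasDerivAt (itf f k) (YPPS.rho f b) (b i + 0) := by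
      rw [add_zero, ← hder i]
      exact (hdiff k (b i)).hasDerivAt
    have h3 : HasDerivAt (fun x : ℂ => itf f k (b i + x)) (YPPS.rho f b) 0 :=
      HasDerivAt.comp_const_add (b i) 0 h2
    have h4 : HasDerivAt (fun x : ℂ => itf f k (b i + x) - b i - μ * x)
        (YPPS.rho f b - μ * 1) 0 :=
      (h3.sub_const (b i)).sub ((hasDerivAt_id (0 : ℂ)).const_mul μ)
    rw [h4.deriv, mul_one]
  have hd : ‖deriv (fun x : ℂ => itf f k (b i + x) - b i - μ * x) 0‖ < e := by
    rw [hder0]
    have h1 := h.rm
    have h2 := h.e0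
    linarith
  have hna : ¬ ∃ a : ℂ, ∀ x, (fun x : ℂ => itf f k (b i + x) - b i - μ * x) x = a * x := by
    rintro ⟨a, ha⟩
    have ha' : ∀ x : ℂ, itf f k (b i + x) = b i + (a + μ) * x := by
      intro x
      have h5 := ha x
      simp only at h5
      linear_combination h5
    have h11 : itf f k = fun y => b i + (a + μ) * (y - b i) := by
      funext y
      have h12 := ha' (y - b i)
      rwa [add_sub_cancel] at h12
    have h10 : deriv (itf f k) (b i) = a + μ := by
      have h13 : HasDerivAt (fun y : ℂ => b i + (a + μ) * (y - b i)) ((a + μ) * 1) (b i) :=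
        (((hasDerivAt_id (b i)).sub_const (b i)).const_mul (a + μ)).const_add (b i)
      rw [h11, h13.deriv, mul_one]
    have h9 : a + μ ≠ 0 := by
      intro h9
      rw [hder i, h9] at h10
      have h14 := h.rho1
      rw [h10, norm_zero] at h14
      linarith
    refine hnij k hk1 ?_
    intro x y hxy
    rw [h11] at hxy
    have h15 : (a + μ) * (x - y) = 0 := by
      simp only at hxy
      linear_combination hxy
    rcases mul_eq_zero.1 h15 with h | h
    · exact absurd h h9
    · exact sub_eq_zero.1 h
  obtain ⟨R, hR, hnear, x, hx, hfar⟩ := hSCL _ e hdQ h.e0 h0 hd hna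
  exact ⟨R, ⟨hR, hnear, x, hx, hfar⟩⟩

end YXPD
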