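import Pool.Agent.helper61.CSW.Base
import Pool.Agent.helper61.CSW.XP.SpecD
import Pool.Agent.helper61.CSW.Exports

set_option autoImplicit false

open Complex Metric Set Filter Topology MeasureTheory

noncomputable section

open CSS (SE)

namespace YXPD

theorem DGO_rho {k : ℕ} [NeZero k] (f : SE) (b : ZMod k → ℂ) (i₀ : ZMod k) :
    YPPS.rho f (fun j => b (i₀ + j)) = YPPS.rho f b := by
  unfold YPPS.rho
  exact Fintype.prod_equiv (Equiv.addLeft i₀) _ _ (fun j => rfl)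

/-- `r` is differentiable off its poles. -/
theorem DGO_rd (r : ℂ → ℂ) (P : Set ℂ)
    (h : ∃ (Q : Finset ℂ) (c : ℂ → ℂ), P = (↑Q : Set ℂ) ∧ ∀ z, r z = ∑ p ∈ Q, c p / (z - p)) :
    ∀ z, z ∉ P → DifferentiableAt ℂ r z := by
  obtain ⟨Q, c, hP, hr⟩ := h
  intro z hz
  have h1 : r = fun z => ∑ p ∈ Q, c p / (z - p) := funext hr
  rw [h1]
  refine DifferentiableAt.fun_sum fun p hp => ?_
  refine (differentiableAt_const _).div (differentiableAt_id.sub_const p) ?_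
  intro h0
  apply hz
  rw [hP]
  have h2 : z = p := sub_eq_zero.1 h0
  rw [h2]
  exact hp

/-- lower bound of the derivatives at the point of minimal scale. -/
theorem DGO_low (hDIT : DIT_stmt) {n k : ℕ} [NeZero k] {f : SE} {b : ZMod k → ℂ} {μ : ℂ} {e L C A : ℝ}
    (hHD : HD n f b μ e L) (hC : 1 ≤ C) (hA : C ≤ A) (R : ZMod k → ℝ) (hR : ∀ i, 0 < R i)
    (hT : ∀ (i : ZMod k) (j : ℕ), j ≤ k → ‖deriv (itf f j) (b i)‖ * R i ≤ C * R (i + (j : ZMod k)))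
    (i₀ : ZMod k) (hmin : ∀ i, R i₀ ≤ R i) : ∀ j ≤ k, 1 / A ≤ ‖deriv (itf f j) (b i₀)‖ := by
  intro j hj
  obtain ⟨h1, -, -, -, h5, h6, -⟩ := hDIT k f b hHD.cyc
  have hcast : ((k - j : ℕ) : ZMod k) = -(j : ZMod k) := by
    rw [Nat.cast_sub hj, ZMod.natCast_self, zero_sub]
  have h2 := hT (i₀ + (j : ZMod k)) (k - j) (Nat.sub_le _ _)
  have h3 : i₀ + (j : ZMod k) + ((k - j : ℕ) : ZMod k) = i₀ := by
    rw [hcast]; ring
  rw [h3] at h2
  have h4 : ‖deriv (itf f (k - j)) (b (i₀ + (j : ZMod k)))‖ ≤ C := by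
    have h7 : ‖deriv (itf f (k - j)) (b (i₀ + (j : ZMod k)))‖ * R (i₀ + (j : ZMod k)) ≤
        C * R (i₀ + (j : ZMod k)) :=
      h2.trans (mul_le_mul_of_nonneg_left (hmin _) (by linarith))
    exact le_of_mul_le_mul_right h7 (hR _)
  have h8 := h5 (k - j) j (b i₀)
  rw [Nat.sub_add_cancel hj, h6 i₀, h1 j i₀] at h8
  have h9 : 1 < ‖deriv (itf f (k - j)) (b (i₀ + (j : ZMod k)))‖ * ‖deriv (itf f j) (b i₀)‖ := by
    rw [← norm_mul, ← h8]
    exact hHD.rho1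
  have hApos : 0 < A := by linarith
  rw [div_le_iff₀ hApos]
  have h10 : ‖deriv (itf f (k - j)) (b (i₀ + (j : ZMod k)))‖ * ‖deriv (itf f j) (b i₀)‖ ≤
      A * ‖deriv (itf f j) (b i₀)‖ :=
    mul_le_mul_of_nonneg_right (h4.trans hA) (norm_nonneg _)
  linarith

theorem DGO (hDEX : DEX_stmt) (hDIN : DIN_stmt) (hDSE : DSE_stmt) (hDTR : DTR_stmt)
    (hDGB : DGB_stmt) (hDIT : DIT_stmt) : DGO_stmt := by
  intro L hL
  obtain ⟨C₁, hC₁, hT⟩ := hDTR L hL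
  refine ⟨max C₁ 5, le_max_of_le_left hC₁, ?_⟩
  intro n k _ f b g μ lam e A r P rad E hHD hex hCA hbP hpf hrf hE hinv
  have hA : 1 ≤ A := (le_max_of_le_left hC₁).trans hCA
  have hr := DGO_rd r P hrf
  have h1 : ∀ i : ZMod k, ∃ R : ℝ, Sc f b μ e i R := hDEX n k f b μ e L hHD
  choose R hR using h1
  obtain ⟨i₀, -, hi₀⟩ := Finset.exists_min_image (Finset.univ : Finset (ZMod k)) R
    ⟨0, Finset.mem_univ _⟩
  have hR0 : 0 < R i₀ := (hR i₀).pos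
  have hR0c : ((R i₀ : ℝ) : ℂ) ≠ 0 := by exact_mod_cast hR0.ne'
  have key : ∀ x : ℂ, (itf f k (b (i₀ + 0) + ((R (i₀ + 0) : ℝ) : ℂ) * x) - b (i₀ + 0)) /
      ((R (i₀ + 0) : ℝ) : ℂ) - μ * x =
      (itf f k (b i₀ + ((R i₀ : ℝ) : ℂ) * x) - b i₀ - μ * (((R i₀ : ℝ) : ℂ) * x)) /
        ((R i₀ : ℝ) : ℂ) := by
    intro x
    rw [add_zero]
    field_simp
  have nR : ‖((R i₀ : ℝ) : ℂ)‖ = R i₀ := by
    rw [Complex.norm_real, Real.norm_eq_abs, abs_of_pos hR0]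
  refine ⟨⟨k, inferInstance, f, fun j => b (i₀ + j), fun j => g (i₀ + j), r, P, rad, E,
    fun j => R (i₀ + j), lam, 1, 1, 1, 1⟩, ?_, rfl, rfl, DGO_rho f b i₀, ?_, ?_⟩
  · refine ⟨hHD.hn, hHD.hdeg, hHD.hk, ⟨?_, ?_, ?_⟩, ?_, ?_, ?_, le_max_of_le_left hC₁, hA, ?_, ?_, ?_,
      ?_, ?_, ?_, ?_, hr, ?_, ?_, hpf, hrf⟩
    · intro x y hxy
      exact add_left_cancel (hHD.cyc.inj hxy)
    · intro i
      show f.eval (b (i₀ + i)) = b (i₀ + (i + 1))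
      rw [hHD.cyc.step, add_assoc]
    · intro i
      exact hHD.cyc.ne0 _
    · intro i
      show g (i₀ + (i + 1)) = g (i₀ + i) / YPPS.fd f (b (i₀ + i)) -
        YPPS.fdd f (b (i₀ + i)) / YPPS.fd f (b (i₀ + i)) ^ 2
      rw [← add_assoc]
      exact hex _
    · show 1 < ‖YPPS.rho f (fun j => b (i₀ + j))‖
      rw [DGO_rho]
      exact hHD.rho1
    · show ‖YPPS.rho f (fun j => b (i₀ + j))‖ ≤ 2
      rw [DGO_rho]
      exact hHD.rho2
    · intro i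
      exact (hR _).pos
    · intro i
      show R (i₀ + 0) ≤ R (i₀ + i)
      rw [add_zero]
      exact hi₀ _ (Finset.mem_univ _)
    · intro i j hj
      exact (hDIN n k f b μ e L hHD (i₀ + i) (R (i₀ + i)) (hR _)).1 j hj
    · intro i l hil
      exact hDSE n k f b μ e L hHD (i₀ + i) (i₀ + l) (R (i₀ + i)) (hR _)
        (fun h => hil (add_left_cancel h))
    · intro i j hj
      show ‖deriv (itf f j) (b (i₀ + i))‖ * R (i₀ + i) ≤ max C₁ 5 * R (i₀ + (i + (j : ZMod k)))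
      have h2 := hT n k f b μ e hHD (i₀ + i) j (R (i₀ + i)) (R (i₀ + i + (j : ZMod k))) hj (hR _) (hR _)
      rw [← add_assoc]
      exact h2.trans (mul_le_mul_of_nonneg_right (le_max_left _ _) (hR _).pos.le)
    · intro i
      exact (hDGB n k f b g μ e L hHD hex (i₀ + i) (R (i₀ + i)) (hR _)).trans (le_max_right _ _)
    · show YXP.Eng n f (Set.range (fun j => b (i₀ + j)) ∪ P)
        (fun z => MPS.BB (fun j => b (i₀ + j)) (fun j => g (i₀ + j)) z + r z) rad E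
      rw [DGO_range, DGO_BB]
      exact hE
    · intro i
      exact hbP _
    · intro z hz
      refine hinv (i₀ + 0) (R (i₀ + 0)) (hR _).pos ?_
        (hDIN n k f b μ e L hHD (i₀ + 0) (R (i₀ + 0)) (hR _)).2 z hz
      rw [add_zero]
      refine DGO_low hDIT hHD hC₁ ((le_max_left _ _).trans hCA) R (fun i => (hR i).pos) ?_ i₀
        (fun i => hi₀ i (Finset.mem_univ _))
      intro i j hj
      exact hT n k f b μ e hHD i j (R i) (R (i + (j : ZMod k))) hj (hR _) (hR _)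
  · intro x hx
    show ‖(itf f k (b (i₀ + 0) + ((R (i₀ + 0) : ℝ) : ℂ) * x) - b (i₀ + 0)) /
      ((R (i₀ + 0) : ℝ) : ℂ) - μ * x‖ ≤ e * ‖x‖
    rw [key, norm_div, nR, div_le_iff₀ hR0]
    have hx' : ((R i₀ : ℝ) : ℂ) * x ∈ ball (0 : ℂ) (R i₀) := by
      rw [mem_ball_zero_iff] at hx ⊢
      rw [norm_mul, nR]
      nlinarith
    have h3 := (hR i₀).near _ hx'
    rw [norm_mul, nR] at h3
    linarith
  · obtain ⟨y, hy, hy2⟩ := (hR i₀).far
    refine ⟨y / ((R i₀ : ℝ) : ℂ), ?_, ?_⟩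
    · rw [norm_div, nR, hy, div_self hR0.ne']
    · show ‖(itf f k (b (i₀ + 0) + ((R (i₀ + 0) : ℝ) : ℂ) * (y / ((R i₀ : ℝ) : ℂ))) - b (i₀ + 0)) /
        ((R (i₀ + 0) : ℝ) : ℂ) - μ * (y / ((R i₀ : ℝ) : ℂ))‖ = e
      rw [key, norm_div, nR, div_eq_iff hR0.ne', mul_div_cancel₀ _ hR0c]
      exact hy2

end YXPD
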