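import Pool.Agent.helper61.CSW.Base
import Pool.Agent.helper61.CSW.XP.SpecD
import Pool.Agent.helper61.CSW.Exports

/-!
# Project xp: DIT (iterates along the cycle)
-/

set_option autoImplicit false

open Complex Metric Set Filter Topology MeasureTheory

noncomputable section

open CSS (SE)

namespace YXPD

theorem DIT_it {k : ℕ} [NeZero k] (f : SE) (b : ZMod k → ℂ) (hc : YPPS.IsCyc f b)
    (l : ZMod k) (j : ℕ) : itf f j (b l) = b (l + j) := by
  induction j with
  | zero => simp [itf]
  | succ j ih =>
    unfold itf at ih ⊢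
    rw [Function.iterate_succ_apply', ih, hc.step]
    congr 1
    push_cast
    ring

theorem DIT_diff (f : SE) (j : ℕ) : Differentiable ℂ (itf f j) :=
  f.differentiable.iterate j

theorem DIT_der {k : ℕ} [NeZero k] (f : SE) (b : ZMod k → ℂ) (hc : YPPS.IsCyc f b)
    (l : ZMod k) (j : ℕ) :
    deriv (itf f j) (b l) = ∏ i ∈ Finset.range j, YPPS.fd f (b (l + i)) := by
  induction j with
  | zero =>
    rw [Finset.prod_range_zero]
    exact deriv_id _
  | succ j ih =>
    rw [Finset.prod_range_succ, mul_comm]
    have h0 : itf f (j + 1) = (fun z => f.eval z) ∘ itf f j := by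
      unfold itf
      exact Function.iterate_succ' _ _
    have h1 : deriv ((fun z => f.eval z) ∘ itf f j) (b l) =
        deriv (fun z => f.eval z) (itf f j (b l)) * deriv (itf f j) (b l) :=
      deriv_comp _ f.differentiable.differentiableAt (DIT_diff f j).differentiableAt
    rw [h0, h1, ih, DIT_it f b hc]
    congr 1

theorem DIT_add (f : SE) (i j : ℕ) (z : ℂ) :
    itf f (i + j) z = itf f i (itf f j z) := by
  unfold itf
  exact Function.iterate_add_apply _ _ _ _

theorem DIT_nij (hNIJ : YPPS.NIJ_stmt) (f : SE) (j : ℕ) (hj : 1 ≤ j) : ¬ Function.Injective (itf f j) := by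
  obtain ⟨i, rfl⟩ : ∃ i, j = i + 1 := ⟨j - 1, by omega⟩
  intro h
  refine hNIJ f ?_
  have h1 : itf f (i + 1) = itf f i ∘ (fun z => f.eval z) := by
    unfold itf
    exact Function.iterate_succ _ _
  rw [h1] at h
  exact Function.Injective.of_comp h

theorem DIT (hNIJ : YPPS.NIJ_stmt) : DIT_stmt := by
  intro k _ f b hc
  have hk : ∀ i, itf f k (b i) = b i := by
    intro i
    rw [DIT_it f b hc]
    congr 1
    simp
  refine ⟨fun j i => DIT_it f b hc i j, hk, DIT_diff f, DIT_add f, ?_, ?_, ?_, DIT_nij hNIJ f⟩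
  · intro i j z
    have h1 : itf f (i + j) = itf f i ∘ itf f j := by
      funext y
      exact DIT_add f i j y
    rw [h1]
    exact deriv_comp _ (DIT_diff f i).differentiableAt (DIT_diff f j).differentiableAt
  · intro i
    rw [DIT_der f b hc]
    unfold YPPS.rho
    rw [DIT_prod k (fun l => YPPS.fd f (b (i + l)))]
    exact Fintype.prod_equiv (Equiv.addLeft i) _ _ (fun l => rfl)
  · intro j i
    rw [DIT_der f b hc]
    exact Finset.prod_ne_zero_iff.2 (fun l _ => hc.ne0 _)

end YXPD
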