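import Pool.Agent.helper61.CSW.Base
import Pool.Agent.helper61.CSW.XP.SpecD
import Pool.Agent.helper61.CSW.Exports

/-!
# Project xp: module DSE (separation of the points of the cycle at the scale `R`)
-/

set_option autoImplicit false

open Complex Metric Set Filter Topology MeasureTheory

noncomputable section

open CSS (SE)

namespace YXPD

theorem DSE (hDIT : DIT_stmt) : DSE_stmt := by
  intro n k _ f b μ e L h i l R hS hil
  by_contra hlt
  push Not at hlt
  obtain ⟨-, hfix, -⟩ := hDIT k f b h.cyc
  have hx : b l - b i ∈ ball (0 : ℂ) R := by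
    rw [mem_ball_zero_iff, norm_sub_rev]
    exact hlt
  have h1 := hS.near _ hx
  have h2 : b i + (b l - b i) = b l := by ring
  rw [h2, hfix l] at h1
  have h3 : b l - b i - μ * (b l - b i) = (1 - μ) * (b l - b i) := by ring
  rw [h3, norm_mul, norm_sub_rev 1 μ] at h1
  have hne : b l - b i ≠ 0 := by
    intro h0
    exact hil (h.cyc.inj (sub_eq_zero.mp h0)).symm
  have hpos : 0 < ‖b l - b i‖ := norm_pos_iff.mpr hne
  have h4 : e * ‖b l - b i‖ < ‖μ - 1‖ * ‖b l - b i‖ := mul_lt_mul_of_pos_right h.me hpos
  linarith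

end YXPD
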