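import Pool.Agent.helper61.CSW.Base
import Pool.Agent.helper61.CSW.XP.SpecD
import Pool.Agent.helper61.CSW.V3.SpecE
import Pool.Agent.helper61.CSW.Exports

set_option autoImplicit false

open Complex Metric Set Filter Topology MeasureTheory

noncomputable section

open CSS (SE)

namespace YXPD

theorem DTL (hDIN : DIN_stmt) (hDIT : DIT_stmt) (hKO1 : YV3.KO1_stmt) (hKO3 : YV3.KO3_stmt) :
    DTL_stmt := by
  obtain ⟨C1, hC1, h1⟩ := hKO1
  obtain ⟨C3, hC3, h3⟩ := hKO3 (1 / 2) (by norm_num) (by norm_num)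
  set K : ℝ := 2 * max C1 C3 with hK
  have hK1 : C1 ≤ K := by
    have := le_max_left C1 C3
    have h0 : 1 ≤ max C1 C3 := le_trans hC1 this
    rw [hK]; linarith
  have hK3 : 2 * C3 ≤ K := by
    have := le_max_right C1 C3
    rw [hK]; linarith
  refine ⟨K, le_trans hC1 hK1, ?_⟩
  intro n k _ f b μ e L hHD i R hSc j hj
  obtain ⟨hit, -, hdiff, -, -, -, -, -⟩ := hDIT k f b hHD.cyc
  obtain ⟨hinj, -⟩ := hDIN n k f b μ e L hHD i R hSc
  have hR := hSc.pos
  have hR2 : 0 < R / 2 := by positivity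
  have hD : Differentiable ℂ (itf f j) := hdiff j
  obtain ⟨-, h3'⟩ := h3 (itf f j) (b i) (R / 2) hR2 hD.differentiableOn (hinj j hj)
  have hder : ∀ x ∈ ball (0 : ℂ) (R / 4),
      ‖deriv (itf f j) (b i + x) - deriv (itf f j) (b i)‖ ≤
        2 * C3 * ‖x‖ / R * ‖deriv (itf f j) (b i)‖ := by
    intro x hx
    rw [mem_ball_zero_iff] at hx
    have hmem : b i + x ∈ ball (b i) ((1 - 1 / 2) * (R / 2)) := by
      rw [mem_ball, dist_eq_norm, add_sub_cancel_left]
      linarith
    have := (h3' _ hmem).2.2.2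
    rw [add_sub_cancel_left] at this
    refine this.trans (le_of_eq ?_)
    field_simp
  refine ⟨fun x hx => ⟨?_, ?_⟩, ?_⟩
  · refine (hder x hx).trans ?_
    have hx0 : 0 ≤ ‖x‖ / R * ‖deriv (itf f j) (b i)‖ := by positivity
    calc 2 * C3 * ‖x‖ / R * ‖deriv (itf f j) (b i)‖
        = 2 * C3 * (‖x‖ / R * ‖deriv (itf f j) (b i)‖) := by ring
      _ ≤ 2 * K * (‖x‖ / R * ‖deriv (itf f j) (b i)‖) := by
          apply mul_le_mul_of_nonneg_right _ hx0
          have : 0 ≤ K := by linarith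
          linarith
      _ = 2 * K * ‖x‖ / R * ‖deriv (itf f j) (b i)‖ := by ring
  · rw [mem_ball_zero_iff] at hx
    set a : ℂ := deriv (itf f j) (b i) with ha
    have hF : ∀ y ∈ closedBall (0 : ℂ) ‖x‖, HasDerivWithinAt
        (fun y => itf f j (b i + y) - a * y) (deriv (itf f j) (b i + y) - a)
        (closedBall (0 : ℂ) ‖x‖) y := by
      intro y _
      have e1 : HasDerivAt (fun y => itf f j (b i + y)) (deriv (itf f j) (b i + y)) y := by
        have := (hD (b i + y)).hasDerivAt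
        exact HasDerivAt.comp_const_add (b i) y this
      have e2 : HasDerivAt (fun y : ℂ => a * y) a y := by
        simpa using (hasDerivAt_id y).const_mul a
      exact (e1.sub e2).hasDerivWithinAt
    have hbound : ∀ y ∈ closedBall (0 : ℂ) ‖x‖,
        ‖deriv (itf f j) (b i + y) - a‖ ≤ 2 * C3 * ‖x‖ / R * ‖a‖ := by
      intro y hy
      rw [mem_closedBall_zero_iff] at hy
      refine (hder y (by rw [mem_ball_zero_iff]; linarith)).trans ?_
      gcongr
    have hmv := (convex_closedBall (0 : ℂ) ‖x‖).norm_image_sub_le_of_norm_hasDerivWithin_le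
      hF hbound (x := 0) (y := x) (by simp) (by simp)
    simp only [add_zero, mul_zero, sub_zero] at hmv
    rw [hit j i] at hmv
    have e3 : itf f j (b i + x) - a * x - b (i + (j : ZMod k)) =
        itf f j (b i + x) - b (i + (j : ZMod k)) - a * x := by ring
    rw [e3] at hmv
    refine hmv.trans ?_
    have hx0 : 0 ≤ ‖x‖ ^ 2 / R * ‖a‖ := by positivity
    calc 2 * C3 * ‖x‖ / R * ‖a‖ * ‖x‖ = 2 * C3 * (‖x‖ ^ 2 / R * ‖a‖) := by ring
      _ ≤ K * (‖x‖ ^ 2 / R * ‖a‖) := mul_le_mul_of_nonneg_right hK3 hx0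
      _ = K * ‖x‖ ^ 2 / R * ‖a‖ := by ring
  · intro t ht ht2
    have htR : 0 < t * R := by positivity
    have hsub : ball (b i) (t * R) ⊆ ball (b i) (R / 2) := by
      apply ball_subset_ball
      nlinarith
    have := h1 (itf f j) (b i) (t * R) htR hD.differentiableOn ((hinj j hj).mono hsub)
    rw [hit j i] at this
    refine Subset.trans (ball_subset_ball ?_) this
    have hC10 : 0 < C1 := by linarith
    exact div_le_div_of_nonneg_left (by positivity) hC10 hK1

end YXPD
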