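import Pool.Agent.helper61.CSW.Base
import Pool.Agent.helper61.CSW.XP.SpecT
import Pool.Agent.helper61.CSW.Exports

/-!
KCB of project xp: (MP_af9036_an): the bound (kc) for the tower at the centre of the chart.
-/

set_option autoImplicit false

open Complex Metric Set Filter Topology MeasureTheory
open V3S (UF)
open YXP

noncomputable section

open CSS (SE)

namespace YXPT

theorem KCB_sg (n : ℕ) (C A : ℝ) (D : Dat) (hD : D.Good n C A) : D.sg ≠ 0 := by
  unfold Dat.sg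
  exact_mod_cast (hD.Rpos 0).ne'

theorem KCB_zx (D : Dat) (hs : D.sg ≠ 0) (z : ℂ) : D.zz (D.xx z) = z := by
  unfold Dat.zz Dat.xx
  field_simp
  ring

theorem KCB_xz (D : Dat) (hs : D.sg ≠ 0) (x : ℂ) : D.xx (D.zz x) = x := by
  unfold Dat.zz Dat.xx
  field_simp
  ring

theorem KCB_zzd (D : Dat) (x : ℂ) : HasDerivAt D.zz D.sg x := by
  unfold Dat.zz
  simpa using ((hasDerivAt_id x).const_mul D.sg).const_add (D.b 0)

theorem KCB_xxd (D : Dat) (z : ℂ) : HasDerivAt D.xx (1 / D.sg) z := by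
  unfold Dat.xx
  exact ((hasDerivAt_id z).sub_const (D.b 0)).div_const D.sg

theorem KCB_Fd (D : Dat) (j : ℕ) : Differentiable ℂ (D.F j) := by
  intro x
  have h1 : Differentiable ℂ ((fun z => D.f.eval z)^[j]) := by
    apply Differentiable.iterate
    exact D.f.differentiable
  have h2 : DifferentiableAt ℂ D.zz x := (KCB_zzd D x).differentiableAt
  have h3 := (KCB_xxd D ((fun z => D.f.eval z)^[j] (D.zz x))).differentiableAt
  exact DifferentiableAt.comp x h3 (DifferentiableAt.comp x (h1 _) h2)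

theorem KCB_Fadd (D : Dat) (hs : D.sg ≠ 0) (i j : ℕ) (x : ℂ) : D.F (i + j) x = D.F j (D.F i x) := by
  unfold Dat.F
  rw [KCB_zx D hs, ← Function.iterate_add_apply, add_comm]

theorem KCB : KCB_stmt := by
  intro n C A c CK D hD hdis x₀ ρ r χ Ψ hSt m₁ C₂ hm₁ hC₂ hρ hder hsg q hq1 hqK
  have hs : D.sg ≠ 0 := KCB_sg n C A D hD
  have hk : 0 < D.k := lt_of_lt_of_le (by norm_num) hD.hk
  set L := D.K - q with hL
  set i := L / D.k with hi
  set j := L % D.k with hj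
  have hLij : i * D.k + j = L := Nat.div_add_mod' L D.k
  have hjk : j ≤ D.k := (Nat.mod_lt _ hk).le
  have hiN : i ≤ D.N := by
    have h1 : L ≤ D.N * D.k := by
      have : D.K = D.N * D.k := rfl
      omega
    exact Nat.div_le_of_le_mul (by rw [mul_comm]; exact h1)
  have hcast : (-(q : ZMod D.k)) = (j : ZMod D.k) := by
    have h1 : ((L + q : ℕ) : ZMod D.k) = 0 := by
      have h2 : L + q = D.N * D.k := by
        have : D.K = D.N * D.k := rfl
        omega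
      rw [h2]
      push_cast
      simp
    have h3 : (L : ZMod D.k) = (j : ZMod D.k) := by
      rw [← hLij]
      push_cast
      simp
    push_cast at h1
    rw [h3] at h1
    exact (neg_eq_of_add_eq_zero_left h1)
  have hx₀ : x₀ ∈ ball x₀ ρ := mem_ball_self hρ
  set y := D.F (i * D.k) (Ψ x₀) with hy
  have hyc : y ∈ ball (0 : ℂ) c := hSt.psr i hiN x₀ hx₀
  have hyn : ‖y‖ < c := mem_ball_zero_iff.1 hyc
  have hy4 : y ∈ ball (0 : ℂ) (1 / 4) := by
    rw [mem_ball_zero_iff]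
    linarith [hdis.le]
  obtain ⟨-, hds⟩ := hdis.ds j hjk y hy4
  have hxx : D.xx (χ 0) = x₀ := by rw [hSt.val, KCB_xz D hs]
  have htw : ∀ w, tw D Ψ χ q w = D.zz (D.F j (D.F (i * D.k) (Ψ (D.xx (χ w))))) := by
    intro w
    unfold tw
    rw [← KCB_Fadd D hs, hLij]
  have htw0 : tw D Ψ χ q 0 = D.zz (D.F j y) := by rw [htw, hxx]
  have hb : D.b (-(q : ZMod D.k)) = D.zz (D.p (j : ZMod D.k)) := by
    rw [hcast]
    unfold Dat.p
    rw [KCB_zx D hs]
  have hdiff : tw D Ψ χ q 0 - D.b (-(q : ZMod D.k)) = D.sg * (D.F j y - D.p (j : ZMod D.k)) := by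
    rw [htw0, hb]
    unfold Dat.zz
    ring
  -- derivative of the tower
  have hr0 : (0 : ℂ) ∈ ball (0 : ℂ) (2 * r) := mem_ball_self (by linarith [hSt.r0])
  have hχd : HasDerivAt χ (deriv χ 0) 0 :=
    ((hSt.nat.diff.differentiableAt (isOpen_ball.mem_nhds hr0))).hasDerivAt
  have hΨd : DifferentiableAt ℂ Ψ x₀ := hSt.psd.differentiableAt (isOpen_ball.mem_nhds hx₀)
  have hgd : HasDerivAt (fun x => D.F (i * D.k) (Ψ x))
      (deriv (fun x => D.F (i * D.k) (Ψ x)) x₀) x₀ :=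
    (DifferentiableAt.comp x₀ (KCB_Fd D (i * D.k) _) hΨd).hasDerivAt
  have h1 : HasDerivAt (fun w => D.xx (χ w)) (1 / D.sg * deriv χ 0) 0 :=
    HasDerivAt.comp 0 (KCB_xxd D (χ 0)) hχd
  have h2 : HasDerivAt (fun w => D.F (i * D.k) (Ψ (D.xx (χ w))))
      (deriv (fun x => D.F (i * D.k) (Ψ x)) x₀ * (1 / D.sg * deriv χ 0)) 0 := by
    have hgd' : HasDerivAt (fun x => D.F (i * D.k) (Ψ x))
      (deriv (fun x => D.F (i * D.k) (Ψ x)) x₀) (D.xx (χ 0)) := by rw [hxx]; exact hgd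
    have h := hgd'.comp (0 : ℂ) h1
    exact h
  have h3 : HasDerivAt (fun w => D.F j (D.F (i * D.k) (Ψ (D.xx (χ w)))))
      (deriv (D.F j) y * (deriv (fun x => D.F (i * D.k) (Ψ x)) x₀ * (1 / D.sg * deriv χ 0))) 0 := by
    have hFj : HasDerivAt (D.F j) (deriv (D.F j) y) (D.F (i * D.k) (Ψ (D.xx (χ 0)))) := by
      rw [hxx]
      exact (KCB_Fd D j y).hasDerivAt
    have h := hFj.comp (0 : ℂ) h2
    exact h
  have h4 : HasDerivAt (fun w => D.zz (D.F j (D.F (i * D.k) (Ψ (D.xx (χ w))))))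
      (D.sg * (deriv (D.F j) y * (deriv (fun x => D.F (i * D.k) (Ψ x)) x₀ *
        (1 / D.sg * deriv χ 0)))) 0 := by
    have h := (KCB_zzd D (D.F j (D.F (i * D.k) (Ψ (D.xx (χ 0)))))).comp (0 : ℂ) h3
    exact h
  have h5 : deriv (tw D Ψ χ q) 0 = deriv (D.F j) y *
      (deriv (fun x => D.F (i * D.k) (Ψ x)) x₀ * deriv χ 0) := by
    have e : tw D Ψ χ q = fun w => D.zz (D.F j (D.F (i * D.k) (Ψ (D.xx (χ w))))) := funext htw
    rw [e, h4.deriv]
    field_simp
  have hm := hder i hiN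
  rw [h5, hdiff, norm_mul, norm_mul, norm_mul]
  have ha0 : 0 ≤ ‖deriv (D.F j) y‖ := norm_nonneg _
  have hχ0 : 0 ≤ ‖deriv χ 0‖ := norm_nonneg _
  have hCK : 0 ≤ CK := le_trans zero_le_one hdis.K1
  have hc := hdis.pos
  have e1 : ‖D.F j y - D.p (j : ZMod D.k)‖ ≤ CK * c * ‖deriv (D.F j) y‖ := by
    refine le_trans hds ?_
    apply mul_le_mul_of_nonneg_right _ ha0
    exact mul_le_mul_of_nonneg_left hyn.le hCK
  calc ‖D.sg‖ * ‖D.F j y - D.p (j : ZMod D.k)‖
      ≤ (C₂ * ‖deriv χ 0‖) * (CK * c * ‖deriv (D.F j) y‖) := by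
        apply mul_le_mul hsg e1 (norm_nonneg _) (by positivity)
    _ = CK * c * C₂ / m₁ * (‖deriv (D.F j) y‖ * (m₁ * ‖deriv χ 0‖)) := by
        field_simp
    _ ≤ CK * c * C₂ / m₁ * (‖deriv (D.F j) y‖ *
        (‖deriv (fun x => D.F (i * D.k) (Ψ x)) x₀‖ * ‖deriv χ 0‖)) := by
        apply mul_le_mul_of_nonneg_left _ (by positivity)
        apply mul_le_mul_of_nonneg_left _ ha0
        exact mul_le_mul_of_nonneg_right hm hχ0

end YXPT
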