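import Pool.Agent.helper61.CSW.Base
import Pool.Agent.helper61.CSW.XP.SpecX
import Pool.Agent.helper61.CSW.XP.SpecL
import Pool.Agent.helper61.CSW.Exports

/-!
# Project xp: (MP_af9036_an), part N: normality of the differentials (output `YXPX.NRM_stmt`)

Paper: /team-store/MP_af9036_XP_helper60.md, section 3. File `Pool/Agent/<seat>/XP/XX.lean`: `import Pool.Agent.helper60.XP.SpecN`, `set_option autoImplicit false`,
`open Complex Metric Set Filter Topology MeasureTheory`, `open YV3S (UF)`, `open XP`, `open YXPX (nu)`, `noncomputable section`, `namespace XPN`, `theorem XX (h : YY_stmt) ... : XX_stmt`.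
Hypotheses: other statements of this file (no circles), `YXPL.LPI_stmt` (proved), the `V3` statements named in the docstrings (proved). Auxiliary lemmas are prefixed `XX_`. No `sorry`, no double quotes in comments.
The predicates `Seq`, `Good`, `Pin`, `nu` and the functions `Bb`, `p`, `sg`, `zz` do not depend on the parameters `s, N, om, de`.
-/

set_option autoImplicit false

open Complex Metric Set Filter Topology MeasureTheory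
open V3S (UF)
open YXP
open YXPX (nu)

noncomputable section

open CSS (SE)

namespace YXPN

/-- NA1: algebra of one datum.
PROOF. `sg = R 0 > 0`, `zz x - b l = sg (x - p l)`, so `sg² (1/(zz x - b l)² + g l/(zz x - b l)) = 1/(x - p l)² + sg g l/(x - p l)` (also if `x = p l`: both sides are `0`) (`MPS.BB`, `YV3.BF`). `‖b i - b l‖ = R 0 ‖p i - p l‖`, `R 0 ≤ R i ≤ ‖b i - b l‖` (`mini`, `sepr`).
`‖sg g i‖ = R 0 ‖g i‖ ≤ R i ‖g i‖ ≤ C` (`hg`). Last claim: `zz x ∈ ball (b 0) (A R 0)`, `invi` for `i = 0`. -/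
def NA1_stmt : Prop := ∀ (n : ℕ) (C A : ℝ) (D : Dat), D.Good n C A →
  (∀ x, D.Bb x = YV3.BF D.p (fun l => D.sg * D.g l) x) ∧ D.p 0 = 0 ∧
  (∀ i l, i ≠ l → 1 ≤ ‖D.p i - D.p l‖) ∧ (∀ i, ‖D.sg * D.g i‖ ≤ C) ∧
  (∀ x, D.B x = (D.s : ℂ) * (D.Bb x + D.sg ^ 2 * D.r (D.zz x))) ∧
  ∀ x, ‖x‖ < A → ‖D.sg ^ 2 * D.r (D.zz x)‖ ≤ 1 / A

/-- NCA: the configuration in case I. Uses NA1.
PROOF. `‖1/2 - p i‖ ≥ 1/2`: `p 0 = 0` and `‖p i‖ = ‖p i - p 0‖ ≥ 1` for `i ≠ 0`; the same for `-1/2`. `‖BF (±1/2)‖ = ‖Bb (±1/2)‖ ≤ nu ≤ M`. -/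
def NCA_stmt : Prop := ∀ (n : ℕ) (C M : ℝ) (D : ℕ → Dat), Seq n C D → (∀ᶠ m in UF, nu (D m) ≤ M) →
  YV3.Conf (hyperfilter ℕ) (fun m => ZMod (D m).k) (fun m => (D m).p) (fun m l => (D m).sg * (D m).g l)
    (1 / 2) (max C (max M 1)) (fun _ => 1 / 2) (fun _ => -1 / 2)

/-- NLM: the invisible part does not matter for the limit. Uses NA1, `YXPL.LPI_stmt`.
PROOF. `(Pin D)ᶜ` is open (LPI). On a compact `K ⊆ (Pin D)ᶜ`, `K ⊆ ball 0 ρ`: eventually `ρ < A m`, so `‖B x - s Bb x‖ = s ‖sg² r(zz x)‖ ≤ 1/A m → 0` uniformly (NA1). So `B → B₀` uniformly on `K`, `Bin D x = B₀ x` (`Tendsto.limUnder_eq`; `UF` is `NeBot`), `tendstoLocallyUniformlyOn_iff_forall_isCompact`. -/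
def NLM_stmt : Prop := ∀ (n : ℕ) (C : ℝ) (D : ℕ → Dat) (B₀ : ℂ → ℂ), Seq n C D →
  (∀ m, 0 < (D m).s ∧ (D m).s ≤ 1) →
  TendstoLocallyUniformlyOn (fun m x => ((D m).s : ℂ) * (D m).Bb x) B₀ UF (Pin D)ᶜ →
  (∀ x ∉ Pin D, Bin D x = B₀ x) ∧
  ∀ K : Set ℂ, IsCompact K → K ⊆ (Pin D)ᶜ → TendstoUniformlyOn (fun m => (D m).B) (Bin D) UF K

/-- NIA: the zeros of the limit do not accumulate, case I. Uses `YXPL.LPI_stmt`.
PROOF. The points of `Pin D` have distance `≥ c₀` (LPI), so a punctured neighbourhood of every `x` has no point of `Pin D`. If `x ∈ Pin D`: `Bin y (y - x)² → 1` (`GG.pp`), so `Bin y ≠ 0` near `x`. If `x ∉ Pin D`: `Bin` is analytic at `x`; if it is `0` near `x` then it is `0` on `(Pin D)ᶜ` (open, preconnected: LPI;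
`AnalyticOnNhd.eqOn_zero_of_preconnected_of_eventuallyEq_zero`), a contradiction near `0 ∈ Pin D`; so `AnalyticAt.eventually_eq_zero_or_eventually_ne_zero`. Last claim: `d = -2`, `E x = 1 + g 0 * x + x^2 * h x` with the `h` of `GG.pp` at `0`. -/
def NIA_stmt : Prop := ∀ (n : ℕ) (C : ℝ) (D : ℕ → Dat) (g : ℂ → ℂ), Seq n C D →
  DifferentiableOn ℂ (Bin D) (Pin D)ᶜ → YXPG.GG D g →
  (∀ x : ℂ, ∀ᶠ y in 𝓝[≠] x, y ∉ Pin D ∧ Bin D y ≠ 0) ∧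
  ∃ (d : ℤ) (E : ℂ → ℂ), -2 ≤ d ∧ AnalyticAt ℂ E 0 ∧ E 0 ≠ 0 ∧ ∀ᶠ x in 𝓝[≠] (0 : ℂ), Bin D x = x ^ d * E x

/-- NIB: the same in case II. Uses `YXPL.LPI_stmt`.
PROOF. `a₀ + a₁ x` has at most one zero. Last claim: if `a₀ ≠ 0`: `d = 0`, `E x = a₀ + a₁ x`; if `a₀ = 0`: `d = 1`, `E x = a₁`. A punctured neighbourhood of `0` has no point of `Pin D` (LPI). -/
def NIB_stmt : Prop := ∀ (n : ℕ) (C : ℝ) (D : ℕ → Dat) (a₀ a₁ : ℂ), Seq n C D →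
  (a₀ ≠ 0 ∨ a₁ ≠ 0) → (∀ x ∉ Pin D, Bin D x = a₀ + a₁ * x) →
  DifferentiableOn ℂ (Bin D) (Pin D)ᶜ ∧
  (∀ x : ℂ, ∀ᶠ y in 𝓝[≠] x, y ∉ Pin D ∧ Bin D y ≠ 0) ∧
  ∃ (d : ℤ) (E : ℂ → ℂ), -2 ≤ d ∧ AnalyticAt ℂ E 0 ∧ E 0 ≠ 0 ∧ ∀ᶠ x in 𝓝[≠] (0 : ℂ), Bin D x = x ^ d * E x

/-- NI1: case I. Uses NA1, NCA, NLM, NIA, `YXPL.LPI_stmt`, `YV3.NORM_stmt`.
PROOF. NORM for the configuration of NCA: functions `B₀`, `gg`; `Pin D = LP` (LPI); `BF = Bb = s Bb` (`s = 1`; NA1), so NLM: `Bin D = B₀` off `Pin D`, which is closed (LPI), so the derivatives and the germs at points off `Pin D` agree and near `p ∈ Pin D` `Bin = B₀` on a punctured neighbourhood. `GG D gg`: `lim` with `YXPG.LabTo` unfolded.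
`LB D`: NLM, NIA. -/
def NI1_stmt : Prop := ∀ (n : ℕ) (C M : ℝ) (D : ℕ → Dat), Seq n C D → (∀ᶠ m in UF, nu (D m) ≤ M) →
  (∀ m, (D m).s = 1) → LB D ∧ ∃ g : ℂ → ℂ, YXPG.CI D g

/-- N2A: the limit in case II is affine. Uses NA1, NAF, `YV3.TUL_stmt`, `YXPL.LPI_stmt`.
PROOF. `s Bb (1/2)`, `s Bb (-1/2)` are bounded by `1`: limits `u`, `w` (TUL); `‖s Bb (1/2)‖ + ‖s Bb (-1/2)‖ = s (nu - 1) = 1 - s → 1`, so `‖u‖ + ‖w‖ = 1`. `a₁ = u - w`, `a₀ = (u + w)/2`; so `a₀ + a₁/2 = u`, `a₀ - a₁/2 = w`, not both zero.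
Let `K ⊆ (Pin D)ᶜ` be compact, `K ⊆ closedBall 0 ρ`, `ρ ≥ 1`. By LPI (3) and compactness there is `0 < δ ≤ 1/2` such that eventually all poles have distance `≥ δ` from the points of `K`; the points `±1/2` have distance `≥ 1/2` from all poles (NA1). NAF with the numbers `a_m, b_m`: at `±1/2`:
`‖s Bb (±1/2) - s a_m ∓ s b_m/2‖ ≤ 4 K s → 0`, so `s a_m ± s b_m/2 → u, w`, so `s b_m → a₁`, `s a_m → a₀`. On `K`: `‖s Bb x - s a_m - s b_m x‖ ≤ s K/δ² → 0` uniformly. `tendstoLocallyUniformlyOn_iff_forall_isCompact`. -/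
def N2A_stmt : Prop := ∀ (n : ℕ) (C : ℝ) (D : ℕ → Dat), Seq n C D → Tendsto (fun m => nu (D m)) UF atTop →
  (∀ m, (D m).s = (nu (D m))⁻¹) → ∃ a₀ a₁ : ℂ, (a₀ ≠ 0 ∨ a₁ ≠ 0) ∧
    TendstoLocallyUniformlyOn (fun m x => ((D m).s : ℂ) * (D m).Bb x) (fun x => a₀ + a₁ * x) UF (Pin D)ᶜ

/-- NI2: case II. Uses N2A, NLM, NIB. PROOF. `nu ≥ 1`, so `0 < s ≤ 1`, `s → 0`. -/
def NI2_stmt : Prop := ∀ (n : ℕ) (C : ℝ) (D : ℕ → Dat), Seq n C D → Tendsto (fun m => nu (D m)) UF atTop →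
  (∀ m, (D m).s = (nu (D m))⁻¹) → LB D ∧ ∃ a₀ a₁ : ℂ, YXPG.CII D a₀ a₁

/-- NRX: part N, everything together. Uses NI1, NI2.
PROOF. `UF` is an ultrafilter: either there is `M` with `nu ≤ M` eventually, or for all `M` eventually `M < nu`. In both cases: `D'` satisfies `Seq n C D'` (the fields of `Good` do not depend on the parameters), `nu (D' m) = nu (D m)` (rewrite `D' m`). -/
def NRX_stmt : Prop := YXPX.NRM_stmt

end YXPN
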