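import Pool.Agent.helper61.CSW.Base
import Pool.Agent.helper61.CSW.XP.SpecN
import Pool.Agent.helper61.CSW.Exports

/-!
# Project xp, module NCA: the configuration in case I
-/

set_option autoImplicit false

open Complex Metric Set Filter Topology MeasureTheory
open V3S (UF)
open YXP
open YXPX (nu)

noncomputable section

open CSS (SE)

namespace YXPN

theorem NCA (h1 : NA1_stmt) : NCA_stmt := by
  intro n C M D hS hM
  obtain ⟨A, -, hA⟩ := hS.good
  have hC : C ≤ max C (max M 1) := le_max_left _ _
  have hMM : M ≤ max C (max M 1) := (le_max_left _ _).trans (le_max_right _ _)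
  have h11 : (1 : ℝ) ≤ max C (max M 1) := (le_max_right _ _).trans (le_max_right _ _)
  refine ⟨by norm_num, by linarith, ?_, ?_, ?_⟩
  · refine Filter.Eventually.of_forall (fun m i l hil => ?_)
    have h := (h1 n C (A m) (D m) (hA m)).2.2.1 i l hil
    linarith
  · refine Filter.Eventually.of_forall (fun m i => ?_)
    exact ((h1 n C (A m) (D m) (hA m)).2.2.2.1 i).trans hC
  · refine hM.mono (fun m hm => ?_)
    obtain ⟨hBb, hp0, hsep, -, -, -⟩ := h1 n C (A m) (D m) (hA m)
    have hpi : ∀ i, (D m).p i = 0 ∨ 1 ≤ ‖(D m).p i‖ := by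
      intro i
      by_cases hi : i = 0
      · left
        rw [hi]
        exact hp0
      · right
        have h := hsep i 0 hi
        rw [hp0, sub_zero] at h
        exact h
    have hnu : 1 + ‖(D m).Bb (1 / 2)‖ + ‖(D m).Bb (-1 / 2)‖ ≤ M := hm
    have n1 := norm_nonneg ((D m).Bb (1 / 2))
    have n2 := norm_nonneg ((D m).Bb (-1 / 2))
    refine ⟨?_, ?_, ?_, fun i => ⟨NCA_dist _ _ NCA_half (hpi i), NCA_dist _ _ NCA_half' (hpi i)⟩, ?_, ?_⟩
    · rw [NCA_half]
      linarith
    · rw [NCA_half']
      linarith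
    · have e : (1 / 2 : ℂ) - -1 / 2 = 1 := by ring
      rw [e, norm_one]
      norm_num
    · have h := hBb (1 / 2)
      rw [← h]
      linarith
    · have h := hBb (-1 / 2)
      rw [← h]
      linarith

end YXPN
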