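import Pool.Agent.helper61.CSW.Base
import Pool.Agent.helper61.CSW.XP.SpecN
import Pool.Agent.helper61.CSW.Exports

set_option autoImplicit false

open Complex Metric Set Filter Topology MeasureTheory
open V3S (UF)
open YXP
open YXPX (nu)

noncomputable section

open CSS (SE)

namespace YXPN

theorem NI2_nu (D : Dat) : 1 ≤ nu D := by
  unfold nu
  have h1 := norm_nonneg (D.Bb (1 / 2))
  have h2 := norm_nonneg (D.Bb (-1 / 2))
  linarith

theorem NI2 (h2A : N2A_stmt) (hLM : NLM_stmt) (hIB : NIB_stmt) : NI2_stmt := by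
  intro n C D hS hnu hs
  obtain ⟨a₀, a₁, hne, hlim⟩ := h2A n C D hS hnu hs
  have hs1 : ∀ m, 0 < (D m).s ∧ (D m).s ≤ 1 := by
    intro m
    have h1 := NI2_nu (D m)
    rw [hs m]
    exact ⟨inv_pos.2 (by linarith), inv_le_one_of_one_le₀ h1⟩
  obtain ⟨e1, e2⟩ := hLM n C D (fun x => a₀ + a₁ * x) hS hs1 hlim
  obtain ⟨b1, b2, b3⟩ := hIB n C D a₀ a₁ hS hne e1
  refine ⟨⟨b1, e2, b2, b3⟩, a₀, a₁, ?_, hne, e1⟩
  have h3 : (fun m => (D m).s) = fun m => (nu (D m))⁻¹ := funext hs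
  rw [h3]
  exact tendsto_inv_atTop_zero.comp hnu

end YXPN
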