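import Pool.Agent.helper61.CSW.Base
import Pool.Agent.helper61.CSW.XP.SpecN
import Pool.Agent.helper61.CSW.Exports

/-!
xp:NIA, the zeros of the limit do not accumulate (case I).
-/

set_option autoImplicit false

open Complex Metric Set Filter Topology MeasureTheory
open V3S (UF)
open YXP
open YXPX (nu)

noncomputable section

open CSS (SE)

namespace YXPN

theorem NIA_pole (D : ℕ → Dat) (g : ℂ → ℂ) (hg : YXPG.GG D g) (p : ℂ) (hp : p ∈ Pin D) :
    ∃ E : ℂ → ℂ, AnalyticAt ℂ E p ∧ E p ≠ 0 ∧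
      ∀ᶠ x in 𝓝[≠] p, Bin D x = (x - p) ^ (-2 : ℤ) * E x := by
  obtain ⟨h, hh, he⟩ := hg.pp p hp
  refine ⟨fun x => 1 + g p * (x - p) + (x - p) ^ 2 * h x, ?_, ?_, ?_⟩
  · have h1 : AnalyticAt ℂ (fun x : ℂ => x - p) p := analyticAt_id.sub analyticAt_const
    exact (analyticAt_const.add (analyticAt_const.mul h1)).add ((h1.pow 2).mul hh)
  · simp
  · filter_upwards [he, self_mem_nhdsWithin] with x hx hne
    have hne' : x - p ≠ 0 := sub_ne_zero.2 hne
    rw [hx, zpow_neg]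
    have : (x - p) ^ (2 : ℤ) = (x - p) ^ 2 := by norm_cast
    rw [this]
    field_simp

theorem NIA (hL : YXPL.LPI_stmt) : NIA_stmt := by
  intro n C D g hS hd hg
  obtain ⟨_, h0, _, hcl, _, hpc, c₀, hc₀, hsep, _⟩ := hL n C D hS
  have hopen : IsOpen (Pin D)ᶜ := hcl.isOpen_compl
  have hpun : ∀ x : ℂ, ∀ᶠ y in 𝓝[≠] x, y ∉ Pin D := by
    intro x
    by_cases hx : x ∈ Pin D
    · filter_upwards [self_mem_nhdsWithin,
        mem_nhdsWithin_of_mem_nhds (ball_mem_nhds x hc₀)] with y hy hyb hyp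
      have h1 := hsep y hyp x hx hy
      rw [mem_ball, dist_eq_norm] at hyb
      linarith
    · exact mem_nhdsWithin_of_mem_nhds (hopen.mem_nhds hx)
  have hpole : ∀ p ∈ Pin D, ∀ᶠ y in 𝓝[≠] p, Bin D y ≠ 0 := by
    intro p hp
    obtain ⟨E, hE, hE0, hEe⟩ := NIA_pole D g hg p hp
    have h1 : ∀ᶠ y in 𝓝[≠] p, E y ≠ 0 :=
      mem_nhdsWithin_of_mem_nhds (hE.continuousAt.eventually_ne hE0)
    filter_upwards [hEe, h1, self_mem_nhdsWithin] with y hy hy1 hne
    rw [hy]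
    exact mul_ne_zero (zpow_ne_zero _ (sub_ne_zero.2 hne)) hy1
  refine ⟨fun x => ?_, ?_⟩
  · refine (hpun x).and ?_
    by_cases hx : x ∈ Pin D
    · exact hpole x hx
    · have han : ∀ y ∈ (Pin D)ᶜ, AnalyticAt ℂ (Bin D) y := fun y hy =>
        hd.analyticAt (hopen.mem_nhds hy)
      rcases (han x hx).eventually_eq_zero_or_eventually_ne_zero with hz | hz
      · exfalso
        have h2 : EqOn (Bin D) 0 (Pin D)ᶜ :=
          AnalyticOnNhd.eqOn_zero_of_preconnected_of_eventuallyEq_zero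
            (fun y hy => han y hy) hpc hx hz
        obtain ⟨y, hy1, hy2⟩ := ((hpun 0).and (hpole 0 h0)).exists
        exact hy2 (h2 hy1)
      · exact hz
  · obtain ⟨E, hE, hE0, hEe⟩ := NIA_pole D g hg 0 h0
    refine ⟨-2, E, le_refl _, hE, hE0, ?_⟩
    filter_upwards [hEe] with y hy
    rw [hy, sub_zero]

end YXPN
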