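import Pool.Agent.helper61.CSW.Base
import Pool.Agent.helper61.CSW.XP.SpecN
import Pool.Agent.helper61.CSW.Exports

set_option autoImplicit false

open Complex Metric Set Filter Topology MeasureTheory
open V3S (UF)
open YXP
open YXPX (nu)

noncomputable section

open CSS (SE)

namespace YXPN

theorem NIB (hLPI : YXPL.LPI_stmt) : NIB_stmt := by
  intro n C D a₀ a₁ hS hne hB
  obtain ⟨-, h0, -, hcl, -, -, c₀, hc₀, hsep, -⟩ := hLPI n C D hS
  have hop : IsOpen (Pin D)ᶜ := hcl.isOpen_compl
  have hd : Differentiable ℂ (fun x : ℂ => a₀ + a₁ * x) := by fun_prop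
  have hdiff : DifferentiableOn ℂ (Bin D) (Pin D)ᶜ := by
    refine hd.differentiableOn.congr ?_
    intro x hx
    exact hB x hx
  -- no points of Pin near x
  have hP : ∀ x : ℂ, ∀ᶠ y in 𝓝[≠] x, y ∉ Pin D := by
    intro x
    by_cases hx : x ∈ Pin D
    · have h1 : ∀ᶠ y in 𝓝[≠] x, y ∈ ball x c₀ :=
        mem_nhdsWithin_of_mem_nhds (ball_mem_nhds x hc₀)
      have h2 : ∀ᶠ y in 𝓝[≠] x, y ≠ x := self_mem_nhdsWithin
      filter_upwards [h1, h2] with y hy1 hy2 hy3
      have h3 := hsep y hy3 x hx hy2
      rw [mem_ball, dist_eq_norm] at hy1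
      linarith
    · exact mem_nhdsWithin_of_mem_nhds (hop.mem_nhds hx)
  -- zeros of the affine function
  have hZ : ∀ x : ℂ, ∀ᶠ y in 𝓝[≠] x, a₀ + a₁ * y ≠ 0 := by
    intro x
    by_cases h1 : a₁ = 0
    · have h2 : a₀ ≠ 0 := by
        rcases hne with h | h
        · exact h
        · exact absurd h1 h
      exact Eventually.of_forall fun y => by rw [h1, zero_mul, add_zero]; exact h2
    · have hz : ({y : ℂ | a₀ + a₁ * y ≠ 0}) = {-a₀ / a₁}ᶜ := by
        ext y
        simp only [mem_setOf_eq, mem_compl_iff, mem_singleton_iff]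
        rw [not_iff_not]
        constructor
        · intro h
          field_simp
          linear_combination h
        · intro h
          rw [h]
          field_simp
          ring
      by_cases hx : x = -a₀ / a₁
      · have h2 : ∀ᶠ y in 𝓝[≠] x, y ≠ x := self_mem_nhdsWithin
        filter_upwards [h2] with y hy
        have h3 : y ∈ ({y : ℂ | a₀ + a₁ * y ≠ 0}) := by
          rw [hz, mem_compl_iff, mem_singleton_iff, ← hx]
          exact hy
        exact h3
      · have h2 : IsOpen ({-a₀ / a₁}ᶜ : Set ℂ) := isOpen_compl_singleton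
        have h3 : ({-a₀ / a₁}ᶜ : Set ℂ) ∈ 𝓝 x := h2.mem_nhds hx
        filter_upwards [mem_nhdsWithin_of_mem_nhds h3] with y hy
        have h4 : y ∈ ({y : ℂ | a₀ + a₁ * y ≠ 0}) := by rw [hz]; exact hy
        exact h4
  refine ⟨hdiff, ?_, ?_⟩
  · intro x
    filter_upwards [hP x, hZ x] with y h1 h2
    exact ⟨h1, by rw [hB y h1]; exact h2⟩
  · by_cases ha : a₀ = 0
    · have h1 : a₁ ≠ 0 := by
        rcases hne with h | h
        · exact absurd ha h
        · exact h
      refine ⟨1, fun _ => a₁, by norm_num, analyticAt_const, h1, ?_⟩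
      filter_upwards [hP 0] with y hy
      rw [hB y hy, ha, zpow_one]
      ring
    · refine ⟨0, fun x => a₀ + a₁ * x, by norm_num, ?_, ?_, ?_⟩
      · exact hd.analyticAt 0
      · simpa using ha
      · filter_upwards [hP 0] with y hy
        rw [hB y hy, zpow_zero, one_mul]

end YXPN
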