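import Pool.Agent.helper61.CSW.Base
import Pool.Agent.helper61.CSW.XP.SpecN
import Pool.Agent.helper61.CSW.Exports

/-!
# Project xp, module NLM: the invisible part does not matter for the limit
-/

set_option autoImplicit false

open Complex Metric Set Filter Topology MeasureTheory
open V3S (UF)
open YXP
open YXPX (nu)

noncomputable section

open CSS (SE)

namespace YXPN

theorem NLM_unif (hNA1 : NA1_stmt) (hLPI : YXPL.LPI_stmt) (n : ℕ) (C : ℝ) (D : ℕ → Dat) (B₀ : ℂ → ℂ)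
    (hS : Seq n C D) (hs : ∀ m, 0 < (D m).s ∧ (D m).s ≤ 1)
    (hT : TendstoLocallyUniformlyOn (fun m x => ((D m).s : ℂ) * (D m).Bb x) B₀ UF (Pin D)ᶜ)
    (K : Set ℂ) (hK : IsCompact K) (hKP : K ⊆ (Pin D)ᶜ) :
    TendstoUniformlyOn (fun m => (D m).B) B₀ UF K := by
  have hopen : IsOpen (Pin D)ᶜ := (hLPI n C D hS).2.2.2.1.isOpen_compl
  have h1 := (tendstoLocallyUniformlyOn_iff_forall_isCompact hopen).1 hT K hKP hK
  obtain ⟨A, hA, hG⟩ := hS.good
  obtain ⟨ρ, hρ⟩ := hK.isBounded.subset_ball (0 : ℂ)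
  have hA' : Tendsto A UF atTop := hA.mono_left Nat.hyperfilter_le_atTop
  rw [Metric.tendstoUniformlyOn_iff] at h1 ⊢
  intro ε hε
  have h2 : ∀ᶠ m in UF, max ρ (max 1 (2 / ε)) < A m := hA'.eventually_gt_atTop _
  filter_upwards [h1 (ε / 2) (by positivity), h2] with m h3 h4 x hx
  have h5 := h3 x hx
  have hρA : ρ < A m := lt_of_le_of_lt (le_max_left _ _) h4
  have h1A : 1 < A m := lt_of_le_of_lt ((le_max_left _ _).trans (le_max_right _ _)) h4
  have hεA : 2 / ε < A m := lt_of_le_of_lt ((le_max_right _ _).trans (le_max_right _ _)) h4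
  have hxA : ‖x‖ < A m := by
    have := hρ hx
    rw [mem_ball_zero_iff] at this
    linarith
  obtain ⟨-, -, -, -, hB, hr⟩ := hNA1 n C (A m) (D m) (hG m)
  have e1 : (D m).B x - ((D m).s : ℂ) * (D m).Bb x =
      ((D m).s : ℂ) * ((D m).sg ^ 2 * (D m).r ((D m).zz x)) := by
    rw [hB x]
    ring
  have e2 : ‖(D m).B x - ((D m).s : ℂ) * (D m).Bb x‖ ≤ 1 / A m := by
    rw [e1, norm_mul, Complex.norm_real, Real.norm_of_nonneg (hs m).1.le]
    calc (D m).s * ‖(D m).sg ^ 2 * (D m).r ((D m).zz x)‖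
        ≤ 1 * (1 / A m) := mul_le_mul (hs m).2 (hr x hxA) (norm_nonneg _) zero_le_one
      _ = 1 / A m := one_mul _
  have e3 : 1 / A m < ε / 2 := by
    have : 1 / A m < 1 / (2 / ε) := one_div_lt_one_div_of_lt (by positivity) hεA
    rwa [one_div_div] at this
  rw [dist_eq_norm] at h5 ⊢
  calc ‖B₀ x - (D m).B x‖ = ‖(B₀ x - ((D m).s : ℂ) * (D m).Bb x) -
        ((D m).B x - ((D m).s : ℂ) * (D m).Bb x)‖ := by congr 1; ring
    _ ≤ ‖B₀ x - ((D m).s : ℂ) * (D m).Bb x‖ + ‖(D m).B x - ((D m).s : ℂ) * (D m).Bb x‖ :=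
        norm_sub_le _ _
    _ < ε := by linarith

theorem NLM (hNA1 : NA1_stmt) (hLPI : YXPL.LPI_stmt) : NLM_stmt := by
  intro n C D B₀ hS hs hT
  have hU := NLM_unif hNA1 hLPI n C D B₀ hS hs hT
  have hB : ∀ x ∉ Pin D, Bin D x = B₀ x := by
    intro x hx
    have h1 := hU {x} isCompact_singleton (by
      intro y hy
      rw [mem_singleton_iff] at hy
      rw [hy]
      exact hx)
    exact (h1.tendsto_at (mem_singleton x)).limUnder_eq
  refine ⟨hB, fun K hK hKP => ?_⟩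
  exact (hU K hK hKP).congr_right (fun x hx => (hB x (hKP hx)).symm)

end YXPN
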