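import Pool.Agent.helper61.CSW.Base
import Pool.Agent.helper61.CSW.XP.SpecT
import Pool.Agent.helper61.CSW.Exports

/-!
# Project xp: (MP_af9036_an), module NPC
-/

set_option autoImplicit false

open Complex Metric Set Filter Topology MeasureTheory
open V3S (UF)
open YXP

noncomputable section

open CSS (SE)

namespace YXPT

theorem NPC : NPC_stmt := by
  intro n C D hS K hK hKP
  by_contra hcon
  have hcon' := (YV3S.UF_not _).mp hcon
  have h1 : ∀ᶠ m in UF, ∃ x ∈ K, (D m).zz x ∈ (D m).PP := by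
    filter_upwards [hcon'] with m hm
    push Not at hm
    exact hm
  have hne : K.Nonempty := by
    obtain ⟨m, x, hx, _⟩ := h1.exists
    exact ⟨x, hx⟩
  obtain ⟨x₀, hx₀⟩ := hne
  have hch : ∀ m, ∃ x ∈ K, (∃ x ∈ K, (D m).zz x ∈ (D m).PP) → (D m).zz x ∈ (D m).PP := by
    intro m
    by_cases h : ∃ x ∈ K, (D m).zz x ∈ (D m).PP
    · obtain ⟨x, hx, hx2⟩ := h
      exact ⟨x, hx, fun _ => hx2⟩
    · exact ⟨x₀, hx₀, fun h' => absurd h' h⟩
  choose x hxK hxP using hch
  have hle : (((hyperfilter ℕ).map x : Ultrafilter ℂ) : Filter ℂ) ≤ 𝓟 K := by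
    rw [le_principal_iff, Ultrafilter.mem_coe, Ultrafilter.mem_map]
    exact Filter.univ_mem' hxK
  obtain ⟨a, haK, ha⟩ := hK.ultrafilter_le_nhds _ hle
  have hat : Tendsto x UF (𝓝 a) := ha
  obtain ⟨A, hA, hG⟩ := hS.good
  obtain ⟨ρ, hρ⟩ := hK.isBounded.exists_norm_le
  have hAe : ∀ᶠ m in UF, ρ < A m := (hA.mono_left YV3S.UF_le).eventually_gt_atTop ρ
  apply hKP haK
  intro ε hε
  have hd : ∀ᶠ m in UF, dist (x m) a < ε := (Metric.tendsto_nhds.mp hat) ε hε
  filter_upwards [h1, hAe, hd] with m hm hAm hdm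
  have hP := hxP m hm
  have hG' := hG m
  have hR0 : 0 < (D m).R 0 := hG'.Rpos 0
  have hsg : (D m).sg ≠ 0 := by
    unfold Dat.sg
    exact_mod_cast hR0.ne'
  have hsgn : ‖(D m).sg‖ = (D m).R 0 := by
    unfold Dat.sg
    rw [Complex.norm_real, Real.norm_of_nonneg hR0.le]
  have hin : (D m).zz (x m) ∈ ball ((D m).b 0) (A m * (D m).R 0) := by
    rw [mem_ball, dist_eq_norm]
    unfold Dat.zz
    rw [add_sub_cancel_left, norm_mul, hsgn]
    have h3 : ‖x m‖ < A m := lt_of_le_of_lt (hρ (x m) (hxK m)) hAm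
    rw [mul_comm]
    exact mul_lt_mul_of_pos_right h3 hR0
  have hnP : (D m).zz (x m) ∉ (D m).P := (hG'.invi _ hin).1
  rcases hP with hP | hP
  · obtain ⟨l, hl⟩ := hP
    refine ⟨l, ?_⟩
    have hpl : (D m).p l = x m := by
      unfold Dat.p Dat.xx
      rw [hl]
      unfold Dat.zz
      rw [add_sub_cancel_left, mul_div_cancel_left₀ _ hsg]
    rw [hpl, ← dist_eq_norm]
    exact hdm
  · exact absurd hP hnP

end YXPT
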