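import Pool.Agent.helper61.CSW.Base
import Pool.Agent.helper61.CSW.XP.SpecT
import Pool.Agent.helper61.CSW.Exports

/-!
# Project xp:, module PSI: the limit of `F k` in case B
-/

set_option autoImplicit false

open Complex Metric Set Filter Topology MeasureTheory
open V3S (UF)
open YXP

noncomputable section

open CSS (SE)

namespace YXPT

theorem PSI_it {k : ℕ} [NeZero k] (f : SE) (b : ZMod k → ℂ) (hc : YPPS.IsCyc f b)
    (j : ℕ) : (fun z => f.eval z)^[j] (b 0) = b (j : ZMod k) := by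
  induction j with
  | zero => simp
  | succ j ih =>
    rw [Function.iterate_succ_apply', ih, hc.step]
    congr 1
    push_cast
    ring

theorem PSI_itd (f : SE) (j : ℕ) : Differentiable ℂ (fun z => f.eval z)^[j] :=
  f.differentiable.iterate j

theorem PSI_der {k : ℕ} [NeZero k] (f : SE) (b : ZMod k → ℂ) (hc : YPPS.IsCyc f b)
    (j : ℕ) :
    deriv ((fun z => f.eval z)^[j]) (b 0) = ∏ i ∈ Finset.range j, YPPS.fd f (b (i : ZMod k)) := by
  induction j with
  | zero =>
    rw [Finset.prod_range_zero]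
    exact deriv_id _
  | succ j ih =>
    rw [Finset.prod_range_succ, mul_comm]
    have h0 : (fun z => f.eval z)^[j + 1] = (fun z => f.eval z) ∘ (fun z => f.eval z)^[j] :=
      Function.iterate_succ' _ _
    have h1 : deriv ((fun z => f.eval z) ∘ (fun z => f.eval z)^[j]) (b 0) =
        deriv (fun z => f.eval z) ((fun z => f.eval z)^[j] (b 0)) *
          deriv ((fun z => f.eval z)^[j]) (b 0) :=
      deriv_comp _ f.differentiable.differentiableAt (PSI_itd f j).differentiableAt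
    rw [h0, h1, ih, PSI_it f b hc]
    congr 1

theorem PSI_Fd (D : Dat) (j : ℕ) : Differentiable ℂ (D.F j) := by
  have h1 : Differentiable ℂ D.zz := by
    unfold Dat.zz
    fun_prop
  have h2 : Differentiable ℂ D.xx := by
    unfold Dat.xx
    fun_prop
  exact h2.comp ((PSI_itd D.f j).comp h1)

theorem PSI_F0 (D : Dat) (hc : YPPS.IsCyc D.f D.b) : D.F D.k 0 = 0 := by
  unfold Dat.F Dat.zz
  rw [mul_zero, add_zero, PSI_it D.f D.b hc]
  simp [Dat.xx]

theorem PSI_FD (D : Dat) (hc : YPPS.IsCyc D.f D.b) (hs : D.sg ≠ 0) :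
    deriv (D.F D.k) 0 = YPPS.rho D.f D.b := by
  have h1 : HasDerivAt D.zz D.sg 0 := by
    unfold Dat.zz
    simpa using ((hasDerivAt_id (0 : ℂ)).const_mul D.sg).const_add (D.b 0)
  have hz : D.zz 0 = D.b 0 := by simp [Dat.zz]
  have h2 : HasDerivAt ((fun z => D.f.eval z)^[D.k]) (YPPS.rho D.f D.b) (D.zz 0) := by
    rw [hz]
    have h3 := ((PSI_itd D.f D.k).differentiableAt (x := D.b 0)).hasDerivAt
    rw [PSI_der D.f D.b hc, PSI_prod D.k (fun l => YPPS.fd D.f (D.b l))] at h3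
    exact h3
  have h4 := h2.comp (0 : ℂ) h1
  have h5 : HasDerivAt D.xx (1 / D.sg) (((fun z => D.f.eval z)^[D.k] ∘ D.zz) 0) := by
    unfold Dat.xx
    exact ((hasDerivAt_id _).sub_const (D.b 0)).div_const D.sg
  have h6 := h5.comp (0 : ℂ) h4
  have h7 : (D.xx ∘ ((fun z => D.f.eval z)^[D.k] ∘ D.zz)) = D.F D.k := rfl
  rw [h7] at h6
  rw [h6.deriv]
  field_simp

theorem PSI (hTMO : YV3.TMO_stmt) (hTDE : YV3.TDE_stmt) : PSI_stmt := by
  intro n C η ζ D hS hB
  obtain ⟨A, -, hG⟩ := hS.good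
  have hs : ∀ m, (D m).sg ≠ 0 := by
    intro m
    have := (hG m).Rpos 0
    unfold Dat.sg
    exact_mod_cast this.ne'
  have hFd : ∀ m j, Differentiable ℂ ((D m).F j) := fun m j => PSI_Fd (D m) j
  have hbd : ∀ m, ∀ x ∈ ball (0 : ℂ) 1, ‖(D m).F (D m).k x‖ ≤ 3 := by
    intro m x hx
    have h1 := (hB.gb m).near x hx
    have h2 := (hG m).rho2
    rw [mem_ball_zero_iff] at hx
    have h3 : ‖YPPS.rho (D m).f (D m).b * x‖ ≤ 2 * ‖x‖ := by
      rw [norm_mul]
      exact mul_le_mul_of_nonneg_right h2 (norm_nonneg _)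
    have h4 : ‖(D m).F (D m).k x‖ ≤
        ‖(D m).F (D m).k x - YPPS.rho (D m).f (D m).b * x‖ + ‖YPPS.rho (D m).f (D m).b * x‖ := by
      simpa using norm_add_le ((D m).F (D m).k x - YPPS.rho (D m).f (D m).b * x)
        (YPPS.rho (D m).f (D m).b * x)
    have h5 := hB.eta.2
    have h6 : η * ‖x‖ ≤ 1 / 100 * ‖x‖ := mul_le_mul_of_nonneg_right h5 (norm_nonneg _)
    linarith
  have hloc : ∀ x ∈ ball (0 : ℂ) 1, ∃ r > (0 : ℝ), ball x r ⊆ ball (0 : ℂ) 1 := by
    intro x hx
    rw [mem_ball_zero_iff] at hx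
    refine ⟨1 - ‖x‖, by linarith, fun y hy => ?_⟩
    rw [mem_ball, dist_eq_norm] at hy
    rw [mem_ball_zero_iff]
    have : ‖y‖ ≤ ‖y - x‖ + ‖x‖ := by simpa using norm_add_le (y - x) x
    linarith
  obtain ⟨ψ, hψd, hψ⟩ := hTMO (hyperfilter ℕ) (fun m => (D m).F (D m).k) (ball 0 1) isOpen_ball
    (fun x hx => by
      obtain ⟨r, hr, hsub⟩ := hloc x hx
      exact ⟨r, hr, 3, Eventually.of_forall fun m =>
        ⟨(hFd m _).differentiableOn, fun y hy => hbd m y (hsub hy)⟩⟩)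
  have hψ' : TendstoLocallyUniformlyOn (fun m => (D m).F (D m).k) ψ UF (ball 0 1) := hψ
  have h0 : (0 : ℂ) ∈ ball (0 : ℂ) 1 := by simp
  have hrho : Tendsto (fun m => YPPS.rho (D m).f (D m).b) UF (𝓝 ζ) := hB.lim.mono_left YV3S.UF_le
  have hUF : (UF : Filter ℕ).NeBot := (hyperfilter ℕ).neBot
  refine ⟨ψ, hψd, hψ', ?_, ?_, ?_⟩
  · have h1 := hψ'.tendsto_at h0
    have h2 : (fun m => (D m).F (D m).k 0) = fun _ => (0 : ℂ) := by
      funext m
      exact PSI_F0 (D m) (hG m).cyc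
    rw [h2] at h1
    exact tendsto_nhds_unique h1 tendsto_const_nhds
  · have h1 := (hTDE (hyperfilter ℕ) (fun m => (D m).F (D m).k) ψ (ball 0 1) isOpen_ball
      (fun x hx => by
        obtain ⟨r, hr, hsub⟩ := hloc x hx
        exact ⟨r, hr, Eventually.of_forall fun m => (hFd m _).differentiableOn⟩) hψ).2.1
    have h2 := h1.tendsto_at h0
    have h3 : (fun m => deriv ((D m).F (D m).k) 0) = fun m => YPPS.rho (D m).f (D m).b := by
      funext m
      exact PSI_FD (D m) (hG m).cyc (hs m)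
    rw [h3] at h2
    exact tendsto_nhds_unique h2 hrho
  · intro x hx
    have h1 := hψ'.tendsto_at hx
    have h2 := (h1.sub (hrho.mul_const x)).norm
    exact le_of_tendsto h2 (Eventually.of_forall fun m => (hB.gb m).near x hx)

end YXPT
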