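import Pool.Agent.helper61.CSW.XP.SpecD

/-!
# Project ew: SCL, the scale of an entire function
-/

set_option autoImplicit false

open Complex Metric Set Filter Topology MeasureTheory

noncomputable section

open CSS (SE)

namespace YXPD

theorem SCL : SCL_stmt := by
  intro Q η hd hη h0 h1 hna
  set S : ℂ → ℂ := dslope Q 0 with hS
  have hQS : ∀ x, Q x = x * S x := by
    intro x
    have h := sub_smul_dslope Q 0 x
    rw [h0, sub_zero, sub_zero, smul_eq_mul] at h
    exact h.symm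
  have hS0 : S 0 = deriv Q 0 := dslope_same Q 0
  have hSd : Differentiable ℂ S := by
    have h2 : DifferentiableOn ℂ S univ :=
      (differentiableOn_dslope (s := univ) Filter.univ_mem).2 hd.differentiableOn
    exact differentiableOn_univ.1 h2
  have hSc : Continuous S := hSd.continuous
  have hex : ∃ x, η ≤ ‖S x‖ := by
    by_contra hno
    push Not at hno
    apply hna
    have hb : Bornology.IsBounded (Set.range S) := by
      rw [isBounded_iff_forall_norm_le]
      refine ⟨η, ?_⟩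
      rintro _ ⟨x, rfl⟩
      exact (hno x).le
    refine ⟨S 0, fun x => ?_⟩
    rw [hQS x, hSd.apply_eq_apply_of_bounded hb x 0]
    ring
  obtain ⟨x₁, hx₁⟩ := hex
  -- the closed set where `η ≤ ‖S x‖`
  have hcl : IsClosed {x : ℂ | η ≤ ‖S x‖} := isClosed_le continuous_const hSc.norm
  obtain ⟨x₀, hx₀, hmin⟩ := hcl.exists_infDist_eq_dist ⟨x₁, hx₁⟩ (0 : ℂ)
  have hmin' : ∀ x, ‖x‖ < ‖x₀‖ → ‖S x‖ < η := by
    intro x hx
    by_contra hcon
    push Not at hcon
    have h3 := infDist_le_dist_of_mem (x := (0 : ℂ)) (s := {x : ℂ | η ≤ ‖S x‖}) hcon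
    rw [hmin, dist_zero_left, dist_zero_left] at h3
    linarith
  have hx0ne : x₀ ≠ 0 := by
    rintro rfl
    have h4 : η ≤ ‖S 0‖ := hx₀
    rw [hS0] at h4
    linarith
  have hR : 0 < ‖x₀‖ := norm_pos_iff.2 hx0ne
  have hle : ‖S x₀‖ ≤ η := by
    have ht : Tendsto (fun t : ℝ => ‖S ((t : ℂ) * x₀)‖) (𝓝[<] 1) (𝓝 ‖S x₀‖) := by
      have hc : ContinuousAt (fun t : ℝ => ‖S ((t : ℂ) * x₀)‖) 1 := by
        refine (hSc.norm.continuousAt).comp (f := fun t : ℝ => (t : ℂ) * x₀) ?_
        fun_prop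
      have h5 := hc.tendsto
      simp only [ofReal_one, one_mul] at h5
      exact h5.mono_left nhdsWithin_le_nhds
    refine le_of_tendsto ht ?_
    have h6 : ∀ᶠ t : ℝ in 𝓝[<] 1, t ∈ Ioo (0 : ℝ) 1 := Ioo_mem_nhdsLT (by norm_num)
    filter_upwards [h6] with t ht'
    refine (hmin' _ ?_).le
    rw [norm_mul, norm_real, Real.norm_of_nonneg ht'.1.le]
    nlinarith [ht'.2]
  refine ⟨‖x₀‖, hR, ?_, x₀, rfl, ?_⟩
  · intro x hx
    rw [mem_ball_zero_iff] at hx
    rw [hQS x, norm_mul, mul_comm]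
    exact mul_le_mul_of_nonneg_right (hmin' x hx).le (norm_nonneg _)
  · rw [hQS x₀, norm_mul, le_antisymm hle hx₀, mul_comm]

end YXPD
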