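import Pool.Agent.helper61.CSW.Base
import Pool.Agent.helper61.CSW.XP.SpecT
import Pool.Agent.helper61.CSW.Exports

/-!
# Project xp: STB, the start in case B, with the choice of the parameters
-/

set_option autoImplicit false

open Complex Metric Set Filter Topology MeasureTheory
open V3S (UF)
open YXP

noncomputable section

open CSS (SE)

namespace YXPT

theorem STB_good {n : ℕ} {C A : ℝ} {D : Dat} (g : D.Good n C A) (s : ℝ) (N : ℕ) (om de : ℝ) :
    (D.par s N om de).Good n C A where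
  hn := g.hn
  hdeg := g.hdeg
  hk := g.hk
  cyc := g.cyc
  ex := g.ex
  rho1 := g.rho1
  rho2 := g.rho2
  C1 := g.C1
  A1 := g.A1
  Rpos := g.Rpos
  mini := g.mini
  inj := g.inj
  sepr := g.sepr
  trans := g.trans
  hg := g.hg
  eng := g.eng
  rdiff := g.rdiff
  bP := g.bP
  invi := g.invi
  pfx := g.pfx
  rfm := g.rfm

theorem STB_dis {D : Dat} {c CK : ℝ} (g : Dis D c CK) (s : ℝ) (N : ℕ) (om de : ℝ) :
    Dis (D.par s N om de) c CK where
  pos := g.pos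
  le := g.le
  K1 := g.K1
  rng := g.rng
  dj := g.dj
  inj := g.inj
  ds := g.ds

theorem STB (hDIS : DIS_stmt) (hSTN : STN_stmt) (hCHX : CHX_stmt) (hCTS : CTS_stmt)
    (hDIA : DIA_stmt) (hDIR : DIR_stmt) : STB_stmt := by
  intro n C η ζ D hC hseq hB hs hLB
  obtain ⟨c, CK, hdis⟩ := hDIS C hC
  obtain ⟨A, -, hgood⟩ := hseq.good
  have hDis : ∀ m, Dis (D m) c CK := fun m => hdis n (A m) (D m) (hgood m)
  obtain ⟨x₀, hx₀, ρ, hρ, hstn⟩ := hSTN n C η ζ D c CK hC hseq hB hs hLB hDis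
  obtain ⟨r, hr, C₂, hC₂, hch⟩ := hCHX n C D hseq hLB x₀ hx₀ ρ hρ
  have hdir : ∀ l : ℕ, ∃ N : ℕ, 1 ≤ N ∧ ‖ζ ^ N - 1‖ ≤ 1 / ((l : ℝ) + 1) :=
    fun l => hDIR ζ hB.zeta.1 (1 / ((l : ℝ) + 1)) (by positivity)
  choose Nl hNl1 hNl2 using hdir
  have hNr : ∀ l, (1 : ℝ) ≤ (Nl l : ℝ) := fun l => by exact_mod_cast hNl1 l
  obtain ⟨oml, homl⟩ : ∃ oml : ℕ → ℝ, ∀ l, oml l = 1 / (((l : ℝ) + 1) * (Nl l : ℝ) ^ 3) :=
    ⟨_, fun _ => rfl⟩
  obtain ⟨del, hdel⟩ : ∃ del : ℕ → ℝ, ∀ l, del l = 3 / ((l : ℝ) + 1) := ⟨_, fun _ => rfl⟩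
  have hom0 : ∀ l, 0 < oml l := by
    intro l
    have h1 := hNr l
    rw [homl]
    positivity
  have hom1 : ∀ l, oml l ≤ 1 / ((l : ℝ) + 1) := by
    intro l
    rw [homl]
    have h1 : (1 : ℝ) ≤ (Nl l : ℝ) ^ 3 := one_le_pow₀ (hNr l)
    have h2 : (0 : ℝ) < (l : ℝ) + 1 := by positivity
    exact one_div_le_one_div_of_le h2 (le_mul_of_one_le_right h2.le h1)
  have hde : ∀ l, 2 * ‖ζ ^ (Nl l) - 1‖ + oml l ≤ del l := by
    intro l
    have h1 := hNl2 l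
    have h2 := hom1 l
    have h3 : del l = 3 * (1 / ((l : ℝ) + 1)) := by rw [hdel]; ring
    rw [h3]
    linarith
  have hod : ∀ l, oml l ≤ del l := fun l => by
    have h1 := hde l
    have h2 : 0 ≤ ‖ζ ^ (Nl l) - 1‖ := norm_nonneg _
    linarith
  obtain ⟨S, hSdef⟩ : ∃ S : ℕ → ℕ → Prop, ∀ l m, S l m ↔
      ((∃ χ : ℂ → ℂ, YXPS.IsNat (D m).PP (D m).H χ (ball 0 (2 * r)) ∧
        χ 0 = (D m).zz x₀ ∧
        (∀ w ∈ ball (0 : ℂ) (2 * r), ‖deriv χ w - deriv χ 0‖ ≤ ‖deriv χ 0‖ / 10) ∧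
        (∀ w ∈ ball (0 : ℂ) (2 * r), (D m).xx (χ w) ∈ ball x₀ ρ) ∧
        ‖(D m).sg‖ ≤ C₂ * ‖deriv χ 0‖) ∧
      (∃ Ψ : ℂ → ℂ,
        DifferentiableOn ℂ Ψ (ball x₀ ρ) ∧
        (∀ x ∈ ball x₀ ρ, (D m).F (Nl l * (D m).k) (Ψ x) = x ∧
          ‖Ψ x - x‖ ≤ 2 * ‖ζ ^ (Nl l) - 1‖ + oml l ∧
          (∀ i ≤ Nl l, (D m).F (i * (D m).k) (Ψ x) ∈ ball (0 : ℂ) c) ∧
          ‖deriv Ψ x ^ 2 * (D m).B (Ψ x) / (D m).B x - 1‖ ≤ oml l) ∧
        ∀ i ≤ Nl l, 1 / 2 ≤ ‖deriv (fun x => (D m).F (i * (D m).k) (Ψ x)) x₀‖) ∧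
      (Nl l : ℝ) * (D m).E ≤ oml l) := ⟨_, fun _ _ => Iff.rfl⟩
  have hS : ∀ l, ∀ᶠ m in UF, S l m := by
    intro l
    have hE : ∀ᶠ m in UF, (Nl l : ℝ) * (D m).E ≤ oml l := by
      have h1 : Tendsto (fun m => (Nl l : ℝ) * (D m).E) atTop (𝓝 0) := by
        have h2 := hseq.E0.const_mul (Nl l : ℝ)
        simpa using h2
      have h3 := (h1.mono_left YV3S.UF_le).eventually (gt_mem_nhds (hom0 l))
      filter_upwards [h3] with m hm
      exact hm.le
    filter_upwards [hch, hstn (Nl l) (hNl1 l) (oml l) (hom0 l), hE] with m h1 h2 h3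
    rw [hSdef]
    exact ⟨h1, h2, h3⟩
  obtain ⟨L, hL, hLS⟩ := hDIA S hS
  refine ⟨fun m => Nl (L m), fun m => oml (L m), fun m => del (L m), ?_, x₀, hx₀, ?_⟩
  · refine
      { s0 := fun m => (hs m).1
        s1 := fun m => (hs m).2
        N1 := fun m => hNl1 (L m)
        om0 := fun m => hom0 (L m)
        eo := ?_
        od := ?_
        om1 := ?_
        de1 := ?_ }
    · filter_upwards [hLS] with m hm
      exact ((hSdef _ _).1 hm).2.2
    · exact Filter.Eventually.of_forall fun m => hod (L m)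
    · have h1 : (fun m => ((((D m).par (D m).s (Nl (L m)) (oml (L m)) (del (L m))).N : ℝ)) ^ 3 *
          ((D m).par (D m).s (Nl (L m)) (oml (L m)) (del (L m))).om) =
          fun m => (1 : ℝ) / ((L m : ℝ) + 1) := by
        funext m
        show ((Nl (L m) : ℕ) : ℝ) ^ 3 * oml (L m) = _
        rw [homl]
        have h2 := hNr (L m)
        have h3 : (0 : ℝ) < (Nl (L m) : ℝ) := by linarith
        have h4 : (0 : ℝ) < (L m : ℝ) + 1 := by positivity
        field_simp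
      rw [h1]
      exact STB_lim hL 1
    · have h1 : (fun m => ((D m).par (D m).s (Nl (L m)) (oml (L m)) (del (L m))).de) =
          fun m => (3 : ℝ) / ((L m : ℝ) + 1) := by
        funext m
        exact hdel (L m)
      rw [h1]
      exact STB_lim hL 3
  · have hpi : 0 < Real.pi * r ^ 2 := by positivity
    obtain ⟨C₃, hC₃⟩ : ∃ C₃ : ℝ, C₃ = 1 + 1 / (Real.pi * r ^ 2) := ⟨_, rfl⟩
    have hC₃1 : 1 ≤ C₃ := by
      rw [hC₃]
      have : 0 ≤ 1 / (Real.pi * r ^ 2) := by positivity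
      linarith
    obtain ⟨C', hC', hcts⟩ := hCTS c CK C₂ C₃ r hC₂ (by linarith) hr
    refine ⟨r, hr, C', hC', ?_⟩
    have hsm : ∀ᶠ m in UF, C₂ * del (L m) ≤ r / 10 := by
      have h1 : Tendsto (fun m => C₂ * del (L m)) UF (𝓝 0) := by
        have h2 := (STB_lim hL 3).const_mul C₂
        have h3 : (fun m => C₂ * del (L m)) = fun m => C₂ * (3 / ((L m : ℝ) + 1)) := by
          funext m
          rw [hdel]
        rw [h3]
        simpa using h2
      have h4 := h1.eventually (gt_mem_nhds (show (0 : ℝ) < r / 10 by positivity))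
      filter_upwards [h4] with m hm
      exact hm.le
    filter_upwards [hLS, hsm] with m hm hsm'
    obtain ⟨⟨χ, hnat, hval, haff, hmp, hsg⟩, ⟨Ψ, hpd, hpx, hpi2⟩, hE⟩ := (hSdef _ _).1 hm
    have hSt : St ((D m).par (D m).s (Nl (L m)) (oml (L m)) (del (L m))) c x₀ ρ r χ Ψ :=
      { s0 := (hs m).1
        s1 := (hs m).2
        N1 := hNl1 (L m)
        r0 := hr
        psd := hpd
        psi := fun x hx => (hpx x hx).1
        psr := fun i hi x hx => (hpx x hx).2.2.1 i hi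
        nat := hnat
        val := hval
        aff := haff
        mp := hmp }
    obtain ⟨Φ, hΦ⟩ := hcts n C (A m) _ (STB_good (hgood m) (D m).s (Nl (L m)) (oml (L m)) (del (L m)))
      (STB_dis (hDis m) (D m).s (Nl (L m)) (oml (L m)) (del (L m))) x₀ ρ (oml (L m)) (del (L m)) χ Ψ
      hρ hSt hsg hpi2 (fun x hx => (hpx x hx).2.1.trans (hde (L m))) hsm'
      (by
        show del (L m) ≤ C₃ * del (L m)
        have h1 : 0 ≤ del (L m) := (hom0 (L m)).le.trans (hod (L m))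
        exact le_mul_of_one_le_left h1 hC₃1)
      (fun x hx => (hpx x hx).2.2.2)
      (by
        show oml (L m) + (Nl (L m) : ℝ) * (D m).E / (Real.pi * r ^ 2) ≤ C₃ * oml (L m)
        have h1 : (Nl (L m) : ℝ) * (D m).E / (Real.pi * r ^ 2) ≤ oml (L m) / (Real.pi * r ^ 2) :=
          div_le_div_of_nonneg_right hE hpi.le
        have h2 : C₃ * oml (L m) = oml (L m) + oml (L m) / (Real.pi * r ^ 2) := by
          rw [hC₃]; ring
        rw [h2]
        linarith)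
    exact ⟨χ, _, Φ, hΦ⟩

end YXPT
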