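import Pool.Agent.helper61.CSW.Base
import Pool.Agent.helper61.CSW.XP.SpecT
import Pool.Agent.helper61.CSW.Exports

/-!
# STN: inverse branches of the iterates of the return map
-/

set_option autoImplicit false

open Complex Metric Set Filter Topology MeasureTheory
open V3S (UF)
open YXP

noncomputable section

open CSS (SE)

namespace YXPT

/-! ## Convergence with a variable point -/

/-! ## One datum -/

theorem STN_zx {n : ℕ} {C A : ℝ} {D : Dat} (h : D.Good n C A) (z : ℂ) : D.zz (D.xx z) = z := by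
  have h0 : D.sg ≠ 0 := by
    unfold Dat.sg
    exact_mod_cast (h.Rpos 0).ne'
  unfold Dat.zz Dat.xx
  field_simp
  ring

theorem STN_F0 {n : ℕ} {C A : ℝ} {D : Dat} (h : D.Good n C A) (x : ℂ) : D.F 0 x = x := by
  have h0 : D.sg ≠ 0 := by
    unfold Dat.sg
    exact_mod_cast (h.Rpos 0).ne'
  unfold Dat.F Dat.zz Dat.xx
  simp only [Function.iterate_zero, id_eq]
  field_simp
  ring

theorem STN_Fadd {n : ℕ} {C A : ℝ} {D : Dat} (h : D.Good n C A) (i j : ℕ) (x : ℂ) :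
    D.F (i + j) x = D.F i (D.F j x) := by
  unfold Dat.F
  rw [STN_zx h, Function.iterate_add_apply]

theorem STN_Fd (D : Dat) (j : ℕ) : Differentiable ℂ (D.F j) := by
  have h1 : Differentiable ℂ ((fun z : ℂ => D.f.eval z)^[j]) := D.f.differentiable.iterate j
  have h2 : Differentiable ℂ D.zz := by
    unfold Dat.zz
    fun_prop
  unfold Dat.F Dat.xx
  exact ((h1.comp h2).sub_const _).div_const _

/-! ## The coordinate -/

/-! ## Rotations -/

/-- the coordinate in which the limit map is a rotation. -/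
theorem STN_set (hPSI : PSI_stmt) (hINVB : INVB_stmt) (hROT : ROT_stmt) {n : ℕ}
    {C η : ℝ} {ζ : ℂ} {D : ℕ → Dat} {c CK : ℝ} (hC : 1 ≤ C) (hS : Seq n C D) (hB : SeqB η ζ D)
    (hs : ∀ m, 0 < (D m).s ∧ (D m).s ≤ 1) (hL : LB D) (hDis : ∀ m, Dis (D m) c CK) :
    ∃ (w : ℂ → ℂ) (r : ℝ), 0 < r ∧ r ≤ 1 ∧ DifferentiableOn ℂ w (ball 0 r) ∧
      (∀ s ∈ ball (0 : ℂ) r, ‖deriv w s - 1‖ ≤ 1 / 10) ∧
      (∀ s ∈ ball (0 : ℂ) r, ‖w s‖ < c / 4) ∧
      (∀ s ∈ ball (0 : ℂ) r, s ≠ 0 → w s ∈ Reg D) ∧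
      (∀ s ∈ ball (0 : ℂ) r, s ≠ 0 →
        ζ ^ 2 * (deriv w (ζ * s) ^ 2 * Bin D (w (ζ * s))) = deriv w s ^ 2 * Bin D (w s)) ∧
      ∀ i : ℕ, ∀ s ∈ ball (0 : ℂ) r,
        Tendsto (fun q : ℕ × ℂ => (D q.1).F (i * (D q.1).k) (w q.2)) (UF ×ˢ 𝓝 s)
          (𝓝 (w (ζ ^ i * s))) := by
  obtain ⟨ψ, hψd, hψl, hψ0, hψ1, hψn⟩ := hPSI n C η ζ D hS hB
  have hinv := hINVB n C η ζ D ψ hC hS hB hs hL hψd hψl hψ0 hψ1 hψn
  obtain ⟨d, E, hd, hE, hE0, hBE⟩ := hL.zero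
  obtain ⟨A, -, hgood⟩ := hS.good
  have hψa : AnalyticAt ℂ ψ 0 :=
    hψd.analyticAt (isOpen_ball.mem_nhds (mem_ball_self one_pos))
  obtain ⟨w, δ, hδ, hw, hw0, hw1, hwi, hψw⟩ :=
    hROT (Bin D) E ψ d ζ hd hE hE0 hBE hψa hψ0 hψ1 hB.zeta.1 hinv
  have hζ := hB.zeta.1
  have hc0 : 0 < c := (hDis 0).pos
  have hc1 : c ≤ 1 / 4 := (hDis 0).le
  have h0δ : ball (0 : ℂ) δ ∈ 𝓝 (0 : ℂ) := isOpen_ball.mem_nhds (mem_ball_self hδ)
  have hwc : ContinuousAt w 0 := (hw.differentiableAt h0δ).continuousAt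
  have hwc' : ContinuousAt (deriv w) 0 :=
    ((hw.deriv isOpen_ball).differentiableAt h0δ).continuousAt
  have ha : ∀ᶠ s in 𝓝 (0 : ℂ), ‖deriv w s - 1‖ ≤ 1 / 10 := by
    have h1 := Metric.tendsto_nhds.1 hwc' (1 / 10) (by norm_num)
    filter_upwards [h1] with s h2
    rw [dist_eq_norm, hw1] at h2
    exact h2.le
  have hb : ∀ᶠ s in 𝓝 (0 : ℂ), ‖w s‖ < c / 4 := by
    have h1 := Metric.tendsto_nhds.1 hwc (c / 4) (by positivity)
    filter_upwards [h1] with s h2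
    rwa [dist_eq_norm, hw0, sub_zero] at h2
  have hcw : Tendsto w (𝓝[≠] (0 : ℂ)) (𝓝[≠] (0 : ℂ)) := by
    rw [tendsto_nhdsWithin_iff]
    constructor
    · have h1 : Tendsto w (𝓝 0) (𝓝 (w 0)) := hwc
      rw [hw0] at h1
      exact h1.mono_left nhdsWithin_le_nhds
    · filter_upwards [self_mem_nhdsWithin, mem_nhdsWithin_of_mem_nhds h0δ] with s h1 h2 h3
      exact h1 (hwi h2 (mem_ball_self hδ) (by rw [hw0]; exact h3))
  have hc2 := eventually_nhdsWithin_iff.1 (hcw.eventually (hL.acc 0))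
  have hc3 := eventually_nhdsWithin_iff.1 (hcw.eventually hinv)
  obtain ⟨ε₀, hε₀, hall⟩ := Metric.eventually_nhds_iff_ball.1 (ha.and (hb.and (hc2.and hc3)))
  set r : ℝ := min (min ε₀ δ) 1 with hr
  have hr0 : 0 < r := by positivity
  have hr1 : r ≤ 1 := min_le_right _ _
  have hrε : ball (0 : ℂ) r ⊆ ball 0 ε₀ :=
    ball_subset_ball ((min_le_left _ _).trans (min_le_left _ _))
  have hrδ : ball (0 : ℂ) r ⊆ ball 0 δ :=
    ball_subset_ball ((min_le_left _ _).trans (min_le_right _ _))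
  have hwr : DifferentiableOn ℂ w (ball 0 r) := hw.mono hrδ
  have hw1' : ∀ s ∈ ball (0 : ℂ) r, ‖w s‖ < 1 := fun s hs => by
    have := (hall s (hrε hs)).2.1
    linarith
  refine ⟨w, r, hr0, hr1, hwr, fun s hs => (hall s (hrε hs)).1,
    fun s hs => (hall s (hrε hs)).2.1, fun s hs hs0 => (hall s (hrε hs)).2.2.1 hs0, ?_, ?_⟩
  · intro s hs hs0
    have h1 := (hall s (hrε hs)).2.2.2 hs0
    have hws : w s ∈ ball (0 : ℂ) 1 := by
      rw [mem_ball_zero_iff]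
      exact hw1' s hs
    have h2 : HasDerivAt (fun y => ψ (w y)) (deriv ψ (w s) * deriv w s) s :=
      ((hψd.differentiableAt (isOpen_ball.mem_nhds hws)).hasDerivAt).comp s
        (hwr.differentiableAt (isOpen_ball.mem_nhds hs)).hasDerivAt
    have h3 : HasDerivAt (fun y => w (ζ * y)) (deriv w (ζ * s) * ζ) s := by
      have h4 : HasDerivAt (fun y : ℂ => ζ * y) ζ s := by
        simpa using (hasDerivAt_id s).const_mul ζ
      exact ((hwr.differentiableAt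
        (isOpen_ball.mem_nhds (STN_rot hζ hs))).hasDerivAt).comp s h4
    have h4 : (fun y => w (ζ * y)) =ᶠ[𝓝 s] fun y => ψ (w y) := by
      filter_upwards [isOpen_ball.mem_nhds hs] with y hy
      exact (hψw y (hrδ hy)).symm
    have h5 := (h2.congr_of_eventuallyEq h4).unique h3
    rw [hψw s (hrδ hs)] at h1
    calc ζ ^ 2 * (deriv w (ζ * s) ^ 2 * Bin D (w (ζ * s)))
        = (deriv w (ζ * s) * ζ) ^ 2 * Bin D (w (ζ * s)) := by ring
      _ = (deriv ψ (w s) * deriv w s) ^ 2 * Bin D (w (ζ * s)) := by rw [h5]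
      _ = deriv w s ^ 2 * (deriv ψ (w s) ^ 2 * Bin D (w (ζ * s))) := by ring
      _ = _ := by rw [h1]
  · intro i
    induction i with
    | zero =>
      intro s hs
      have h1 : ContinuousAt w s :=
        (hwr.differentiableAt (isOpen_ball.mem_nhds hs)).continuousAt
      have h2 : Tendsto (fun q : ℕ × ℂ => w q.2) (UF ×ˢ 𝓝 s) (𝓝 (w s)) :=
        h1.tendsto.comp tendsto_snd
      rw [pow_zero, one_mul]
      refine h2.congr fun q => ?_
      rw [zero_mul, STN_F0 (hgood q.1)]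
    | succ i ih =>
      intro s hs
      have h1 := ih s hs
      have hm : ζ ^ i * s ∈ ball (0 : ℂ) r := STN_rotp hζ i hs
      have h2 : w (ζ ^ i * s) ∈ ball (0 : ℂ) 1 := by
        rw [mem_ball_zero_iff]
        exact hw1' _ hm
      have h3 := STN_ccA isOpen_ball hψl hψd.continuousOn h2
      have h4 := STN_ccD (F := fun m => (D m).F (D m).k)
        (G := fun m y => (D m).F (i * (D m).k) (w y)) h3 h1
      rw [hψw _ (hrδ hm)] at h4
      have h5 : ζ * (ζ ^ i * s) = ζ ^ (i + 1) * s := by ring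
      rw [h5] at h4
      refine h4.congr fun q => ?_
      rw [← STN_Fadd (hgood q.1)]
      congr 1
      ring

theorem STN (hPSI : PSI_stmt) (hINVB : INVB_stmt) (hROT : ROT_stmt) (hINVL : INVL_stmt)
    (hBCV : BCV_stmt) : STN_stmt := by
  intro n C η ζ D c CK hC hS hB hs hL hDis
  obtain ⟨w, r, hr0, hr1, hw, hw', hwc, hwR, hrel, hF⟩ :=
    STN_set hPSI hINVB hROT hC hS hB hs hL hDis
  obtain ⟨W, hW, hWo⟩ := STN_inv hw hw'
  obtain ⟨-, hPc, -⟩ := hBCV n C D hS hL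
  have hζ := hB.zeta.1
  have hζ0 : ζ ≠ 0 := by
    intro h0
    rw [h0, norm_zero] at hζ
    exact zero_ne_one hζ
  have hc0 : 0 < c := (hDis 0).pos
  -- the base point
  set s₀ : ℂ := ((r / 4 : ℝ) : ℂ) with hs₀
  have hs₀n : ‖s₀‖ = r / 4 := by
    rw [hs₀, Complex.norm_real, Real.norm_of_nonneg (by positivity)]
  set V : Set ℂ := ball s₀ (r / 8) with hV
  have hVr : V ⊆ ball 0 r := by
    intro s h
    rw [hV, mem_ball, dist_eq_norm] at h
    rw [mem_ball_zero_iff]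
    have := norm_add_le (s - s₀) s₀
    rw [sub_add_cancel] at this
    linarith
  have hV0 : ∀ s ∈ V, s ≠ 0 := by
    intro s h h0
    rw [hV, mem_ball, dist_eq_norm, h0, zero_sub, norm_neg, hs₀n] at h
    linarith
  have hs₀V : s₀ ∈ V := mem_ball_self (by positivity)
  set U : Set ℂ := w '' V with hUd
  have hU : IsOpen U := hWo V isOpen_ball hVr
  have hx₀U : w s₀ ∈ U := mem_image_of_mem w hs₀V
  obtain ⟨ρ₀, hρ₀, hρU⟩ := Metric.isOpen_iff.1 hU (w s₀) hx₀U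
  set x₀ : ℂ := w s₀ with hx₀
  set ρ : ℝ := ρ₀ / 5 with hρd
  have hρ : 0 < ρ := by positivity
  have h4U : closedBall x₀ (4 * ρ) ⊆ U := by
    refine (closedBall_subset_ball ?_).trans hρU
    rw [hρd]
    linarith
  have h2U : ball x₀ (2 * ρ) ⊆ U :=
    (ball_subset_closedBall.trans (closedBall_subset_closedBall (by linarith))).trans h4U
  have h1U : closedBall x₀ ρ ⊆ ball x₀ (2 * ρ) := closedBall_subset_ball (by linarith)
  refine ⟨x₀, hwR s₀ (hVr hs₀V) (hV0 s₀ hs₀V), ρ, hρ, fun N hN ε hε => ?_⟩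
  -- the inverse rotation
  set ξ : ℂ := (ζ ^ N)⁻¹ with hξd
  have hζN : ζ ^ N ≠ 0 := pow_ne_zero N hζ0
  have hξ : ‖ξ‖ = 1 := by rw [hξd, norm_inv, norm_pow, hζ, one_pow, inv_one]
  have hξ0 : ξ ≠ 0 := inv_ne_zero hζN
  have hξζ : ζ ^ N * ξ = 1 := mul_inv_cancel₀ hζN
  have hWU : ∀ x ∈ U, W x ∈ V ∧ w (W x) = x ∧ HasDerivAt W (deriv w (W x))⁻¹ x := by
    rintro _ ⟨s, hs, rfl⟩
    obtain ⟨h1, h2⟩ := hW s (hVr hs)
    rw [h1]
    exact ⟨hs, rfl, h2⟩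
  have hwd : ∀ s ∈ ball (0 : ℂ) r, HasDerivAt w (deriv w s) s := fun s hs =>
    (hw.differentiableAt (isOpen_ball.mem_nhds hs)).hasDerivAt
  have hwne : ∀ s ∈ ball (0 : ℂ) r, deriv w s ≠ 0 := by
    intro s hs h
    have := (STN_dne hw' hs).1
    rw [h, norm_zero] at this
    linarith
  have hLd : ∀ θ : ℂ, ‖θ‖ = 1 → ∀ x ∈ U, HasDerivAt (fun x => w (θ * W x))
      (deriv w (θ * W x) * (θ * (deriv w (W x))⁻¹)) x := by
    intro θ hθ x hx
    obtain ⟨h1, -, h3⟩ := hWU x hx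
    exact (hwd _ (STN_rot hθ (hVr h1))).comp x (h3.const_mul θ)
  set J : ℂ → ℂ := fun x => w (ξ * W x) with hJd
  have hJ : ∀ x ∈ U, HasDerivAt J (deriv w (ξ * W x) * (ξ * (deriv w (W x))⁻¹)) x :=
    hLd ξ hξ
  have hM : ∀ i : ℕ, ∀ x ∈ U, Tendsto (fun q : ℕ × ℂ => (D q.1).F (i * (D q.1).k) (J q.2))
      (UF ×ˢ 𝓝 x) (𝓝 (w (ζ ^ i * (ξ * W x)))) := by
    intro i x hx
    obtain ⟨h1, -, h3⟩ := hWU x hx
    have h4 : Tendsto (fun q : ℕ × ℂ => ξ * W q.2) (UF ×ˢ 𝓝 x) (𝓝 (ξ * W x)) :=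
      ((h3.continuousAt.tendsto.const_mul ξ)).comp tendsto_snd
    exact STN_ccD (F := fun m y => (D m).F (i * (D m).k) (w y)) (G := fun _ y => ξ * W y)
      (hF i (ξ * W x) (STN_rot hξ (hVr h1))) h4
  have hNl : ∀ x ∈ U, w (ζ ^ N * (ξ * W x)) = x := by
    intro x hx
    rw [← mul_assoc, hξζ, one_mul]
    exact (hWU x hx).2.1
  have hG : ∀ ε' > (0 : ℝ), ∀ᶠ m in UF, ∀ x ∈ closedBall x₀ (4 * ρ),
      ‖(D m).F (N * (D m).k) (J x) - x‖ < ε' := by
    intro ε' hε'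
    refine STN_ccC (P := fun m x => ‖(D m).F (N * (D m).k) (J x) - x‖ < ε')
      (isCompact_closedBall _ _) fun x hx => ?_
    have h1 : Tendsto (fun q : ℕ × ℂ => (D q.1).F (N * (D q.1).k) (J q.2) - q.2)
        (UF ×ˢ 𝓝 x) (𝓝 (w (ζ ^ N * (ξ * W x)) - x)) :=
      (hM N x (h4U hx)).sub tendsto_snd
    rw [hNl x (h4U hx), sub_self] at h1
    have h2 := Metric.tendsto_nhds.1 h1 ε' hε'
    filter_upwards [h2] with q hq
    rwa [dist_zero_right] at hq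
  have hex : ∀ᶠ m in UF, ∃ Ψt : ℂ → ℂ, DifferentiableOn ℂ Ψt (ball x₀ (2 * ρ)) ∧
      ∀ x ∈ ball x₀ (2 * ρ), Ψt x ∈ closedBall x₀ (4 * ρ) ∧
        (D m).F (N * (D m).k) (J (Ψt x)) = x := by
    filter_upwards [hG (ρ / 2) (by positivity)] with m hm
    have hA : DifferentiableOn ℂ (fun x => (D m).F (N * (D m).k) (J x)) (ball x₀ (2 * (2 * ρ))) := by
      intro x hx
      have hxU : x ∈ U := h4U (by
        have h5 : x ∈ closedBall x₀ (2 * (2 * ρ)) := ball_subset_closedBall hx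
        rwa [show 2 * (2 * ρ) = 4 * ρ by ring] at h5)
      exact (((STN_Fd (D m) (N * (D m).k)) (J x)).comp x
        (hJ x hxU).differentiableAt).differentiableWithinAt
    have hA2 : ∀ y ∈ ball x₀ (2 * (2 * ρ)),
        ‖(fun x => (D m).F (N * (D m).k) (J x)) y - y‖ ≤ ρ / 2 := by
      intro x hx
      refine (hm x ?_).le
      have h5 : x ∈ closedBall x₀ (2 * (2 * ρ)) := ball_subset_closedBall hx
      rwa [show 2 * (2 * ρ) = 4 * ρ by ring] at h5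
    obtain ⟨Ψt, h1, h2⟩ := hINVL (fun x => (D m).F (N * (D m).k) (J x)) x₀ (2 * ρ) (ρ / 2)
      (by positivity) (by positivity) (by linarith) hA hA2
    refine ⟨Ψt, h1, fun x hx => ?_⟩
    obtain ⟨h3, h4, -⟩ := h2 x hx
    refine ⟨?_, h4⟩
    rw [mem_ball] at h3
    rw [mem_closedBall]
    linarith
  obtain ⟨Ψt, hΨt⟩ := hex.choice
  have hΨc : ∀ x ∈ ball x₀ (2 * ρ),
      Tendsto (fun q : ℕ × ℂ => Ψt q.1 q.2) (UF ×ˢ 𝓝 x) (𝓝 x) := by
    intro x hx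
    rw [Metric.tendsto_nhds]
    intro ε' hε'
    have h1 := (hΨt.and (hG (ε' / 2) (half_pos hε'))).prod_inl (𝓝 x)
    have h2 : ∀ᶠ y in 𝓝 x, y ∈ ball x₀ (2 * ρ) ∧ dist y x < ε' / 2 :=
      (show ∀ᶠ y in 𝓝 x, y ∈ ball x₀ (2 * ρ) from isOpen_ball.mem_nhds hx).and
        (show ∀ᶠ y in 𝓝 x, dist y x < ε' / 2 from Metric.ball_mem_nhds x (half_pos hε'))
    filter_upwards [h1, h2.prod_inr UF] with q hq1 hq2
    obtain ⟨⟨-, h3⟩, h4⟩ := hq1
    obtain ⟨h5, h6⟩ := h3 q.2 hq2.1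
    have h7 := h4 (Ψt q.1 q.2) h5
    rw [h6, norm_sub_rev, ← dist_eq_norm] at h7
    calc dist (Ψt q.1 q.2) x ≤ dist (Ψt q.1 q.2) q.2 + dist q.2 x := dist_triangle _ _ _
      _ < ε' := by linarith [hq2.2]
  set Ψ : ℕ → ℂ → ℂ := fun m x => J (Ψt m x) with hΨ
  have hΨJ : ∀ x ∈ ball x₀ (2 * ρ),
      Tendsto (fun q : ℕ × ℂ => Ψ q.1 q.2) (UF ×ˢ 𝓝 x) (𝓝 (J x)) := by
    intro x hx
    exact (hJ x (h2U hx)).continuousAt.tendsto.comp (hΨc x hx)
  have hΨd : ∀ᶠ m in UF, DifferentiableOn ℂ (Ψ m) (ball x₀ (2 * ρ)) := by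
    filter_upwards [hΨt] with m hm x hx
    have h1 : DifferentiableAt ℂ J (Ψt m x) := (hJ _ (h4U (hm.2 x hx).1)).differentiableAt
    exact h1.comp_differentiableWithinAt x (hm.1 x hx)
  have hJD : DifferentiableOn ℂ J (ball x₀ (2 * ρ)) := fun x hx =>
    (hJ x (h2U hx)).differentiableAt.differentiableWithinAt
  have hΨ' : ∀ x ∈ ball x₀ (2 * ρ),
      Tendsto (fun q : ℕ × ℂ => deriv (Ψ q.1) q.2) (UF ×ˢ 𝓝 x) (𝓝 (deriv J x)) := by
    intro x hx
    exact STN_ccA (F := fun m => deriv (Ψ m)) isOpen_ball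
      ((STN_ccB isOpen_ball hJD.continuousOn hΨJ).deriv hΨd isOpen_ball)
      (hJD.deriv isOpen_ball).continuousOn hx
  have hBin : ∀ x ∈ Reg D,
      Tendsto (fun q : ℕ × ℂ => (D q.1).B q.2) (UF ×ˢ 𝓝 x) (𝓝 (Bin D x)) := by
    intro x hx
    refine STN_ccA (F := fun m => (D m).B) hPc.isOpen_compl ?_ hL.diff.continuousOn hx.1
    rw [tendstoLocallyUniformlyOn_iff_forall_isCompact hPc.isOpen_compl]
    exact fun K hK hKc => hL.conv K hKc hK
  have hK : ∀ i : ℕ, ∀ x ∈ ball x₀ (2 * ρ),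
      Tendsto (fun q : ℕ × ℂ => (D q.1).F (i * (D q.1).k) (Ψ q.1 q.2)) (UF ×ˢ 𝓝 x)
        (𝓝 (w (ζ ^ i * (ξ * W x)))) := by
    intro i x hx
    exact STN_ccD (F := fun m y => (D m).F (i * (D m).k) (J y)) (G := Ψt)
      (hM i x (h2U hx)) (hΨc x hx)
  -- the displacement of `J`
  have hJx : ∀ x ∈ U, ‖J x - x‖ ≤ 2 * ‖ζ ^ N - 1‖ := by
    intro x hx
    obtain ⟨h1, h2, -⟩ := hWU x hx
    have h3 := STN_low hw hw' (STN_rot hξ (hVr h1)) (hVr h1)
    rw [h2] at h3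
    have h4 : ‖J x - x‖ ≤ 11 / 10 * ‖ξ * W x - W x‖ := by
      have := norm_add_le ((J x - x) - (ξ * W x - W x)) (ξ * W x - W x)
      rw [sub_add_cancel] at this
      have h5 : ‖(J x - x) - (ξ * W x - W x)‖ ≤ 1 / 10 * ‖ξ * W x - W x‖ := h3
      linarith
    have h5 : ‖ξ * W x - W x‖ ≤ ‖ζ ^ N - 1‖ := by
      have e1 : ξ * W x - W x = ξ * (1 - ζ ^ N) * W x := by
        linear_combination (W x) * hξζ
      rw [e1, norm_mul, norm_mul, hξ, one_mul, norm_sub_rev]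
      have h6 : ‖W x‖ ≤ 1 := by
        have := hVr h1
        rw [mem_ball_zero_iff] at this
        linarith
      exact mul_le_of_le_one_right (norm_nonneg _) h6
    have := norm_nonneg (ζ ^ N - 1)
    linarith
  -- the relation for `B`
  have hlim : ∀ x ∈ U, deriv J x ^ 2 * Bin D (J x) / Bin D x = 1 := by
    intro x hx
    obtain ⟨h1, h2, -⟩ := hWU x hx
    have hσ : ξ * W x ∈ ball (0 : ℂ) r := STN_rot hξ (hVr h1)
    have hσ0 : ξ * W x ≠ 0 := mul_ne_zero hξ0 (hV0 _ h1)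
    have h3 := STN_rel hζ hrel N (ξ * W x) hσ hσ0
    rw [← mul_assoc (ζ ^ N), hξζ, one_mul, h2] at h3
    rw [(hJ x hx).deriv]
    have hb : Bin D x ≠ 0 := by
      have := (hwR (W x) (hVr h1) (hV0 _ h1)).2
      rwa [h2] at this
    have hd : deriv w (W x) ≠ 0 := hwne _ (hVr h1)
    rw [div_eq_one_iff_eq hb]
    calc (deriv w (ξ * W x) * (ξ * (deriv w (W x))⁻¹)) ^ 2 * Bin D (J x)
        = ξ ^ 2 * ((deriv w (W x))⁻¹) ^ 2 * (deriv w (ξ * W x) ^ 2 * Bin D (w (ξ * W x))) := by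
          simp only [hJd]
          ring
      _ = ξ ^ 2 * ((deriv w (W x))⁻¹) ^ 2 *
            ((ζ ^ N) ^ 2 * (deriv w (W x) ^ 2 * Bin D x)) := by rw [h3]
      _ = (ζ ^ N * ξ) ^ 2 * ((deriv w (W x))⁻¹ * deriv w (W x)) ^ 2 * Bin D x := by ring
      _ = Bin D x := by
          rw [hξζ, inv_mul_cancel₀ hd]
          ring
  have E1 : ∀ᶠ m in UF, ∀ x ∈ closedBall x₀ ρ, ‖Ψ m x - J x‖ < ε := by
    refine STN_ccC (P := fun m x => ‖Ψ m x - J x‖ < ε) (isCompact_closedBall _ _) fun x hx => ?_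
    have h1 : Tendsto (fun q : ℕ × ℂ => Ψ q.1 q.2 - J q.2) (UF ×ˢ 𝓝 x) (𝓝 (J x - J x)) :=
      (hΨJ x (h1U hx)).sub ((hJ x (h2U (h1U hx))).continuousAt.tendsto.comp tendsto_snd)
    rw [sub_self] at h1
    have h2 := Metric.tendsto_nhds.1 h1 ε hε
    filter_upwards [h2] with q hq
    rwa [dist_zero_right] at hq
  have E2 : ∀ᶠ m in UF, ∀ i ∈ Finset.range (N + 1), ∀ x ∈ closedBall x₀ ρ,
      (D m).F (i * (D m).k) (Ψ m x) ∈ ball (0 : ℂ) c := by
    rw [Filter.eventually_all_finset]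
    intro i _
    refine STN_ccC (P := fun m x => (D m).F (i * (D m).k) (Ψ m x) ∈ ball (0 : ℂ) c)
      (isCompact_closedBall _ _) fun x hx => ?_
    refine (hK i x (h1U hx)).eventually (isOpen_ball.mem_nhds ?_)
    rw [mem_ball_zero_iff]
    have h1 := hwc _ (STN_rotp hζ i (STN_rot hξ (hVr (hWU x (h2U (h1U hx))).1)))
    linarith
  have E3 : ∀ᶠ m in UF, ∀ x ∈ closedBall x₀ ρ,
      ‖deriv (Ψ m) x ^ 2 * (D m).B (Ψ m x) / (D m).B x - 1‖ < ε := by
    refine STN_ccC (P := fun m x => ‖deriv (Ψ m) x ^ 2 * (D m).B (Ψ m x) / (D m).B x - 1‖ < ε)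
      (isCompact_closedBall _ _) fun x hx => ?_
    have hxU := h2U (h1U hx)
    obtain ⟨g1, g2, -⟩ := hWU x hxU
    have hxR : x ∈ Reg D := by
      have := hwR (W x) (hVr g1) (hV0 _ g1)
      rwa [g2] at this
    have hJR : J x ∈ Reg D :=
      hwR _ (STN_rot hξ (hVr g1)) (mul_ne_zero hξ0 (hV0 _ g1))
    have h1 := ((((hΨ' x (h1U hx)).pow 2).mul
      (STN_ccD (F := fun m => (D m).B) (G := Ψ) (hBin _ hJR) (hΨJ x (h1U hx)))).div
      (hBin x hxR) hxR.2).sub_const 1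
    rw [hlim x hxU, sub_self] at h1
    have h2 := Metric.tendsto_nhds.1 h1 ε hε
    filter_upwards [h2] with q hq
    rwa [dist_zero_right] at hq
  have E4 : ∀ᶠ m in UF, ∀ i ∈ Finset.range (N + 1),
      1 / 2 ≤ ‖deriv (fun x => (D m).F (i * (D m).k) (Ψ m x)) x₀‖ := by
    rw [Filter.eventually_all_finset]
    intro i _
    have hθ : ‖ζ ^ i * ξ‖ = 1 := by rw [norm_mul, norm_pow, hζ, one_pow, hξ, one_mul]
    have hfe : (fun x => w (ζ ^ i * (ξ * W x))) = fun x => w (ζ ^ i * ξ * W x) := by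
      funext x
      rw [mul_assoc]
    have hc1 : ContinuousOn (fun x => w (ζ ^ i * (ξ * W x))) (ball x₀ (2 * ρ)) := by
      rw [hfe]
      intro x hx
      exact (hLd _ hθ x (h2U hx)).continuousAt.continuousWithinAt
    have hx₀b : x₀ ∈ ball x₀ (2 * ρ) := mem_ball_self (by positivity)
    have hd1 : ∀ᶠ m in UF, DifferentiableOn ℂ
        (fun x => (D m).F (i * (D m).k) (Ψ m x)) (ball x₀ (2 * ρ)) := by
      filter_upwards [hΨd] with m hm x hx
      exact ((STN_Fd (D m) (i * (D m).k)) (Ψ m x)).comp_differentiableWithinAt x (hm x hx)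
    have h1 := ((STN_ccB (F := fun m x => (D m).F (i * (D m).k) (Ψ m x)) isOpen_ball hc1
      (hK i)).deriv hd1 isOpen_ball).tendsto_at hx₀b
    have h2 : 1 / 2 < ‖deriv (fun x => w (ζ ^ i * (ξ * W x))) x₀‖ := by
      rw [hfe, (hLd _ hθ x₀ hx₀U).deriv, norm_mul, norm_mul, hθ, one_mul, norm_inv]
      obtain ⟨g1, -, -⟩ := hWU x₀ hx₀U
      have h3 := (STN_dne hw' (STN_rot hθ (hVr g1))).1
      have h4 := (STN_dne hw' (hVr g1)).2
      have h5 := (STN_dne hw' (hVr g1)).1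
      have h6 : 10 / 11 ≤ ‖deriv w (W x₀)‖⁻¹ := by
        rw [le_inv_comm₀ (by norm_num) (by linarith)]
        norm_num
        linarith
      nlinarith
    filter_upwards [h1.norm.eventually (lt_mem_nhds h2)] with m hm
    exact le_of_lt hm
  filter_upwards [hΨt, hΨd, E1, E2, E3, E4] with m g1 g2 g3 g4 g5 g6
  refine ⟨Ψ m, g2.mono (ball_subset_ball (by linarith)), fun x hx => ?_, fun i hi =>
    g6 i (Finset.mem_range.2 (by omega))⟩
  have hx1 : x ∈ closedBall x₀ ρ := ball_subset_closedBall hx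
  have hx2 : x ∈ ball x₀ (2 * ρ) := h1U hx1
  refine ⟨(g1.2 x hx2).2, ?_, fun i hi => g4 i (Finset.mem_range.2 (by omega)) x hx1,
    (g5 x hx1).le⟩
  calc ‖Ψ m x - x‖ = ‖(Ψ m x - J x) + (J x - x)‖ := by rw [sub_add_sub_cancel]
    _ ≤ ‖Ψ m x - J x‖ + ‖J x - x‖ := norm_add_le _ _
    _ ≤ ε + 2 * ‖ζ ^ N - 1‖ := add_le_add (g3 x hx1).le (hJx x (h2U hx2))
    _ = 2 * ‖ζ ^ N - 1‖ + ε := add_comm _ _

end YXPT
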