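import Pool.Agent.helper61.CSW.Base
import Pool.Agent.helper61.CSW.XP.SpecX
import Pool.Agent.helper61.CSW.Exports

/-!
# Project xp: XMM, the abstract main theorem
-/

set_option autoImplicit false

open Complex Metric Set Filter Topology MeasureTheory
open V3S (UF)
open YXP

noncomputable section

open CSS (SE)

namespace YXPX

/-- a counterexample to `XM_stmt` for `n, C, ε`. -/
structure XMM_CE (n : ℕ) (C ε : ℝ) where
  k : ℕ
  nz : NeZero k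
  f : SE
  b : ZMod k → ℂ
  g : ZMod k → ℂ
  r : ℂ → ℂ
  P : Set ℂ
  rad : ℝ
  hk : 2 ≤ k
  hdeg : f.natDegree = n
  cyc : YPPS.IsCyc f b
  ex : YPPS.Exact f b g
  rho1 : 1 < ‖YPPS.rho f b‖
  rho2 : Real.log ‖YPPS.rho f b‖ ≤ ε
  bP : ∀ i, b i ∉ P
  pf : ∀ p ∈ P, f.eval p = p
  rf : ∃ (Q : Finset ℂ) (c : ℂ → ℂ), P = (↑Q : Set ℂ) ∧ ∀ z, r z = ∑ p ∈ Q, c p / (z - p)
  eng : Eng n f (Set.range b ∪ P) (fun z => MPS.BB b g z + r z) rad (C * Real.log ‖YPPS.rho f b‖)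
  inv : ∀ (i : ZMod k) (R : ℝ), 0 < R →
    (∀ j ≤ k, ε ≤ ‖deriv ((fun z => f.eval z)^[j]) (b i)‖) →
    (∀ x ∈ ball (0 : ℂ) R, ‖(fun z => f.eval z)^[k] (b i + x) - b i - x‖ ≤ 3 * ‖x‖) →
    ∀ z ∈ ball (b i) (R / ε), z ∉ P ∧ R ^ 2 * ‖r z‖ ≤ ε ∧ True

/-- the multiplier of a counterexample. -/
def XMM_CE.rho {n : ℕ} {C ε : ℝ} (X : XMM_CE n C ε) : ℂ :=
  haveI := X.nz
  YPPS.rho X.f X.b

theorem XMM_ex (n : ℕ) (C : ℝ) (h : ¬ ∃ ε > (0 : ℝ),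
  ∀ (k : ℕ) [NeZero k] (f : SE) (b g : ZMod k → ℂ) (r : ℂ → ℂ) (P : Set ℂ) (rad : ℝ),
  2 ≤ k → f.natDegree = n → YPPS.IsCyc f b → YPPS.Exact f b g → 1 < ‖YPPS.rho f b‖ →
  Real.log ‖YPPS.rho f b‖ ≤ ε → (∀ i, b i ∉ P) → (∀ p ∈ P, f.eval p = p) →
  (∃ (Q : Finset ℂ) (c : ℂ → ℂ), P = (↑Q : Set ℂ) ∧ ∀ z, r z = ∑ p ∈ Q, c p / (z - p)) →
  Eng n f (Set.range b ∪ P) (fun z => MPS.BB b g z + r z) rad (C * Real.log ‖YPPS.rho f b‖) →
  (∀ (i : ZMod k) (R : ℝ), 0 < R →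
    (∀ j ≤ k, ε ≤ ‖deriv ((fun z => f.eval z)^[j]) (b i)‖) →
    (∀ x ∈ ball (0 : ℂ) R, ‖(fun z => f.eval z)^[k] (b i + x) - b i - x‖ ≤ 3 * ‖x‖) →
    ∀ z ∈ ball (b i) (R / ε), z ∉ P ∧ R ^ 2 * ‖r z‖ ≤ ε ∧ True) → False) (ε : ℝ) (hε : 0 < ε) :
    Nonempty (XMM_CE n C ε) := by
  by_contra hne
  apply h
  refine ⟨ε, hε, ?_⟩
  intro k _ f b g r P rad h1 h2 h3 h4 h5 h6 h7 h8 h9 h10 h11
  exact hne ⟨⟨k, inferInstance, f, b, g, r, P, rad, h1, h2, h3, h4, h5, h6, h7, h8, h9, h10, h11⟩⟩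

theorem XMM_A (hDCA : YXPD.DCA_stmt) (hXCA : XCA_stmt) (n : ℕ) (C : ℝ) (hn : 2 ≤ n) (hC : 0 < C)
    (ε : ℕ → ℝ) (hε0 : ∀ m, 0 < ε m) (hε1 : ∀ m, ε m ≤ 1) (hε : Tendsto ε atTop (𝓝 0))
    (X : ∀ m, XMM_CE n C (ε m)) (hlim : Tendsto (fun m => (X m).rho) atTop (𝓝 1)) : False := by
  obtain ⟨C₁, hC₁, hD⟩ := hDCA
  have hlog : Tendsto (fun m => Complex.log (X m).rho) atTop (𝓝 0) := by
    have h1 : ContinuousAt Complex.log 1 := continuousAt_clog (by simp)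
    have h2 := h1.tendsto.comp hlim
    rw [Complex.log_one] at h2
    exact h2
  obtain ⟨M, hM⟩ : ∃ M : ℕ, ∀ m ≥ M, ‖Complex.log (X m).rho‖ ≤ 1 / 100 ∧ C₁ * ε m ≤ 1 := by
    have h1 := hlog.norm
    rw [norm_zero] at h1
    have h0 := hε.const_mul C₁
    rw [mul_zero] at h0
    have h2 : ∀ᶠ m in atTop, ‖Complex.log (X m).rho‖ ≤ 1 / 100 ∧ C₁ * ε m ≤ 1 := by
      filter_upwards [h1.eventually (Iio_mem_nhds (show (0 : ℝ) < 1 / 100 by norm_num)),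
        h0.eventually (Iio_mem_nhds (show (0 : ℝ) < 1 by norm_num))] with m hm hm'
      exact ⟨le_of_lt hm, le_of_lt hm'⟩
    exact eventually_atTop.mp h2
  have hex : ∀ m : ℕ, ∃ D : Dat, D.Good n C₁ (1 / ε (m + M)) ∧ D.GA ∧
      D.lam = Complex.log (X (m + M)).rho ∧ D.E ≤ C * ‖Complex.log (X (m + M)).rho‖ := by
    intro m
    have := (X (m + M)).nz
    have hne : (X (m + M)).rho ≠ 0 := by
      intro h0
      have h1 := (X (m + M)).rho1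
      have h2 : YPPS.rho (X (m + M)).f (X (m + M)).b = 0 := h0
      rw [h2, norm_zero] at h1
      linarith
    refine hD n (X (m + M)).k (X (m + M)).f (X (m + M)).b (X (m + M)).g
      (Complex.log (X (m + M)).rho) (ε (m + M)) C (X (m + M)).r (X (m + M)).P (X (m + M)).rad hn
      (X (m + M)).hk (X (m + M)).hdeg (X (m + M)).cyc (X (m + M)).ex ?_ ?_ (hM _ (by omega)).1
      (hε0 _) (hM _ (by omega)).2 hC (X (m + M)).bP (X (m + M)).pf (X (m + M)).rf (X (m + M)).eng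
      (X (m + M)).inv
    · rw [Complex.exp_log hne]
      rfl
    · rw [Complex.log_re]
      exact Real.log_pos (X (m + M)).rho1
  choose D hgood hga hlam hE using hex
  have hloga : Tendsto (fun m => Complex.log (X (m + M)).rho) atTop (𝓝 0) :=
    hlog.comp (tendsto_add_atTop_nat M)
  have hlogn : Tendsto (fun m => C * ‖Complex.log (X (m + M)).rho‖) atTop (𝓝 0) := by
    have h1 := hloga.norm.const_mul C
    rw [norm_zero, mul_zero] at h1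
    exact h1
  have hSeq : Seq n C₁ D := by
    refine ⟨⟨fun m => 1 / ε (m + M), ?_, hgood⟩, ?_⟩
    · have h1 : Tendsto (fun m => ε (m + M)) atTop (𝓝[>] 0) := by
        rw [tendsto_nhdsWithin_iff]
        exact ⟨hε.comp (tendsto_add_atTop_nat M), Eventually.of_forall (fun m => hε0 _)⟩
      have h2 := tendsto_inv_nhdsGT_zero.comp h1
      refine h2.congr (fun m => ?_)
      simp [one_div]
    · exact squeeze_zero (fun m => (hgood m).eng.E0) hE hlogn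
  have hSA : SeqA (max C 1) D := by
    refine ⟨hga, ?_, le_max_right _ _, ?_⟩
    · refine hloga.congr (fun m => (hlam m).symm)
    · intro m
      rw [hlam m]
      refine le_trans (hE m) ?_
      exact mul_le_mul_of_nonneg_right (le_max_left _ _) (norm_nonneg _)
  exact hXCA n C₁ (max C 1) D hC₁ hSeq hSA

theorem XMM_B (hDCB : YXPD.DCB_stmt) (hXCB : XCB_stmt) (n : ℕ) (C : ℝ) (hn : 2 ≤ n) (hC : 0 < C)
    (ε : ℕ → ℝ) (hε0 : ∀ m, 0 < ε m) (hε1 : ∀ m, ε m ≤ 1) (hε : Tendsto ε atTop (𝓝 0))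
    (X : ∀ m, XMM_CE n C (ε m)) (ζ : ℂ) (hζ : ‖ζ‖ = 1) (hζ1 : ζ ≠ 1)
    (hlim : Tendsto (fun m => (X m).rho) atTop (𝓝 ζ)) : False := by
  have hd : 0 < ‖ζ - 1‖ / 2 := by
    have h1 : 0 < ‖ζ - 1‖ := norm_pos_iff.mpr (sub_ne_zero.mpr hζ1)
    linarith
  obtain ⟨η, hη, hη1, C₁, hC₁, hD⟩ := hDCB (‖ζ - 1‖ / 2) hd
  obtain ⟨M, hM⟩ : ∃ M : ℕ, ∀ m ≥ M, (‖(X m).rho‖ ≤ 3 / 2 ∧ ‖ζ - 1‖ / 2 ≤ ‖(X m).rho - 1‖) ∧
      C₁ * ε m ≤ 1 := by
    have h0 := hε.const_mul C₁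
    rw [mul_zero] at h0
    have h1 := hlim.norm
    rw [hζ] at h1
    have h2 := (hlim.sub_const 1).norm
    have h3 : ‖ζ - 1‖ / 2 < ‖ζ - 1‖ := by linarith
    have h4 : ∀ᶠ m in atTop, (‖(X m).rho‖ ≤ 3 / 2 ∧ ‖ζ - 1‖ / 2 ≤ ‖(X m).rho - 1‖) ∧
        C₁ * ε m ≤ 1 := by
      filter_upwards [h1.eventually (Iio_mem_nhds (show (1 : ℝ) < 3 / 2 by norm_num)),
        h2.eventually (Ioi_mem_nhds h3),
        h0.eventually (Iio_mem_nhds (show (0 : ℝ) < 1 by norm_num))] with m hm hm' hm''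
      exact ⟨⟨le_of_lt hm, le_of_lt hm'⟩, le_of_lt hm''⟩
    exact eventually_atTop.mp h4
  have hex : ∀ m : ℕ, ∃ D : Dat, D.Good n C₁ (1 / ε (m + M)) ∧ D.GB η ∧
      YPPS.rho D.f D.b = (X (m + M)).rho ∧ D.E = C * Real.log ‖(X (m + M)).rho‖ := by
    intro m
    have := (X (m + M)).nz
    obtain ⟨⟨h1, h2⟩, h3⟩ := hM (m + M) (by omega)
    exact hD n (X (m + M)).k (X (m + M)).f (X (m + M)).b (X (m + M)).g
      (ε (m + M)) C (X (m + M)).r (X (m + M)).P (X (m + M)).rad hn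
      (X (m + M)).hk (X (m + M)).hdeg (X (m + M)).cyc (X (m + M)).ex (X (m + M)).rho1 h1 h2
      (hε0 _) h3 hC (X (m + M)).bP (X (m + M)).pf (X (m + M)).rf (X (m + M)).eng (X (m + M)).inv
  choose D hgood hgb hrho hE using hex
  have hlima : Tendsto (fun m => (X (m + M)).rho) atTop (𝓝 ζ) :=
    hlim.comp (tendsto_add_atTop_nat M)
  have hSeq : Seq n C₁ D := by
    refine ⟨⟨fun m => 1 / ε (m + M), ?_, hgood⟩, ?_⟩
    · have h1 : Tendsto (fun m => ε (m + M)) atTop (𝓝[>] 0) := by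
        rw [tendsto_nhdsWithin_iff]
        exact ⟨hε.comp (tendsto_add_atTop_nat M), Eventually.of_forall (fun m => hε0 _)⟩
      have h2 := tendsto_inv_nhdsGT_zero.comp h1
      refine h2.congr (fun m => ?_)
      simp [one_div]
    · have h1 : Tendsto (fun m => ‖(X (m + M)).rho‖) atTop (𝓝 1) := by
        have h2 := hlima.norm
        rw [hζ] at h2
        exact h2
      have h3 : Tendsto (fun m => C * Real.log ‖(X (m + M)).rho‖) atTop (𝓝 0) := by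
        have h4 := (h1.log (one_ne_zero)).const_mul C
        rw [Real.log_one, mul_zero] at h4
        exact h4
      refine h3.congr (fun m => (hE m).symm)
  have hSB : SeqB η ζ D := by
    refine ⟨hgb, ⟨hη, hη1⟩, ⟨hζ, hζ1⟩, ?_⟩
    exact hlima.congr (fun m => (hrho m).symm)
  exact hXCB n C₁ η ζ D hC₁ hSeq hSB

theorem XMM (hDCA : YXPD.DCA_stmt) (hDCB : YXPD.DCB_stmt) (hXCA : XCA_stmt) (hXCB : XCB_stmt) :
    XMM_stmt := by
  intro n C hn hC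
  by_contra hcon
  have hex := XMM_ex n C hcon
  have hX : ∀ m : ℕ, Nonempty (XMM_CE n C (1 / ((m : ℝ) + 2))) := fun m => hex _ (by positivity)
  let X : ∀ m : ℕ, XMM_CE n C (1 / ((m : ℝ) + 2)) := fun m => (hX m).some
  have hε : Tendsto (fun m : ℕ => 1 / ((m : ℝ) + 2)) atTop (𝓝 0) := by
    have h1 : Tendsto (fun m : ℕ => (m : ℝ) + 2) atTop atTop :=
      tendsto_atTop_add_const_right _ _ tendsto_natCast_atTop_atTop
    exact h1.inv_tendsto_atTop.congr (fun m => by simp [one_div])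
  have hnorm : ∀ m, 1 < ‖(X m).rho‖ ∧ ‖(X m).rho‖ ≤ Real.exp (1 / ((m : ℝ) + 2)) := by
    intro m
    have := (X m).nz
    have h1 : 1 < ‖(X m).rho‖ := (X m).rho1
    have h2 : Real.log ‖(X m).rho‖ ≤ 1 / ((m : ℝ) + 2) := (X m).rho2
    refine ⟨h1, ?_⟩
    rw [← Real.exp_log (show 0 < ‖(X m).rho‖ by linarith)]
    exact Real.exp_le_exp.mpr h2
  have hn1 : Tendsto (fun m => ‖(X m).rho‖) atTop (𝓝 1) := by
    have h1 : Tendsto (fun m : ℕ => Real.exp (1 / ((m : ℝ) + 2))) atTop (𝓝 1) := by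
      have h2 := (Real.continuous_exp.tendsto 0).comp hε
      rw [Real.exp_zero] at h2
      exact h2
    exact tendsto_of_tendsto_of_tendsto_of_le_of_le tendsto_const_nhds h1
      (fun m => (hnorm m).1.le) (fun m => (hnorm m).2)
  have hbdd : ∀ m, (X m).rho ∈ closedBall (0 : ℂ) (Real.exp 1) := by
    intro m
    rw [mem_closedBall_zero_iff]
    refine le_trans (hnorm m).2 (Real.exp_le_exp.mpr ?_)
    have h1 : (0 : ℝ) ≤ (m : ℝ) := Nat.cast_nonneg m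
    rw [div_le_one (by linarith)]
    linarith
  obtain ⟨ζ, -, φ, hφ, hζ⟩ := (isCompact_closedBall (0 : ℂ) (Real.exp 1)).tendsto_subseq hbdd
  have hζn : ‖ζ‖ = 1 := tendsto_nhds_unique hζ.norm (hn1.comp hφ.tendsto_atTop)
  have hε0 : ∀ m : ℕ, 0 < 1 / ((φ m : ℝ) + 2) := fun m => by positivity
  have hε1 : ∀ m : ℕ, 1 / ((φ m : ℝ) + 2) ≤ 1 := by
    intro m
    have h1 : (0 : ℝ) ≤ (φ m : ℝ) := Nat.cast_nonneg _
    rw [div_le_one (by linarith)]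
    linarith
  have hεφ : Tendsto (fun m : ℕ => 1 / ((φ m : ℝ) + 2)) atTop (𝓝 0) := hε.comp hφ.tendsto_atTop
  by_cases h1 : ζ = 1
  · rw [h1] at hζ
    exact XMM_A hDCA hXCA n C hn hC (fun m => 1 / ((φ m : ℝ) + 2)) hε0 hε1 hεφ
      (fun m => X (φ m)) hζ
  · exact XMM_B hDCB hXCB n C hn hC (fun m => 1 / ((φ m : ℝ) + 2)) hε0 hε1 hεφ
      (fun m => X (φ m)) ζ hζn h1 hζ

end YXPX
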