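import Pool.Agent.helper61.CSW.Base
import Pool.Agent.helper61.CSW.XP.AllG
import Pool.Agent.helper61.CSW.XP.DTR
import Pool.Agent.helper61.CSW.XP.NLM
import Pool.Agent.helper61.CSW.XP.SpecT
import Pool.Agent.helper61.CSW.XP.DEX
import Pool.Agent.helper61.CSW.XP.DGO
import Pool.Agent.helper61.CSW.XP.NIA
import Pool.Agent.helper61.CSW.XP.SpecD
import Pool.Agent.helper61.CSW.XP.SpecX
import Pool.Agent.helper61.CSW.XP.DIN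
import Pool.Agent.helper61.CSW.V3.SpecE
import Pool.Agent.helper61.CSW.XP.STS
import Pool.Agent.helper61.CSW.XP.KCB
import Pool.Agent.helper61.CSW.XP.CTS
import Pool.Agent.helper61.CSW.XP.PHC
import Pool.Agent.helper61.CSW.XP.STN
import Pool.Agent.helper61.CSW.XP.XCB
import Pool.Agent.helper61.CSW.XP.ENS
import Pool.Agent.helper61.CSW.XP.NA1
import Pool.Agent.helper61.CSW.XP.NI1
import Pool.Agent.helper61.CSW.XP.DGB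
import Pool.Agent.helper61.CSW.XP.NI2
import Pool.Agent.helper61.CSW.XP.NIB
import Pool.Agent.helper61.CSW.XP.PSI
import Pool.Agent.helper61.CSW.XP.STC
import Pool.Agent.helper61.CSW.XP.NRX
import Pool.Agent.helper61.CSW.XP.XCA
import Pool.Agent.helper61.CSW.XP.XMM
import Pool.Agent.helper61.CSW.XP.N2A
import Pool.Agent.helper61.CSW.XP.STA
import Pool.Agent.helper61.CSW.XP.DCA
import Pool.Agent.helper61.CSW.XP.INVB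
import Pool.Agent.helper61.CSW.XP.BCV
import Pool.Agent.helper61.CSW.XP.SCL
import Pool.Agent.helper61.CSW.XP.NCA
import Pool.Agent.helper61.CSW.XP.DIS
import Pool.Agent.helper61.CSW.XP.STB
import Pool.Agent.helper61.CSW.XP.NPC
import Pool.Agent.helper61.CSW.XP.CHX
import Pool.Agent.helper61.CSW.XP.DIT
import Pool.Agent.helper61.CSW.XP.DSE
import Pool.Agent.helper61.CSW.XP.TAX
import Pool.Agent.helper61.CSW.XP.DCB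
import Pool.Agent.helper61.CSW.XP.DEG
import Pool.Agent.helper61.CSW.XP.SpecN
import Pool.Agent.helper61.CSW.XP.DTL
import Pool.Agent.helper61.CSW.Exports

/-!
# Project xp: parts D, E, T, N, X: assembly of the abstract main theorem
-/

set_option autoImplicit false

open CSS (SE)

namespace YXPA

theorem SCL_d : YXPD.SCL_stmt := YXPD.SCL
theorem DIT_d : YXPD.DIT_stmt := YXPD.DIT YPPS.NIJ_p
theorem DEX_d : YXPD.DEX_stmt := YXPD.DEX YXPA.SCL_d YXPA.DIT_d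
theorem DIN_d : YXPD.DIN_stmt := YXPD.DIN YXPA.DIT_d
theorem DSE_d : YXPD.DSE_stmt := YXPD.DSE YXPA.DIT_d
theorem DTL_d : YXPD.DTL_stmt := YXPD.DTL YXPA.DIN_d YXPA.DIT_d YV3A.KO1_v YV3A.KO3_v
theorem DTR_d : YXPD.DTR_stmt := YXPD.DTR YXPA.DTL_d YXPA.DIT_d YXPA.SWZ_d
theorem DEG_d : YXPD.DEG_stmt := YXPD.DEG YXPA.DIT_d
theorem DGB_d : YXPD.DGB_stmt := YXPD.DGB YXPA.DEG_d YXPA.DIT_d YXPA.SWZ_d
theorem DGO_d : YXPD.DGO_stmt := YXPD.DGO YXPA.DEX_d YXPA.DIN_d YXPA.DSE_d YXPA.DTR_d YXPA.DGB_d YXPA.DIT_d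
theorem DCA_d : YXPD.DCA_stmt := YXPD.DCA YXPA.DGO_d
theorem DCB_d : YXPD.DCB_stmt := YXPD.DCB YXPA.DGO_d
theorem DIS_t : YXPT.DIS_stmt := YXPT.DIS YV3A.KO0_v YV3A.KO3_v
theorem STS_t : YXPT.STS_stmt := YXPT.STS
theorem ENS_t : YXPT.ENS_stmt := YXPT.ENS YXPS.MIX_x
theorem STC_t : YXPT.STC_stmt := YXPT.STC YXPA.STS_t YXPA.ENS_t YXPS.LVG_x YXPS.MAX_x YXPS.LEAX_x YXPS.MIX_x YPPS.SMB_p
theorem TAX_t : YXPT.TAX_stmt := YXPT.TAX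
theorem KCB_t : YXPT.KCB_stmt := YXPT.KCB
theorem PHC_t : YXPT.PHC_stmt := YXPT.PHC
theorem CTS_t : YXPT.CTS_stmt := YXPT.CTS YXPA.STS_t YXPA.STC_t YXPA.KCB_t YXPA.PHC_t YXPA.TAX_t
theorem NPC_t : YXPT.NPC_stmt := YXPT.NPC
theorem CHX_t : YXPT.CHX_stmt := YXPT.CHX YV3A.NCH_v YXPA.NPC_t
theorem BCV_t : YXPT.BCV_stmt := YXPT.BCV YXPA.NPC_t
theorem STA_t : YXPT.STA_stmt := YXPT.STA YXPA.DIS_t YXPA.CTS_t YXPA.CHX_t YXPA.BCV_t YXPA.INVG_t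
theorem PSI_t : YXPT.PSI_stmt := YXPT.PSI YV3A.TMO_v YV3A.TDE_v
theorem INVB_t : YXPT.INVB_stmt := YXPT.INVB YXPA.DIS_t YXPA.STC_t YXPA.TAX_t YXPA.CHX_t YXPA.BCV_t YXPA.INVG_t YXPA.RLT_t
theorem STN_t : YXPT.STN_stmt := YXPT.STN YXPA.PSI_t YXPA.INVB_t YXPA.ROT_t YXPA.INVL_t YXPA.BCV_t
theorem STB_t : YXPT.STB_stmt := YXPT.STB YXPA.DIS_t YXPA.STN_t YXPA.CHX_t YXPA.CTS_t YXPA.DIA_t YXPA.DIR_t
theorem NA1_n : YXPN.NA1_stmt := YXPN.NA1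
theorem NCA_n : YXPN.NCA_stmt := YXPN.NCA YXPA.NA1_n
theorem NLM_n : YXPN.NLM_stmt := YXPN.NLM YXPA.NA1_n YXPL.LPI_l
theorem NIA_n : YXPN.NIA_stmt := YXPN.NIA YXPL.LPI_l
theorem NIB_n : YXPN.NIB_stmt := YXPN.NIB YXPL.LPI_l
theorem NI1_n : YXPN.NI1_stmt := YXPN.NI1 YXPA.NA1_n YXPA.NCA_n YXPA.NLM_n YXPA.NIA_n YXPL.LPI_l YV3A.NORM_v
theorem N2A_n : YXPN.N2A_stmt := YXPN.N2A YXPA.NA1_n YXPA.NAF_n YV3A.TUL_v YXPL.LPI_l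
theorem NI2_n : YXPN.NI2_stmt := YXPN.NI2 YXPA.N2A_n YXPA.NLM_n YXPA.NIB_n
theorem NRX_n : YXPN.NRX_stmt := YXPN.NRX YXPA.NI1_n YXPA.NI2_n
theorem XCB_x : YXPX.XCB_stmt := YXPX.XCB YXPA.NRX_n YXPA.STB_t YXPL.BEN_l
theorem XCA_x : YXPX.XCA_stmt := YXPX.XCA YXPA.NRX_n YXPA.STA_t (YXPG.GF1_g YXPA.EN1M_x) (YXPG.GF2_g YXPA.EN2M_x)
theorem XMM_x : YXPX.XMM_stmt := YXPX.XMM YXPA.DCA_d YXPA.DCB_d YXPA.XCA_x YXPA.XCB_x

/-- the abstract main theorem. -/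
theorem XM_a : YXP.XM_stmt := XMM_x

end YXPA
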