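import Pool.Agent.helper61.CSW.Base
import Pool.Agent.helper61.CSW.XP.SpecD
import Pool.Agent.helper61.CSW.Exports

/-!
# Project xp:, module DCB: data in the case `ζ ≠ 1`
-/

set_option autoImplicit false

open Complex Metric Set Filter Topology MeasureTheory

noncomputable section

open CSS (SE)

namespace YXPD

theorem DCB (hO : DGO_stmt) : DCB_stmt := by
  intro d hd
  set η : ℝ := min (d / 8) (1 / 100) with hη
  have hη0 : 0 < η := lt_min (by positivity) (by norm_num)
  have hη1 : η ≤ 1 / 100 := min_le_right _ _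
  have hηd : η ≤ d / 8 := min_le_left _ _
  have hL : (1 : ℝ) ≤ 3 / η := by
    rw [le_div_iff₀ hη0]; linarith
  obtain ⟨C, hC1, hC⟩ := hO (3 / η) hL
  refine ⟨η, hη0, hη1, C, hC1, ?_⟩
  intro n k _ f b g ε C₀ r P rad hn hk hdeg hcyc hex hr1 hr2 hrd hε hε1 hC0 hbP hpf hrdiff hEng hinv
  have hA : C ≤ 1 / ε := by
    rw [le_div_iff₀ hε]; linarith
  have hρ1 : ‖YPPS.rho f b - 1‖ ≤ 5 / 2 := by
    calc ‖YPPS.rho f b - 1‖ ≤ ‖YPPS.rho f b‖ + ‖(1 : ℂ)‖ := norm_sub_le _ _
      _ ≤ 3 / 2 + 1 := by rw [norm_one]; linarith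
      _ = 5 / 2 := by norm_num
  have hHD : HD n f b (YPPS.rho f b) η (3 / η) :=
    { hn := hn
      hdeg := hdeg
      hk := hk
      cyc := hcyc
      rho1 := hr1
      rho2 := by linarith
      rm := by rw [sub_self, norm_zero]; positivity
      e0 := hη0
      e1 := by linarith
      m0 := by linarith
      me := by linarith
      L1 := hL
      mL := by
        rw [div_mul_cancel₀ _ hη0.ne']; linarith
      m3 := by linarith }
  obtain ⟨D, hG, -, hE, hrho, hnear, hfar⟩ := hC n k f b g (YPPS.rho f b) 0 η (1 / ε) r P rad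
    (C₀ * Real.log ‖YPPS.rho f b‖) hHD hex hA hbP hpf hrdiff hEng (by
      intro i R hR hlo hx z hz
      have hz' : z ∈ ball (b i) (R / ε) := by
        rw [one_div, inv_mul_eq_div] at hz
        exact hz
      obtain ⟨h1, h2, h3⟩ := hinv i R hR
        (fun j hj => by have h4 := hlo j hj; rwa [one_div_one_div] at h4) (fun x hx' => hx x hx') z hz'
      refine ⟨h1, ?_, h3⟩
      rw [one_div, inv_mul_le_iff₀ hε]
      linarith)
  refine ⟨D, hG, ⟨?_, ?_⟩, hrho, hE⟩
  · intro x hx
    rw [hrho]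
    exact hnear x hx
  · obtain ⟨x, hx1, hx2⟩ := hfar
    refine ⟨x, hx1, ?_⟩
    rw [hrho]
    exact hx2

end YXPD
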