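import Pool.Agent.helper61.CSW.Base
import Pool.Agent.helper61.CSW.XP.SpecD
import Pool.Agent.helper61.CSW.Exports

/-!
Module DIN of project xp: (MP_af9036_an): injectivity of the iterates up to the period at the scale of a point of the
cycle, and the bound of the displacement.
-/

set_option autoImplicit false

open Complex Metric Set Filter Topology MeasureTheory

noncomputable section

open CSS (SE)

namespace YXPD

theorem DIN (hDIT : DIT_stmt) : DIN_stmt := by
  intro n k _ f b μ e L hD i R hS
  obtain ⟨_, _, hdiff, hadd, _⟩ := hDIT k f b hD.cyc
  have hk : InjOn (itf f k) (ball (b i) (R / 2)) := by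
    have h1 : InjOn (fun x => itf f k (b i + x) - b i) (ball 0 (R / 2)) := by
      apply DIN_inj _ μ e R _ hS.pos hD.e0 hD.e1 hD.m0
      · exact hS.near
      · exact ((hdiff k).comp ((differentiable_const _).add differentiable_id)).sub_const _
    intro x hx y hy hxy
    have h2 := @h1 (x - b i) (by simpa [dist_eq_norm] using hx) (y - b i) (by simpa [dist_eq_norm] using hy)
      (by simpa using hxy)
    exact sub_left_injective h2
  refine ⟨?_, ?_⟩
  · intro j hj x hx y hy hxy
    apply hk hx hy
    have h3 : k - j + j = k := Nat.sub_add_cancel hj
    rw [← h3, hadd, hadd, hxy]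
  · intro x hx
    have h4 := hS.near x hx
    have h5 : itf f k (b i + x) - b i - x = (itf f k (b i + x) - b i - μ * x) + (μ - 1) * x := by ring
    rw [h5]
    refine (norm_add_le _ _).trans ?_
    rw [norm_mul]
    have h6 := hD.m3
    have h7 := norm_nonneg x
    nlinarith

end YXPD
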