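import Pool.Agent.helper61.CSW.Base
import Pool.Agent.helper61.CSW.XP.SpecG
import Pool.Agent.helper61.CSW.Exports

set_option autoImplicit false

open Complex Metric Set Filter Topology MeasureTheory YXP
open V3S (UF)

noncomputable section

open CSS (SE)

namespace YXPG

theorem GFK (hB : GBA_stmt) : GFK_stmt := by
  intro n C C' C'' D hS hL ρ hρ
  have hK : IsCompact (closedBall (0 : ℂ) (ρ + 1)) := isCompact_closedBall _ _
  obtain ⟨C₁, hC₁⟩ := hK.exists_bound_of_continuousOn hL.vdiff.continuous.continuousOn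
  have hv := hL.vconv _ hK
  rw [Metric.tendstoUniformlyOn_iff] at hv
  have hv1 := hv 1 one_pos
  have hbd : ∀ᶠ m in UF, ∀ x ∈ closedBall (0 : ℂ) (ρ + 1), ‖(D m).v x‖ ≤ C₁ + 1 := by
    filter_upwards [hv1] with m hm x hx
    have h1 := hm x hx
    rw [dist_eq_norm] at h1
    have h2 := hC₁ x hx
    calc ‖(D m).v x‖ = ‖vin D x - (vin D x - (D m).v x)‖ := by ring_nf
      _ ≤ ‖vin D x‖ + ‖vin D x - (D m).v x‖ := norm_sub_le _ _
      _ ≤ C₁ + 1 := by linarith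
  have hfirst : ∀ᶠ m in UF, ∀ x ∈ ball (0 : ℂ) ρ, ‖(D m).v x‖ ≤ C₁ + 1 ∧
      ‖deriv (D m).v x‖ ≤ C₁ + 1 := by
    filter_upwards [hbd] with m hm x hx
    have hxn : ‖x‖ < ρ := mem_ball_zero_iff.mp hx
    refine ⟨hm x (by rw [mem_closedBall_zero_iff]; linarith), ?_⟩
    obtain ⟨_, _, _, _, _, _, _, _, hd, _⟩ := hB n C (D m) (hS.ok m)
    have h1 := Complex.norm_deriv_le_of_forall_mem_sphere_norm_le (c := x) (R := 1) (C := C₁ + 1)
      (f := (D m).v) one_pos hd.diffContOnCl (fun z hz => hm z (by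
        rw [mem_closedBall_zero_iff]
        have hz1 : ‖z - x‖ = 1 := mem_sphere_iff_norm.mp hz
        calc ‖z‖ = ‖(z - x) + x‖ := by ring_nf
          _ ≤ ‖z - x‖ + ‖x‖ := norm_add_le _ _
          _ ≤ ρ + 1 := by linarith))
    rwa [div_one] at h1
  refine ⟨⟨C₁ + 1, hfirst⟩, ?_⟩
  intro ε hε
  have hlam : Tendsto (fun m => (D m).lam) UF (𝓝 0) := hL.lam
  have hlam2 : Tendsto (fun m => ‖(D m).lam‖ * (|C₁| + 1)) UF (𝓝 0) := by
    have := hlam.norm.mul_const (|C₁| + 1)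
    simpa using this
  have hlam3 : ∀ᶠ m in UF, ‖(D m).lam‖ * (|C₁| + 1) < ε := hlam2.eventually_lt_const hε
  filter_upwards [hfirst, hlam3] with m hm hlm x hx
  obtain ⟨_, _, _, _, _, _, _, _, hd, _, _, _, _, _, _, hFk, _⟩ :=
    hB n C (D m) (hS.ok m)
  obtain ⟨h1, h2⟩ := hm x hx
  have hC : C₁ + 1 ≤ |C₁| + 1 := by linarith [le_abs_self C₁]
  constructor
  · rw [hFk x, add_sub_cancel_left, norm_mul]
    calc ‖(D m).lam‖ * ‖(D m).v x‖ ≤ ‖(D m).lam‖ * (|C₁| + 1) :=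
          mul_le_mul_of_nonneg_left (h1.trans hC) (norm_nonneg _)
      _ ≤ ε := hlm.le
  · have hF : (D m).F (D m).k = fun x => x + (D m).lam * (D m).v x := funext hFk
    have h3 : HasDerivAt (fun x => x + (D m).lam * (D m).v x)
        (1 + (D m).lam * deriv (D m).v x) x :=
      (hasDerivAt_id x).add ((hd x).hasDerivAt.const_mul (D m).lam)
    rw [hF, h3.deriv, add_sub_cancel_left, norm_mul]
    calc ‖(D m).lam‖ * ‖deriv (D m).v x‖ ≤ ‖(D m).lam‖ * (|C₁| + 1) :=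
          mul_le_mul_of_nonneg_left (h2.trans hC) (norm_nonneg _)
      _ ≤ ε := hlm.le

end YXPG
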