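import Pool.Agent.helper61.CSW.Base
import Pool.Agent.helper61.CSW.XP.SpecT
import Pool.Agent.helper61.CSW.Exports

/-! xp:INVB, `ψ^* Bin = Bin`. -/

set_option autoImplicit false

open Complex Metric Set Filter Topology MeasureTheory
open V3S (UF)
open YXP

noncomputable section

open CSS (SE)

namespace YXPT

theorem INVB_sg {n : ℕ} {C A : ℝ} {D : Dat} (h : D.Good n C A) : D.sg ≠ 0 := by
  unfold Dat.sg
  exact_mod_cast (h.Rpos 0).ne'

theorem INVB_F0 {D : Dat} (h : D.sg ≠ 0) (x : ℂ) : D.F 0 x = x := by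
  unfold Dat.F Dat.xx Dat.zz
  simp only [Function.iterate_zero, id_eq, add_sub_cancel_left]
  field_simp

theorem INVB_Fd (D : Dat) (j : ℕ) : Differentiable ℂ (D.F j) := by
  have h1 : Differentiable ℂ (fun z : ℂ => D.f.eval z)^[j] := (D.f.differentiable).iterate j
  have h2 : Differentiable ℂ D.zz := by
    unfold Dat.zz
    fun_prop
  have h3 : Differentiable ℂ D.xx := by
    unfold Dat.xx
    fun_prop
  exact h3.comp (h1.comp h2)

theorem INVB_good {n : ℕ} {C A : ℝ} {D : Dat} (h : D.Good n C A) :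
    (D.par D.s 1 1 1).Good n C A :=
  { hn := h.hn
    hdeg := h.hdeg
    hk := h.hk
    cyc := h.cyc
    ex := h.ex
    rho1 := h.rho1
    rho2 := h.rho2
    C1 := h.C1
    A1 := h.A1
    Rpos := h.Rpos
    mini := h.mini
    inj := h.inj
    sepr := h.sepr
    trans := h.trans
    hg := h.hg
    eng := h.eng
    rdiff := h.rdiff
    bP := h.bP
    invi := h.invi
    pfx := h.pfx
    rfm := h.rfm }

/-- `B` converges jointly at the points off `Pin`. -/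
theorem INVB_B {D : ℕ → Dat} (hLB : LB D) (hP : IsClosed (Pin D)) {x : ℂ} (hx : x ∈ Reg D) :
    Tendsto (fun p : ℕ × ℂ => (D p.1).B p.2) (UF ×ˢ 𝓝 x) (𝓝 (Bin D x)) := by
  have hU : IsOpen (Pin D)ᶜ := hP.isOpen_compl
  have h1 : TendstoLocallyUniformlyOn (fun m => (D m).B) (Bin D) UF (Pin D)ᶜ := by
    rw [tendstoLocallyUniformlyOn_iff_forall_isCompact hU]
    intro K hK1 hK2
    exact hLB.conv K hK2 hK1
  exact INVB_joint hU h1 hx.1 ((hLB.diff x hx.1).differentiableAt (hU.mem_nhds hx.1)).continuousAt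

/-- the main step: one point. -/
theorem INVB_key (hSTC : STC_stmt) (hTAX : TAX_stmt) (hCHX : CHX_stmt) (hINVG : INVG_stmt)
    (n : ℕ) (C η : ℝ) (ζ : ℂ) (D : ℕ → Dat) (ψ : ℂ → ℂ) (c CK : ℝ) (hSeq : Seq n C D)
    (hB : SeqB η ζ D) (hs : ∀ m, 0 < (D m).s ∧ (D m).s ≤ 1) (hLB : LB D) (hP : IsClosed (Pin D))
    (hψd : DifferentiableOn ℂ ψ (ball 0 1))
    (hψ : TendstoLocallyUniformlyOn (fun m => (D m).F (D m).k) ψ UF (ball 0 1))
    (hDis : ∀ m, Dis ((D m).par (D m).s 1 1 1) c CK) (y₀ : ℂ) (hy0 : ‖y₀‖ < c / 8)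
    (hx0 : ‖ψ y₀‖ < c / 4) (hyR : y₀ ∈ Reg D) (hxR : ψ y₀ ∈ Reg D) (hψ' : deriv ψ y₀ ≠ 0) :
    INVB_phi (Bin D y₀ / (deriv ψ y₀ ^ 2 * Bin D (ψ y₀))) = 0 := by
  obtain ⟨A, hA, hG⟩ := hSeq.good
  have hcpos : 0 < c := (hDis 0).pos
  have hc4 : c ≤ 1 / 4 := (hDis 0).le
  set x₀ : ℂ := ψ y₀ with hx₀
  set ts : ℂ := Bin D y₀ / (deriv ψ y₀ ^ 2 * Bin D x₀) with hts
  by_contra hne
  have hpos : 0 < INVB_phi ts := lt_of_le_of_ne (INVB_phi_nonneg ts) (Ne.symm hne)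
  set κ : ℝ := INVB_phi ts / 2 with hκ
  have hκpos : 0 < κ := half_pos hpos
  -- joint limits
  have hy1 : y₀ ∈ ball (0 : ℂ) 1 := by
    rw [mem_ball_zero_iff]
    linarith
  obtain ⟨⟨ε₁, hε₁, hpa⟩, hlimF, hlimB⟩ := INVB_lim (fun m => (D m).B) (fun m => (D m).F (D m).k) ψ
    (Bin D y₀) (Bin D x₀) y₀ (fun m => INVB_Fd (D m) (D m).k) hψd hψ hy1 (INVB_B hLB hP hyR)
    (INVB_B hLB hP hxR) hψ' hxR.2 κ (by linarith)
  set ρ' : ℝ := ε₁ / 8 with hρ'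
  have hρ'pos : 0 < ρ' := by positivity
  -- the chart
  obtain ⟨r, hr, C₂, hC₂, hch⟩ := hCHX n C D hSeq hLB x₀ hxR (c / 4) (by positivity)
  -- lower bound of B at x₀
  set κ₀ : ℝ := ‖Bin D x₀‖ / 2 with hκ₀
  have hκ₀pos : 0 < κ₀ := half_pos (norm_pos_iff.mpr hxR.2)
  have hBx : ∀ᶠ m in UF, κ₀ < ‖(D m).B x₀‖ := by
    have h2 : Tendsto (fun m => ‖(D m).B x₀‖) UF (𝓝 ‖Bin D x₀‖) := hlimB.norm
    exact h2.eventually (lt_mem_nhds (by
      have := norm_pos_iff.mpr hxR.2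
      linarith))
  have hFy : ∀ᶠ m in UF, ‖(D m).F (D m).k y₀ - x₀‖ < ρ' := by
    have h3 := Metric.tendsto_nhds.mp hlimF ρ' hρ'pos
    filter_upwards [h3] with m hm
    rwa [dist_eq_norm] at hm
  -- the radius
  set M : ℝ := 1 / κ₀ + 1 with hM
  have hMpos : 0 < M := by positivity
  have hM2 : 1 ≤ M ^ 2 * κ₀ := by
    have h1 : M * κ₀ = 1 + κ₀ := by
      rw [hM]
      field_simp
    have h2 : M ^ 2 * κ₀ = M * (M * κ₀) := by ring
    rw [h2, h1]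
    have h3 : 1 ≤ M := by
      rw [hM]
      have : 0 < 1 / κ₀ := by positivity
      linarith
    nlinarith
  set r' : ℝ := min (2 * r) (ρ' / (2 * M)) with hr'
  have hr'pos : 0 < r' := lt_min (by positivity) (by positivity)
  have hvol : 0 < ENNReal.ofReal κ * volume (ball (0 : ℂ) r') := by
    apply ENNReal.mul_pos
    · simpa using hκpos
    · exact (measure_ball_pos volume (0 : ℂ) hr'pos).ne'
  have hEn : ∀ᶠ m in UF, ENNReal.ofReal ((D m).E) < ENNReal.ofReal κ * volume (ball (0 : ℂ) r') := by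
    have h1 : Tendsto (fun m => ENNReal.ofReal ((D m).E)) UF (𝓝 (ENNReal.ofReal 0)) :=
      ENNReal.tendsto_ofReal (hSeq.E0.mono_left YV3S.UF_le)
    rw [ENNReal.ofReal_zero] at h1
    exact h1.eventually (gt_mem_nhds hvol)
  obtain ⟨m, hm1, hm2, hm3, ⟨χ, hm4, hm5, hm6, hm7, hm8⟩, hm9⟩ :=
    (hpa.and (hBx.and (hFy.and (hch.and hEn)))).exists
  -- one datum
  have hGm := hG m
  have hsg : (D m).sg ≠ 0 := INVB_sg hGm
  have hGm1 : ((D m).par (D m).s 1 1 1).Good n C (A m) := INVB_good hGm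
  have hrho1 : 1 ≤ ‖YPPS.rho (D m).f (D m).b‖ := hGm.rho1.le
  have hFd : Differentiable ℂ ((D m).F (D m).k) := INVB_Fd (D m) (D m).k
  obtain ⟨hlip, hder⟩ := INVB_lip ((D m).F (D m).k) (YPPS.rho (D m).f (D m).b) η hFd.differentiableOn
    hrho1 hB.eta.1 hB.eta.2 (hB.gb m).near
  obtain ⟨Ψ, hΨd, hΨ⟩ := INVB_inv hINVG ((D m).F (D m).k) (YPPS.rho (D m).f (D m).b) η
    hFd.differentiableOn hrho1 hB.eta.2 (hB.gb m).near
  have hsub : ∀ x ∈ ball x₀ (c / 4), ‖x‖ < c / 2 := by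
    intro x hx
    rw [mem_ball, dist_eq_norm] at hx
    calc ‖x‖ = ‖(x - x₀) + x₀‖ := by ring_nf
      _ ≤ ‖x - x₀‖ + ‖x₀‖ := norm_add_le _ _
      _ < c / 2 := by linarith
  have hsub2 : ball x₀ (c / 4) ⊆ ball (0 : ℂ) (1 / 2) := by
    intro x hx
    rw [mem_ball_zero_iff]
    have := hsub x hx
    linarith
  have hK : ((D m).par (D m).s 1 1 1).K = (D m).k := by
    show 1 * (D m).k = (D m).k
    rw [one_mul]
  have hFeq : ∀ j, ((D m).par (D m).s 1 1 1).F j = (D m).F j := fun j => rfl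
  have hSt : St ((D m).par (D m).s 1 1 1) c x₀ (c / 4) r χ Ψ := by
    refine ⟨(hs m).1, (hs m).2, le_refl 1, hr, hΨd.mono hsub2, ?_, ?_, hm4, hm5, hm6, hm7⟩
    · intro x hx
      rw [hK, hFeq]
      exact (hΨ x (hsub2 hx)).1
    · intro i hi x hx
      have hi1 : i ≤ 1 := hi
      have hx2 := hsub x hx
      rw [hFeq]
      interval_cases i
      · have h1 : (D m).F (0 * (D m).k) (Ψ x) = Ψ x := by
          rw [zero_mul]
          exact INVB_F0 hsg _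
        show (D m).F (0 * (D m).k) (Ψ x) ∈ ball (0 : ℂ) c
        rw [h1, mem_ball_zero_iff]
        have h2 := (hΨ x (hsub2 hx)).2
        linarith [norm_nonneg x]
      · show (D m).F (1 * (D m).k) (Ψ x) ∈ ball (0 : ℂ) c
        rw [one_mul, (hΨ x (hsub2 hx)).1, mem_ball_zero_iff]
        linarith [norm_nonneg x]
  have hstc := (hSTC n C (A m) c CK _ hGm1 (hDis m) x₀ (c / 4) r χ Ψ hSt).2
  have htax := hTAX n C (A m) c _ hGm1 x₀ (c / 4) r χ Ψ hSt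
  -- the chart is of size `|sg|`
  have h0mem : (0 : ℂ) ∈ ball (0 : ℂ) (2 * r) := mem_ball_self (by positivity)
  have hchi0 : ‖deriv χ 0‖ ≤ M * ‖(D m).sg‖ := by
    have h1 : deriv χ 0 ^ 2 * (D m).B x₀ = (D m).sg ^ 2 := by
      have h2 := hm4.eq 0 h0mem
      rw [hm5] at h2
      unfold Dat.B
      calc deriv χ 0 ^ 2 * ((D m).sg ^ 2 * (D m).H ((D m).zz x₀))
          = (D m).sg ^ 2 * (deriv χ 0 ^ 2 * (D m).H ((D m).zz x₀)) := by ring
        _ = (D m).sg ^ 2 := by rw [h2, mul_one]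
    have h2 : ‖deriv χ 0‖ ^ 2 * ‖(D m).B x₀‖ = ‖(D m).sg‖ ^ 2 := by
      rw [← norm_pow, ← norm_mul, h1, norm_pow]
    have h3 : ‖deriv χ 0‖ ^ 2 * κ₀ ≤ ‖(D m).sg‖ ^ 2 := by
      rw [← h2]
      exact mul_le_mul_of_nonneg_left hm2.le (by positivity)
    have h4 : ‖deriv χ 0‖ ^ 2 ≤ (M * ‖(D m).sg‖) ^ 2 := by
      have h5 : ‖deriv χ 0‖ ^ 2 ≤ ‖deriv χ 0‖ ^ 2 * (M ^ 2 * κ₀) :=
        le_mul_of_one_le_right (by positivity) hM2
      calc ‖deriv χ 0‖ ^ 2 ≤ ‖deriv χ 0‖ ^ 2 * (M ^ 2 * κ₀) := h5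
        _ = M ^ 2 * (‖deriv χ 0‖ ^ 2 * κ₀) := by ring
        _ ≤ M ^ 2 * ‖(D m).sg‖ ^ 2 := mul_le_mul_of_nonneg_left h3 (by positivity)
        _ = (M * ‖(D m).sg‖) ^ 2 := by ring
    exact (sq_le_sq₀ (norm_nonneg _) (by positivity)).mp h4
  have hxx : ∀ w ∈ ball (0 : ℂ) r', ‖(D m).xx (χ w) - x₀‖ < ρ' := by
    intro w hw
    rw [mem_ball_zero_iff] at hw
    have hw2 : w ∈ ball (0 : ℂ) (2 * r) := by
      rw [mem_ball_zero_iff]
      exact lt_of_lt_of_le hw (min_le_left _ _)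
    have hw3 : ‖w‖ < ρ' / (2 * M) := lt_of_lt_of_le hw (min_le_right _ _)
    have h1 : ‖χ w - χ 0‖ ≤ 11 / 10 * ‖deriv χ 0‖ * ‖w - 0‖ := by
      apply (convex_ball (0 : ℂ) (2 * r)).norm_image_sub_le_of_norm_deriv_le (f := χ) _ _ h0mem hw2
      · intro z hz
        exact (hm4.diff z hz).differentiableAt (isOpen_ball.mem_nhds hz)
      · intro z hz
        calc ‖deriv χ z‖ = ‖(deriv χ z - deriv χ 0) + deriv χ 0‖ := by ring_nf
          _ ≤ ‖deriv χ z - deriv χ 0‖ + ‖deriv χ 0‖ := norm_add_le _ _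
          _ ≤ ‖deriv χ 0‖ / 10 + ‖deriv χ 0‖ := by linarith [hm6 z hz]
          _ = 11 / 10 * ‖deriv χ 0‖ := by ring
    rw [sub_zero] at h1
    have h2 : (D m).xx (χ w) - x₀ = (χ w - χ 0) / (D m).sg := by
      rw [hm5]
      unfold Dat.xx Dat.zz
      field_simp
      ring
    have hsgp : 0 < ‖(D m).sg‖ := norm_pos_iff.mpr hsg
    rw [h2, norm_div, div_lt_iff₀ hsgp]
    calc ‖χ w - χ 0‖ ≤ 11 / 10 * ‖deriv χ 0‖ * ‖w‖ := h1
      _ ≤ 11 / 10 * (M * ‖(D m).sg‖) * ‖w‖ := by gcongr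
      _ ≤ 11 / 10 * (M * ‖(D m).sg‖) * (ρ' / (2 * M)) := by gcongr
      _ = 11 / 20 * ρ' * ‖(D m).sg‖ := by
        field_simp
        ring
      _ < ρ' * ‖(D m).sg‖ := by
        apply mul_lt_mul_of_pos_right _ hsgp
        linarith
  -- lower bound of the integrand
  have hlow : ∀ w ∈ ball (0 : ℂ) r', κ ≤
      ‖1 - YXPS.tau ((D m).par (D m).s 1 1 1).H (tw ((D m).par (D m).s 1 1 1) Ψ χ)
        ((D m).par (D m).s 1 1 1).K w‖ -
      (1 - ‖YXPS.tau ((D m).par (D m).s 1 1 1).H (tw ((D m).par (D m).s 1 1 1) Ψ χ)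
        ((D m).par (D m).s 1 1 1).K w‖) := by
    intro w hw
    have hw2 : w ∈ ball (0 : ℂ) (2 * r) := ball_subset_ball (min_le_left _ _) hw
    rw [htax w hw2]
    show κ ≤ INVB_phi (deriv Ψ ((D m).xx (χ w)) ^ 2 * (D m).B (Ψ ((D m).xx (χ w))) /
      (D m).B ((D m).xx (χ w)))
    set x : ℂ := (D m).xx (χ w) with hx
    have hxm : x ∈ ball x₀ (c / 4) := hm7 w hw2
    have hxm2 : x ∈ ball (0 : ℂ) (1 / 2) := hsub2 hxm
    have hxc := hsub x hxm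
    have hxx0 : ‖x - x₀‖ < ρ' := hxx w hw
    obtain ⟨hF1, hF2⟩ := hΨ x hxm2
    have hym : Ψ x ∈ ball (0 : ℂ) (1 / 2) := by
      rw [mem_ball_zero_iff]
      linarith [norm_nonneg x]
    have hy0m : y₀ ∈ ball (0 : ℂ) (1 / 2) := by
      rw [mem_ball_zero_iff]
      linarith
    have hdist : ‖Ψ x - y₀‖ < ε₁ := by
      have h1 := hlip (Ψ x) hym y₀ hy0m
      rw [hF1] at h1
      have h2 : ‖x - (D m).F (D m).k y₀‖ ≤ ‖x - x₀‖ + ‖(D m).F (D m).k y₀ - x₀‖ := by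
        calc ‖x - (D m).F (D m).k y₀‖ = ‖(x - x₀) - ((D m).F (D m).k y₀ - x₀)‖ := by ring_nf
          _ ≤ ‖x - x₀‖ + ‖(D m).F (D m).k y₀ - x₀‖ := norm_sub_le _ _
      calc ‖Ψ x - y₀‖ ≤ 2 * ‖x - (D m).F (D m).k y₀‖ := h1
        _ < 2 * (ρ' + ρ') := by linarith
        _ = ε₁ / 2 := by
          rw [hρ']
          ring
        _ < ε₁ := by linarith
    have hfin := hm1 (Ψ x) (by rwa [mem_ball, dist_eq_norm])
    -- derivative of the inverse
    have hch : deriv ((D m).F (D m).k) (Ψ x) * deriv Ψ x = 1 := by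
      have h1 : HasDerivAt Ψ (deriv Ψ x) x :=
        ((hΨd x hxm2).differentiableAt (isOpen_ball.mem_nhds hxm2)).hasDerivAt
      have h2 : HasDerivAt (fun z => (D m).F (D m).k (Ψ z))
          (deriv ((D m).F (D m).k) (Ψ x) * deriv Ψ x) x :=
        (hFd (Ψ x)).hasDerivAt.comp x h1
      have h3 : (fun z => (D m).F (D m).k (Ψ z)) =ᶠ[𝓝 x] fun z => z := by
        filter_upwards [isOpen_ball.mem_nhds hxm2] with z hz
        exact (hΨ z hz).1
      have h4 : HasDerivAt (fun z : ℂ => z) 1 x := hasDerivAt_id x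
      exact (h2.congr_of_eventuallyEq h3.symm).unique h4
    have hd0 : deriv ((D m).F (D m).k) (Ψ x) ≠ 0 := hder (Ψ x) hym
    have hcalc : deriv Ψ x ^ 2 * (D m).B (Ψ x) / (D m).B x =
        (D m).B (Ψ x) / (deriv ((D m).F (D m).k) (Ψ x) ^ 2 * (D m).B ((D m).F (D m).k (Ψ x))) := by
      rw [hF1]
      have h1 : deriv Ψ x = (deriv ((D m).F (D m).k) (Ψ x))⁻¹ := by
        rw [eq_comm, inv_eq_iff_eq_inv, eq_comm]
        exact inv_eq_of_mul_eq_one_left hch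
      rw [h1, div_mul_eq_div_div, inv_pow]
      congr 1
      rw [div_eq_inv_mul]
    rw [hcalc]
    exact hfin.le
  -- contradiction
  have h1 : ENNReal.ofReal κ * volume (ball (0 : ℂ) r') ≤ ENNReal.ofReal ((D m).E) := by
    calc ENNReal.ofReal κ * volume (ball (0 : ℂ) r') = ∫⁻ _w in ball (0 : ℂ) r', ENNReal.ofReal κ := by
          rw [setLIntegral_const]
      _ ≤ ∫⁻ w in ball (0 : ℂ) r', ENNReal.ofReal
          (‖1 - YXPS.tau ((D m).par (D m).s 1 1 1).H (tw ((D m).par (D m).s 1 1 1) Ψ χ)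
            ((D m).par (D m).s 1 1 1).K w‖ -
          (1 - ‖YXPS.tau ((D m).par (D m).s 1 1 1).H (tw ((D m).par (D m).s 1 1 1) Ψ χ)
            ((D m).par (D m).s 1 1 1).K w‖)) := by
          apply setLIntegral_mono' measurableSet_ball
          intro w hw
          exact ENNReal.ofReal_le_ofReal (hlow w hw)
      _ ≤ ∫⁻ w in ball (0 : ℂ) (2 * r), ENNReal.ofReal
          (‖1 - YXPS.tau ((D m).par (D m).s 1 1 1).H (tw ((D m).par (D m).s 1 1 1) Ψ χ)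
            ((D m).par (D m).s 1 1 1).K w‖ -
          (1 - ‖YXPS.tau ((D m).par (D m).s 1 1 1).H (tw ((D m).par (D m).s 1 1 1) Ψ χ)
            ((D m).par (D m).s 1 1 1).K w‖)) :=
          lintegral_mono_set (ball_subset_ball (min_le_left _ _))
      _ ≤ ENNReal.ofReal (((1 : ℕ) : ℝ) * (D m).E) := hstc
      _ = ENNReal.ofReal ((D m).E) := by
          rw [Nat.cast_one, one_mul]
  exact absurd (lt_of_lt_of_le hm9 h1) (lt_irrefl _)

theorem INVB (hDIS : DIS_stmt) (hSTC : STC_stmt) (hTAX : TAX_stmt) (hCHX : CHX_stmt)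
    (hBCV : BCV_stmt) (hINVG : INVG_stmt) (hRLT : RLT_stmt) : INVB_stmt := by
  intro n C η ζ D ψ hC hSeq hB hs hLB hψd hψ hψ0 hψ' hψn
  obtain ⟨c, CK, hD⟩ := hDIS C hC
  obtain ⟨A, hA, hG⟩ := hSeq.good
  have hDis : ∀ m, Dis ((D m).par (D m).s 1 1 1) c CK := fun m => hD n (A m) _ (INVB_good (hG m))
  have hcpos : 0 < c := (hDis 0).pos
  have hc4 : c ≤ 1 / 4 := (hDis 0).le
  obtain ⟨hReg, hP, -⟩ := hBCV n C D hSeq hLB
  obtain ⟨d, E, hd, hE, hE0, hBE⟩ := hLB.zero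
  have hacc := hLB.acc 0
  rw [eventually_nhdsWithin_iff, Metric.eventually_nhds_iff_ball] at hacc
  obtain ⟨δ₀, hδ₀, hacc⟩ := hacc
  set δ : ℝ := min δ₀ (c / 4) with hδ
  have hδpos : 0 < δ := lt_min hδ₀ (by positivity)
  have hδ1 : δ ≤ δ₀ := min_le_left _ _
  have hδ2 : δ ≤ c / 4 := min_le_right _ _
  have hreg : ∀ x : ℂ, ‖x‖ < δ → x ≠ 0 → x ∈ Reg D := by
    intro x hx hx0
    exact hacc x (by rw [mem_ball_zero_iff]; linarith) hx0
  have hζ : (1 : ℝ) ≤ ‖ζ‖ := hB.zeta.1.ge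
  obtain ⟨hlip, hder⟩ := INVB_lip ψ ζ η hψd hζ hB.eta.1 hB.eta.2 hψn
  apply hRLT (Bin D) E ψ d ζ (δ / 4) (by positivity) hE hE0 hBE
    (hψd.mono (ball_subset_ball (by linarith))) hψ0 hψ' hB.zeta.1
  intro y hy hy0
  rw [mem_ball_zero_iff] at hy
  have hyp : 0 < ‖y‖ := norm_pos_iff.mpr hy0
  have hy1 : y ∈ ball (0 : ℂ) 1 := by
    rw [mem_ball_zero_iff]
    linarith
  have hy2 : y ∈ ball (0 : ℂ) (1 / 2) := by
    rw [mem_ball_zero_iff]
    linarith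
  have hψy : ‖ψ y - ζ * y‖ ≤ 1 / 100 * ‖y‖ :=
    le_trans (hψn y hy1) (mul_le_mul_of_nonneg_right hB.eta.2 (norm_nonneg _))
  have hζy : ‖ζ * y‖ = ‖y‖ := by rw [norm_mul, hB.zeta.1, one_mul]
  have hup : ‖ψ y‖ ≤ 2 * ‖y‖ := by
    calc ‖ψ y‖ = ‖(ψ y - ζ * y) + ζ * y‖ := by ring_nf
      _ ≤ ‖ψ y - ζ * y‖ + ‖ζ * y‖ := norm_add_le _ _
      _ ≤ 2 * ‖y‖ := by linarith
  have hlo : ψ y ≠ 0 := by
    intro h
    rw [h, zero_sub, norm_neg, hζy] at hψy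
    linarith
  have hyR : y ∈ Reg D := hreg y (by linarith) hy0
  have hxR : ψ y ∈ Reg D := hreg (ψ y) (by linarith) hlo
  have hU : IsOpen (Pin D)ᶜ := hP.isOpen_compl
  have hkey := INVB_key hSTC hTAX hCHX hINVG n C η ζ D ψ c CK hSeq hB hs hLB hP hψd hψ hDis y
    (by linarith) (by linarith) hyR hxR (hder y hy2)
  refine ⟨(hLB.diff y hyR.1).differentiableAt (hU.mem_nhds hyR.1), hyR.2,
    (hLB.diff _ hxR.1).differentiableAt (hU.mem_nhds hxR.1), hxR.2, hder y hy2, ?_⟩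
  unfold INVB_phi at hkey
  linarith

end YXPT
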