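import Pool.Agent.helper61.CSW.Base
import Pool.Agent.helper61.CSW.XP.SpecL
import Pool.Agent.helper61.CSW.Exports

/-!
# Project xp: ISL, local form of the isometry property (copy of `YV3S.ISL`)
-/

set_option autoImplicit false

open Complex Metric Set Filter Topology MeasureTheory YXP
open V3S (UF)

noncomputable section

open CSS (SE)

namespace YXPL

theorem ISL_iter {f : SE} {P : Set ℂ} {B : ℂ → ℂ} {G : ℕ → ℂ → ℂ}
    {Ω : Set ℂ} {Q : ℕ} (h : YXPS.LevSys f P B G Ω Q) :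
    ∀ j p : ℕ, p + j ≤ Q → ∀ w ∈ Ω, (fun z => f.eval z)^[j] (G (p + j) w) = G p w := by
  intro j
  induction j with
  | zero => intro p _ w _; rfl
  | succ j ih =>
    intro p hp w hw
    rw [Function.iterate_succ_apply]
    have h1 : f.eval (G (p + (j + 1)) w) = G (p + j) w :=
      (h.rel (p + j) (by omega) w hw).1
    rw [h1]
    exact ih p (by omega) w hw

theorem ISL_diff (f : SE) (j : ℕ) : Differentiable ℂ (fun z => f.eval z)^[j] := by
  induction j with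
  | zero => exact differentiable_id
  | succ j ih =>
    rw [Function.iterate_succ]
    exact ih.comp f.differentiable

theorem ISL_der {f : SE} {P : Set ℂ} {B : ℂ → ℂ} {G : ℕ → ℂ → ℂ}
    {Ω : Set ℂ} {Q : ℕ} (hΩ : IsOpen Ω) (h : YXPS.LevSys f P B G Ω Q) (j p : ℕ) (hp : p + j ≤ Q)
    (w : ℂ) (hw : w ∈ Ω) :
    deriv (G p) w = deriv (fun z => f.eval z)^[j] (G (p + j) w) * deriv (G (p + j)) w := by
  have h1 : G p =ᶠ[𝓝 w] ((fun z => f.eval z)^[j] ∘ G (p + j)) := by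
    filter_upwards [hΩ.mem_nhds hw] with u hu
    exact (ISL_iter h j p hp u hu).symm
  rw [h1.deriv_eq]
  exact deriv_comp w (ISL_diff f j).differentiableAt
    ((h.diff (p + j) hp).differentiableAt (hΩ.mem_nhds hw))

theorem ISL (hPHS : PHS_stmt) (hBA1 : BA1_stmt) (hADH : ADH_stmt) (hLV : YXPS.LVX_stmt)
    (hLEA : YXPS.LEAX_stmt) : ISL_stmt := by
  intro n C₀ D hD x hx hC
  obtain ⟨r, hr, C, hC0, ρ, hρ, hev⟩ := hPHS n C₀ D hD x hx hC
  obtain ⟨A, -, hgood⟩ := hD.seq.good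
  refine ⟨ρ, hρ, 4 * C, ?_⟩
  have hsm : ∀ᶠ m in UF, C * (D m).om ≤ 1 / 2 := by
    have h1 : Tendsto (fun m => C * (((D m).N : ℝ) ^ 3 * (D m).om)) UF (𝓝 0) := by
      have h2 := hD.par.om1.const_mul C
      simpa using h2
    filter_upwards [h1.eventually (gt_mem_nhds (show (0 : ℝ) < 1 / 2 by norm_num))] with m hm
    have h3 : (1 : ℝ) ≤ ((D m).N : ℝ) ^ 3 := by
      have h4 : (1 : ℝ) ≤ ((D m).N : ℝ) := by exact_mod_cast hD.par.N1 m
      exact one_le_pow₀ h4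
    have h5 : (D m).om ≤ ((D m).N : ℝ) ^ 3 * (D m).om :=
      le_mul_of_one_le_left (hD.par.om0 m).le h3
    exact (mul_le_mul_of_nonneg_left h5 hC0.le).trans hm.le
  filter_upwards [hev, hsm] with m hm hs
  obtain ⟨χ, G, Φ, hctl, -, hsur⟩ := hm
  intro j hj y hy
  obtain ⟨w, hw, hzz, -, -⟩ := hsur y hy
  have hg := hgood m
  obtain ⟨hsg, -, -, -, -, -, -, -, hdF, hzF, -⟩ := hBA1 n C₀ (A m) (D m) hg
  obtain ⟨hAD, -⟩ := hADH n C₀ (A m) (D m) hg
  have hlev := hctl.lev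
  have hopen : IsOpen (ball (0 : ℂ) r) := isOpen_ball
  obtain ⟨-, -, -, h4, -⟩ := hLV (D m).f (D m).PP (D m).H G (ball 0 r) (D m).K hAD hopen hlev
  obtain ⟨-, -, -, -, hne⟩ := hLEA (D m).f (D m).PP (D m).H G (ball 0 r) (D m).K hAD hopen hlev
  have htau : ∀ q ≤ (D m).K, ‖YXPS.tau (D m).H G q w - 1‖ ≤ C * (D m).om := by
    intro q hq
    refine (h4 q hq w hw).trans (le_trans ?_ (hctl.sum w hw))
    refine Finset.sum_le_sum_of_subset_of_nonneg ?_ (fun i _ _ => norm_nonneg _)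
    exact Finset.Icc_subset_Icc_right hq
  set a : ℂ := deriv (G (D m).K) w with ha
  have ha0 : a ≠ 0 := hne _ le_rfl w hw
  have hkj : (D m).K - j + j = (D m).K := Nat.sub_add_cancel hj
  have hit := ISL_iter hlev j ((D m).K - j) hkj.le w hw
  have hde := ISL_der hopen hlev j ((D m).K - j) hkj.le w hw
  rw [hkj] at hit hde
  have e1 : a ^ 2 * (D m).T j y = (D m).sg ^ 2 * YXPS.tau (D m).H G ((D m).K - j) w := by
    unfold Dat.T Dat.B YXPS.tau
    rw [hdF j y, hzF j y, hzz, hit, hde]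
    ring
  have e2 : a ^ 2 * (D m).B y = (D m).sg ^ 2 * YXPS.tau (D m).H G (D m).K w := by
    unfold Dat.B YXPS.tau
    rw [hzz]
    ring
  have t1 := htau ((D m).K - j) (Nat.sub_le _ _)
  have t2 := htau (D m).K le_rfl
  set t : ℂ := YXPS.tau (D m).H G (D m).K w
  set t' : ℂ := YXPS.tau (D m).H G ((D m).K - j) w
  have hA : 0 < ‖a‖ ^ 2 := by positivity
  have hS : 0 < ‖(D m).sg‖ ^ 2 := by positivity
  have ht : 1 / 2 ≤ ‖t‖ := by
    have h1 : ‖(1 : ℂ)‖ ≤ ‖t‖ + ‖t - 1‖ := by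
      have := norm_sub_le t (t - 1)
      simpa using this
    rw [norm_one] at h1
    linarith
  have htt : ‖t' - t‖ ≤ 2 * (C * (D m).om) := by
    have h1 : t' - t = (t' - 1) - (t - 1) := by ring
    rw [h1]
    refine (norm_sub_le _ _).trans ?_
    linarith
  have e3 : a ^ 2 * ((D m).T j y - (D m).B y) = (D m).sg ^ 2 * (t' - t) := by
    rw [mul_sub, e1, e2]; ring
  have n3 : ‖a‖ ^ 2 * ‖(D m).T j y - (D m).B y‖ = ‖(D m).sg‖ ^ 2 * ‖t' - t‖ := by
    have := congrArg norm e3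
    simpa only [norm_mul, norm_pow] using this
  have n2 : ‖a‖ ^ 2 * ‖(D m).B y‖ = ‖(D m).sg‖ ^ 2 * ‖t‖ := by
    have := congrArg norm e2
    simpa only [norm_mul, norm_pow] using this
  refine le_of_mul_le_mul_left ?_ hA
  rw [n3]
  have e4 : ‖a‖ ^ 2 * (4 * C * (D m).om * ‖(D m).B y‖) =
      4 * (C * (D m).om) * (‖(D m).sg‖ ^ 2 * ‖t‖) := by
    rw [← n2]; ring
  rw [e4]
  have hL : 0 ≤ C * (D m).om := mul_nonneg hC0.le (hD.par.om0 m).le
  calc ‖(D m).sg‖ ^ 2 * ‖t' - t‖ ≤ ‖(D m).sg‖ ^ 2 * (2 * (C * (D m).om)) :=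
        mul_le_mul_of_nonneg_left htt hS.le
    _ = 4 * (C * (D m).om) * (‖(D m).sg‖ ^ 2 * (1 / 2)) := by ring
    _ ≤ 4 * (C * (D m).om) * (‖(D m).sg‖ ^ 2 * ‖t‖) := by
        refine mul_le_mul_of_nonneg_left ?_ (by positivity)
        exact mul_le_mul_of_nonneg_left ht hS.le

end YXPL
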