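import Pool.Agent.helper61.CSW.Base
import Pool.Agent.helper61.CSW.XP.SpecS
import Pool.Agent.helper61.CSW.Exports

/-!
# v3:S3A: structure of the system (adapted from helper51/PP/P2A.lean)
-/

set_option autoImplicit false

open Complex Metric Set Filter Topology MeasureTheory
open YPPS (fd fdd pre TT CV Br)
open PPS (cn)
open MPS (PsiM)

noncomputable section

open CSS (SE)

namespace YXPS

theorem S3A (hLUN : YPPS.LUN_stmt) (hS3G : S3G_stmt) : S3A_stmt := by
  intro n k f P B R E η h r₀ χ G0 PP M T G Q hH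
  obtain ⟨h2, hsys, hQk⟩ := hH
  obtain ⟨-, hinj, -⟩ := hS3G n k f P B R E η h r₀ χ G0 PP M h2
  have hr0 := h2.r0
  have hr1 := h2.r1
  have hh0 := h2.h0
  set x : ℂ := 0 with hx
  -- monotonicity
  have hanti : ∀ q q', q ≤ q' → q' ≤ Q → T q' ≤ T q := by
    intro q q' hqq
    induction q', hqq using Nat.le_induction with
    | base => intro _; exact le_rfl
    | succ m hm ih =>
      intro hmQ
      exact (hsys.anti m (by omega)).trans (ih (by omega))
  have hTρ : ∀ q ≤ Q, T q ≤ h := fun q hq => (hanti 0 q (by omega) hq).trans hsys.t0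
  have hT16 : ∀ q ≤ Q, T q ≤ 16 * h := fun q hq => (hTρ q hq).trans (by linarith)
  have hrel : ∀ q < Q, ∀ w ∈ ball x (T (q + 1)), f.eval (G (q + 1) w) = G q w ∧
      fd f (G (q + 1) w) ≠ 0 := hsys.rel
  have hiter : ∀ d q, q + d ≤ Q → ∀ w ∈ ball x (T (q + d)),
      (fun z : ℂ => f.eval z)^[d] (G (q + d) w) = G q w := by
    intro d
    induction d with
    | zero => intro q _ w _; rfl
    | succ d ih =>
      intro q hq w hw
      rw [Function.iterate_succ_apply]
      have h1 := (hrel (q + d) (by omega) w hw).1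
      change (fun z : ℂ => f.eval z)^[d] (f.eval (G (q + d + 1) w)) = G q w
      rw [h1]
      exact ih q (by omega) w (ball_subset_ball (hanti (q + d) (q + (d + 1)) (by omega) hq) hw)
  have hiter0 : ∀ q ≤ Q, ∀ w ∈ ball x (T q),
      (fun z : ℂ => f.eval z)^[q] (G q w) = χ w := by
    intro q hq w hw
    have h1 := hiter q 0 (by omega) w (by rwa [zero_add])
    rw [zero_add, hsys.g0] at h1
    exact h1
  -- the centre
  have hw₀ball : ∀ q ≤ Q, x ∈ ball x (T q) := fun q hq => mem_ball_self (hsys.pos q hq)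
  -- first claim
  have c1 : ∀ q ≤ Q, EqOn (G q) (G0 q) (ball x (min r₀ (T q))) := by
    intro q
    induction q with
    | zero =>
      intro _ w hw
      rw [hsys.g0]
      exact (h2.t0 (ball_subset_ball (min_le_left _ _) hw)).symm
    | succ q ih =>
      intro hq
      have hs1 : ball x (min r₀ (T (q + 1))) ⊆ ball x r₀ := ball_subset_ball (min_le_left _ _)
      have hs2 : ball x (min r₀ (T (q + 1))) ⊆ ball x (T (q + 1)) := ball_subset_ball (min_le_right _ _)
      have hs3 : ball x (min r₀ (T (q + 1))) ⊆ ball x (min r₀ (T q)) :=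
        ball_subset_ball (min_le_min le_rfl (hanti q (q + 1) (by omega) hq))
      refine hLUN f (ball x (min r₀ (T (q + 1)))) (G (q + 1)) (G0 (q + 1)) x isOpen_ball
        (convex_ball _ _).isPreconnected ((hsys.diff (q + 1) hq).continuousOn.mono hs2)
        ((h2.tdiff (q + 1) (by omega)).continuousOn.mono hs1) ?_ ?_
        (mem_ball_self (lt_min hr0 (hsys.pos (q + 1) hq))) (hsys.val (q + 1) hq)
      · intro z hz
        have h1 := (hrel q (by omega) z (hs2 hz)).1
        have h3 := (h2.trel q (by omega) z (hs1 hz)).1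
        rw [h1, h3]
        exact ih (by omega) (hs3 hz)
      · intro z hz
        exact (hrel q (by omega) z (hs2 hz)).2
  -- injectivity
  have c2 : ∀ q ≤ Q, InjOn (G q) (ball x (T q)) := by
    intro q hq w hw w' hw' he
    have h1 := hiter0 q hq w hw
    have h3 := hiter0 q hq w' hw'
    rw [he, h3] at h1
    exact (hinj (ball_subset_ball (hT16 q hq) hw') (ball_subset_ball (hT16 q hq) hw) h1).symm
  have c3 : ∀ q ≤ Q, MapsTo (G q) (ball x (T q)) univ := fun q _ w _ => mem_univ _
  have c4 : ∀ q ≤ Q, LevSys f P B G (ball x (T q)) q := by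
    intro q hq
    refine ⟨?_, ?_, ?_⟩
    · rw [hsys.g0]
      have hsub : ball x (T q) ⊆ ball 0 (16 * h) := ball_subset_ball (hT16 q hq)
      exact ⟨h2.nat.diff.mono hsub, fun w hw => h2.nat.av w (hsub hw),
        fun w hw => h2.nat.eq w (hsub hw)⟩
    · intro q' hq'
      exact (hsys.diff q' (by omega)).mono (ball_subset_ball (hanti q' q hq' hq))
    · intro q' hq' w hw
      exact hrel q' (by omega) w (ball_subset_ball (hanti (q' + 1) q (by omega) hq) hw)
  refine ⟨c1, c2, c3, c4, ?_, ?_, ?_⟩
  · intro z F hF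
    refine S3A_card F PP M h2.hM ?_
    intro q hq q' hq' hqq
    obtain ⟨hqQ, w, hw, hwz⟩ := hF q hq
    obtain ⟨hqQ', w', hw', hwz'⟩ := hF q' hq'
    by_contra hne
    have h1 := hiter0 q (by omega) w (ball_subset_ball (hanti q (q + 1) (by omega) (by omega)) hw)
    have h3 := hiter q (q' - q) (by omega) w'
      (by
        have h4 : q' - q + q = q' := by omega
        rw [h4]
        exact ball_subset_ball (hanti q' (q' + 1) (by omega) (by omega)) hw')
    have h4 : q' - q + q = q' := by omega
    rw [h4, hwz'] at h3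
    rw [hwz] at h1
    have h5 := hsys.disj (q' - q) (by omega) (by omega) hne
    refine Set.disjoint_left.mp h5 ⟨w', ?_, rfl⟩ ⟨w, ?_, ?_⟩
    · exact ball_subset_ball (hanti (q' - q + 1) (q' + 1) (by omega) (by omega)) hw'
    · exact ball_subset_ball (hTρ (q + 1) (by omega)) hw
    · rw [← h1, h3]
  · intro r hr hdis z F hF
    refine S3A_card F PP M h2.hM ?_
    intro q hq q' hq' hqq
    obtain ⟨hqQ, w, hw, hwz⟩ := hF q hq
    obtain ⟨hqQ', w', hw', hwz'⟩ := hF q' hq'
    by_contra hne
    have h1 := hiter0 q (by omega) w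
      (ball_subset_ball (hr.trans (hanti q Q (by omega) le_rfl)) hw)
    have h3 := hiter q (q' - q) (by omega) w'
      (by
        have h4 : q' - q + q = q' := by omega
        rw [h4]
        exact ball_subset_ball (hr.trans (hanti q' Q (by omega) le_rfl)) hw')
    have h4 : q' - q + q = q' := by omega
    rw [h4, hwz'] at h3
    rw [hwz] at h1
    have hwρ : w ∈ ball x h := ball_subset_ball (hr.trans (hTρ Q le_rfl)) hw
    by_cases hpQ : q' - q < Q
    · have h5 := hsys.disj (q' - q) (by omega) hpQ hne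
      refine Set.disjoint_left.mp h5 ⟨w', ?_, rfl⟩ ⟨w, hwρ, ?_⟩
      · exact ball_subset_ball (hr.trans (hanti (q' - q + 1) Q (by omega) le_rfl)) hw'
      · rw [← h1, h3]
    · have hpQ' : q' - q = Q := by omega
      rw [hpQ'] at hne h3
      have h5 := hdis (by omega) hne
      refine Set.disjoint_left.mp h5 ⟨w', hw', rfl⟩ ⟨w, hwρ, ?_⟩
      rw [← h1, h3]
  · have hev : ∀ q ≤ Q, G q =ᶠ[𝓝 x] G0 q := by
      intro q hq
      filter_upwards [isOpen_ball.mem_nhds (mem_ball_self (x := x) (lt_min hr0 (hsys.pos q hq)))] with z hz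
      exact c1 q hq hz
    have hlev : ∀ q ∈ Finset.Icc 1 Q, lev B G q x = lev B G0 q x := by
      intro q hq
      rw [Finset.mem_Icc] at hq
      unfold lev tau
      rw [(hev q hq.2).deriv_eq, (hev q hq.2).eq_of_nhds, (hev (q - 1) (by omega)).deriv_eq,
        (hev (q - 1) (by omega)).eq_of_nhds]
    rw [Finset.sum_congr rfl hlev]
    refine le_trans ?_ h2.tlev
    refine Finset.sum_le_sum_of_subset_of_nonneg (Finset.Icc_subset_Icc le_rfl hQk) ?_
    intro q _ _
    exact norm_nonneg _

end YXPS
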